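import Pool.Agent.MY12.Label

/-! Rigid decorations of twin-free graphs of bounded degree with few isomorphic components. -/

namespace Pool.Agent.MY12

open SimpleGraph

/-- Codes avoiding the reserved labels. -/
theorem exists_code (t s n : ℕ) (hs : s ≤ 2 * 4 ^ t - 1) (hn : n ≤ 4 ^ (t + 1) - 2 - s) :
    ∃ (ι : Fin s ↪ Lab t) (F : Bool → Fin n → Lab t × Bool), (∀ i, ι i ≠ zl) ∧
      (∀ β, Function.Injective (F β)) ∧ (∀ β i, (F β i).1 ≠ zl) ∧
      (∀ i j, ¬ ((F true i).1 = ι j ∧ (F true i).2 = false)) ∧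
      (∀ i j, ¬ (rev (F false i).1 = ι j ∧ (F false i).2 = true)) := by
  classical
  have h1 : Nonempty (Fin s ↪ {l : Lab t // l ≠ zl}) := by
    apply Function.Embedding.nonempty_of_card_le
    rw [Fintype.card_fin, Fintype.card_subtype_compl, Fintype.card_subtype_eq, card_Lab]
    exact hs
  obtain ⟨ι₀⟩ := h1
  let ι : Fin s ↪ Lab t := ι₀.trans (Function.Embedding.subtype _)
  have hι : ∀ i, ι i ≠ zl := fun i => (ι₀ i).2
  let B : Finset (Lab t × Bool) :=
    (({zl} : Finset (Lab t)) ×ˢ (Finset.univ : Finset Bool)) ∪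
      ((Finset.univ.map ι) ×ˢ ({false} : Finset Bool))
  have hB : B.card ≤ 2 + s := by
    refine (Finset.card_union_le _ _).trans ?_
    rw [Finset.card_product, Finset.card_product, Finset.card_map]
    simp
  have h2 : Nonempty (Fin n ↪ {x : Lab t × Bool // x ∈ Bᶜ}) := by
    apply Function.Embedding.nonempty_of_card_le
    rw [Fintype.card_fin, Fintype.card_coe, Finset.card_compl, Fintype.card_prod, card_Lab,
      Fintype.card_bool]
    have : 2 * 4 ^ t * 2 = 4 ^ (t + 1) := by ring
    rw [this]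
    omega
  obtain ⟨F₀⟩ := h2
  have hF : ∀ i, (F₀ i).1 ∉ B := fun i => Finset.mem_compl.1 (F₀ i).2
  have hF1 : ∀ i, (F₀ i).1.1 ≠ zl := by
    intro i hh
    apply hF i
    apply Finset.mem_union_left
    rw [Finset.mem_product]
    exact ⟨by rw [hh]; exact Finset.mem_singleton_self _, Finset.mem_univ _⟩
  have hF2 : ∀ i j, ¬ ((F₀ i).1.1 = ι j ∧ (F₀ i).1.2 = false) := by
    rintro i j ⟨h3, h4⟩
    apply hF i
    apply Finset.mem_union_right
    rw [Finset.mem_product]
    refine ⟨?_, by rw [h4]; exact Finset.mem_singleton_self _⟩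
    rw [h3]
    exact Finset.mem_map_of_mem _ (Finset.mem_univ j)
  refine ⟨ι, fun β i => if β then (F₀ i).1 else (rev (F₀ i).1.1, !(F₀ i).1.2), hι, ?_, ?_, ?_, ?_⟩
  · intro β i j hij
    apply F₀.injective
    apply Subtype.ext
    cases β
    · simp only [Bool.false_eq_true, if_false, Prod.mk.injEq] at hij
      obtain ⟨h3, h4⟩ := hij
      refine Prod.ext ?_ ?_
      · have := congrArg rev h3
        rwa [rev_rev, rev_rev] at this
      · simpa using h4
    · simpa using hij
  · intro β i
    cases β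
    · simp only [Bool.false_eq_true, if_false]
      intro hh
      apply hF1 i
      have := congrArg rev hh
      rwa [rev_rev, rev_zl] at this
    · simpa using hF1 i
  · intro i j
    simpa using hF2 i j
  · intro i j
    have := hF2 i j
    simpa [rev_rev] using this

/-- isomorphic components -/
def IsoC {V : Type*} (G : SimpleGraph V) (c c' : G.ConnectedComponent) : Prop :=
  Nonempty (c.toSimpleGraph ≃g c'.toSimpleGraph)

theorem isoC_map {V : Type*} (G : SimpleGraph V) (σ : G ≃g G) (r : V) :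
    IsoC G (G.connectedComponentMk r) (G.connectedComponentMk (σ r)) := by
  have hr : ∀ a : V, a ∈ (G.connectedComponentMk r).supp ↔ σ a ∈ (G.connectedComponentMk (σ r)).supp := by
    intro a
    rw [ConnectedComponent.mem_supp_iff, ConnectedComponent.mem_supp_iff, ConnectedComponent.eq,
      ConnectedComponent.eq]
    exact (σ.reachable_iff).symm
  exact ⟨{ toEquiv := σ.toEquiv.subtypeEquiv hr
           map_rel_iff' := by
            rintro ⟨a, ha⟩ ⟨b, hb⟩
            exact σ.map_adj_iff }⟩

theorem exists_rank {V : Type*} [Finite V] (G : SimpleGraph V) (s : ℕ)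
    (hκ : ∀ c : G.ConnectedComponent, {c' | IsoC G c c'}.ncard ≤ s) :
    ∃ ρ : G.ConnectedComponent → ℕ, (∀ c, ρ c < s) ∧
      ∀ c c', IsoC G c c' → ρ c = ρ c' → c = c' := by
  classical
  let cl : G.ConnectedComponent → Set G.ConnectedComponent := fun c => {c' | IsoC G c c'}
  have hself : ∀ c, c ∈ cl c := fun c => ⟨RelIso.refl _⟩
  have hcl : ∀ c c', IsoC G c c' → cl c = cl c' := by
    rintro c c' ⟨f⟩
    ext c''
    constructor
    · rintro ⟨g⟩
      exact ⟨f.symm.trans g⟩
    · rintro ⟨g⟩
      exact ⟨f.trans g⟩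
  let A : Set G.ConnectedComponent → Finset G.ConnectedComponent := fun p =>
    (Set.toFinite {c | cl c = p}).toFinset
  have hA : ∀ p c, c ∈ A p ↔ cl c = p := by
    intro p c
    simp [A]
  obtain ⟨rk, hrk⟩ := exists_rk cl A (fun p c hc => (hA p c).1 hc)
  refine ⟨rk, ?_, ?_⟩
  · intro c
    have h1 := (hrk (cl c)).1 c ((hA _ _).2 rfl)
    have h2 : (A (cl c)).card ≤ s := by
      refine le_trans ?_ (hκ c)
      rw [← Set.ncard_coe_finset]
      apply Set.ncard_le_ncard _ (Set.toFinite _)
      intro c' hc'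
      rw [Finset.mem_coe, hA] at hc'
      have := hself c'
      rw [hc'] at this
      exact this
    omega
  · intro c c' hcc' he
    have h1 := hcl c c' hcc'
    exact (hrk (cl c)).2.1 c ((hA _ _).2 rfl) c' ((hA _ _).2 h1.symm) he

/-- The degree bound, for a set Q of automorphisms and a ranking of the components. -/
theorem deco_of_degQ {V : Type*} [Fintype V] (G : SimpleGraph V) (hT : TwinFree G) (hI : NoIso G)
    {t s : ℕ} (hs : s ≤ 2 * 4 ^ t - 1) (Q : (G ≃g G) → Prop)
    (ρ : G.ConnectedComponent → ℕ) (hρs : ∀ c, ρ c < s)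
    (hρ : ∀ σ : G ≃g G, Q σ → ∀ r, ρ (G.connectedComponentMk (σ r)) = ρ (G.connectedComponentMk r) →
      G.Reachable (σ r) r)
    (hΔ : ∀ v, (G.neighborSet v).ncard ≤ (4 ^ (t + 1) - 2 - s) ^ 2) : RigidDecoQ G t Q := by
  classical
  rcases isEmpty_or_nonempty V with hV | ⟨⟨v₁⟩⟩
  · refine ⟨fun _ _ _ => false, fun _ => false, fun _ => false, ?_⟩
    intro σ _ _ _ _
    ext x
    exact hV.elim x
  obtain ⟨par, dep, h, hn⟩ := exists_normal G
  -- a child of each root
  have hex : ∀ r, dep r = 0 → ∃ c, dep c ≠ 0 ∧ par c = r := by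
    intro r hr
    obtain ⟨v, hv⟩ := hI r
    have hv0 : dep v ≠ 0 := by
      intro hv0
      have := h.one r v hv.reachable hr hv0
      rw [this] at hv
      exact G.loopless.irrefl v hv
    refine ⟨par^[dep v - 1] v, ?_, ?_⟩
    · have := h.it_dep (dep v - 1) v (by omega)
      omega
    · have h1 := h.it_dep (dep v) v le_rfl
      have h2 : par (par^[dep v - 1] v) = par^[dep v] v := by
        rw [← Function.iterate_succ_apply' par (dep v - 1) v]
        congr 2
        omega
      rw [h2]
      apply h.one _ _ _ (by omega) hr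
      exact (h.reach (dep v) v).symm.trans hv.symm.reachable
  choose! c hc using hex
  obtain ⟨n, hn'⟩ : ∃ n, n = 4 ^ (t + 1) - 2 - s := ⟨_, rfl⟩
  obtain ⟨ι, F, hι, hFinj, hFz, hF1, hF2⟩ := exists_code t s n hs hn'.le
  let Z : V → Prop := fun x => dep x = 0 ∨ (dep (par x) = 0 ∧ c (par x) = x)
  let A : V → Finset V := fun p => Finset.univ.filter
    (fun x => ¬ Z x ∧ par x = p ∧ ¬ Leaf par dep x)
  have hA : ∀ p x, x ∈ A p ↔ ¬ Z x ∧ par x = p ∧ ¬ Leaf par dep x := by
    intro p x
    simp [A]
  have hAcard : ∀ p, (A p).card < n * n := by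
    intro p
    have h1 : (G.neighborSet p).ncard ≤ n * n := by
      rw [← sq, hn']
      exact hΔ p
    have h2 : ∃ z, G.Adj p z ∧ z ∉ A p := by
      by_cases hp : dep p = 0
      · obtain ⟨k1, k2⟩ := hc p hp
        refine ⟨c p, ?_, ?_⟩
        · have := h.adj (c p) k1
          rw [k2] at this
          exact this
        · rw [hA]
          rintro ⟨hh, _⟩
          apply hh
          right
          rw [k2]
          exact ⟨hp, rfl⟩
      · refine ⟨par p, (h.adj p hp).symm, ?_⟩
        rw [hA]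
        rintro ⟨h3, h4, _⟩
        have h5 : dep (par p) ≠ 0 := fun hh => h3 (Or.inl hh)
        have e1 := h.dp p hp
        have e2 := h.dp (par p) h5
        rw [h4] at e2
        omega
    obtain ⟨z, hz, hzA⟩ := h2
    have h3 : ((A p : Finset V) : Set V) ⊂ G.neighborSet p := by
      refine ⟨?_, ?_⟩
      · intro x hx
        rw [Finset.mem_coe, hA] at hx
        obtain ⟨h4, h5, _⟩ := hx
        have := h.adj x (fun hh => h4 (Or.inl hh))
        rw [h5] at this
        exact this
      · intro hh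
        exact hzA (Finset.mem_coe.1 (hh hz))
    have h4 := Set.ncard_lt_ncard h3 (Set.toFinite _)
    rw [Set.ncard_coe_finset] at h4
    omega
  have hn0 : 0 < n := by
    have := hAcard v₁
    rcases Nat.eq_zero_or_pos n with h0 | h0
    · rw [h0] at this
      simp at this
    · exact h0
  obtain ⟨rk, hrk⟩ := exists_rk par A (fun p x hx => ((hA p x).1 hx).2.1)
  obtain ⟨q, hq0, hqF⟩ := h.fuel 0 (fun x y => if Z x then 0 else
    ((rk x + (if HasLeaf par dep (par x) then 0 else y)) % (n * n)) / n)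
  let s' : V → ℕ := fun p => if HasLeaf par dep p then 0 else q p
  let γ : V → ℕ := fun x => if Leaf par dep x then q (par x) else ((rk x + s' (par x)) % (n * n)) % n
  have hqn : ∀ x, q x < n := by
    intro x
    by_cases hx : dep x = 0
    · rw [hq0 x hx]
      exact hn0
    · rw [hqF x hx]
      by_cases hxc : Z x
      · rw [if_pos hxc]
        exact hn0
      · rw [if_neg hxc]
        exact Nat.div_lt_of_lt_mul (Nat.mod_lt _ (Nat.mul_pos hn0 hn0))
  have hγn : ∀ x, γ x < n := by
    intro x
    show (if Leaf par dep x then q (par x) else ((rk x + s' (par x)) % (n * n)) % n) < n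
    split_ifs
    · exact hqn _
    · exact Nat.mod_lt _ hn0
  -- the labels and vertex bits
  obtain ⟨D, hD0, hDF⟩ := h.fuel ((zl, true) : Lab t × Bool) (fun x y =>
    if dep (par x) = 0 ∧ c (par x) = x then
      (ι ⟨ρ (G.connectedComponentMk (par x)), hρs _⟩, false)
    else F y.2 ⟨γ x, hγn x⟩)
  have hDc : ∀ r, dep r = 0 → D (c r) = (ι ⟨ρ (G.connectedComponentMk r), hρs _⟩, false) := by
    intro r hr
    obtain ⟨k1, k2⟩ := hc r hr
    rw [hDF (c r) k1, if_pos ⟨by rw [k2]; exact hr, by rw [k2]⟩]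
    simp only [k2]
  have hDn : ∀ x, ¬ Z x → D x = F (D (par x)).2 ⟨γ x, hγn x⟩ := by
    intro x hx
    rw [hDF x (fun hh => hx (Or.inl hh)), if_neg (fun hh => hx (Or.inr hh))]
  obtain ⟨a, e, hdec⟩ := dec_lemmaQ (G := G) h c hc (fun x => (D x).1) (fun x => (D x).2)
    (fun l => ∃ i, l = ι i) (by
      intro v hv
      by_cases hZ : Z v
      · rcases hZ with hZ | ⟨hZ1, hZ2⟩
        · exact absurd hZ hv
        · have := hDc (par v) hZ1
          rw [hZ2] at this
          simp only [this]
          exact hι _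
      · simp only [hDn v hZ]
        exact hFz _ _) (by
      intro r hr
      simp only [hD0 r hr]) (by
      intro r hr
      simp only [hDc r hr]) (by
      intro r hr
      exact ⟨_, by simp only [hDc r hr]; rfl⟩) (by
      intro v hv hsp
      have hZ : ¬ Z v := by
        rintro (hh | hh)
        · exact hv hh
        · exact hsp hh
      have hDv := hDn v hZ
      constructor
      · rintro ⟨⟨j, hj⟩, h2, h3⟩
        rw [h2] at hDv
        rw [hDv] at hj h3
        exact hF1 _ j ⟨hj, h3⟩
      · rintro ⟨⟨j, hj⟩, h2, h3⟩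
        rw [h3] at hDv
        rw [hDv] at hj h2
        exact hF2 _ j ⟨hj, h2⟩) Q (by
      intro σ hQ r hr hσr hh
      simp only [hDc r hr, hDc (σ r) hσr] at hh
      have h1 := ι.injective hh
      have h2 : ρ (G.connectedComponentMk (σ r)) = ρ (G.connectedComponentMk r) :=
        congrArg Fin.val h1
      exact h.one _ _ (hρ σ hQ r h2) hσr hr)
  refine ⟨a, e, fun x => (D x).2, ?_⟩
  intro σ hQ h1 h2 h3
  obtain ⟨k1, k2, k3, k4⟩ := hdec σ hQ h1 h2 h3
  have hσZ : ∀ x, Z x → σ x = x := by
    rintro x (hx | ⟨hx1, hx2⟩)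
    · exact (k1 x hx).1
    · have := (k1 _ hx1).2
      rwa [hx2] at this
  have hZσ : ∀ v, Z (σ v) → Z v := by
    intro v hh
    have e1 := hσZ _ hh
    have e2 := σ.injective e1
    rw [← e2]
    exact hh
  refine core h hT hn Z (fun x hx => Or.inl hx) ?_ A hA n hAcard rk q γ hrk s' ?_ hqn ?_ ?_ σ
    hσZ k2 k3 ?_
  · rintro x (hx | ⟨hx1, _⟩)
    · left
      rw [h.rt x hx]
      exact hx
    · exact Or.inl hx1
  · intro p hp
    exact if_neg hp
  · intro x hx hxl
    have e1 : γ x = ((rk x + s' (par x)) % (n * n)) % n := if_neg hxl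
    have e2 : q x = ((rk x + s' (par x)) % (n * n)) / n := by
      rw [hqF x (fun hh => hx (Or.inl hh)), if_neg hx]
    rw [e1, e2]
    exact Nat.div_add_mod' _ _
  · intro x _ hxl
    exact if_pos hxl
  · intro v hv
    have hv0 : dep v ≠ 0 := fun hh => hv (Or.inl hh)
    have hv' : ¬ Z (σ v) := fun hh => hv (hZσ v hh)
    have e1 : D (σ v) = D v := Prod.ext (k4 v hv0) (h3 v)
    have e2 : (D (par (σ v))).2 = (D (par v)).2 := by
      rw [k3 v hv0]
      exact h3 (par v)
    rw [hDn v hv, hDn (σ v) hv', e2] at e1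
    have := hFinj _ e1
    exact congrArg Fin.val this

/-- A twin-free graph without isolated vertices in which each component is isomorphic to at most
s ≤ 2·4^t - 1 components, and whose degrees are at most (4^(t+1)-2-s)², has a rigid decoration. -/
theorem deco_of_deg {V : Type*} [Fintype V] (G : SimpleGraph V) (hT : TwinFree G) (hI : NoIso G)
    {t s : ℕ} (hs : s ≤ 2 * 4 ^ t - 1)
    (hκ : ∀ c : G.ConnectedComponent, {c' | IsoC G c c'}.ncard ≤ s)
    (hΔ : ∀ v, (G.neighborSet v).ncard ≤ (4 ^ (t + 1) - 2 - s) ^ 2) : RigidDeco G t := by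
  obtain ⟨ρ, hρs, hρ⟩ := exists_rank G s hκ
  obtain ⟨a, e, b, h⟩ := deco_of_degQ G hT hI hs (fun _ => True) ρ hρs (by
    intro σ _ r hh
    exact ConnectedComponent.exact (hρ _ _ (isoC_map G σ r) hh.symm).symm) hΔ
  exact ⟨a, e, b, fun σ => h σ trivial⟩

end Pool.Agent.MY12
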