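import Pool.Agent.MY12.Crit

/-! Sufficient conditions for rigid decorations. -/

namespace Pool.Agent.MY12

open SimpleGraph

section

variable {V : Type*} (G : SimpleGraph V)

theorem deco_mono {t t' : ℕ} (h : t ≤ t') (hd : RigidDeco G t) : RigidDeco G t' := by
  obtain ⟨a, e, b, hd⟩ := hd
  refine ⟨fun i u v => if hi : (i : ℕ) < t then a ⟨i, hi⟩ u v else false, e, b, ?_⟩
  intro σ h1 h2 h3
  refine hd σ ?_ h2 h3
  intro i u v huv
  have hi := i.2
  have := h1 ⟨i, by omega⟩ u v huv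
  simpa [hi] using this

theorem deco_of_vert {t m : ℕ} (hI : NoIso G) (hm : m ≤ 2 ^ (t + 1)) (h : VertDist G m) :
    RigidDeco G t := by
  obtain ⟨c, hc⟩ := h
  refine ⟨fun i u _ => (c u : ℕ).testBit i, fun _ => false, fun u => (c u : ℕ).testBit t, ?_⟩
  intro σ h1 _ h3
  apply hc
  intro u
  obtain ⟨v, hv⟩ := hI u
  ext
  apply Nat.eq_of_testBit_eq
  intro i
  rcases Nat.lt_or_ge i (t + 1) with hi | hi
  · rcases Nat.lt_or_ge i t with hi' | hi'
    · exact h1 ⟨i, hi'⟩ u v hv
    · have : i = t := by omega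
      rw [this]
      exact h3 u
  · have hb : ∀ x : V, (c x : ℕ) < 2 ^ i := fun x =>
      lt_of_lt_of_le (lt_of_lt_of_le (c x).2 hm) (Nat.pow_le_pow_right (by norm_num) hi)
    rw [Nat.testBit_lt_two_pow (hb _), Nat.testBit_lt_two_pow (hb _)]

/-- number of edge labels up to reversal -/
theorem card_lab (t : ℕ) : Fintype.card (Bool × Sym2 (Fin t → Bool)) = 4 ^ t + 2 ^ t := by
  rw [Fintype.card_prod, Fintype.card_bool, Sym2.card, Fintype.card_fun, Fintype.card_bool,
    Fintype.card_fin, Nat.choose_two_right]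
  have h4 : 4 ^ t = 2 ^ t * 2 ^ t := by
    rw [← mul_pow]
    norm_num
  rw [h4]
  have h2 : (2 ^ t + 1) * (2 ^ t + 1 - 1) = 2 * ((2 ^ t + 1) * 2 ^ t / 2) := by
    have he : 2 ∣ (2 ^ t + 1) * 2 ^ t := by
      rcases Nat.even_mul_succ_self (2 ^ t) with ⟨k, hk⟩
      exact ⟨k, by rw [mul_comm]; omega⟩
    rw [Nat.mul_div_cancel' he]
    simp
  have h3 : (2 ^ t + 1) * (2 ^ t + 1 - 1) = 2 ^ t * 2 ^ t + 2 ^ t := by
    simp
    ring
  have h5 : (2 ^ t + 1 - 1) = 2 ^ t := by simp
  rw [h5] at h2 h3 ⊢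
  omega

theorem deco_of_edge {t q : ℕ} (hq : q ≤ 4 ^ t + 2 ^ t) (h : EdgeDist G q) : RigidDeco G t := by
  classical
  obtain ⟨c, hc⟩ := h
  have hemb : Nonempty (Fin q ↪ Bool × Sym2 (Fin t → Bool)) := by
    apply Function.Embedding.nonempty_of_card_le
    rw [card_lab, Fintype.card_fin]
    exact hq
  obtain ⟨E⟩ := hemb
  -- the label of an edge
  let L : Sym2 V → Bool × Sym2 (Fin t → Bool) := fun s =>
    if hs : s ∈ G.edgeSet then E (c ⟨s, hs⟩) else (false, s(fun _ => false, fun _ => false))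
  let A : V → V → Fin t → Bool := fun u v =>
    if (u, v) = Quot.out s(u, v) then (Quot.out (L s(u, v)).2).1 else (Quot.out (L s(u, v)).2).2
  have hA : ∀ u v, u ≠ v → s(A u v, A v u) = (L s(u, v)).2 := by
    intro u v huv
    have hsw : s(v, u) = s(u, v) := Sym2.eq_swap
    have ho : Quot.out s(u, v) = (u, v) ∨ Quot.out s(u, v) = (v, u) := by
      have h1 : (Quot.mk _ (Quot.out s(u, v)) : Sym2 V) = s(u, v) := Quot.out_eq _
      rcases h2 : Quot.out s(u, v) with ⟨x, y⟩
      rw [h2] at h1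
      have h3 : s(x, y) = s(u, v) := h1
      rw [Sym2.eq_iff] at h3
      rcases h3 with ⟨rfl, rfl⟩ | ⟨rfl, rfl⟩
      · left; rfl
      · right; rfl
    have hp : s((Quot.out (L s(u, v)).2).1, (Quot.out (L s(u, v)).2).2) = (L s(u, v)).2 :=
      Quot.out_eq _
    simp only [A, hsw]
    rcases ho with ho | ho
    · rw [ho, if_pos rfl, if_neg (by
        intro h
        simp only [Prod.mk.injEq] at h
        exact huv h.1.symm)]
      exact hp
    · rw [ho, if_pos rfl, if_neg (by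
        intro h
        simp only [Prod.mk.injEq] at h
        exact huv h.1)]
      rw [Sym2.eq_swap]
      exact hp
  refine ⟨fun i u v => A u v i, fun s => (L s).1, fun _ => false, ?_⟩
  intro σ h1 h2 _
  apply hc
  rintro ⟨s, hs⟩
  induction s using Sym2.inductionOn with
  | _ u v =>
    have huv : G.Adj u v := hs
    have huv' : G.Adj (σ u) (σ v) := σ.map_adj_iff.2 huv
    have e1 : A (σ u) (σ v) = A u v := funext fun i => h1 i u v huv
    have e2 : A (σ v) (σ u) = A v u := funext fun i => h1 i v u huv.symm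
    have e3 := h2 u v huv
    simp only at e3
    have e4 : (L s(σ u, σ v)).2 = (L s(u, v)).2 := by
      rw [← hA _ _ huv.ne, ← hA _ _ huv'.ne, e1, e2]
    have e5 : L s(σ u, σ v) = L s(u, v) := Prod.ext e3 e4
    have e6 : L s(σ u, σ v) = E (c ⟨s(σ u, σ v), huv'⟩) := dif_pos huv'
    have e7 : L s(u, v) = E (c ⟨s(u, v), hs⟩) := dif_pos hs
    rw [e6, e7] at e5
    exact E.injective e5

end

end Pool.Agent.MY12
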