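import Mathlib

/-! Every finite graph has a normal (depth first) spanning forest. -/

namespace Pool.Agent.MY12

open SimpleGraph

section

variable {V : Type*}

/-- a rooted spanning forest given by parents and depths; one root in each component -/
structure Fo (G : SimpleGraph V) (par : V → V) (dep : V → ℕ) : Prop where
  rt : ∀ v, dep v = 0 → par v = v
  adj : ∀ v, dep v ≠ 0 → G.Adj (par v) v
  dp : ∀ v, dep v ≠ 0 → dep v = dep (par v) + 1
  one : ∀ u v, G.Reachable u v → dep u = 0 → dep v = 0 → u = v

variable {G : SimpleGraph V} {par : V → V} {dep : V → ℕ}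

theorem Fo.it_r (h : Fo G par dep) {v : V} (hv : dep v = 0) (k : ℕ) : par^[k] v = v :=
  Function.iterate_fixed (h.rt v hv) k

theorem Fo.it_dep (h : Fo G par dep) (k : ℕ) : ∀ v, k ≤ dep v → dep (par^[k] v) + k = dep v := by
  induction k with
  | zero => intro v _; simp
  | succ k ih =>
    intro v hv
    have h1 := h.dp v (by omega)
    rw [Function.iterate_succ_apply]
    have := ih (par v) (by omega)
    omega

theorem Fo.it_le (h : Fo G par dep) (k : ℕ) (v : V) : dep (par^[k] v) ≤ dep v := by
  rcases Nat.lt_or_ge (dep v) k with hk | hk
  · have h1 := h.it_dep (dep v) v le_rfl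
    have h2 : dep (par^[dep v] v) = 0 := by omega
    have h3 : par^[k] v = par^[dep v] v := by
      have : k = (k - dep v) + dep v := by omega
      rw [this, Function.iterate_add_apply, h.it_r h2]
    rw [h3]
    omega
  · have := h.it_dep k v hk
    omega

theorem Fo.reach (h : Fo G par dep) (k : ℕ) : ∀ v, G.Reachable v (par^[k] v) := by
  induction k with
  | zero => intro v; exact Reachable.refl v
  | succ k ih =>
    intro v
    rw [Function.iterate_succ_apply]
    by_cases hv : dep v = 0
    · rw [h.rt v hv]
      exact ih v
    · exact ((h.adj v hv).symm.reachable).trans (ih (par v))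

theorem Fo.anc_lt (h : Fo G par dep) {k : ℕ} {a v : V} (hk : par^[k] v = a) (hne : a ≠ v) :
    dep a < dep v := by
  rcases k with _ | k
  · exact absurd hk.symm hne
  · rw [Function.iterate_succ_apply] at hk
    by_cases hv : dep v = 0
    · rw [h.rt v hv, h.it_r hv] at hk
      exact absurd hk.symm hne
    · have h1 := h.dp v hv
      have h2 := h.it_le k (par v)
      rw [hk] at h2
      omega

theorem Fo.dep_lt [Fintype V] (h : Fo G par dep) (v : V) : dep v < Fintype.card V := by
  have hinj : Function.Injective (fun i : Fin (dep v + 1) => par^[(i : ℕ)] v) := by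
    intro i j hij
    have hi := h.it_dep i v (by have := i.2; omega)
    have hj := h.it_dep j v (by have := j.2; omega)
    simp only at hij
    rw [hij] at hi
    ext
    omega
  have := Fintype.card_le_of_injective _ hinj
  rw [Fintype.card_fin] at this
  omega

theorem exists_fo (G : SimpleGraph V) : ∃ par dep, Fo G par dep := by
  classical
  let ro : V → V := fun v => Quot.out (G.connectedComponentMk v)
  have hro : ∀ v, G.Reachable v (ro v) := by
    intro v
    apply ConnectedComponent.exact
    exact (Quot.out_eq (G.connectedComponentMk v)).symm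
  have hroe : ∀ u v, G.Reachable u v → ro u = ro v := by
    intro u v huv
    show Quot.out (G.connectedComponentMk u) = Quot.out (G.connectedComponentMk v)
    rw [ConnectedComponent.sound huv]
  have hex : ∀ v, v ≠ ro v → ∃ p, G.Adj p v ∧ G.dist v (ro v) = G.dist p (ro v) + 1 := by
    intro v hv
    obtain ⟨w, hw⟩ := (hro v).exists_walk_length_eq_dist
    generalize hx : ro v = x at w hw hv
    cases w with
    | nil => exact absurd rfl hv
    | @cons _ p _ hadj w' =>
      refine ⟨p, hadj.symm, ?_⟩
      have h1 : G.dist p x ≤ w'.length := dist_le w'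
      have h2 : G.dist v x ≤ G.dist p x + 1 := by
        obtain ⟨w2, hw2⟩ := (w'.reachable).exists_walk_length_eq_dist
        have := dist_le (Walk.cons hadj w2)
        rw [Walk.length_cons, hw2] at this
        exact this
      rw [Walk.length_cons] at hw
      omega
  choose! f hf using hex
  have hd0 : ∀ v, G.dist v (ro v) = 0 ↔ v = ro v := by
    intro v
    constructor
    · intro h0
      exact (hro v).dist_eq_zero_iff.1 h0
    · intro h0
      rw [← h0]
      simp
  refine ⟨fun v => if v = ro v then v else f v, fun v => G.dist v (ro v), ?_, ?_, ?_, ?_⟩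
  · intro v hv
    exact if_pos ((hd0 v).1 hv)
  · intro v hv
    have hv' : v ≠ ro v := fun hh => hv ((hd0 v).2 hh)
    simp only [if_neg hv']
    exact (hf v hv').1
  · intro v hv
    have hv' : v ≠ ro v := fun hh => hv ((hd0 v).2 hh)
    simp only [if_neg hv']
    rw [hroe (f v) v (hf v hv').1.reachable]
    exact (hf v hv').2
  · intro u v huv hu hv
    rw [(hd0 u).1 hu, (hd0 v).1 hv]
    exact hroe u v huv

theorem exists_normal [Fintype V] (G : SimpleGraph V) :
    ∃ par dep, Fo G par dep ∧ ∀ u v, G.Adj u v → (∃ k, par^[k] u = v) ∨ (∃ k, par^[k] v = u) := by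
  classical
  set S : Set ℕ := {s | ∃ par dep, Fo G par dep ∧ ∑ v, dep v = s} with hS
  have hne : S.Nonempty := by
    obtain ⟨par, dep, h⟩ := exists_fo G
    exact ⟨_, par, dep, h, rfl⟩
  have hbd : BddAbove S := by
    refine ⟨Fintype.card V * Fintype.card V, ?_⟩
    rintro s ⟨par, dep, h, rfl⟩
    calc ∑ v, dep v ≤ ∑ _v : V, Fintype.card V := Finset.sum_le_sum fun v _ => (h.dep_lt v).le
      _ = Fintype.card V * Fintype.card V := by simp
  obtain ⟨par, dep, h, hsum⟩ := Nat.sSup_mem hne hbd
  refine ⟨par, dep, h, ?_⟩
  have key : ∀ u v, G.Adj u v → dep v ≤ dep u → (∃ k, par^[k] u = v) ∨ (∃ k, par^[k] v = u) := by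
    intro u v huv hle
    by_contra hcon
    push Not at hcon
    obtain ⟨h1, h2⟩ := hcon
    have hv0 : dep v ≠ 0 := by
      intro hv0
      have e1 := h.it_dep (dep u) u le_rfl
      have e2 : dep (par^[dep u] u) = 0 := by omega
      exact h1 (dep u) (h.one _ _ ((h.reach (dep u) u).symm.trans huv.reachable) e2 hv0)
    let par' : V → V := fun x => if x = v then u else par x
    let dep' : V → ℕ := fun x => if (∃ k, par^[k] x = v) then dep x + (dep u + 1 - dep v) else dep x
    have hsub : ∀ x, (∃ k, par^[k] x = v) → dep x ≠ 0 := by
      rintro x ⟨k, hk⟩ hx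
      rw [h.it_r hx] at hk
      rw [hk] at hx
      exact hv0 hx
    have hd0 : ∀ x, dep' x = 0 ↔ dep x = 0 := by
      intro x
      show (if (∃ k, par^[k] x = v) then dep x + (dep u + 1 - dep v) else dep x) = 0 ↔ dep x = 0
      by_cases hA : ∃ k, par^[k] x = v
      · rw [if_pos hA]
        have := hsub x hA
        omega
      · rw [if_neg hA]
    have htr : Fo G par' dep' := by
      refine ⟨?_, ?_, ?_, ?_⟩
      · intro x hx
        rw [hd0] at hx
        show (if x = v then u else par x) = x
        rw [if_neg (by rintro rfl; exact hv0 hx)]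
        exact h.rt x hx
      · intro x hx
        rw [Ne, hd0] at hx
        show G.Adj (if x = v then u else par x) x
        by_cases hxv : x = v
        · rw [if_pos hxv, hxv]
          exact huv
        · rw [if_neg hxv]
          exact h.adj x hx
      · intro x hx
        rw [Ne, hd0] at hx
        by_cases hxv : x = v
        · subst hxv
          have e1 : par' x = u := if_pos rfl
          have e2 : dep' x = dep x + (dep u + 1 - dep x) := if_pos ⟨0, rfl⟩
          have e3 : dep' u = dep u := if_neg (by rintro ⟨k, hk⟩; exact h1 k hk)
          rw [e1, e2, e3]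
          omega
        · have e1 : par' x = par x := if_neg hxv
          have e4 : (∃ k, par^[k] x = v) ↔ (∃ k, par^[k] (par x) = v) := by
            constructor
            · rintro ⟨k, hk⟩
              rcases k with _ | k
              · exact absurd hk hxv
              · exact ⟨k, by rw [← Function.iterate_succ_apply]; exact hk⟩
            · rintro ⟨k, hk⟩
              exact ⟨k + 1, by rw [Function.iterate_succ_apply]; exact hk⟩
          have e5 := h.dp x hx
          rw [e1]
          by_cases hA : ∃ k, par^[k] x = v
          · have e6 : dep' x = dep x + (dep u + 1 - dep v) := if_pos hA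
            have e7 : dep' (par x) = dep (par x) + (dep u + 1 - dep v) := if_pos (e4.1 hA)
            rw [e6, e7]
            omega
          · have e6 : dep' x = dep x := if_neg hA
            have e7 : dep' (par x) = dep (par x) := if_neg (fun hh => hA (e4.2 hh))
            rw [e6, e7]
            omega
      · intro x y hxy hx hy
        exact h.one x y hxy ((hd0 x).1 hx) ((hd0 y).1 hy)
    have hmem : ∑ x, dep' x ∈ S := ⟨par', dep', htr, rfl⟩
    have hle' := le_csSup hbd hmem
    have hlt : ∑ x, dep x < ∑ x, dep' x := by
      apply Finset.sum_lt_sum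
      · intro x _
        show dep x ≤ (if (∃ k, par^[k] x = v) then dep x + (dep u + 1 - dep v) else dep x)
        split_ifs <;> omega
      · refine ⟨v, Finset.mem_univ _, ?_⟩
        have e2 : dep' v = dep v + (dep u + 1 - dep v) := if_pos ⟨0, rfl⟩
        rw [e2]
        omega
    omega
  intro u v huv
  rcases le_total (dep v) (dep u) with hle | hle
  · exact key u v huv hle
  · exact (key v u huv.symm hle).symm

end

end Pool.Agent.MY12
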