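import Pool.Agent.MY12.Defs
import Pool.Agent.MY12.Forest

/-! The code assignment on a normal forest and its rigidity. -/

namespace Pool.Agent.MY12

open SimpleGraph

/-- a cyclic interval determines its start -/
theorem cyc {K k k' s s' : ℕ} (hk : 1 ≤ k) (hkK : k < K) (hs : s < K) (hs' : s' < K)
    (h1 : ∀ j < k, ∃ i < k', (j + s) % K = (i + s') % K)
    (h2 : ∀ i < k', ∃ j < k, (i + s') % K = (j + s) % K) : s = s' := by
  obtain ⟨i, hi, he⟩ := h1 0 hk
  rcases i with _ | i
  · rw [zero_add, zero_add, Nat.mod_eq_of_lt hs, Nat.mod_eq_of_lt hs'] at he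
    exact he
  · obtain ⟨j, hj, he2⟩ := h2 i (by omega)
    exfalso
    have e1 : 0 + s ≡ i + 1 + s' [MOD K] := he
    have e2 : i + s' ≡ j + s [MOD K] := he2
    have e3 : i + s' + 1 ≡ j + s + 1 [MOD K] := e2.add_right 1
    have e4 : 0 + s ≡ (j + 1) + s [MOD K] := by
      have a1 : i + 1 + s' = i + s' + 1 := by ring
      have a2 : (j + 1) + s = j + s + 1 := by ring
      rw [a1] at e1
      rw [a2]
      exact e1.trans e3
    have e5 : 0 ≡ j + 1 [MOD K] := Nat.ModEq.add_right_cancel' s e4
    have e6 : K ∣ j + 1 := (Nat.modEq_zero_iff_dvd).1 e5.symm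
    have := Nat.le_of_dvd (by omega) e6
    omega

theorem exists_rk {V P : Type*} (par : V → P) (A : P → Finset V)
    (hA : ∀ p, ∀ x ∈ A p, par x = p) :
    ∃ rk : V → ℕ, ∀ p, (∀ x ∈ A p, rk x < (A p).card) ∧
      (∀ x ∈ A p, ∀ y ∈ A p, rk x = rk y → x = y) ∧ (∀ j < (A p).card, ∃ x ∈ A p, rk x = j) := by
  classical
  have hval : ∀ p, ∀ x (hx : x ∈ A p),
      (if h : x ∈ A (par x) then ((A (par x)).equivFin ⟨x, h⟩ : ℕ) else 0)
        = ((A p).equivFin ⟨x, hx⟩ : ℕ) := by
    intro p x hx
    have hp := hA p x hx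
    subst hp
    exact dif_pos hx
  refine ⟨fun x => if h : x ∈ A (par x) then ((A (par x)).equivFin ⟨x, h⟩ : ℕ) else 0,
    fun p => ⟨?_, ?_, ?_⟩⟩
  · intro x hx
    simp only [hval p x hx]
    exact Fin.is_lt _
  · intro x hx y hy hxy
    simp only [hval p x hx, hval p y hy] at hxy
    have := (A p).equivFin.injective (Fin.ext hxy)
    exact congrArg Subtype.val this
  · intro j hj
    refine ⟨((A p).equivFin.symm ⟨j, hj⟩ : A p), ((A p).equivFin.symm ⟨j, hj⟩).2, ?_⟩
    simp only [hval p _ ((A p).equivFin.symm ⟨j, hj⟩).2]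
    simp

section

variable {V : Type*} {G : SimpleGraph V} {par : V → V} {dep : V → ℕ}

/-- leaves of the forest -/
def Leaf (par : V → V) (dep : V → ℕ) (x : V) : Prop := ∀ y, dep y ≠ 0 → par y ≠ x

/-- having a child which is a leaf -/
def HasLeaf (par : V → V) (dep : V → ℕ) (x : V) : Prop := ∃ y, dep y ≠ 0 ∧ par y = x ∧ Leaf par dep y

theorem Fo.fuel {α : Type*} (h : Fo G par dep) (a : α) (F : V → α → α) :
    ∃ q : V → α, (∀ x, dep x = 0 → q x = a) ∧ ∀ x, dep x ≠ 0 → q x = F x (q (par x)) := by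
  let Q : ℕ → V → α := fun k => Nat.rec (fun _ => a) (fun _ f x => F x (f (par x))) k
  refine ⟨fun x => Q (dep x) x, ?_, ?_⟩
  · intro x hx
    show Q (dep x) x = a
    rw [hx]
    rfl
  · intro x hx
    show Q (dep x) x = F x (Q (dep (par x)) (par x))
    rw [h.dp x hx]

/-- The core: automorphisms which respect the forest and the codes are trivial. -/
theorem core [Fintype V] (h : Fo G par dep) (hT : TwinFree G)
    (hn : ∀ u v, G.Adj u v → (∃ k, par^[k] u = v) ∨ (∃ k, par^[k] v = u))
    (Z : V → Prop) (hZ0 : ∀ x, dep x = 0 → Z x) (hZp : ∀ x, Z x → Z (par x)) (A : V → Finset V)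
    (hA : ∀ p x, x ∈ A p ↔ ¬ Z x ∧ par x = p ∧ ¬ Leaf par dep x)
    (n : ℕ) (hcard : ∀ p, (A p).card < n * n) (rk q γ : V → ℕ)
    (hrk : ∀ p, (∀ x ∈ A p, rk x < (A p).card) ∧
      (∀ x ∈ A p, ∀ y ∈ A p, rk x = rk y → x = y) ∧ (∀ j < (A p).card, ∃ x ∈ A p, rk x = j))
    (s : V → ℕ) (hs1 : ∀ p, ¬ HasLeaf par dep p → s p = q p)
    (hq : ∀ x, q x < n)
    (hidx : ∀ x, ¬ Z x → ¬ Leaf par dep x → q x * n + γ x = (rk x + s (par x)) % (n * n))
    (hleaf : ∀ x, ¬ Z x → Leaf par dep x → γ x = q (par x))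
    (σ : G ≃g G) (hσZ : ∀ x, Z x → σ x = x)
    (hdep : ∀ v, dep (σ v) = dep v)
    (hpar : ∀ v, dep v ≠ 0 → par (σ v) = σ (par v))
    (hγ : ∀ v, ¬ Z v → γ (σ v) = γ v) : σ = RelIso.refl _ := by
  have hZσ : ∀ v, Z (σ v) ↔ Z v := by
    intro v
    constructor
    · intro hh
      have h1 := hσZ _ hh
      have h2 := σ.injective h1
      rw [← h2]
      exact hh
    · intro hh
      rw [hσZ v hh]
      exact hh
  have hZd : ∀ x, ¬ Z x → dep x ≠ 0 := fun x hx h0 => hx (hZ0 x h0)
  have hch : ∀ p y, dep y ≠ 0 → (par (σ y) = σ p ↔ par y = p) := by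
    intro p y hy
    rw [hpar y hy]
    exact σ.injective.eq_iff
  have hL : ∀ x, Leaf par dep (σ x) ↔ Leaf par dep x := by
    intro x
    constructor
    · intro hx y hy hyx
      exact hx (σ y) (by rw [hdep]; exact hy) ((hch x y hy).2 hyx)
    · intro hx z hz hzx
      obtain ⟨y, rfl⟩ := σ.surjective z
      rw [hdep] at hz
      exact hx y hz ((hch x y hz).1 hzx)
  have hHL : ∀ x, HasLeaf par dep (σ x) ↔ HasLeaf par dep x := by
    intro x
    constructor
    · rintro ⟨z, hz, hzx, hzl⟩
      obtain ⟨y, rfl⟩ := σ.surjective z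
      rw [hdep] at hz
      exact ⟨y, hz, (hch x y hz).1 hzx, (hL y).1 hzl⟩
    · rintro ⟨y, hy, hyx, hyl⟩
      exact ⟨σ y, by rw [hdep]; exact hy, (hch x y hy).2 hyx, (hL y).2 hyl⟩
  have hAσ : ∀ p y, σ y ∈ A (σ p) ↔ y ∈ A p := by
    intro p y
    rw [hA, hA, hZσ, hL]
    constructor
    · rintro ⟨h1, h2, h3⟩
      exact ⟨h1, (hch p y (hZd y h1)).1 h2, h3⟩
    · rintro ⟨h1, h2, h3⟩
      exact ⟨h1, (hch p y (hZd y h1)).2 h2, h3⟩
  have hnn : n ≤ n * n := by
    rcases Nat.eq_zero_or_pos n with h0 | h0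
    · rw [h0]
    · exact Nat.le_mul_of_pos_left n h0
  -- bottom up
  have hup : ∀ m x, dep x + m = Fintype.card V → ¬ Leaf par dep x → q (σ x) = q x := by
    intro m
    induction m with
    | zero =>
      intro x hx
      exact absurd hx (by have := h.dep_lt x; omega)
    | succ m ih =>
      intro x hx hxl
      by_cases hxZ : Z x
      · rw [hσZ x hxZ]
      have hkid : ∀ y, par y = x → ¬ Z y := by
        intro y hy hyZ
        exact hxZ (hy ▸ hZp y hyZ)
      by_cases hhl : HasLeaf par dep x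
      · obtain ⟨y, hy, hyx, hyl⟩ := hhl
        have hyZ := hkid y hyx
        have e1 := hleaf y hyZ hyl
        have e2 := hleaf (σ y) (fun hh => hyZ ((hZσ y).1 hh)) ((hL y).2 hyl)
        rw [hγ y hyZ, e1, (hch x y hy).2 hyx, hyx] at e2
        exact e2.symm
      · have hhl' : ¬ HasLeaf par dep (σ x) := fun hh => hhl ((hHL x).1 hh)
        have hmain : ∀ y ∈ A x, (rk y + q x) % (n * n) = (rk (σ y) + q (σ x)) % (n * n) := by
          intro y hy
          have hy' := (hAσ x y).2 hy
          rw [hA] at hy hy'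
          obtain ⟨a1, a3, a4⟩ := hy
          obtain ⟨b1, b3, b4⟩ := hy'
          have e1 := hidx y a1 a4
          have e2 := hidx (σ y) b1 b4
          rw [a3, hs1 _ hhl] at e1
          rw [b3, hs1 _ hhl', hγ y a1,
            ih y (by have := h.dp y (hZd y a1); rw [a3] at this; omega) a4] at e2
          rw [← e1, ← e2]
        have hk1 : 1 ≤ (A x).card := by
          have hxl' := hxl
          unfold Leaf at hxl'
          push Not at hxl'
          obtain ⟨y, hy, hyx⟩ := hxl'
          apply Finset.card_pos.2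
          refine ⟨y, (hA x y).2 ⟨hkid y hyx, hyx, fun hh => hhl ⟨y, hy, hyx, hh⟩⟩⟩
        refine (cyc (K := n * n) (k' := (A (σ x)).card) hk1 (hcard x)
          (lt_of_lt_of_le (hq x) hnn) (lt_of_lt_of_le (hq (σ x)) hnn) ?_ ?_).symm
        · intro j hj
          obtain ⟨y, hy, rfl⟩ := (hrk x).2.2 j hj
          exact ⟨rk (σ y), (hrk (σ x)).1 _ ((hAσ x y).2 hy), hmain y hy⟩
        · intro i hi
          obtain ⟨z, hz, rfl⟩ := (hrk (σ x)).2.2 i hi
          obtain ⟨y, rfl⟩ := σ.surjective z
          have hy := (hAσ x y).1 hz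
          exact ⟨rk y, (hrk x).1 _ hy, (hmain y hy).symm⟩
  have hup' : ∀ x, ¬ Leaf par dep x → q (σ x) = q x := by
    intro x
    have := h.dep_lt x
    exact hup (Fintype.card V - dep x) x (by omega)
  -- top down
  have hdown : ∀ m x, dep x ≤ m → σ x = x := by
    intro m
    induction m with
    | zero =>
      intro x hx
      exact hσZ x (hZ0 x (by omega))
    | succ m ih =>
      intro x hx
      by_cases hxZ : Z x
      · exact hσZ x hxZ
      have hx0 := hZd x hxZ
      have hdx := h.dp x hx0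
      have hp : σ (par x) = par x := ih (par x) (by omega)
      have hpx : par (σ x) = par x := by rw [hpar x hx0, hp]
      by_cases hxl : Leaf par dep x
      · -- twins
        have hz : ∀ z, G.Adj x z → σ z = z := by
          intro z hxz
          have hne : z ≠ x := hxz.ne'
          rcases hn x z hxz with ⟨k, hk⟩ | ⟨k, hk⟩
          · have := h.anc_lt hk hne
            exact ih z (by omega)
          · exfalso
            rcases k with _ | k
            · exact hne hk
            · rw [Function.iterate_succ_apply'] at hk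
              refine hxl (par^[k] z) ?_ hk
              intro hh
              rw [h.rt _ hh] at hk
              rw [hk] at hh
              exact hx0 hh
        apply hT
        intro z
        constructor
        · intro hxz
          obtain ⟨z', rfl⟩ := σ.surjective z
          have h1 : G.Adj x z' := σ.map_adj_iff.1 hxz
          rw [hz z' h1]
          exact h1
        · intro hxz
          have h1 : G.Adj (σ x) (σ z) := σ.map_adj_iff.2 hxz
          rw [hz z hxz] at h1
          exact h1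
      · have hxA : x ∈ A (par x) := (hA _ _).2 ⟨hxZ, rfl, hxl⟩
        have hxA' : σ x ∈ A (par x) := by
          have := (hAσ (par x) x).2 hxA
          rwa [hp] at this
        have e1 := hidx x hxZ hxl
        have hx2 := (hA _ _).1 hxA'
        have e2 := hidx (σ x) hx2.1 hx2.2.2
        rw [hγ x hxZ, hup' x hxl, hpx, e1] at e2
        have e3 : rk x + s (par x) ≡ rk (σ x) + s (par x) [MOD n * n] := e2
        have e4 : rk x ≡ rk (σ x) [MOD n * n] := Nat.ModEq.add_right_cancel' _ e3
        have l1 := (hrk (par x)).1 _ hxA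
        have l2 := (hrk (par x)).1 _ hxA'
        have l3 := hcard (par x)
        have e5 : rk x = rk (σ x) := Nat.ModEq.eq_of_lt_of_lt e4 (by omega) (by omega)
        exact ((hrk (par x)).2.1 x hxA (σ x) hxA' e5).symm
  ext x
  exact hdown (dep x) x le_rfl

end

end Pool.Agent.MY12
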