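import Pool.Agent.MY12.Struct

/-! The criterion for t to lie in T(G), G twin-free without isolated vertices. -/

namespace Pool.Agent.MY12

open SimpleGraph

theorem least_iff {W : Type*} (H : SimpleGraph W) :
    IsLeast {d | EdgeDist H d} 2 ↔ EdgeDist H 2 ∧ ∃ φ : H ≃g H, φ ≠ RelIso.refl _ := by
  constructor
  · rintro ⟨h2, hlow⟩
    refine ⟨h2, ?_⟩
    by_contra hcon
    push Not at hcon
    have h1 : EdgeDist H 1 := ⟨fun _ => 0, fun φ _ => hcon φ⟩
    have := hlow h1
    omega
  · rintro ⟨h2, φ, hφ⟩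
    refine ⟨h2, ?_⟩
    rintro d ⟨c, hc⟩
    by_contra hd
    apply hφ
    apply hc
    intro e
    have h1 := (c (φ.mapEdgeSet e)).2
    have h2 := (c e).2
    ext
    omega

/-- edge 2-colourings as symmetric functions -/
theorem edgeDist_two_iff {W : Type*} (H : SimpleGraph W) :
    EdgeDist H 2 ↔ ∃ f : W → W → Bool, (∀ x y, f x y = f y x) ∧
      ∀ φ : H ≃g H, (∀ x y, H.Adj x y → f (φ x) (φ y) = f x y) → φ = RelIso.refl _ := by
  classical
  constructor
  · rintro ⟨c, hc⟩
    let g : Sym2 W → Bool := fun q => if h : q ∈ H.edgeSet then decide (c ⟨q, h⟩ = 1) else false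
    refine ⟨fun x y => g s(x, y), fun x y => congrArg g Sym2.eq_swap, ?_⟩
    intro φ hφ
    apply hc
    rintro ⟨q, hq⟩
    induction q using Sym2.inductionOn with
    | _ x y =>
      have hxy : H.Adj x y := hq
      have hxy' : H.Adj (φ x) (φ y) := φ.map_adj_iff.2 hxy
      have h1 := hφ x y hxy
      have hg1 : g s(x, y) = decide (c ⟨s(x, y), hq⟩ = 1) := dif_pos hq
      have hg2 : g s(φ x, φ y) = decide (c ⟨s(φ x, φ y), hxy'⟩ = 1) := dif_pos hxy'
      simp only at h1
      rw [hg1, hg2, decide_eq_decide] at h1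
      have h2 : φ.mapEdgeSet ⟨s(x, y), hq⟩ = ⟨s(φ x, φ y), hxy'⟩ := rfl
      rw [h2]
      generalize c ⟨s(φ x, φ y), hxy'⟩ = p at h1 ⊢
      generalize c ⟨s(x, y), hq⟩ = q at h1 ⊢
      ext
      have hp := p.2
      have hq := q.2
      have h3 : (p : ℕ) = 1 ↔ (q : ℕ) = 1 := by
        constructor
        · intro h
          have := h1.1 (Fin.ext h)
          rw [this]; rfl
        · intro h
          have := h1.2 (Fin.ext h)
          rw [this]; rfl
      omega
  · rintro ⟨f, hf, h⟩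
    refine ⟨fun e => if Sym2.lift ⟨f, hf⟩ e.1 then 1 else 0, ?_⟩
    intro φ hφ
    apply h
    intro x y hxy
    have h1 := hφ ⟨s(x, y), hxy⟩
    have h2 : (φ.mapEdgeSet ⟨s(x, y), hxy⟩ : Sym2 W) = s(φ x, φ y) := rfl
    simp only [h2, Sym2.lift_mk] at h1
    cases hb1 : f (φ x) (φ y) <;> cases hb2 : f x y <;> simp [hb1, hb2] at h1 ⊢

section

variable {V : Type*} (G : SimpleGraph V) {t : ℕ}

theorem deco_of_dist (h : EdgeDist (mu G t) 2) : RigidDeco G t := by
  rw [edgeDist_two_iff] at h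
  obtain ⟨f, hf, h⟩ := h
  refine ⟨fun i u v => f (some (u, i.castSucc)) (some (v, i.succ)),
    Sym2.lift ⟨fun u v => f (some (u, 0)) (some (v, 0)), fun u v => hf _ _⟩,
    fun u => f (some (u, Fin.last t)) none, ?_⟩
  intro σ h1 h2 h3
  rw [← lift_refl_iff G (t := t)]
  apply h
  rintro (_ | ⟨u, i⟩) (_ | ⟨v, j⟩) hxy
  · exact absurd hxy (fun h => h)
  · have hj : (j : ℕ) = t := hxy
    have : j = Fin.last t := by ext; simpa using hj
    rw [hf, hf none, this]
    exact h3 v
  · have hj : (i : ℕ) = t := hxy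
    have : i = Fin.last t := by ext; simpa using hj
    rw [this]
    exact h3 u
  · obtain ⟨huv, hl⟩ := hxy
    rcases hl with ⟨hi, hj⟩ | hl | hl
    · have e1 : i = 0 := by ext; simpa using hi
      have e2 : j = 0 := by ext; simpa using hj
      subst e1 e2
      exact h2 u v huv
    · have hi : (i : ℕ) < t := by have := j.2; omega
      have e1 : i = (⟨i, hi⟩ : Fin t).castSucc := by ext; simp
      have e2 : j = (⟨i, hi⟩ : Fin t).succ := by ext; simp only [Fin.val_succ]; omega
      have := h1 ⟨i, hi⟩ u v huv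
      simp only [← e1, ← e2] at this
      exact this
    · have hi : (j : ℕ) < t := by have := i.2; omega
      have e1 : j = (⟨j, hi⟩ : Fin t).castSucc := by ext; simp
      have e2 : i = (⟨j, hi⟩ : Fin t).succ := by ext; simp only [Fin.val_succ]; omega
      have := h1 ⟨j, hi⟩ v u huv.symm
      simp only [← e1, ← e2] at this
      rw [hf, hf (some (u, i))]
      exact this

/-- the colour function of a decoration -/
def col (a : Fin t → V → V → Bool) (e : Sym2 V → Bool) (b : V → Bool)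
    (x y : Option (V × Fin (t + 1))) : Bool :=
  match x, y with
  | some (u, i), some (v, j) =>
      if h : (i : ℕ) + 1 = j then a ⟨i, by have := j.2; omega⟩ u v
      else if h : (j : ℕ) + 1 = i then a ⟨j, by have := i.2; omega⟩ v u
      else e s(u, v)
  | some (u, _), none => b u
  | none, some (u, _) => b u
  | none, none => false

theorem col_symm (a : Fin t → V → V → Bool) (e : Sym2 V → Bool) (b : V → Bool)
    (x y : Option (V × Fin (t + 1))) : col a e b x y = col a e b y x := by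
  rcases x with _ | ⟨u, i⟩ <;> rcases y with _ | ⟨v, j⟩
  · rfl
  · rfl
  · rfl
  · unfold col
    simp only
    by_cases h1 : (i : ℕ) + 1 = j
    · rw [dif_pos h1, dif_neg (by omega), dif_pos h1]
    · by_cases h2 : (j : ℕ) + 1 = i
      · rw [dif_neg h1, dif_pos h2, dif_pos h2]
      · rw [dif_neg h1, dif_neg h2, dif_neg h2, dif_neg h1, Sym2.eq_swap]

theorem dist_of_deco (hlift : ∀ φ : mu G t ≃g mu G t, ∃ σ : G ≃g G, φ = lift G t σ)
    (h : RigidDeco G t) : EdgeDist (mu G t) 2 := by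
  rw [edgeDist_two_iff]
  obtain ⟨a, e, b, h⟩ := h
  refine ⟨col a e b, col_symm a e b, ?_⟩
  intro φ hφ
  obtain ⟨σ, rfl⟩ := hlift φ
  rw [lift_refl_iff]
  apply h
  · intro i u v huv
    have := hφ (some (u, i.castSucc)) (some (v, i.succ)) ⟨huv, by right; left; simp⟩
    simpa [col, lift_some] using this
  · intro u v huv
    have := hφ (some (u, 0)) (some (v, 0)) ⟨huv, Or.inl ⟨rfl, rfl⟩⟩
    simpa [col, lift_some] using this
  · intro u
    have := hφ (some (u, Fin.last t)) none (by show ((Fin.last t : Fin (t + 1)) : ℕ) = t; simp)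
    simpa [col, lift_some, lift_none] using this

end

theorem mem_T_iff {V : Type*} [Fintype V] (G : SimpleGraph V) (hT : TwinFree G) (hI : NoIso G)
    (hn : 3 ≤ Fintype.card V) (t : ℕ) :
    t ∈ T G ↔ 1 ≤ t ∧ (∃ σ : G ≃g G, σ ≠ RelIso.refl _) ∧ RigidDeco G t := by
  unfold T
  simp only [Set.mem_setOf_eq]
  rw [least_iff]
  constructor
  · rintro ⟨ht, h2, φ, hφ⟩
    obtain ⟨σ, rfl⟩ := struct G hT hI hn ht φ
    exact ⟨ht, ⟨σ, fun h => hφ ((lift_refl_iff G σ).2 h)⟩, deco_of_dist G h2⟩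
  · rintro ⟨ht, ⟨σ, hσ⟩, hd⟩
    exact ⟨ht, dist_of_deco G (struct G hT hI hn ht) hd, lift G t σ,
      fun h => hσ ((lift_refl_iff G σ).1 h)⟩

end Pool.Agent.MY12
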