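import Pool.Agent.MY12.Core

/-! The decoration attached to a labelled rooted forest. -/

namespace Pool.Agent.MY12

open SimpleGraph

/-- labels of arcs: the edge bit and the two strings of arc bits -/
abbrev Lab (t : ℕ) := Bool × (Fin t → Bool) × (Fin t → Bool)

/-- the label of the reversed arc -/
def rev {t : ℕ} (l : Lab t) : Lab t := (l.1, l.2.2, l.2.1)

/-- the zero label -/
def zl {t : ℕ} : Lab t := (false, fun _ => false, fun _ => false)

theorem rev_rev {t : ℕ} (l : Lab t) : rev (rev l) = l := rfl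

theorem rev_zl {t : ℕ} : rev (zl : Lab t) = zl := rfl

theorem card_Lab (t : ℕ) : Fintype.card (Lab t) = 2 * 4 ^ t := by
  rw [Fintype.card_prod, Fintype.card_prod, Fintype.card_fun, Fintype.card_bool, Fintype.card_fin]
  have : 2 ^ t * 2 ^ t = 4 ^ t := by
    rw [← mul_pow]
    norm_num
  rw [this]

/-- G has a decoration preserved by no automorphism in Q but the identity. -/
def RigidDecoQ {V : Type*} (G : SimpleGraph V) (t : ℕ) (Q : (G ≃g G) → Prop) : Prop :=
  ∃ (a : Fin t → V → V → Bool) (e : Sym2 V → Bool) (b : V → Bool), ∀ σ : G ≃g G, Q σ →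
    (∀ i u v, G.Adj u v → a i (σ u) (σ v) = a i u v) →
    (∀ u v, G.Adj u v → e s(σ u, σ v) = e s(u, v)) →
    (∀ u, b (σ u) = b u) → σ = RelIso.refl _

section

variable {V : Type*} {G : SimpleGraph V} {par : V → V} {dep : V → ℕ} {t : ℕ}

theorem dec_lemmaQ (h : Fo G par dep) (c : V → V)
    (hc : ∀ r, dep r = 0 → dep (c r) ≠ 0 ∧ par (c r) = r) (lam : V → Lab t) (b : V → Bool)
    (S : Lab t → Prop) (hlam : ∀ v, dep v ≠ 0 → lam v ≠ zl)
    (hb1 : ∀ r, dep r = 0 → b r = true) (hb2 : ∀ r, dep r = 0 → b (c r) = false)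
    (hS1 : ∀ r, dep r = 0 → S (lam (c r)))
    (hS2 : ∀ v, dep v ≠ 0 → ¬ (dep (par v) = 0 ∧ c (par v) = v) →
      ¬ (S (lam v) ∧ b (par v) = true ∧ b v = false) ∧
      ¬ (S (rev (lam v)) ∧ b v = true ∧ b (par v) = false))
    (Q : (G ≃g G) → Prop)
    (hω : ∀ (σ : G ≃g G), Q σ → ∀ (r : V), dep r = 0 → dep (σ r) = 0 →
      lam (c (σ r)) = lam (c r) → σ r = r) :
    ∃ (a : Fin t → V → V → Bool) (e : Sym2 V → Bool), ∀ σ : G ≃g G, Q σ →
      (∀ i u v, G.Adj u v → a i (σ u) (σ v) = a i u v) →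
      (∀ u v, G.Adj u v → e s(σ u, σ v) = e s(u, v)) →
      (∀ u, b (σ u) = b u) → (∀ r, dep r = 0 → σ r = r ∧ σ (c r) = c r) ∧
        (∀ v, dep (σ v) = dep v) ∧ (∀ v, dep v ≠ 0 → par (σ v) = σ (par v)) ∧
        (∀ v, dep v ≠ 0 → lam (σ v) = lam v) := by
  classical
  let down : V → V → Prop := fun u v => dep v ≠ 0 ∧ par v = u
  have hnd : ∀ u v, down u v → ¬ down v u := by
    rintro u v ⟨h1, h2⟩ ⟨h3, h4⟩
    have e1 := h.dp v h1
    have e2 := h.dp u h3
    rw [h2] at e1
    rw [h4] at e2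
    omega
  let L : V → V → Lab t := fun u v => if down u v then lam v else if down v u then rev (lam u) else zl
  have L1 : ∀ u v, down u v → L u v = lam v := fun u v h1 => if_pos h1
  have L2 : ∀ u v, down v u → L u v = rev (lam u) := by
    intro u v h1
    show (if down u v then lam v else if down v u then rev (lam u) else zl) = _
    rw [if_neg (hnd v u h1), if_pos h1]
  have L3 : ∀ u v, ¬ down u v → ¬ down v u → L u v = zl := by
    intro u v h1 h2
    show (if down u v then lam v else if down v u then rev (lam u) else zl) = _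
    rw [if_neg h1, if_neg h2]
  have Lrev : ∀ u v, L v u = rev (L u v) := by
    intro u v
    by_cases h1 : down u v
    · rw [L1 u v h1, L2 v u h1]
    · by_cases h2 : down v u
      · rw [L2 u v h2, L1 v u h2, rev_rev]
      · rw [L3 u v h1 h2, L3 v u h2 h1, rev_zl]
  have Lsym : ∀ u v, (L u v).1 = (L v u).1 := by
    intro u v
    rw [Lrev u v]
    rfl
  refine ⟨fun i u v => (L u v).2.1 i, Sym2.lift ⟨fun u v => (L u v).1, Lsym⟩, ?_⟩
  intro σ hQ ha he hb
  have hL : ∀ u v, G.Adj u v → L (σ u) (σ v) = L u v := by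
    intro u v huv
    refine Prod.ext (he u v huv) (Prod.ext (funext fun i => ha i u v huv) (funext fun i => ?_))
    have := ha i v u huv.symm
    simp only at this
    rw [Lrev u v, Lrev (σ u) (σ v)] at this
    exact this
  have hadj : ∀ u v, down u v → G.Adj u v := by
    rintro u v ⟨h1, h2⟩
    have := h.adj v h1
    rwa [h2] at this
  have htree : ∀ u v, down u v → (down (σ u) (σ v) ∧ lam (σ v) = lam v) ∨
      (down (σ v) (σ u) ∧ rev (lam (σ u)) = lam v) := by
    intro u v huv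
    have h1 := hL u v (hadj u v huv)
    rw [L1 u v huv] at h1
    by_cases d1 : down (σ u) (σ v)
    · left
      exact ⟨d1, by rw [← h1, L1 _ _ d1]⟩
    · by_cases d2 : down (σ v) (σ u)
      · right
        exact ⟨d2, by rw [← h1, L2 _ _ d2]⟩
      · exfalso
        rw [L3 _ _ d1 d2] at h1
        exact hlam v huv.1 h1.symm
  have hfix : ∀ r, dep r = 0 → σ r = r ∧ σ (c r) = c r := by
    intro r hr
    obtain ⟨hc1, hc2⟩ := hc r hr
    rcases htree r (c r) ⟨hc1, hc2⟩ with ⟨⟨d1, d2⟩, h1⟩ | ⟨⟨d1, d2⟩, h1⟩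
    · have h2 := (hS2 (σ (c r)) d1)
      by_cases h3 : dep (par (σ (c r))) = 0 ∧ c (par (σ (c r))) = σ (c r)
      · rw [d2] at h3
        have h4 : σ r = r := by
          apply hω σ hQ r hr h3.1
          rw [h3.2, h1]
        refine ⟨h4, ?_⟩
        rw [← h3.2, h4]
      · exfalso
        refine (h2 h3).1 ⟨?_, ?_, ?_⟩
        · rw [h1]
          exact hS1 r hr
        · rw [d2, hb]
          exact hb1 r hr
        · rw [hb]
          exact hb2 r hr
    · exfalso
      have h2 := (hS2 (σ r) d1)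
      by_cases h3 : dep (par (σ r)) = 0 ∧ c (par (σ r)) = σ r
      · have h4 := hb1 _ h3.1
        rw [d2, hb, hb2 r hr] at h4
        exact absurd h4 (by simp)
      · refine (h2 h3).2 ⟨?_, ?_, ?_⟩
        · rw [h1]
          exact hS1 r hr
        · rw [hb]
          exact hb1 r hr
        · rw [d2, hb]
          exact hb2 r hr
  have hdep : ∀ m v, dep v ≤ m → dep (σ v) = dep v ∧
      (dep v ≠ 0 → par (σ v) = σ (par v) ∧ lam (σ v) = lam v) := by
    intro m
    induction m with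
    | zero =>
      intro v hv
      have hv0 : dep v = 0 := by omega
      exact ⟨by rw [(hfix v hv0).1], fun hh => absurd hv0 hh⟩
    | succ m ih =>
      intro v hv
      by_cases hv0 : dep v = 0
      · exact ⟨by rw [(hfix v hv0).1], fun hh => absurd hv0 hh⟩
      · have hd := h.dp v hv0
        obtain ⟨i1, i2⟩ := ih (par v) (by omega)
        rcases htree (par v) v ⟨hv0, rfl⟩ with ⟨⟨h1, h2⟩, h3⟩ | ⟨⟨h1, h2⟩, _⟩
        · refine ⟨?_, fun _ => ⟨h2, h3⟩⟩
          have := h.dp (σ v) h1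
          rw [h2] at this
          omega
        · exfalso
          have h3 : dep (par v) ≠ 0 := by
            rw [← i1]
            exact h1
          have h4 := (i2 h3).1
          rw [h2] at h4
          have h5 := σ.injective h4
          have h6 := h.dp (par v) h3
          rw [← h5] at h6
          omega
  exact ⟨hfix, fun v => (hdep (dep v) v le_rfl).1, fun v hv => ((hdep (dep v) v le_rfl).2 hv).1,
    fun v hv => ((hdep (dep v) v le_rfl).2 hv).2⟩

theorem dec_lemma (h : Fo G par dep) (c : V → V)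
    (hc : ∀ r, dep r = 0 → dep (c r) ≠ 0 ∧ par (c r) = r) (lam : V → Lab t) (b : V → Bool)
    (S : Lab t → Prop) (hlam : ∀ v, dep v ≠ 0 → lam v ≠ zl)
    (hb1 : ∀ r, dep r = 0 → b r = true) (hb2 : ∀ r, dep r = 0 → b (c r) = false)
    (hS1 : ∀ r, dep r = 0 → S (lam (c r)))
    (hS2 : ∀ v, dep v ≠ 0 → ¬ (dep (par v) = 0 ∧ c (par v) = v) →
      ¬ (S (lam v) ∧ b (par v) = true ∧ b v = false) ∧
      ¬ (S (rev (lam v)) ∧ b v = true ∧ b (par v) = false))
    (hω : ∀ (σ : G ≃g G) (r : V), dep r = 0 → dep (σ r) = 0 → lam (c (σ r)) = lam (c r) → σ r = r) :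
    ∃ (a : Fin t → V → V → Bool) (e : Sym2 V → Bool), ∀ σ : G ≃g G,
      (∀ i u v, G.Adj u v → a i (σ u) (σ v) = a i u v) →
      (∀ u v, G.Adj u v → e s(σ u, σ v) = e s(u, v)) →
      (∀ u, b (σ u) = b u) → (∀ r, dep r = 0 → σ r = r ∧ σ (c r) = c r) ∧
        (∀ v, dep (σ v) = dep v) ∧ (∀ v, dep v ≠ 0 → par (σ v) = σ (par v)) ∧
        (∀ v, dep v ≠ 0 → lam (σ v) = lam v) := by
  obtain ⟨a, e, h1⟩ := dec_lemmaQ h c hc lam b S hlam hb1 hb2 hS1 hS2 (fun _ => True)
    (fun σ _ r => hω σ r)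
  exact ⟨a, e, fun σ => h1 σ trivial⟩

end

end Pool.Agent.MY12
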