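import Pool.Agent.MY12.Gen
import Pool.Agent.MY12.Crit
import Pool.Agent.MY12.Label

/-! The criterion for all graphs without isolated vertices other than the stars. -/

namespace Pool.Agent.MY12

open SimpleGraph

/-- Rigid decoration by t bits on each arc, one bit on each edge and one bit on each vertex: if the
automorphisms s_0, ..., s_t of G agree up to twins, and s_i and s_(i+1) together preserve the i-th
arc bits, s_0 the edge bits and s_t the vertex bits, then all of them are trivial. -/
def RigidT {V : Type*} (G : SimpleGraph V) (t : ℕ) : Prop :=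
  ∃ (a : Fin t → V → V → Bool) (e : Sym2 V → Bool) (b : V → Bool), ∀ s : Fin (t + 1) → (G ≃g G),
    (∀ i j u x, G.Adj (s i u) x ↔ G.Adj (s j u) x) →
    (∀ (i : Fin t) u v, G.Adj u v → a i (s i.castSucc u) (s i.succ v) = a i u v) →
    (∀ u v, G.Adj u v → e s(s 0 u, s 0 v) = e s(u, v)) →
    (∀ u, b (s (Fin.last t) u) = b u) → ∀ i, s i = RelIso.refl _

section

variable {V : Type*} (G : SimpleGraph V) {t : ℕ}

theorem adj_mix (s : Fin (t + 1) → (G ≃g G)) (hs : ∀ i j u x, G.Adj (s i u) x ↔ G.Adj (s j u) x)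
    (i j : Fin (t + 1)) (u v : V) : G.Adj (s i u) (s j v) ↔ G.Adj u v := by
  rw [hs i j u, (s j).map_adj_iff]

/-- the automorphism given by one automorphism of G for each level -/
def liftT (s : Fin (t + 1) → (G ≃g G)) (hs : ∀ i j u x, G.Adj (s i u) x ↔ G.Adj (s j u) x) :
    mu G t ≃g mu G t where
  toFun x := x.map (fun p => (s p.2 p.1, p.2))
  invFun x := x.map (fun p => ((s p.2).symm p.1, p.2))
  left_inv x := by
    rcases x with _ | ⟨u, i⟩ <;> simp
  right_inv x := by
    rcases x with _ | ⟨u, i⟩ <;> simp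
  map_rel_iff' := by
    rintro (_ | ⟨u, i⟩) (_ | ⟨v, j⟩)
    · exact Iff.rfl
    · exact Iff.rfl
    · exact Iff.rfl
    · exact and_congr_left' (adj_mix G s hs i j u v)

theorem liftT_some (s : Fin (t + 1) → (G ≃g G))
    (hs : ∀ i j u x, G.Adj (s i u) x ↔ G.Adj (s j u) x) (u : V) (i : Fin (t + 1)) :
    liftT G s hs (some (u, i)) = some (s i u, i) := rfl

theorem liftT_none (s : Fin (t + 1) → (G ≃g G))
    (hs : ∀ i j u x, G.Adj (s i u) x ↔ G.Adj (s j u) x) : liftT G s hs none = none := rfl

theorem rigidT_of_dist (h : EdgeDist (mu G t) 2) : RigidT G t := by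
  rw [edgeDist_two_iff] at h
  obtain ⟨f, hf, h⟩ := h
  refine ⟨fun i u v => f (some (u, i.castSucc)) (some (v, i.succ)),
    Sym2.lift ⟨fun u v => f (some (u, 0)) (some (v, 0)), fun u v => hf _ _⟩,
    fun u => f (some (u, Fin.last t)) none, ?_⟩
  intro s hs h1 h2 h3
  have key : liftT G s hs = RelIso.refl _ := by
    apply h
    rintro (_ | ⟨u, i⟩) (_ | ⟨v, j⟩) hxy
    · exact absurd hxy (fun h => h)
    · have hj : (j : ℕ) = t := hxy
      have : j = Fin.last t := by ext; simpa using hj
      rw [hf, hf none, this]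
      exact h3 v
    · have hj : (i : ℕ) = t := hxy
      have : i = Fin.last t := by ext; simpa using hj
      rw [this]
      exact h3 u
    · obtain ⟨huv, hl⟩ := hxy
      rcases hl with ⟨hi, hj⟩ | hl | hl
      · have e1 : i = 0 := by ext; simpa using hi
        have e2 : j = 0 := by ext; simpa using hj
        subst e1 e2
        exact h2 u v huv
      · have hi : (i : ℕ) < t := by have := j.2; omega
        have e1 : i = (⟨i, hi⟩ : Fin t).castSucc := by ext; simp
        have e2 : j = (⟨i, hi⟩ : Fin t).succ := by ext; simp only [Fin.val_succ]; omega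
        have := h1 ⟨i, hi⟩ u v huv
        simp only [← e1, ← e2] at this
        exact this
      · have hi : (j : ℕ) < t := by have := i.2; omega
        have e1 : j = (⟨j, hi⟩ : Fin t).castSucc := by ext; simp
        have e2 : i = (⟨j, hi⟩ : Fin t).succ := by ext; simp only [Fin.val_succ]; omega
        have := h1 ⟨j, hi⟩ v u huv.symm
        simp only [← e1, ← e2] at this
        rw [hf, hf (some (u, i))]
        exact this
  intro i
  apply RelIso.ext
  intro u
  have := congrArg (fun φ => φ (some (u, i))) key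
  simpa [liftT_some] using this

theorem dist_of_rigidT
    (hstruct : ∀ φ : mu G t ≃g mu G t, φ none = none ∧ ∃ s : Fin (t + 1) → (G ≃g G),
      (∀ u i, φ (some (u, i)) = some (s i u, i)) ∧ ∀ i j u, Tw G (s i u) (s j u))
    (h : RigidT G t) : EdgeDist (mu G t) 2 := by
  rw [edgeDist_two_iff]
  obtain ⟨a, e, b, h⟩ := h
  refine ⟨col a e b, col_symm a e b, ?_⟩
  intro φ hφ
  obtain ⟨hw, s, hs, hst⟩ := hstruct φ
  have key := h s hst ?_ ?_ ?_
  · apply RelIso.ext
    rintro (_ | ⟨u, i⟩)
    · exact hw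
    · rw [hs, key i]
      rfl
  · intro i u v huv
    have := hφ (some (u, i.castSucc)) (some (v, i.succ)) ⟨huv, by right; left; simp⟩
    rw [hs, hs] at this
    simpa [col] using this
  · intro u v huv
    have := hφ (some (u, 0)) (some (v, 0)) ⟨huv, Or.inl ⟨rfl, rfl⟩⟩
    rw [hs, hs] at this
    simpa [col] using this
  · intro u
    have := hφ (some (u, Fin.last t)) none (by show ((Fin.last t : Fin (t + 1)) : ℕ) = t; simp)
    rw [hs, hw] at this
    simpa [col] using this

end

theorem mem_T_gen {V : Type*} [Fintype V] (G : SimpleGraph V) (hI : NoIso G) (hC : NoCentre G)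
    (hn : 3 ≤ Fintype.card V) (t : ℕ) :
    t ∈ T G ↔ 1 ≤ t ∧ (∃ σ : G ≃g G, σ ≠ RelIso.refl _) ∧ RigidT G t := by
  unfold T
  simp only [Set.mem_setOf_eq]
  rw [least_iff]
  constructor
  · rintro ⟨ht, h2, φ, hφ⟩
    refine ⟨ht, ?_, rigidT_of_dist G h2⟩
    obtain ⟨hw, s, hs, _⟩ := struct_gen G hI hC hn ht φ
    by_contra hcon
    push Not at hcon
    apply hφ
    apply RelIso.ext
    rintro (_ | ⟨u, i⟩)
    · exact hw
    · rw [hs, hcon (s i)]
      rfl
  · rintro ⟨ht, ⟨σ, hσ⟩, hd⟩
    exact ⟨ht, dist_of_rigidT G (struct_gen G hI hC hn ht) hd, lift G t σ,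
      fun h => hσ ((lift_refl_iff G σ).1 h)⟩

/-- membership in T from a distinguishing colouring with two colours -/
theorem mem_T_of_dist {V : Type*} (G : SimpleGraph V) {t : ℕ} (ht : 1 ≤ t)
    (hσ : ∃ σ : G ≃g G, σ ≠ RelIso.refl _) (h : EdgeDist (mu G t) 2) : t ∈ T G := by
  obtain ⟨σ, hσ⟩ := hσ
  exact ⟨ht, (least_iff _).2 ⟨h, lift G t σ, fun h => hσ ((lift_refl_iff G σ).1 h)⟩⟩

/-- without twins one automorphism is enough -/
theorem rigidT_iff {V : Type*} (G : SimpleGraph V) (hT : TwinFree G) (t : ℕ) :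
    RigidT G t ↔ RigidDeco G t := by
  constructor
  · rintro ⟨a, e, b, h⟩
    exact ⟨a, e, b, fun σ h1 h2 h3 => h (fun _ => σ) (fun _ _ _ _ => Iff.rfl) h1 h2 h3 0⟩
  · rintro ⟨a, e, b, h⟩
    refine ⟨a, e, b, ?_⟩
    intro s hs h1 h2 h3 i
    have he : ∀ i, s i = s 0 := by
      intro i
      apply RelIso.ext
      intro u
      exact hT _ _ (hs i 0 u)
    rw [he i]
    apply h (s 0)
    · intro i u v huv
      have := h1 i u v huv
      rwa [he, he i.succ] at this
    · exact h2
    · intro u
      have := h3 u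
      rwa [he] at this

end Pool.Agent.MY12
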