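import Mathlib

/-! Generalized Mycielskians and distinguishing index (definitions). -/

namespace Pool.Agent.MY12

open SimpleGraph

/-- The generalized Mycielskian of G with t levels: `some (u, i)` is the vertex u^i (0 ≤ i ≤ t, with
u^0 = u) and `none` is the root w. -/
def mu {V : Type*} (G : SimpleGraph V) (t : ℕ) : SimpleGraph (Option (V × Fin (t + 1))) where
  Adj x y :=
    match x, y with
    | some (u, i), some (v, j) =>
        G.Adj u v ∧ (((i : ℕ) = 0 ∧ (j : ℕ) = 0) ∨ (i : ℕ) + 1 = j ∨ (j : ℕ) + 1 = i)
    | some (_, i), none => (i : ℕ) = t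
    | none, some (_, i) => (i : ℕ) = t
    | none, none => False
  symm := ⟨by
    rintro (_ | ⟨u, i⟩) (_ | ⟨v, j⟩) h
    · exact h
    · exact h
    · exact h
    · exact ⟨h.1.symm, by omega⟩⟩
  loopless := ⟨by
    rintro (_ | ⟨u, i⟩) h
    · exact h
    · exact G.loopless.irrefl u h.1⟩

/-- H has a d-distinguishing edge colouring: one preserved by no automorphism but the identity. -/
def EdgeDist {W : Type*} (H : SimpleGraph W) (d : ℕ) : Prop :=
  ∃ c : H.edgeSet → Fin d, ∀ φ : H ≃g H, (∀ e, c (φ.mapEdgeSet e) = c e) → φ = RelIso.refl _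

/-- H has a d-distinguishing vertex colouring. -/
def VertDist {W : Type*} (H : SimpleGraph W) (d : ℕ) : Prop :=
  ∃ c : W → Fin d, ∀ φ : H ≃g H, (∀ x, c (φ x) = c x) → φ = RelIso.refl _

/-- The set of all t ≥ 1 for which the distinguishing index of the generalized Mycielskian of G is 2. -/
def T {V : Type*} (G : SimpleGraph V) : Set ℕ :=
  {t | 1 ≤ t ∧ IsLeast {d | EdgeDist (mu G t) d} 2}

/-- No two vertices have the same neighbourhood. -/
def TwinFree {V : Type*} (G : SimpleGraph V) : Prop :=
  ∀ u v, (∀ x, G.Adj u x ↔ G.Adj v x) → u = v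

/-- No isolated vertices. -/
def NoIso {V : Type*} (G : SimpleGraph V) : Prop := ∀ u, ∃ v, G.Adj u v

/-- G has a rigid decoration with t bits on each arc, one bit on each edge, one bit on each vertex:
only the identity automorphism of G preserves the decoration. -/
def RigidDeco {V : Type*} (G : SimpleGraph V) (t : ℕ) : Prop :=
  ∃ (a : Fin t → V → V → Bool) (e : Sym2 V → Bool) (b : V → Bool), ∀ σ : G ≃g G,
    (∀ i u v, G.Adj u v → a i (σ u) (σ v) = a i u v) →
    (∀ u v, G.Adj u v → e s(σ u, σ v) = e s(u, v)) →
    (∀ u, b (σ u) = b u) → σ = RelIso.refl _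

/-- No vertex meets all the edges. -/
def NoCentre {V : Type*} (G : SimpleGraph V) : Prop := ∀ c, ∃ u v, G.Adj u v ∧ u ≠ c ∧ v ≠ c

/-- Distinct vertices with the same neighbours have at most one neighbour (all twins are pendant). -/
def PendTwins {V : Type*} (G : SimpleGraph V) : Prop :=
  ∀ u v, u ≠ v → (∀ x, G.Adj u x ↔ G.Adj v x) → ∀ x y, G.Adj u x → G.Adj u y → x = y

/-- the vertices with the same neighbours as u -/
def twins {V : Type*} (G : SimpleGraph V) (u : V) : Set V := {v | ∀ x, G.Adj u x ↔ G.Adj v x}

/-- the classes of twins of the images of u under the automorphisms of G -/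
def orbTw {V : Type*} (G : SimpleGraph V) (u : V) : Set (Set V) :=
  Set.range (fun σ : G ≃g G => twins G (σ u))

/-- u has exactly four neighbours, and u is their only neighbour: u is the centre of a component
K_{1,4} -/
def Centre4 {V : Type*} (G : SimpleGraph V) (u : V) : Prop :=
  (G.neighborSet u).ncard = 4 ∧ ∀ v, G.Adj u v → ∀ w, G.Adj v w → w = u

/-- The star K_{1,m} with each edge subdivided once: `none` is the centre, `some (i, false)` the
middle vertex and `some (i, true)` the end vertex of the i-th leg. -/
def spider (m : ℕ) : SimpleGraph (Option (Fin m × Bool)) where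
  Adj x y :=
    match x, y with
    | none, some (_, c) => c = false
    | some (_, c), none => c = false
    | some (i, c), some (j, c') => i = j ∧ c ≠ c'
    | none, none => False
  symm := ⟨by
    rintro (_ | ⟨i, c⟩) (_ | ⟨j, c'⟩) h
    · exact h
    · exact h
    · exact h
    · exact ⟨h.1.symm, h.2.symm⟩⟩
  loopless := ⟨by
    rintro (_ | ⟨i, c⟩) h
    · exact h
    · exact h.2 rfl⟩

/-- The star K_{1,m} with four pendant vertices added at each leaf: `none` is the centre,
`some (i, none)` the middle vertex of the i-th leg, adjacent to the centre, and `some (i, some l)`,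
l = 0, 1, 2, 3, its four pendant neighbours. -/
def spider4 (m : ℕ) : SimpleGraph (Option (Fin m × Option (Fin 4))) where
  Adj x y :=
    match x, y with
    | none, some (_, none) => True
    | some (_, none), none => True
    | some (i, none), some (j, some _) => i = j
    | some (i, some _), some (j, none) => i = j
    | _, _ => False
  symm := ⟨by
    rintro (_ | ⟨i, _ | c⟩) (_ | ⟨j, _ | c'⟩) h
    · exact h
    · exact h
    · exact h
    · exact h
    · exact h
    · exact h.symm
    · exact h
    · exact h.symm
    · exact h⟩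
  loopless := ⟨by
    rintro (_ | ⟨i, _ | c⟩) h
    · exact h
    · exact h
    · exact h⟩

end Pool.Agent.MY12
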