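import Pool.Agent.MY12.Red2

/-! Vectors for the classes of twins. -/

namespace Pool.Agent.MY12

open SimpleGraph

section

variable {V : Type*}

open Classical in
/-- number of elements of F below y in the numbering ν -/
noncomputable def pos (ν : V → ℕ) (F : Finset V) (y : V) : ℕ := (F.filter (fun z => ν z < ν y)).card

theorem pos_lt {ν : V → ℕ} {F : Finset V} {y : V} (hy : y ∈ F) : pos ν F y < F.card := by
  classical
  unfold pos
  apply Finset.card_lt_card
  rw [Finset.ssubset_iff_of_subset (Finset.filter_subset _ _)]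
  exact ⟨y, hy, by simp⟩

theorem pos_strict {ν : V → ℕ} {F : Finset V} {y y' : V} (hy : y ∈ F) (h : ν y < ν y') :
    pos ν F y < pos ν F y' := by
  classical
  unfold pos
  apply Finset.card_lt_card
  rw [Finset.ssubset_iff_of_subset]
  · exact ⟨y, by simp [hy, h], by simp⟩
  · intro z hz
    rw [Finset.mem_filter] at hz ⊢
    exact ⟨hz.1, hz.2.trans h⟩

theorem pos_inj {ν : V → ℕ} (hν : Function.Injective ν) {F : Finset V} {y y' : V} (hy : y ∈ F)
    (hy' : y' ∈ F) (h : pos ν F y = pos ν F y') : y = y' := by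
  rcases lt_trichotomy (ν y) (ν y') with h1 | h1 | h1
  · have := pos_strict hy h1
    omega
  · exact hν h1
  · have := pos_strict hy' h1
    omega

theorem pos_surj {ν : V → ℕ} (hν : Function.Injective ν) {F : Finset V} {j : ℕ} (hj : j < F.card) :
    ∃ y ∈ F, pos ν F y = j := by
  classical
  have h1 : F.image (pos ν F) = Finset.range F.card := by
    apply Finset.eq_of_subset_of_card_le
    · intro a ha
      obtain ⟨y, hy, rfl⟩ := Finset.mem_image.1 ha
      exact Finset.mem_range.2 (pos_lt hy)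
    · rw [Finset.card_range, Finset.card_image_of_injOn]
      intro y hy y' hy' h
      exact pos_inj hν hy hy' h
  have h2 : j ∈ F.image (pos ν F) := by
    rw [h1]
    exact Finset.mem_range.2 hj
  obtain ⟨y, hy, h3⟩ := Finset.mem_image.1 h2
  exact ⟨y, hy, h3⟩

variable [Fintype V] (G : SimpleGraph V)

/-- the class of u -/
noncomputable def Cl (u : V) : Finset V := by
  classical
  exact Finset.univ.filter (fun v => Tw G u v)

variable {G}

theorem mem_Cl {u v : V} : v ∈ Cl G u ↔ Tw G u v := by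
  classical
  simp [Cl]

theorem self_Cl (u : V) : u ∈ Cl G u := mem_Cl.2 fun _ => Iff.rfl

theorem Cl_tw {u v : V} (h : Tw G u v) : Cl G u = Cl G v := by
  ext w
  rw [mem_Cl, mem_Cl]
  exact ⟨fun h' => h.symm.trans h', fun h' => h.trans h'⟩

variable (G)

/-- the size of the class -/
noncomputable def kk (u : V) : ℕ := (Cl G u).card

/-- the degree -/
noncomputable def dd (u : V) : ℕ := (Nf G u).card

/-- the rank in the class -/
noncomputable def rk (ν : V → ℕ) (u : V) : ℕ := pos ν (Cl G u) u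

/-- the largest class next to u -/
noncomputable def KK (u : V) : ℕ := (Nf G u).sup (kk G)

/-- all neighbours lie in smaller classes -/
def LT (u : V) : Prop := ∀ v, G.Adj u v → kk G v < kk G u

variable {G}

theorem kk_tw {u v : V} (h : Tw G u v) : kk G u = kk G v := by
  unfold kk
  rw [Cl_tw h]

theorem dd_tw {u v : V} (h : Tw G u v) : dd G u = dd G v := by
  unfold dd
  rw [Nf_tw h]

theorem KK_tw {u v : V} (h : Tw G u v) : KK G u = KK G v := by
  unfold KK
  rw [Nf_tw h]

theorem LT_tw {u v : V} (h : Tw G u v) : LT G u ↔ LT G v := by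
  constructor
  · intro hu w hw
    rw [← kk_tw h]
    exact hu w ((h w).2 hw)
  · intro hv w hw
    rw [kk_tw h]
    exact hv w ((h w).1 hw)

theorem kk_pos (u : V) : 1 ≤ kk G u := Finset.card_pos.2 ⟨u, self_Cl u⟩

theorem rk_lt {ν : V → ℕ} (u : V) : rk G ν u < kk G u := pos_lt (self_Cl u)

theorem rk_inj {ν : V → ℕ} (hν : Function.Injective ν) {u v : V} (h : Tw G u v)
    (he : rk G ν u = rk G ν v) : u = v := by
  unfold rk at he
  rw [← Cl_tw h] at he
  exact pos_inj hν (self_Cl u) (mem_Cl.2 h) he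

theorem rk_surj {ν : V → ℕ} (hν : Function.Injective ν) {u : V} {j : ℕ} (hj : j < kk G u) :
    ∃ v, Tw G u v ∧ rk G ν v = j := by
  obtain ⟨v, hv, h⟩ := pos_surj hν hj
  refine ⟨v, mem_Cl.1 hv, ?_⟩
  unfold rk
  rw [← Cl_tw (mem_Cl.1 hv)]
  exact h

theorem le_KK {x y : V} (h : G.Adj x y) : kk G y ≤ KK G x :=
  Finset.le_sup (f := kk G) ((mem_Nf _ _ _).2 h)

theorem exists_KK {x : V} (h : ∃ y, G.Adj x y) : ∃ y, G.Adj x y ∧ kk G y = KK G x := by
  obtain ⟨y, hy⟩ := h
  obtain ⟨z, hz, h1⟩ := Finset.exists_mem_eq_sup (Nf G x) ⟨y, (mem_Nf _ _ _).2 hy⟩ (kk G)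
  exact ⟨z, (mem_Nf _ _ _).1 hz, h1.symm⟩

theorem KK_pos {x : V} (h : ∃ y, G.Adj x y) : 1 ≤ KK G x := by
  obtain ⟨y, hy⟩ := h
  exact (kk_pos y).trans (le_KK hy)

theorem exists_nbr_rk {ν : V → ℕ} (hν : Function.Injective ν) {x : V} (h : ∃ y, G.Adj x y) {j : ℕ}
    (hj : j < KK G x) : ∃ y, G.Adj x y ∧ rk G ν y = j := by
  obtain ⟨y, hy, h1⟩ := exists_KK h
  rw [← h1] at hj
  obtain ⟨z, hz, h2⟩ := rk_surj hν hj
  exact ⟨z, ((hz x).1 hy.symm).symm, h2⟩

theorem exists_nbr_pos {ν : V → ℕ} (hν : Function.Injective ν) {x : V} {j : ℕ} (hj : j < dd G x) :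
    ∃ y, G.Adj x y ∧ pos ν (Nf G x) y = j := by
  obtain ⟨y, hy, h⟩ := pos_surj hν hj
  exact ⟨y, (mem_Nf _ _ _).1 hy, h⟩

variable (G)

/-- bits of the position in the layers -/
noncomputable def bt (ν : V → ℕ) (x y : V) : Bool :=
  ((rk G ν x - (KK G x - 1)) % 2 ^ dd G x).testBit (pos ν (Nf G x) y)

/-- vectors of the first kind -/
noncomputable def ga (ν : V → ℕ) (x y : V) : Bool :=
  if KK G x = 1 then bt G ν x y
  else if rk G ν x + 1 < KK G x then decide (rk G ν y ≤ rk G ν x)
  else decide (2 ^ dd G x ≤ rk G ν x - (KK G x - 1))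

/-- vectors of the second kind -/
noncomputable def de (ν : V → ℕ) (x y : V) : Bool :=
  if KK G x = 1 then
    (if rk G ν x < 2 ^ dd G x then false
     else if 2 ≤ dd G x then decide (pos ν (Nf G x) y = rk G ν x % 2) else true)
  else if rk G ν x + 1 < KK G x then false
  else bt G ν x y

/-- vectors of the third kind -/
noncomputable def th (ν : V → ℕ) (x y : V) : Bool :=
  if KK G x = 1 then de G ν x y
  else if rk G ν x + 1 < KK G x then decide (rk G ν y ≤ rk G ν x)
  else bt G ν x y

variable {G}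

theorem bits_lt (d r r' : ℕ) (h : r < 2 ^ d) (h' : r' < 2 ^ d)
    (hb : ∀ i < d, r.testBit i = r'.testBit i) : r = r' := by
  apply Nat.eq_of_testBit_eq
  intro i
  rcases Nat.lt_or_ge i d with hi | hi
  · exact hb i hi
  · rw [Nat.testBit_lt_two_pow (lt_of_lt_of_le h (Nat.pow_le_pow_right (by norm_num) hi)),
      Nat.testBit_lt_two_pow (lt_of_lt_of_le h' (Nat.pow_le_pow_right (by norm_num) hi))]

theorem bt_eq {ν : V → ℕ} (hν : Function.Injective ν) {x x' : V} (hT : Tw G x x')
    (h : ∀ y, G.Adj x y → bt G ν x y = bt G ν x' y) :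
    (rk G ν x - (KK G x - 1)) % 2 ^ dd G x = (rk G ν x' - (KK G x - 1)) % 2 ^ dd G x := by
  apply bits_lt (dd G x) _ _ (Nat.mod_lt _ (by positivity)) (Nat.mod_lt _ (by positivity))
  intro i hi
  obtain ⟨y, hy, rfl⟩ := exists_nbr_pos hν hi
  have := h y hy
  unfold bt at this
  rwa [← KK_tw hT, ← dd_tw hT, ← Nf_tw hT] at this

theorem glue {a b D : ℕ} (ha : a < 2 * D) (hb : b < 2 * D) (h1 : a % D = b % D)
    (h2 : D ≤ a ↔ D ≤ b) : a = b := by
  rcases Nat.lt_or_ge a D with h | h
  · have h3 : b < D := by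
      by_contra hh
      have := h2.2 (by omega)
      omega
    rwa [Nat.mod_eq_of_lt h, Nat.mod_eq_of_lt h3] at h1
  · have h3 : D ≤ b := h2.1 h
    rw [Nat.mod_eq_sub_mod h, Nat.mod_eq_sub_mod h3, Nat.mod_eq_of_lt (by omega),
      Nat.mod_eq_of_lt (by omega)] at h1
    omega

/-- a special vertex is determined by its first vector -/
theorem J_spec {ν : V → ℕ} (hν : Function.Injective ν) {x x' : V} (hT : Tw G x x')
    (hN : ∃ y, G.Adj x y) (hK : KK G x ≠ 1) (hs : rk G ν x + 1 < KK G x)
    (h : ∀ y, G.Adj x y → ga G ν x y = ga G ν x' y) : x = x' := by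
  have hK' : KK G x' ≠ 1 := by rwa [← KK_tw hT]
  have e1 : ∀ y, ga G ν x y = decide (rk G ν y ≤ rk G ν x) := by
    intro y
    unfold ga
    rw [if_neg hK, if_pos hs]
  by_cases hs' : rk G ν x' + 1 < KK G x'
  · have e2 : ∀ y, ga G ν x' y = decide (rk G ν y ≤ rk G ν x') := by
      intro y
      unfold ga
      rw [if_neg hK', if_pos hs']
    rw [← KK_tw hT] at hs'
    apply rk_inj hν hT
    rcases lt_trichotomy (rk G ν x) (rk G ν x') with h1 | h1 | h1
    · obtain ⟨y, hy, hy2⟩ := exists_nbr_rk hν hN (show rk G ν x' < KK G x by omega)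
      have := h y hy
      rw [e1, e2, decide_eq_decide, hy2] at this
      omega
    · exact h1
    · obtain ⟨y, hy, hy2⟩ := exists_nbr_rk hν hN (show rk G ν x < KK G x by omega)
      have := h y hy
      rw [e1, e2, decide_eq_decide, hy2] at this
      omega
  · exfalso
    have e2 : ∀ y, ga G ν x' y = decide (2 ^ dd G x' ≤ rk G ν x' - (KK G x' - 1)) := by
      intro y
      unfold ga
      rw [if_neg hK', if_neg hs']
    obtain ⟨y, hy, hy2⟩ := exists_nbr_rk hν hN (show 0 < KK G x by omega)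
    obtain ⟨z, hz, hz2⟩ := exists_nbr_rk hν hN (show KK G x - 1 < KK G x by omega)
    have h1 := h y hy
    have h2 := h z hz
    rw [e1, e2, decide_eq_decide, hy2] at h1
    rw [e1, e2, decide_eq_decide, hz2] at h2
    omega

theorem J_main {ν : V → ℕ} (hν : Function.Injective ν) {x x' : V} (hT : Tw G x x')
    (hN : ∃ y, G.Adj x y) (hk : kk G x ≤ 2 ^ (dd G x + 1))
    (h : ∀ y, G.Adj x y → ga G ν x y = ga G ν x' y)
    (h1 : KK G x = 1 → ∀ y, G.Adj x y → de G ν x y = de G ν x' y)
    (h2 : KK G x ≠ 1 → ¬ rk G ν x + 1 < KK G x → ¬ rk G ν x' + 1 < KK G x →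
      ∀ y, G.Adj x y → bt G ν x y = bt G ν x' y) : x = x' := by
  have hr := rk_lt (G := G) (ν := ν) x
  have hr' := rk_lt (G := G) (ν := ν) x'
  have hkk := kk_tw hT
  have hp : 2 ^ (dd G x + 1) = 2 * 2 ^ dd G x := by ring
  by_cases hK : KK G x = 1
  · have hK' : KK G x' = 1 := by rwa [← KK_tw hT]
    have hb : ∀ y, G.Adj x y → bt G ν x y = bt G ν x' y := by
      intro y hy
      have := h y hy
      unfold ga at this
      rwa [if_pos hK, if_pos hK'] at this
    have e := bt_eq hν hT hb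
    rw [hK] at e
    simp only [Nat.sub_self, Nat.sub_zero] at e
    apply rk_inj hν hT
    refine glue (D := 2 ^ dd G x) (by omega) (by omega) e ?_
    have hd := h1 hK
    have hdx : ∀ y, de G ν x y = (if rk G ν x < 2 ^ dd G x then false
     else if 2 ≤ dd G x then decide (pos ν (Nf G x) y = rk G ν x % 2) else true) := by
      intro y
      unfold de
      rw [if_pos hK]
    have hdx' : ∀ y, de G ν x' y = (if rk G ν x' < 2 ^ dd G x then false
     else if 2 ≤ dd G x then decide (pos ν (Nf G x) y = rk G ν x' % 2) else true) := by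
      intro y
      unfold de
      rw [if_pos hK', dd_tw hT, Nf_tw hT]
    have key : ∀ a b : ℕ, a < 2 ^ dd G x → 2 ^ dd G x ≤ b → ∃ y, G.Adj x y ∧
        (if a < 2 ^ dd G x then false
         else if 2 ≤ dd G x then decide (pos ν (Nf G x) y = a % 2) else true) ≠
        (if b < 2 ^ dd G x then false
         else if 2 ≤ dd G x then decide (pos ν (Nf G x) y = b % 2) else true) := by
      intro a b ha hb'
      by_cases h2d : 2 ≤ dd G x
      · obtain ⟨y, hy, hy2⟩ := exists_nbr_pos (G := G) (x := x) hν (show b % 2 < dd G x by omega)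
        refine ⟨y, hy, ?_⟩
        rw [if_pos ha, if_neg (by omega), if_pos h2d, hy2]
        simp
      · obtain ⟨y, hy⟩ := hN
        refine ⟨y, hy, ?_⟩
        rw [if_pos ha, if_neg (by omega), if_neg h2d]
        simp
    constructor
    · intro ha
      by_contra hb'
      obtain ⟨y, hy, hne⟩ := key (rk G ν x') (rk G ν x) (by omega) ha
      apply hne
      rw [← hdx', ← hdx]
      exact (hd y hy).symm
    · intro ha
      by_contra hb'
      obtain ⟨y, hy, hne⟩ := key (rk G ν x) (rk G ν x') (by omega) ha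
      apply hne
      rw [← hdx', ← hdx]
      exact hd y hy
  · have hK' : KK G x' ≠ 1 := by rwa [← KK_tw hT]
    by_cases hs : rk G ν x + 1 < KK G x
    · exact J_spec hν hT hN hK hs h
    · by_cases hs' : rk G ν x' + 1 < KK G x
      · refine (J_spec hν hT.symm (by
          obtain ⟨y, hy⟩ := hN
          exact ⟨y, (hT y).1 hy⟩) hK' (by rwa [← KK_tw hT]) ?_).symm
        intro y hy
        exact (h y ((hT y).2 hy)).symm
      · have e := bt_eq hν hT (h2 hK hs hs')
        obtain ⟨y, hy⟩ := hN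
        have e2 := h y hy
        unfold ga at e2
        rw [if_neg hK, if_neg hK', if_neg hs, if_neg (by rwa [← KK_tw hT]), decide_eq_decide,
          ← KK_tw hT, ← dd_tw hT] at e2
        have e3 : rk G ν x - (KK G x - 1) = rk G ν x' - (KK G x - 1) :=
          glue (D := 2 ^ dd G x) (by omega) (by omega) e e2
        apply rk_inj hν hT
        omega

theorem J_de {ν : V → ℕ} (hν : Function.Injective ν) {x x' : V} (hT : Tw G x x')
    (hN : ∃ y, G.Adj x y) (hk : kk G x ≤ 2 ^ (dd G x + 1))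
    (h : ∀ y, G.Adj x y → ga G ν x y = ga G ν x' y)
    (h' : ∀ y, G.Adj x y → de G ν x y = de G ν x' y) : x = x' := by
  apply J_main hν hT hN hk h (fun _ => h')
  intro hK hs hs' y hy
  have hK' : KK G x' ≠ 1 := by rwa [← KK_tw hT]
  have hs'' : ¬ rk G ν x' + 1 < KK G x' := by rwa [← KK_tw hT]
  have := h' y hy
  unfold de at this
  rwa [if_neg hK, if_neg hs, if_neg hK', if_neg hs''] at this

theorem J_th {ν : V → ℕ} (hν : Function.Injective ν) {x x' : V} (hT : Tw G x x')
    (hN : ∃ y, G.Adj x y) (hk : kk G x ≤ 2 ^ (dd G x + 1))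
    (h : ∀ y, G.Adj x y → ga G ν x y = ga G ν x' y)
    (h' : ∀ y, G.Adj x y → th G ν x y = th G ν x' y) : x = x' := by
  apply J_main hν hT hN hk h
  · intro hK y hy
    have hK' : KK G x' = 1 := by rwa [← KK_tw hT]
    have := h' y hy
    unfold th at this
    rwa [if_pos hK, if_pos hK'] at this
  · intro hK hs hs' y hy
    have hK' : KK G x' ≠ 1 := by rwa [← KK_tw hT]
    have hs'' : ¬ rk G ν x' + 1 < KK G x' := by rwa [← KK_tw hT]
    have := h' y hy
    unfold th at this
    rwa [if_neg hK, if_neg hs, if_neg hK', if_neg hs''] at this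

end

end Pool.Agent.MY12
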