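import Pool.Agent.MY12.Dich1

/-! Colours of the layers for graphs with twins. -/

namespace Pool.Agent.MY12

open SimpleGraph

section

variable {V : Type*} [Fintype V] (G : SimpleGraph V)

open Classical in
/-- colours of the full layers -/
noncomputable def Full (ν : V → ℕ) (u v : V) : Bool :=
  if LT G u ∧ ¬ LT G v then ga G ν u v
  else if LT G v ∧ ¬ LT G u then ga G ν v u
  else decide (rk G ν u + rk G ν v < max (kk G u) (kk G v))

open Classical in
/-- colours of the other layers -/
noncomputable def Info (ν : V → ℕ) (u v : V) : Bool :=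
  if LT G u ∧ ¬ LT G v then de G ν u v
  else if LT G v ∧ ¬ LT G u then de G ν v u
  else false

variable {G}

theorem Full_symm (ν : V → ℕ) (u v : V) : Full G ν u v = Full G ν v u := by
  unfold Full
  by_cases h1 : LT G u <;> by_cases h2 : LT G v <;> simp [h1, h2, add_comm, max_comm]

theorem Info_symm (ν : V → ℕ) (u v : V) : Info G ν u v = Info G ν v u := by
  unfold Info
  by_cases h1 : LT G u <;> by_cases h2 : LT G v <;> simp [h1, h2]

theorem Full_L {ν : V → ℕ} {x y : V} (hx : LT G x) (hy : ¬ LT G y) :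
    Full G ν x y = ga G ν x y := by
  unfold Full
  rw [if_pos ⟨hx, hy⟩]

theorem Full_S {ν : V → ℕ} {x y : V} (hx : ¬ LT G x) (hy : ¬ LT G y) :
    Full G ν x y = decide (rk G ν x + rk G ν y < max (kk G x) (kk G y)) := by
  unfold Full
  rw [if_neg (fun h => hx h.1), if_neg (fun h => hy h.1)]

theorem Info_L {ν : V → ℕ} {x y : V} (hx : LT G x) (hy : ¬ LT G y) :
    Info G ν x y = de G ν x y := by
  unfold Info
  rw [if_pos ⟨hx, hy⟩]

theorem Info_S {ν : V → ℕ} {x y : V} (hx : ¬ LT G x) (hy : ¬ LT G y) : Info G ν x y = false := by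
  unfold Info
  rw [if_neg (fun h => hx h.1), if_neg (fun h => hy h.1)]

theorem not_LT_of_adj {u v : V} (h : G.Adj u v) (hu : LT G u) : ¬ LT G v := by
  intro hv
  have h1 := hu v h
  have h2 := hv u h.symm
  omega

theorem mono_S {ν : V → ℕ} {y y' v : V} (hT : Tw G y y') (hy : ¬ LT G y)
    (hr : rk G ν y < rk G ν y') (hv : G.Adj y v) (h : Full G ν v y' = true) :
    Full G ν v y = true := by
  have hy' : ¬ LT G y' := fun hh => hy ((LT_tw hT).2 hh)
  have hr' := rk_lt (G := G) (ν := ν) y'
  have hkk := kk_tw hT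
  by_cases hvL : LT G v
  · rw [Full_L hvL hy'] at h
    rw [Full_L hvL hy]
    have hle := le_KK hv.symm
    unfold ga at h ⊢
    have hK : KK G v ≠ 1 := by omega
    rw [if_neg hK] at h ⊢
    by_cases hs : rk G ν v + 1 < KK G v
    · rw [if_pos hs] at h ⊢
      rw [decide_eq_true_eq] at h ⊢
      omega
    · rw [if_neg hs] at h ⊢
      exact h
  · rw [Full_S hvL hy', decide_eq_true_eq] at h
    rw [Full_S hvL hy, decide_eq_true_eq, hkk]
    omega

theorem wit_S {ν : V → ℕ} (hν : Function.Injective ν) {y y' : V} (hT : Tw G y y')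
    (hy : ¬ LT G y) (hr : rk G ν y < rk G ν y') :
    ∃ v, G.Adj y v ∧ Full G ν v y = true ∧ Full G ν v y' = false ∧
      (LT G v → KK G v ≠ 1 ∧ rk G ν v + 1 < KK G v ∧ th G ν v y = true ∧ th G ν v y' = false) := by
  have hy' : ¬ LT G y' := fun hh => hy ((LT_tw hT).2 hh)
  have hr' := rk_lt (G := G) (ν := ν) y'
  have hkk := kk_tw hT
  have hy0 := hy
  unfold LT at hy0
  push Not at hy0
  obtain ⟨v0, hv0, hle⟩ := hy0
  by_cases hL : LT G v0
  · have hKle := le_KK hv0.symm
    obtain ⟨v, hv, hv2⟩ := rk_surj hν (show rk G ν y < kk G v0 by omega)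
    have hKK := KK_tw hv
    have hadj : G.Adj y v := ((hv y).1 hv0.symm).symm
    have hvL : LT G v := (LT_tw hv).1 hL
    have hK : KK G v ≠ 1 := by omega
    have hs : rk G ν v + 1 < KK G v := by omega
    refine ⟨v, hadj, ?_, ?_, fun _ => ⟨hK, hs, ?_, ?_⟩⟩
    · rw [Full_L hvL hy]
      unfold ga
      rw [if_neg hK, if_pos hs, decide_eq_true_eq]
      omega
    · rw [Full_L hvL hy']
      unfold ga
      rw [if_neg hK, if_pos hs, decide_eq_false_iff_not]
      omega
    · unfold th
      rw [if_neg hK, if_pos hs, decide_eq_true_eq]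
      omega
    · unfold th
      rw [if_neg hK, if_pos hs, decide_eq_false_iff_not]
      omega
  · obtain ⟨v, hv, hv2⟩ := rk_surj hν (show kk G v0 - rk G ν y' < kk G v0 by omega)
    have hadj : G.Adj y v := ((hv y).1 hv0.symm).symm
    have hvL : ¬ LT G v := fun hh => hL ((LT_tw hv).2 hh)
    have hkv := kk_tw hv
    refine ⟨v, hadj, ?_, ?_, fun hh => absurd hh hvL⟩
    · rw [Full_S hvL hy, decide_eq_true_eq]
      have := le_max_left (kk G v) (kk G y)
      omega
    · rw [Full_S hvL hy', decide_eq_false_iff_not]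
      have : max (kk G v) (kk G y') = kk G v := max_eq_left (by omega)
      omega

/-- number of true colours of the full layers at u -/
noncomputable def dF (G : SimpleGraph V) (ν : V → ℕ) (u : V) : ℕ :=
  ((Nf G u).filter (fun v => Full G ν u v = true)).card

theorem dF_lt {ν : V → ℕ} (hν : Function.Injective ν) {y y' : V} (hT : Tw G y y')
    (hy : ¬ LT G y) (hr : rk G ν y < rk G ν y') : dF G ν y' < dF G ν y := by
  classical
  unfold dF
  apply Finset.card_lt_card
  rw [Finset.ssubset_iff_of_subset]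
  · obtain ⟨v, hv, h1, h2, _⟩ := wit_S hν hT hy hr
    refine ⟨v, ?_, ?_⟩
    · rw [Finset.mem_filter, mem_Nf, Full_symm]
      exact ⟨hv, h1⟩
    · rw [Finset.mem_filter, Full_symm, h2]
      simp
  · intro v hv
    rw [Finset.mem_filter, mem_Nf, Full_symm] at hv ⊢
    have hv1 : G.Adj y v := (hT v).2 hv.1
    exact ⟨hv1, mono_S hT hy hr hv1 hv.2⟩

theorem dF_inj {ν : V → ℕ} (hν : Function.Injective ν) {y y' : V} (hT : Tw G y y')
    (hy : ¬ LT G y) (h : dF G ν y = dF G ν y') : y = y' := by
  apply rk_inj hν hT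
  rcases lt_trichotomy (rk G ν y) (rk G ν y') with h1 | h1 | h1
  · have := dF_lt hν hT hy h1
    omega
  · exact h1
  · have := dF_lt hν hT.symm (fun hh => hy ((LT_tw hT).2 hh)) h1
    omega

theorem testBit_sub_pow {m p : ℕ} (h : m.testBit p = true) :
    2 ^ p ≤ m ∧ (m - 2 ^ p).testBit p = false := by
  have h1 : 2 ^ p ≤ m := Nat.ge_two_pow_of_testBit h
  refine ⟨h1, ?_⟩
  obtain ⟨m', rfl⟩ := Nat.exists_eq_add_of_le' h1
  rw [Nat.add_sub_cancel]
  have hp : 0 < 2 ^ p := by positivity
  rw [Nat.testBit_eq_decide_div_mod_eq, Nat.add_div_right _ hp, decide_eq_true_eq] at h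
  rw [Nat.testBit_eq_decide_div_mod_eq, decide_eq_false_iff_not]
  omega

/-- the weight by which a true element is lowered -/
noncomputable def wt (G : SimpleGraph V) (ν : V → ℕ) (u x : V) : ℕ :=
  if KK G x = 1 then 2 ^ dd G x else 2 ^ pos ν (Nf G x) u

theorem de_true {ν : V → ℕ} {u x : V} (h : de G ν x u = true) :
    (KK G x = 1 → 2 ^ dd G x ≤ rk G ν x ∧ (2 ≤ dd G x → pos ν (Nf G x) u = rk G ν x % 2)) ∧
    (KK G x ≠ 1 → KK G x - 1 + 2 ^ pos ν (Nf G x) u ≤ rk G ν x ∧
      (rk G ν x - (KK G x - 1)).testBit (pos ν (Nf G x) u) = true) := by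
  constructor
  · intro hK
    unfold de at h
    rw [if_pos hK] at h
    by_cases h1 : rk G ν x < 2 ^ dd G x
    · rw [if_pos h1] at h
      exact absurd h (by simp)
    · rw [if_neg h1] at h
      refine ⟨by omega, ?_⟩
      intro h2
      rw [if_pos h2, decide_eq_true_eq] at h
      exact h
  · intro hK
    unfold de at h
    rw [if_neg hK] at h
    by_cases h1 : rk G ν x + 1 < KK G x
    · rw [if_pos h1] at h
      exact absurd h (by simp)
    · rw [if_neg h1] at h
      unfold bt at h
      rw [Nat.testBit_mod_two_pow, Bool.and_eq_true] at h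
      have h2 := (testBit_sub_pow h.2).1
      exact ⟨by omega, h.2⟩

theorem Info_true {ν : V → ℕ} {u x : V} (hu : ¬ LT G u) (h : Info G ν u x = true) :
    LT G x ∧ de G ν x u = true := by
  by_cases hx : LT G x
  · rw [Info_symm, Info_L hx hu] at h
    exact ⟨hx, h⟩
  · rw [Info_S hu hx] at h
    exact absurd h (by simp)

theorem half_step {ν : V → ℕ} (hν : Function.Injective ν) {u x : V} (hu : ¬ LT G u)
    (hux : G.Adj u x) (hcl : kk G x ≤ 2 ^ (dd G x + 1)) (h : Info G ν u x = true) :
    ∃ z, Tw G x z ∧ rk G ν z + wt G ν u x = rk G ν x ∧ Info G ν u z = false := by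
  obtain ⟨hx, hd⟩ := Info_true hu h
  obtain ⟨hA, hB⟩ := de_true hd
  have hr := rk_lt (G := G) (ν := ν) x
  have hpow : 2 ^ (dd G x + 1) = 2 * 2 ^ dd G x := by ring
  by_cases hK : KK G x = 1
  · obtain ⟨h1, h2⟩ := hA hK
    obtain ⟨z, hz, hz2⟩ := rk_surj hν (show rk G ν x - 2 ^ dd G x < kk G x by omega)
    refine ⟨z, hz, ?_, ?_⟩
    · unfold wt
      rw [if_pos hK]
      omega
    · rw [Info_symm, Info_L ((LT_tw hz).1 hx) hu]
      unfold de
      rw [if_pos (by rwa [← KK_tw hz]), if_pos]
      rw [← dd_tw hz]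
      omega
  · obtain ⟨h1, h2⟩ := hB hK
    obtain ⟨z, hz, hz2⟩ := rk_surj hν
      (lt_of_le_of_lt (Nat.sub_le (rk G ν x) (2 ^ pos ν (Nf G x) u)) hr)
    refine ⟨z, hz, ?_, ?_⟩
    · unfold wt
      rw [if_neg hK]
      omega
    · rw [Info_symm, Info_L ((LT_tw hz).1 hx) hu]
      unfold de
      rw [if_neg (by rwa [← KK_tw hz]), if_neg (by rw [← KK_tw hz]; omega)]
      unfold bt
      rw [← KK_tw hz, ← dd_tw hz, ← Nf_tw hz, Nat.testBit_mod_two_pow]
      have e : rk G ν z - (KK G x - 1) = rk G ν x - (KK G x - 1) - 2 ^ pos ν (Nf G x) u := by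
        omega
      rw [e, (testBit_sub_pow h2).2, Bool.and_false]

theorem half_miss {ν : V → ℕ} (hν : Function.Injective ν) {u v : V} (hu : ¬ LT G u)
    (huv : G.Adj u v) (hcl : kk G v ≤ 2 ^ (dd G v + 1)) (hv : ¬ (dd G v = 1 ∧ kk G v = 4)) :
    ∃ v0, G.Adj u v0 ∧ Info G ν u v0 = false ∧ ∀ x, G.Adj u x → Info G ν u x = true →
      Tw G x v0 → rk G ν v0 + wt G ν u x ≠ rk G ν x := by
  by_cases hvL : LT G v
  · by_cases hK : KK G v = 1
    · have hk1 := hvL u huv.symm
      have hk2 := kk_pos (G := G) u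
      by_cases hd : 2 ≤ dd G v
      · have h4 : 2 ^ 2 ≤ 2 ^ dd G v := Nat.pow_le_pow_right (by norm_num) hd
        obtain ⟨z, hz, hz2⟩ := rk_surj hν
          (show (if pos ν (Nf G v) u = 0 then 1 else 0) < kk G v by split_ifs <;> omega)
        refine ⟨z, ((hz u).1 huv.symm).symm, ?_, ?_⟩
        · rw [Info_symm, Info_L ((LT_tw hz).1 hvL) hu]
          unfold de
          rw [if_pos (by rwa [← KK_tw hz]), if_pos]
          rw [← dd_tw hz, hz2]
          split_ifs <;> omega
        · intro x hx hI hT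
          obtain ⟨hxL, hd'⟩ := Info_true hu hI
          have hTv : Tw G x v := hT.trans hz.symm
          obtain ⟨h1, h2⟩ := (de_true hd').1 (by rwa [KK_tw hTv])
          have h3 := h2 (by rwa [dd_tw hTv])
          rw [Nf_tw hTv] at h3
          unfold wt
          rw [if_pos (by rwa [KK_tw hTv]), dd_tw hTv, hz2]
          intro hh
          have hpow : 2 ^ dd G v = 2 * 2 ^ (dd G v - 1) := by
            rw [← pow_succ']
            congr 1
            omega
          rw [← hh, hpow] at h3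
          split_ifs at h3 with h0 <;> omega
      · have hd1 : dd G v = 1 := by
          have : 0 < dd G v := Finset.card_pos.2 ⟨u, (mem_Nf _ _ _).2 huv.symm⟩
          omega
        rw [hd1] at hcl hv
        have hk3 : kk G v ≤ 3 := by
          have : kk G v ≠ 4 := fun h => hv ⟨rfl, h⟩
          omega
        obtain ⟨z, hz, hz2⟩ := rk_surj hν (show 1 < kk G v by omega)
        refine ⟨z, ((hz u).1 huv.symm).symm, ?_, ?_⟩
        · rw [Info_symm, Info_L ((LT_tw hz).1 hvL) hu]
          unfold de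
          rw [if_pos (by rwa [← KK_tw hz]), if_pos]
          rw [← dd_tw hz, hz2, hd1]
          norm_num
        · intro x hx hI hT
          have hTv : Tw G x v := hT.trans hz.symm
          have h1 := rk_lt (G := G) (ν := ν) x
          rw [kk_tw hTv] at h1
          unfold wt
          rw [if_pos (by rwa [KK_tw hTv]), dd_tw hTv, hz2, hd1]
          omega
    · have hKp : 1 ≤ KK G v := KK_pos ⟨u, huv.symm⟩
      obtain ⟨z, hz, hz2⟩ := rk_surj hν (show 0 < kk G v from kk_pos v)
      refine ⟨z, ((hz u).1 huv.symm).symm, ?_, ?_⟩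
      · rw [Info_symm, Info_L ((LT_tw hz).1 hvL) hu]
        unfold de
        rw [if_neg (by rwa [← KK_tw hz]), if_pos]
        rw [← KK_tw hz, hz2]
        omega
      · intro x hx hI hT
        obtain ⟨hxL, hd'⟩ := Info_true hu hI
        have hTv : Tw G x v := hT.trans hz.symm
        have hKx : KK G x ≠ 1 := by rwa [KK_tw hTv]
        obtain ⟨h1, h2⟩ := (de_true hd').2 hKx
        unfold wt
        rw [if_neg hKx, hz2]
        have := KK_tw hTv
        omega
  · refine ⟨v, huv, Info_S hu hvL, ?_⟩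
    intro x hx hI hT
    exact absurd ((LT_tw hT).1 (Info_true hu hI).1) hvL

theorem half {ν : V → ℕ} (hν : Function.Injective ν) {u : V} (hu : ¬ LT G u)
    (hcl : ∀ x, kk G x ≤ 2 ^ (dd G x + 1)) (hK : ∃ v, G.Adj u v ∧ ¬ (dd G v = 1 ∧ kk G v = 4)) :
    2 * ((Nf G u).filter (fun v => Info G ν u v = true)).card < dd G u := by
  classical
  obtain ⟨v, huv, hv⟩ := hK
  obtain ⟨v0, hv0, hI0, hmiss⟩ := half_miss hν hu huv (hcl v) hv
  have hne : Nonempty V := ⟨u⟩
  have step : ∀ x, G.Adj u x → Info G ν u x = true →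
      ∃ z, Tw G x z ∧ rk G ν z + wt G ν u x = rk G ν x ∧ Info G ν u z = false :=
    fun x hx hI => half_step hν hu hx (hcl x) hI
  choose! φ hφ1 hφ2 hφ3 using step
  have hwt : ∀ x z, Tw G x z → wt G ν u x = wt G ν u z := by
    intro x z h
    unfold wt
    rw [KK_tw h, dd_tw h, Nf_tw h]
  have hsplit := Finset.card_filter_add_card_filter_not (s := Nf G u)
    (fun v => Info G ν u v = true)
  have hlt : ((Nf G u).filter (fun v => Info G ν u v = true)).card
      < ((Nf G u).filter (fun v => ¬ Info G ν u v = true)).card := by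
    rw [← Finset.card_image_of_injOn (f := φ)]
    · apply Finset.card_lt_card
      rw [Finset.ssubset_iff_of_subset]
      · refine ⟨v0, ?_, ?_⟩
        · rw [Finset.mem_filter, mem_Nf, hI0]
          exact ⟨hv0, by simp⟩
        · intro hmem
          obtain ⟨x, hx, hx2⟩ := Finset.mem_image.1 hmem
          rw [Finset.mem_filter, mem_Nf] at hx
          have h1 := hφ1 x hx.1 hx.2
          have h2 := hφ2 x hx.1 hx.2
          rw [hx2] at h1 h2
          exact hmiss x hx.1 hx.2 h1 h2
      · intro z hz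
        obtain ⟨x, hx, rfl⟩ := Finset.mem_image.1 hz
        rw [Finset.mem_filter, mem_Nf] at hx ⊢
        refine ⟨((hφ1 x hx.1 hx.2 u).1 hx.1.symm).symm, ?_⟩
        rw [hφ3 x hx.1 hx.2]
        simp
    · intro x hx y hy hxy
      rw [Finset.mem_coe, Finset.mem_filter, mem_Nf] at hx hy
      have h1 := hφ1 x hx.1 hx.2
      have h2 := hφ1 y hy.1 hy.2
      have h3 := hφ2 x hx.1 hx.2
      have h4 := hφ2 y hy.1 hy.2
      rw [← hxy] at h2 h4
      have hT : Tw G x y := h1.trans h2.symm
      apply rk_inj hν hT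
      rw [← h3, ← h4, hwt x y hT]
  have hdd : dd G u = (Nf G u).card := rfl
  omega

end

end Pool.Agent.MY12
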