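import Pool.Agent.MY12.Dich2
import Pool.Agent.MY12.CritGen

/-! The generalized Mycielskian has a distinguishing colouring with two colours when t is large. -/

namespace Pool.Agent.MY12

open SimpleGraph

section

variable {V : Type*} [Fintype V] {G : SimpleGraph V}

theorem dd_iso (τ : G ≃g G) (u : V) : dd G (τ u) = dd G u := Nf_iso τ u

theorem kk_iso (τ : G ≃g G) (u : V) : kk G (τ u) = kk G u := by
  classical
  unfold kk
  have : Cl G (τ u) = (Cl G u).map τ.toEquiv.toEmbedding := by
    ext z
    rw [mem_Cl, Finset.mem_map]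
    constructor
    · intro hz
      obtain ⟨y, rfl⟩ := τ.surjective z
      exact ⟨y, mem_Cl.2 ((tw_iso τ).1 hz), rfl⟩
    · rintro ⟨y, hy, rfl⟩
      exact (tw_iso τ).2 (mem_Cl.1 hy)
  rw [this, Finset.card_map]

theorem LT_iso (τ : G ≃g G) (u : V) : LT G (τ u) ↔ LT G u := by
  constructor
  · intro h v hv
    have := h (τ v) (τ.map_adj_iff.2 hv)
    rwa [kk_iso, kk_iso] at this
  · intro h v hv
    obtain ⟨w, rfl⟩ := τ.surjective v
    rw [kk_iso, kk_iso]
    exact h w (τ.map_adj_iff.1 hv)

/-- all neighbours have degree one and three twins -/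
def Bad (G : SimpleGraph V) (u : V) : Prop := ∀ v, G.Adj u v → dd G v = 1 ∧ kk G v = 4

theorem Bad_iso (τ : G ≃g G) (u : V) : Bad G (τ u) ↔ Bad G u := by
  constructor
  · intro h v hv
    have := h (τ v) (τ.map_adj_iff.2 hv)
    rwa [kk_iso, dd_iso] at this
  · intro h v hv
    obtain ⟨w, rfl⟩ := τ.surjective v
    rw [kk_iso, dd_iso]
    exact h w (τ.map_adj_iff.1 hv)

theorem card_shift {f g : V → Bool} {u u' : V} (τ : G ≃g G)
    (hmap : ∀ v, G.Adj u' (τ v) ↔ G.Adj u v) (h : ∀ v, G.Adj u v → g (τ v) = f v) :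
    ((Nf G u').filter (fun v => g v = true)).card
      = ((Nf G u).filter (fun v => f v = true)).card := by
  classical
  have : (Nf G u').filter (fun v => g v = true)
      = ((Nf G u).filter (fun v => f v = true)).map τ.toEquiv.toEmbedding := by
    ext z
    rw [Finset.mem_filter, mem_Nf, Finset.mem_map]
    constructor
    · rintro ⟨h1, h2⟩
      obtain ⟨y, rfl⟩ := τ.surjective z
      have h3 := (hmap y).1 h1
      refine ⟨y, ?_, rfl⟩
      rw [Finset.mem_filter, mem_Nf, ← h y h3]
      exact ⟨h3, h2⟩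
    · rintro ⟨y, hy, rfl⟩
      rw [Finset.mem_filter, mem_Nf] at hy
      refine ⟨(hmap y).2 hy.1, ?_⟩
      have := h y hy.1
      rw [hy.2] at this
      exact this
  rw [this, Finset.card_map]

open Classical in
/-- the colours between the levels i and i + 1 -/
noncomputable def Kol (G : SimpleGraph V) (ν ω : V → ℕ) (t i : ℕ) (u v : V) : Bool :=
  if i + 2 ≤ t then
    (if (t - 2 - i) % 2 = 0 then Full G ν u v
     else xor (Info G ν u v) (decide (¬ LT G u ∧ (ω u).testBit ((t - 3 - i) / 2) = true)))
  else (if LT G v then (rk G ν v).testBit (pos ν (Nf G v) u)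
        else if LT G u then th G ν u v
        else Full G ν u v)

/-- the colours inside the level 0 -/
noncomputable def Kol0 (G : SimpleGraph V) (ν : V → ℕ) (t : ℕ) (u v : V) : Bool :=
  if t % 2 = 0 then Info G ν u v else Full G ν u v

open Classical in
/-- the colours at the root -/
noncomputable def KolB (G : SimpleGraph V) (ν : V → ℕ) (u : V) : Bool :=
  if LT G u then (rk G ν u).testBit (dd G u)
  else decide (Bad G u ∧ ∀ u', Bad G u' → ν u ≤ ν u')

theorem Kol_even {ν ω : V → ℕ} {t i : ℕ} {u v : V} (h : i + 2 ≤ t) (h' : (t - 2 - i) % 2 = 0) :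
    Kol G ν ω t i u v = Full G ν u v := by
  unfold Kol
  rw [if_pos h, if_pos h']

open Classical in
theorem Kol_odd {ν ω : V → ℕ} {t i : ℕ} {u v : V} (h : i + 2 ≤ t) (h' : ¬ (t - 2 - i) % 2 = 0) :
    Kol G ν ω t i u v = xor (Info G ν u v)
      (decide (¬ LT G u ∧ (ω u).testBit ((t - 3 - i) / 2) = true)) := by
  unfold Kol
  rw [if_pos h, if_neg h']

theorem Kol_last_L {ν ω : V → ℕ} {t i : ℕ} {u v : V} (h : ¬ i + 2 ≤ t) (h' : LT G v) :
    Kol G ν ω t i u v = (rk G ν v).testBit (pos ν (Nf G v) u) := by
  unfold Kol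
  rw [if_neg h, if_pos h']

theorem Kol_last_LS {ν ω : V → ℕ} {t i : ℕ} {u v : V} (h : ¬ i + 2 ≤ t) (h' : ¬ LT G v)
    (h'' : LT G u) : Kol G ν ω t i u v = th G ν u v := by
  unfold Kol
  rw [if_neg h, if_neg h', if_pos h'']

theorem Kol_last_SS {ν ω : V → ℕ} {t i : ℕ} {u v : V} (h : ¬ i + 2 ≤ t) (h' : ¬ LT G v)
    (h'' : ¬ LT G u) : Kol G ν ω t i u v = Full G ν u v := by
  unfold Kol
  rw [if_neg h, if_neg h', if_neg h'']

theorem xor_cancel {a b m : Bool} (h : xor a m = xor b m) : a = b := by
  revert h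
  cases a <;> cases b <;> cases m <;> simp

theorem dich_main (hI : NoIso G) {ν ω : V → ℕ} (hν : Function.Injective ν)
    (hω1 : ∀ u v, Tw G u v → ω u = ω v)
    (hdec : ∀ σ : G ≃g G, (∀ u, ¬ LT G u → ¬ Bad G u → ω (σ u) = ω u) →
      (∀ u, ¬ LT G u → Bad G u → σ u = u) → ∀ u, ¬ LT G u → Tw G (σ u) u)
    {L : ℕ} (hL : ∀ u, ω u < 2 ^ L) {t : ℕ} (ht : 2 * L + 1 ≤ t) (hcl : ∀ x, kk G x ≤ 2 ^ (dd G x + 1))
    (hbad : ∀ a b c, Bad G a → Bad G b → Bad G c → a = b ∨ a = c ∨ b = c)
    (S : ℕ → (G ≃g G)) (hS : ∀ i j u, Tw G (S i u) (S j u))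
    (h1 : ∀ i < t, ∀ u v, G.Adj u v → Kol G ν ω t i (S i u) (S (i + 1) v) = Kol G ν ω t i u v)
    (h2 : ∀ u v, G.Adj u v → Kol0 G ν t (S 0 u) (S 0 v) = Kol0 G ν t u v)
    (h3 : ∀ u, KolB G ν (S t u) = KolB G ν u) : ∀ j ≤ t, ∀ u, S j u = u := by
  classical
  have hadj : ∀ i j u v, G.Adj (S i u) (S j v) ↔ G.Adj u v := by
    intro i j u v
    rw [hS i j u, (S j).map_adj_iff]
  -- the classes of the vertices with a neighbour in a class not smaller
  have hQ1 : ∀ u, ¬ LT G u → ∀ j, Tw G (S j u) u := by
    suffices h : ∀ u, ¬ LT G u → Tw G (S t u) u by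
      intro u hu j
      exact (hS j t u).trans (h u hu)
    apply hdec
    rotate_left
    · intro u hu hb
      by_contra hne
      have hb' := (Bad_iso (S t) u).2 hb
      have hu' : ¬ LT G (S t u) := fun hh => hu ((LT_iso _ _).1 hh)
      have h := h3 u
      unfold KolB at h
      rw [if_neg hu, if_neg hu', decide_eq_decide] at h
      obtain ⟨c, hc, hmin⟩ := Finset.exists_min_image (Finset.univ.filter (fun v => Bad G v)) ν
        ⟨u, by simp [hb]⟩
      have hcb : Bad G c := by simpa using hc
      have hcm : ∀ v, Bad G v → ν c ≤ ν v := fun v hv => hmin v (by simpa using hv)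
      rcases hbad c u (S t u) hcb hb hb' with h4 | h4 | h4
      · have h5 := (h.2 ⟨hb, by rw [← h4]; exact hcm⟩).2 u hb
        have h6 := hcm _ hb'
        rw [h4] at h6
        exact hne (hν (le_antisymm h5 h6))
      · have h5 := (h.1 ⟨hb', by rw [← h4]; exact hcm⟩).2 _ hb'
        have h6 := hcm _ hb
        rw [h4] at h6
        exact hne (hν (le_antisymm h6 h5))
      · exact hne h4.symm
    · intro u hu hb
      apply bits_lt L _ _ (hL _) (hL _)
      intro k hk
      obtain ⟨i, hi⟩ : ∃ i, i = t - 3 - 2 * k := ⟨_, rfl⟩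
      have hi2 : i + 2 ≤ t := by omega
      have hodd : ¬ (t - 2 - i) % 2 = 0 := by omega
      have hti : (t - 3 - i) / 2 = k := by omega
      have hωi : ω (S t u) = ω (S i u) := hω1 _ _ (hS t i u)
      rw [hωi]
      have hu' : ¬ LT G (S i u) := fun hh => hu ((LT_iso _ _).1 hh)
      have hcount := card_shift (f := fun v => Kol G ν ω t i u v)
        (g := fun v => Kol G ν ω t i (S i u) v) (u := u) (u' := S i u) (S (i + 1))
        (fun v => hadj i (i + 1) u v) (fun v hv => h1 i (by omega) u v hv)
      have hkol : ∀ w, ¬ LT G w → ∀ v, Kol G ν ω t i w v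
          = xor (Info G ν w v) ((ω w).testBit k) := by
        intro w hw v
        rw [Kol_odd hi2 hodd, hti]
        congr 1
        rw [Bool.eq_iff_iff, decide_eq_true_eq]
        exact ⟨fun h => h.2, fun h => ⟨hw, h⟩⟩
      have hb' : ¬ Bad G (S i u) := fun hh => hb ((Bad_iso _ _).1 hh)
      unfold Bad at hb hb'
      push Not at hb hb'
      have hh1 := half hν hu hcl (by
        obtain ⟨v, hv, hv2⟩ := hb
        exact ⟨v, hv, fun h => hv2 h.1 h.2⟩)
      have hh2 := half hν hu' hcl (by
        obtain ⟨v, hv, hv2⟩ := hb'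
        exact ⟨v, hv, fun h => hv2 h.1 h.2⟩)
      have hsplit1 := Finset.card_filter_add_card_filter_not (s := Nf G u)
        (fun v => Info G ν u v = true)
      have hsplit2 := Finset.card_filter_add_card_filter_not (s := Nf G (S i u))
        (fun v => Info G ν (S i u) v = true)
      have hdd1 : dd G u = (Nf G u).card := rfl
      have hdd2 : dd G (S i u) = (Nf G (S i u)).card := rfl
      have hdd3 := dd_iso (S i) u
      simp only [hkol u hu, hkol _ hu'] at hcount
      have e1 : ∀ w v : V, (xor (Info G ν w v) true = true) ↔ ¬ Info G ν w v = true := by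
        intro w v
        simp
      have e2 : ∀ w v : V, (xor (Info G ν w v) false = true) ↔ Info G ν w v = true := by
        intro w v
        simp
      by_contra hne
      rcases hA : (ω u).testBit k with _ | _
      · have hB : (ω (S i u)).testBit k = true := by
          rw [hA] at hne
          simpa using hne
        rw [hA, hB] at hcount
        simp only [e1, e2] at hcount
        omega
      · have hB : (ω (S i u)).testBit k = false := by
          rw [hA] at hne
          simpa using hne
        rw [hA, hB] at hcount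
        simp only [e1, e2] at hcount
        omega
  have hQ2 : ∀ x, LT G x → ∀ j, Tw G (S j x) x := by
    intro x hx j w
    constructor
    · intro hw
      have hw2 : ¬ LT G w := not_LT_of_adj hw ((LT_iso _ _).2 hx)
      have h4 := (hQ1 w hw2 j (S j x)).2 hw.symm
      exact ((S j).map_adj_iff.1 h4).symm
    · intro hw
      have hw2 : ¬ LT G w := not_LT_of_adj hw hx
      exact ((hQ1 w hw2 j (S j x)).1 ((S j).map_adj_iff.2 hw.symm)).symm
  have hQ : ∀ u j, Tw G (S j u) u := by
    intro u j
    by_cases hu : LT G u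
    · exact hQ2 u hu j
    · exact hQ1 u hu j
  -- the vertices with a neighbour in a class not smaller, below the last level
  have hP1 : ∀ u, ¬ LT G u → ∀ j, j + 1 ≤ t → S j u = u := by
    intro u hu j hj
    have hu' : ¬ LT G (S j u) := fun hh => hu ((LT_iso _ _).1 hh)
    apply dF_inj hν (hQ u j) hu'
    unfold dF
    by_cases hc1 : j + 2 ≤ t ∧ (t - 2 - j) % 2 = 0
    · apply card_shift (S (j + 1)) (fun v => hadj j (j + 1) u v)
      intro v hv
      have := h1 j (by omega) u v hv
      rwa [Kol_even hc1.1 hc1.2, Kol_even hc1.1 hc1.2] at this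
    · rcases Nat.eq_zero_or_pos j with hj0 | hj0
      · subst hj0
        apply card_shift (S 0) (fun v => hadj 0 0 u v)
        intro v hv
        have := h2 u v hv
        unfold Kol0 at this
        rwa [if_neg (by omega), if_neg (by omega)] at this
      · obtain ⟨i, rfl⟩ : ∃ i, j = i + 1 := ⟨j - 1, by omega⟩
        have hi2 : i + 2 ≤ t := by omega
        have hev : (t - 2 - i) % 2 = 0 := by omega
        apply card_shift (S i) (fun v => hadj (i + 1) i u v)
        intro v hv
        have := h1 i (by omega) v u hv.symm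
        rw [Kol_even hi2 hev, Kol_even hi2 hev] at this
        rw [Full_symm, this, Full_symm]
  -- the other vertices below the last two levels
  have hP2 : ∀ x, LT G x → ∀ j, j + 2 ≤ t → S j x = x := by
    intro x hx j hj
    have hx' : LT G (S j x) := (LT_iso _ _).2 hx
    have key : ∀ y, G.Adj x y → Full G ν x y = Full G ν (S j x) y ∧
        Info G ν x y = Info G ν (S j x) y := by
      intro y hy
      have hyS : ¬ LT G y := not_LT_of_adj hy hx
      have hfix : ∀ i, i + 1 ≤ t → S i y = y := hP1 y hyS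
      by_cases hc1 : (t - 2 - j) % 2 = 0
      · constructor
        · have := h1 j (by omega) x y hy
          rw [Kol_even hj hc1, Kol_even hj hc1, hfix (j + 1) (by omega)] at this
          exact this.symm
        · rcases Nat.eq_zero_or_pos j with hj0 | hj0
          · subst hj0
            have := h2 x y hy
            unfold Kol0 at this
            rw [if_pos (by omega), if_pos (by omega), hfix 0 (by omega)] at this
            exact this.symm
          · obtain ⟨i, rfl⟩ : ∃ i, j = i + 1 := ⟨j - 1, by omega⟩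
            have hi2 : i + 2 ≤ t := by omega
            have hod : ¬ (t - 2 - i) % 2 = 0 := by omega
            have := h1 i (by omega) y x hy.symm
            rw [Kol_odd hi2 hod, Kol_odd hi2 hod, hfix i (by omega)] at this
            have h4 := xor_cancel this
            rw [Info_symm, ← h4, Info_symm]
      · constructor
        · rcases Nat.eq_zero_or_pos j with hj0 | hj0
          · subst hj0
            have := h2 x y hy
            unfold Kol0 at this
            rw [if_neg (by omega), if_neg (by omega), hfix 0 (by omega)] at this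
            exact this.symm
          · obtain ⟨i, rfl⟩ : ∃ i, j = i + 1 := ⟨j - 1, by omega⟩
            have hi2 : i + 2 ≤ t := by omega
            have hev : (t - 2 - i) % 2 = 0 := by omega
            have := h1 i (by omega) y x hy.symm
            rw [Kol_even hi2 hev, Kol_even hi2 hev, hfix i (by omega)] at this
            rw [Full_symm, ← this, Full_symm]
        · have := h1 j (by omega) x y hy
          rw [Kol_odd hj hc1, Kol_odd hj hc1, hfix (j + 1) (by omega),
            decide_eq_false (fun h => h.1 hx'), decide_eq_false (fun h => h.1 hx),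
            Bool.xor_false, Bool.xor_false] at this
          exact this.symm
    symm
    apply J_de hν (hQ x j).symm (hI x) (hcl x)
    · intro y hy
      have := (key y hy).1
      rwa [Full_L hx (not_LT_of_adj hy hx), Full_L hx' (not_LT_of_adj hy hx)] at this
    · intro y hy
      have := (key y hy).2
      rwa [Info_L hx (not_LT_of_adj hy hx), Info_L hx' (not_LT_of_adj hy hx)] at this
  -- the last two levels
  obtain ⟨q, rfl⟩ : ∃ q, t = q + 1 := ⟨t - 1, by omega⟩
  have hga : ∀ x, LT G x → ∀ y, G.Adj x y → ga G ν x y = ga G ν (S q x) y := by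
    intro x hx y hy
    have hx' : LT G (S q x) := (LT_iso _ _).2 hx
    have hyS : ¬ LT G y := not_LT_of_adj hy hx
    rcases Nat.eq_zero_or_pos q with hq0 | hq0
    · subst hq0
      have := h2 x y hy
      unfold Kol0 at this
      rw [if_neg (by omega), if_neg (by omega), hP1 y hyS 0 (by omega), Full_L hx' hyS,
        Full_L hx hyS] at this
      exact this.symm
    · obtain ⟨r, rfl⟩ : ∃ r, q = r + 1 := ⟨q - 1, by omega⟩
      have := h1 r (by omega) y x hy.symm
      rw [Kol_even (by omega) (by omega), Kol_even (by omega) (by omega),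
        hP1 y hyS r (by omega), Full_symm, Full_symm ν y x, Full_L hx' hyS, Full_L hx hyS] at this
      exact this.symm
  have hP3 : ∀ x, LT G x → KK G x ≠ 1 → rk G ν x + 1 < KK G x → S q x = x := by
    intro x hx hK hs
    exact (J_spec hν (hQ x q).symm (hI x) hK hs (hga x hx)).symm
  have hlast : ¬ q + 2 ≤ q + 1 := by omega
  have hwit : ∀ y y', Tw G y y' → ¬ LT G y → rk G ν y < rk G ν y' →
      ∃ v, G.Adj y v ∧ S q v = v ∧ Kol G ν ω (q + 1) q v y ≠ Kol G ν ω (q + 1) q v y' := by
    intro y y' hT hy hr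
    have hy' : ¬ LT G y' := fun hh => hy ((LT_tw hT).2 hh)
    obtain ⟨v, hv, hv1, hv2, hv3⟩ := wit_S hν hT hy hr
    by_cases hvL : LT G v
    · obtain ⟨h4, h5, h6, h7⟩ := hv3 hvL
      refine ⟨v, hv, hP3 v hvL h4 h5, ?_⟩
      rw [Kol_last_LS hlast hy hvL, Kol_last_LS hlast hy' hvL, h6, h7]
      simp
    · refine ⟨v, hv, hP1 v hvL q (by omega), ?_⟩
      rw [Kol_last_SS hlast hy hvL, Kol_last_SS hlast hy' hvL, hv1, hv2]
      simp
  have hP4 : ∀ y, ¬ LT G y → S (q + 1) y = y := by
    intro y hy
    have hy' : ¬ LT G (S (q + 1) y) := fun hh => hy ((LT_iso _ _).1 hh)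
    have hT := hQ y (q + 1)
    apply rk_inj hν hT
    rcases lt_trichotomy (rk G ν (S (q + 1) y)) (rk G ν y) with h4 | h4 | h4
    · exfalso
      obtain ⟨v, hv, hv1, hv2⟩ := hwit _ _ hT hy' h4
      apply hv2
      have := h1 q (by omega) v y ((hT v).1 hv).symm
      rwa [hv1] at this
    · exact h4
    · exfalso
      obtain ⟨v, hv, hv1, hv2⟩ := hwit _ _ hT.symm hy h4
      apply hv2
      have := h1 q (by omega) v y hv.symm
      rw [hv1] at this
      exact this.symm
  have hP5 : ∀ x, LT G x → S q x = x := by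
    intro x hx
    have hx' : LT G (S q x) := (LT_iso _ _).2 hx
    symm
    apply J_th hν (hQ x q).symm (hI x) (hcl x) (hga x hx)
    intro y hy
    have hyS : ¬ LT G y := not_LT_of_adj hy hx
    have := h1 q (by omega) x y hy
    rw [show S (q + 1) y = y from hP4 y hyS, Kol_last_LS hlast hyS hx',
      Kol_last_LS hlast hyS hx] at this
    exact this.symm
  have hP6 : ∀ x, LT G x → S (q + 1) x = x := by
    intro x hx
    have hx' : LT G (S (q + 1) x) := (LT_iso _ _).2 hx
    have hT := hQ x (q + 1)
    apply rk_inj hν hT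
    have hr1 := rk_lt (G := G) (ν := ν) x
    have hr2 := rk_lt (G := G) (ν := ν) (S (q + 1) x)
    rw [kk_tw hT] at hr2
    have hc := hcl x
    apply bits_lt (dd G x + 1) _ _ (by omega) (by omega)
    intro i hi
    rcases Nat.lt_or_ge i (dd G x) with hi2 | hi2
    · obtain ⟨y, hy, rfl⟩ := exists_nbr_pos hν hi2
      have hyS : ¬ LT G y := not_LT_of_adj hy hx
      have := h1 q (by omega) y x hy.symm
      rw [show S (q + 1) x = S (q + 1) x from rfl, hP1 y hyS q (by omega),
        Kol_last_L hlast hx', Kol_last_L hlast hx, Nf_tw hT] at this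
      exact this
    · have hi3 : i = dd G x := by omega
      subst hi3
      have := h3 x
      unfold KolB at this
      rw [if_pos hx, if_pos hx', dd_tw hT] at this
      exact this
  intro j hj u
  by_cases hu : LT G u
  · rcases Nat.lt_or_ge q j with h4 | h4
    · obtain rfl : j = q + 1 := by omega
      exact hP6 u hu
    · rcases Nat.eq_or_lt_of_le h4 with h5 | h5
      · subst h5
        exact hP5 u hu
      · exact hP2 u hu j (by omega)
  · rcases Nat.lt_or_ge q j with h4 | h4
    · obtain rfl : j = q + 1 := by omega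
      exact hP4 u hu
    · exact hP1 u hu j (by omega)

theorem exists_enum {α : Type*} (X : Set α) (hX : X.Finite) :
    ∃ f : α → ℕ, Set.InjOn f X ∧ (∀ x ∈ X, f x < X.ncard) := by
  classical
  have : Finite X := hX
  refine ⟨fun x => if h : x ∈ X then (Finite.equivFin X ⟨x, h⟩ : ℕ) else 0, ?_, ?_⟩
  · intro x hx y hy hxy
    simp only [dif_pos hx, dif_pos hy] at hxy
    have := (Finite.equivFin X).injective (Fin.ext hxy)
    exact congrArg Subtype.val this
  · intro x hx
    simp only [dif_pos hx]
    exact (Finite.equivFin X ⟨x, hx⟩).2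

omit [Fintype V] in
theorem twins_eq {u v : V} : twins G u = twins G v ↔ Tw G u v := by
  constructor
  · intro h
    have h1 : v ∈ twins G v := fun x => Iff.rfl
    rw [← h] at h1
    exact h1
  · intro h
    ext w
    exact ⟨fun h' => h.symm.trans h', fun h' => h.trans h'⟩

omit [Fintype V] in
theorem orbTw_iso (τ : G ≃g G) (u : V) : orbTw G (τ u) = orbTw G u := by
  ext X
  constructor
  · rintro ⟨σ, rfl⟩
    exact ⟨τ.trans σ, rfl⟩
  · rintro ⟨σ, rfl⟩
    refine ⟨τ.symm.trans σ, ?_⟩
    show twins G (σ (τ.symm (τ u))) = twins G (σ u)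
    rw [RelIso.symm_apply_apply]

omit [Fintype V] in
theorem orbTw_tw {u v : V} (h : Tw G u v) : orbTw G u = orbTw G v := by
  unfold orbTw
  congr 1
  funext σ
  exact twins_eq.2 ((tw_iso σ).2 h)

theorem dich_gen (hI : NoIso G) (hcl : ∀ x, kk G x ≤ 2 ^ (dd G x + 1))
    (hbad : ∀ a b c, Bad G a → Bad G b → Bad G c → a = b ∨ a = c ∨ b = c) {t L : ℕ}
    {ω : V → ℕ} (hω1 : ∀ u v, Tw G u v → ω u = ω v)
    (hdec : ∀ σ : G ≃g G, (∀ u, ¬ LT G u → ¬ Bad G u → ω (σ u) = ω u) →
      (∀ u, ¬ LT G u → Bad G u → σ u = u) → ∀ u, ¬ LT G u → Tw G (σ u) u)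
    (hωL : ∀ u, ω u < 2 ^ L) (ht : 2 * L + 1 ≤ t) : RigidT G t := by
  classical
  let ν : V → ℕ := fun u => (Fintype.equivFin V u : ℕ)
  have hν : Function.Injective ν := fun u v h => (Fintype.equivFin V).injective (Fin.ext h)
  refine ⟨fun i => Kol G ν ω t i, Sym2.lift ⟨fun u v => Kol0 G ν t u v, fun u v => ?_⟩,
    fun u => KolB G ν u, ?_⟩
  · show Kol0 G ν t u v = Kol0 G ν t v u
    unfold Kol0
    rw [Info_symm ν u v, Full_symm ν u v]
  · intro s hs h1 h2 h3
    have hlt : ∀ j, min j t < t + 1 := fun j => by omega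
    have key := dich_main hI hν hω1 hdec hωL ht hcl hbad (fun j => s ⟨min j t, hlt j⟩)
      (fun i j u x => hs _ _ u x) ?_ ?_ ?_
    · intro i
      apply RelIso.ext
      intro u
      have := key i (by have := i.2; omega) u
      have hi : (⟨min (i : ℕ) t, hlt i⟩ : Fin (t + 1)) = i := by
        ext
        simp only
        have := i.2
        omega
      simpa [hi] using this
    · intro i hi u v huv
      have := h1 ⟨i, hi⟩ u v huv
      have e1 : (⟨min i t, hlt i⟩ : Fin (t + 1)) = (⟨i, hi⟩ : Fin t).castSucc := by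
        ext
        simp only [Fin.val_castSucc]
        omega
      have e2 : (⟨min (i + 1) t, hlt (i + 1)⟩ : Fin (t + 1)) = (⟨i, hi⟩ : Fin t).succ := by
        ext
        simp only [Fin.val_succ]
        omega
      simp only [e1, e2]
      exact this
    · intro u v huv
      have := h2 u v huv
      have e1 : (⟨min 0 t, hlt 0⟩ : Fin (t + 1)) = 0 := by
        ext
        simp
      simp only [e1]
      exact this
    · intro u
      have := h3 u
      have e1 : (⟨min t t, hlt t⟩ : Fin (t + 1)) = Fin.last t := by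
        ext
        simp
      simp only [e1]
      exact this

theorem dich (hI : NoIso G) (hcl : ∀ x, kk G x ≤ 2 ^ (dd G x + 1))
    (hbad : ∀ a b c, Bad G a → Bad G b → Bad G c → a = b ∨ a = c ∨ b = c) {t L : ℕ}
    (hL : ∀ u, (orbTw G u).ncard ≤ 2 ^ L) (ht : 2 * L + 1 ≤ t) : RigidT G t := by
  classical
  choose enc henc1 henc2 using fun X : Set (Set V) => exists_enum X (Set.toFinite X)
  let ω : V → ℕ := fun u => enc (orbTw G u) (twins G u)
  have hself : ∀ u, twins G u ∈ orbTw G u := fun u => ⟨RelIso.refl _, rfl⟩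
  have hω1 : ∀ u v, Tw G u v → ω u = ω v := by
    intro u v h
    show enc (orbTw G u) (twins G u) = enc (orbTw G v) (twins G v)
    rw [orbTw_tw h, twins_eq.2 h]
  have hω2 : ∀ (σ : G ≃g G) u, ω (σ u) = ω u → Tw G (σ u) u := by
    intro σ u h
    have h' : enc (orbTw G (σ u)) (twins G (σ u)) = enc (orbTw G u) (twins G u) := h
    rw [orbTw_iso] at h'
    have hm : twins G (σ u) ∈ orbTw G u := ⟨σ, rfl⟩
    exact twins_eq.1 (henc1 (orbTw G u) hm (hself u) h')
  have hωL : ∀ u, ω u < 2 ^ L := fun u => (henc2 _ _ (hself u)).trans_le (hL u)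
  refine dich_gen hI hcl hbad hω1 ?_ hωL ht
  intro σ h1 h2 u hu
  by_cases hb : Bad G u
  · rw [h2 u hu hb]
    exact fun _ => Iff.rfl
  · exact hω2 σ u (h1 u hu hb)

end

end Pool.Agent.MY12
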