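import Pool.Agent.MY12.Empty

/-! Graphs with an isolated vertex. -/

namespace Pool.Agent.MY12

open SimpleGraph

/-- With an isolated vertex there is no 2-distinguishing edge colouring for t ≥ 2. -/
theorem no_dist_isol {V : Type*} (G : SimpleGraph V) (u : V) (hu : ∀ v, ¬ G.Adj u v) {t : ℕ}
    (ht : 2 ≤ t) : ¬ EdgeDist (mu G t) 2 := by
  rw [edgeDist_two_iff]
  rintro ⟨f, hf, hφ⟩
  have hno : ∀ (j : Fin (t + 1)), (j : ℕ) < t → ∀ z, ¬ (mu G t).Adj (some (u, j)) z := by
    rintro j hj (_ | ⟨v, i⟩) h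
    · have : (j : ℕ) = t := h
      omega
    · exact hu v h.1
  have h0 : (((⟨0, by omega⟩ : Fin (t + 1)) : ℕ)) < t := by
    simp only
    omega
  have h1 : (((⟨1, by omega⟩ : Fin (t + 1)) : ℕ)) < t := by
    simp only
    omega
  have key := eq_of_same (mu G t) f hf hφ (x := some (u, ⟨0, by omega⟩))
    (y := some (u, ⟨1, by omega⟩))
    (fun z => ⟨fun h => absurd h (hno _ h0 z), fun h => absurd h (hno _ h1 z)⟩)
    (fun z h => absurd h (hno _ h0 z))
  simp at key

theorem T_isol {V : Type*} (G : SimpleGraph V) (u : V) (hu : ∀ v, ¬ G.Adj u v) : T G ⊆ {1} := by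
  rintro t ⟨h1, h2⟩
  have h3 := ((least_iff _).1 h2).1
  by_contra hne
  have hne' : t ≠ 1 := hne
  exact no_dist_isol G u hu (by omega) h3

end Pool.Agent.MY12
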