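import Pool.Agent.MY12.Dich5
import Pool.Agent.MY12.Isol

/-! The dichotomy in terms of neighbourhoods. -/

namespace Pool.Agent.MY12

open SimpleGraph

section

variable {V : Type*} [Fintype V] {G : SimpleGraph V}

theorem kk_eq (u : V) : kk G u = (twins G u).ncard := by
  unfold kk
  rw [← Set.ncard_coe_finset]
  congr 1
  ext v
  rw [Finset.mem_coe, mem_Cl]
  rfl

theorem dd_eq (u : V) : dd G u = (G.neighborSet u).ncard := by
  unfold dd
  rw [← Set.ncard_coe_finset]
  congr 1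
  ext v
  rw [Finset.mem_coe, mem_Nf]
  rfl

theorem centre4_of_bad (hI : NoIso G) {u : V} (h : Bad G u) : Centre4 G u := by
  have h1 : ∀ v, G.Adj u v → ∀ w, G.Adj v w → w = u := by
    intro v hv w hw
    have h2 := (h v hv).1
    unfold dd at h2
    obtain ⟨z, hz⟩ := Finset.card_eq_one.1 h2
    have h3 : u ∈ Nf G v := (mem_Nf _ _ _).2 hv.symm
    have h4 : w ∈ Nf G v := (mem_Nf _ _ _).2 hw
    rw [hz, Finset.mem_singleton] at h3 h4
    rw [h3, h4]
  refine ⟨?_, h1⟩
  obtain ⟨v, hv⟩ := hI u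
  have h5 : G.neighborSet u = twins G v := by
    ext w
    constructor
    · intro hw x
      constructor
      · intro hx
        rw [h1 v hv x hx]
        exact SimpleGraph.Adj.symm hw
      · intro hx
        rw [h1 w hw x hx]
        exact hv.symm
    · intro hw
      exact ((hw u).1 hv.symm).symm
  rw [h5, ← kk_eq]
  exact (h v hv).2

theorem dich' (hI : NoIso G) (hcl : ∀ u, (twins G u).ncard ≤ 2 ^ ((G.neighborSet u).ncard + 1))
    (hbad : ∀ a b c, Centre4 G a → Centre4 G b → Centre4 G c → a = b ∨ a = c ∨ b = c) {t L : ℕ}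
    (hL : ∀ u, (orbTw G u).ncard ≤ 2 ^ L) (ht : 2 * L + 1 ≤ t) : RigidT G t := by
  apply dich hI (fun x => by rw [kk_eq, dd_eq]; exact hcl x) _ hL ht
  intro a b c ha hb hc
  exact hbad a b c (centre4_of_bad hI ha) (centre4_of_bad hI hb) (centre4_of_bad hI hc)

theorem dich'' (hI : NoIso G) (hcl : ∀ u, (twins G u).ncard ≤ 2 ^ ((G.neighborSet u).ncard + 1))
    (hbad : ∀ a b c, Centre4 G a → Centre4 G b → Centre4 G c → a = b ∨ a = c ∨ b = c)
    {t L s D : ℕ} (hκ : ∀ c : G.ConnectedComponent, {c' | IsoC G c c'}.ncard ≤ s)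
    (hD : ∀ v, (G.neighborSet v).ncard ≤ D) (hs : s + D ^ 2 ≤ 2 ^ L) (ht : 2 * L + 1 ≤ t) :
    RigidT G t := by
  obtain ⟨ω, h1, h2, h3⟩ := exists_codes hI hκ hD hs
  refine dich_gen hI (fun x => by rw [kk_eq, dd_eq]; exact hcl x) ?_ h1 h3 h2 ht
  intro a b c ha hb hc
  exact hbad a b c (centre4_of_bad hI ha) (centre4_of_bad hI hb) (centre4_of_bad hI hc)

end

end Pool.Agent.MY12
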