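import Pool.Agent.MY12.Red
import Pool.Agent.MY12.Bound

/-! Graphs all of whose twins are pendant: the colouring with two colours exists when the degrees
are not too large. -/

namespace Pool.Agent.MY12

open SimpleGraph

/-- representatives of the twin classes -/
theorem exists_rep {V : Type*} (G : SimpleGraph V) :
    ∃ rep : V → V, (∀ u, Tw G (rep u) u) ∧ ∀ u v, Tw G u v → rep u = rep v := by
  let st : Setoid V := ⟨Tw G, fun _ _ => Iff.rfl, fun h => h.symm, fun h h' => h.trans h'⟩
  refine ⟨fun u => Quotient.out (Quotient.mk st u), fun u => Quotient.mk_out (s := st) u, ?_⟩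
  intro u v h
  have : Quotient.mk st u = Quotient.mk st v := Quotient.sound h
  simp only [this]

section

variable {V : Type*} {G : SimpleGraph V} {rep : V → V}

theorem rep_adj (hr1 : ∀ u, Tw G (rep u) u) {x y : V} : G.Adj (rep x) (rep y) ↔ G.Adj x y := by
  rw [hr1 x, G.adj_comm, hr1 y, G.adj_comm]

theorem rep_adj_right (hr1 : ∀ u, Tw G (rep u) u) {x y : V} : G.Adj x (rep y) ↔ G.Adj x y := by
  rw [G.adj_comm, hr1 y, G.adj_comm]

theorem nbr_induce [Finite V] (S : Set V) (v : S) {m : ℕ} (h : (G.neighborSet v.1).ncard ≤ m) :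
    ((G.induce S).neighborSet v).ncard ≤ m := by
  refine le_trans ?_ h
  rw [← Set.ncard_image_of_injective _ Subtype.val_injective]
  apply Set.ncard_le_ncard _ (Set.toFinite _)
  rintro _ ⟨x, hx, rfl⟩
  exact hx

end

theorem pend3 {V : Type*} [Fintype V] (G : SimpleGraph V) (hI : NoIso G) (hC : NoCentre G)
    (hn : 3 ≤ Fintype.card V) (hP : PendTwins G)
    (h3 : ∀ u, {v | ∀ x, G.Adj u x ↔ G.Adj v x}.ncard ≤ 3) {t s : ℕ} (ht : 1 ≤ t)
    (hs : s ≤ 2 * 4 ^ t - 1) (hκ : ∀ c : G.ConnectedComponent, {c' | IsoC G c c'}.ncard ≤ s)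
    (hΔ : ∀ v, (G.neighborSet v).ncard ≤ (4 ^ (t + 1) - 2 - s) ^ 2) : EdgeDist (mu G t) 2 := by
  classical
  obtain ⟨rep, hr1, hr2⟩ := exists_rep G
  let A : V → Finset V := fun w => Finset.univ.filter (fun v => rep v = w)
  have hA : ∀ w v, v ∈ A w ↔ rep v = w := by
    intro w v
    simp [A]
  have hrr : ∀ u, rep (rep u) = rep u := fun u => hr2 _ _ (hr1 u)
  have hA3 : ∀ u, (A (rep u)).card ≤ 3 := by
    intro u
    refine le_trans ?_ (h3 u)
    rw [← Set.ncard_coe_finset]
    apply Set.ncard_le_ncard _ (Set.toFinite _)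
    intro v hv
    rw [Finset.mem_coe, hA] at hv
    have h1 := hr1 v
    rw [hv] at h1
    exact (hr1 u).symm.trans h1
  let S : Set V := {v | rep v = v ∧ (A v).card ≠ 4}
  have hrS : ∀ u, rep u ∈ S := by
    intro u
    refine ⟨hrr u, ?_⟩
    have := hA3 u
    omega
  obtain ⟨ρ, hρs, hρ⟩ := exists_rank G s hκ
  apply dist_of_red G hI hC hn ht rep hr1 hr2 hP A hA (fun u => by have := hA3 u; omega) S
    (fun v => Iff.rfl)
  -- reachability passes to the reduction
  let R : G →g G.induce S := ⟨fun x => ⟨rep x, hrS x⟩, fun {a b} h => (rep_adj hr1).2 h⟩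
  have hR : ∀ v : S, R v.1 = v := fun v => Subtype.ext v.2.1
  have hreach : ∀ u v : S, G.Reachable u.1 v.1 → (G.induce S).Reachable u v := by
    intro u v h
    have := h.map R
    rwa [hR, hR] at this
  let I : G.induce S →g G := ⟨Subtype.val, fun {a b} h => h⟩
  apply deco_of_degQ (G.induce S) ?_ ?_ hs _ (fun c => ρ (c.map I)) (fun c => hρs _) ?_ ?_
  · intro u v h
    have h1 : Tw G u.1 v.1 := by
      intro x
      rw [← rep_adj_right hr1, ← rep_adj_right hr1 (x := v.1)]
      exact h ⟨rep x, hrS x⟩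
    have h2 := hr2 _ _ h1
    rw [u.2.1, v.2.1] at h2
    exact Subtype.ext h2
  · intro u
    obtain ⟨x, hx⟩ := hI u.1
    exact ⟨⟨rep x, hrS x⟩, (rep_adj_right hr1).2 hx⟩
  · rintro σ ⟨τ, hτ⟩ r hh
    apply hreach
    have e1 : G.Reachable (σ r).1 (τ r.1) := by
      rw [hτ r]
      obtain ⟨x, hx⟩ := hI (τ r.1)
      exact ((hr1 _ _).2 hx).reachable.trans hx.symm.reachable
    have e2 : G.connectedComponentMk (σ r).1 = G.connectedComponentMk (τ r.1) :=
      ConnectedComponent.sound e1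
    have e3 : ρ (G.connectedComponentMk (σ r).1) = ρ (G.connectedComponentMk r.1) := hh
    rw [e2] at e3
    have e4 := hρ _ _ (isoC_map G τ r.1) e3.symm
    exact e1.trans (ConnectedComponent.exact e4.symm)
  · intro v
    exact nbr_induce S v (hΔ v.1)

end Pool.Agent.MY12
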