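import Pool.Agent.MY12.Dich3
import Pool.Agent.MY12.Pend

/-! Codes of the classes from the distances to a root: the threshold depends only on the degrees and
on the number of isomorphic components. -/

namespace Pool.Agent.MY12

open SimpleGraph

section

variable {V : Type*} [Fintype V] {G : SimpleGraph V}

/-- vertices at distance one or two -/
def Near (G : SimpleGraph V) (u v : V) : Prop := G.Adj u v ∨ ∃ x, G.Adj u x ∧ G.Adj x v

omit [Fintype V] in
theorem Near.symm {u v : V} (h : Near G u v) : Near G v u := by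
  rcases h with h | ⟨x, h1, h2⟩
  · exact Or.inl h.symm
  · exact Or.inr ⟨x, h2.symm, h1.symm⟩

omit [Fintype V] in
theorem Near.tw {u v u' v' : V} (h : Near G u v) (hu : Tw G u u') (hv : Tw G v v') :
    Near G u' v' := by
  rcases h with h | ⟨x, h1, h2⟩
  · exact Or.inl (((hv u').1 ((hu v).1 h).symm).symm)
  · exact Or.inr ⟨x, (hu x).1 h1, ((hv x).1 h2.symm).symm⟩

omit [Fintype V] in
theorem Near.map {u v : V} (h : Near G u v) (σ : G ≃g G) : Near G (σ u) (σ v) := by
  rcases h with h | ⟨x, h1, h2⟩
  · exact Or.inl (σ.map_adj_iff.2 h)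
  · exact Or.inr ⟨σ x, σ.map_adj_iff.2 h1, σ.map_adj_iff.2 h2⟩

omit [Fintype V] in
theorem Near.reachable {u v : V} (h : Near G u v) : G.Reachable u v := by
  rcases h with h | ⟨x, h1, h2⟩
  · exact h.reachable
  · exact h1.reachable.trans h2.reachable

/-- the graph on the representatives of the classes with a neighbour in a class not smaller -/
def HG (G : SimpleGraph V) (rep : V → V) : SimpleGraph V where
  Adj a b := a ≠ b ∧ (rep a = a ∧ ¬ LT G a) ∧ (rep b = b ∧ ¬ LT G b) ∧ Near G a b
  symm := ⟨fun _ _ h => ⟨h.1.symm, h.2.2.1, h.2.1, h.2.2.2.symm⟩⟩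
  loopless := ⟨fun _ h => h.1 rfl⟩

theorem HG_card (rep : V → V) {D : ℕ} (hD : ∀ v, (G.neighborSet v).ncard ≤ D) (p : V) :
    {a | (HG G rep).Adj p a}.ncard ≤ D ^ 2 := by
  classical
  have hNf : ∀ v, (Nf G v).card ≤ D := by
    intro v
    have : (Nf G v : Set V) = G.neighborSet v := by
      ext w
      rw [Finset.mem_coe, mem_Nf]
      rfl
    rw [← Set.ncard_coe_finset, this]
    exact hD v
  have hsub : {a | (HG G rep).Adj p a} ⊆
      ((Nf G p ∪ (Nf G p).biUnion (fun x => (Nf G x).erase p) : Finset V) : Set V) := by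
    intro a ha
    have ha' : (HG G rep).Adj p a := ha
    rw [Finset.mem_coe, Finset.mem_union, Finset.mem_biUnion]
    rcases ha'.2.2.2 with h | ⟨x, h1, h2⟩
    · exact Or.inl ((mem_Nf _ _ _).2 h)
    · exact Or.inr ⟨x, (mem_Nf _ _ _).2 h1, Finset.mem_erase.2 ⟨ha'.1.symm, (mem_Nf _ _ _).2 h2⟩⟩
  refine (Set.ncard_le_ncard hsub (Set.toFinite _)).trans ?_
  rw [Set.ncard_coe_finset]
  refine (Finset.card_union_le _ _).trans ?_
  rcases Nat.eq_zero_or_pos D with h0 | h0
  · subst h0
    have h1 := hNf p
    have h2 : Nf G p = ∅ := Finset.card_eq_zero.1 (by omega)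
    rw [h2]
    simp
  · obtain ⟨d, rfl⟩ : ∃ d, D = d + 1 := ⟨D - 1, by omega⟩
    have h1 : ((Nf G p).biUnion (fun x => (Nf G x).erase p)).card ≤ (Nf G p).card * d := by
      apply Finset.card_biUnion_le_card_mul
      intro x hx
      have hpx : p ∈ Nf G x := (mem_Nf _ _ _).2 ((mem_Nf _ _ _).1 hx).symm
      rw [Finset.card_erase_of_mem hpx]
      have := hNf x
      omega
    have h2 := hNf p
    calc (Nf G p).card + ((Nf G p).biUnion (fun x => (Nf G x).erase p)).card
        ≤ (d + 1) + (d + 1) * d := Nat.add_le_add h2 (h1.trans (Nat.mul_le_mul_right d h2))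
      _ = (d + 1) ^ 2 := by ring

omit [Fintype V] in
theorem exists_closer {H : SimpleGraph V} {a r : V} (h : H.Reachable a r) (har : a ≠ r) :
    ∃ p, H.Adj a p ∧ H.dist p r + 1 ≤ H.dist a r := by
  obtain ⟨w, hw⟩ := h.exists_walk_length_eq_dist
  cases w with
  | nil => exact absurd rfl har
  | @cons _ p _ hap w =>
    refine ⟨p, hap, ?_⟩
    rw [Walk.length_cons] at hw
    rw [← hw]
    exact Nat.add_le_add_right (dist_le w) 1

theorem exists_codes (hI : NoIso G) {s L D : ℕ}
    (hκ : ∀ c : G.ConnectedComponent, {c' | IsoC G c c'}.ncard ≤ s)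
    (hD : ∀ v, (G.neighborSet v).ncard ≤ D) (hs : s + D ^ 2 ≤ 2 ^ L) :
    ∃ ω : V → ℕ, (∀ u v, Tw G u v → ω u = ω v) ∧ (∀ u, ω u < 2 ^ L) ∧
      ∀ σ : G ≃g G, (∀ u, ¬ LT G u → ¬ Bad G u → ω (σ u) = ω u) →
      (∀ u, ¬ LT G u → Bad G u → σ u = u) → ∀ u, ¬ LT G u → Tw G (σ u) u := by
  classical
  obtain ⟨rep, hr1, hr2⟩ := exists_rep G
  have hrr : ∀ u, rep (rep u) = rep u := fun u => hr2 _ _ (hr1 u)
  have hrtw : ∀ u v, rep u = rep v → Tw G u v := by
    intro u v h
    have h1 := hr1 u
    rw [h] at h1
    exact h1.symm.trans (hr1 v)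
  have hLr : ∀ u, LT G (rep u) ↔ LT G u := fun u => LT_tw (hr1 u)
  obtain ⟨ρ, hρs, hρ⟩ := exists_rank G s hκ
  let ν : V → ℕ := fun u => (Fintype.equivFin V u : ℕ)
  have hν : Function.Injective ν := fun u v h => (Fintype.equivFin V).injective (Fin.ext h)
  have hN : ∀ u, ν u < Fintype.card V := fun u => (Fintype.equivFin V u).2
  let cp : V → G.ConnectedComponent := fun u => G.connectedComponentMk u
  have hcp : ∀ u v, G.Reachable u v → cp u = cp v := fun u v h => ConnectedComponent.sound h
  have htwr : ∀ u v, Tw G u v → G.Reachable u v := by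
    intro u v h
    obtain ⟨x, hx⟩ := hI u
    exact hx.reachable.trans ((h x).1 hx).symm.reachable
  have hcr : ∀ u, cp (rep u) = cp u := fun u => hcp _ _ (htwr _ _ (hr1 u))
  -- roots
  have hroot : ∀ c : G.ConnectedComponent, ∃ r, cp r = c ∧ rep r = r ∧ ¬ LT G r := by
    intro c
    induction c using ConnectedComponent.ind with
    | _ u =>
      by_cases hu : LT G u
      · obtain ⟨y, hy⟩ := hI u
        refine ⟨rep y, (hcr y).trans (hcp _ _ hy.symm.reachable), hrr y, ?_⟩
        rw [hLr]
        exact not_LT_of_adj hy hu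
      · refine ⟨rep u, hcr u, hrr u, ?_⟩
        rw [hLr]
        exact hu
  choose root hroot1 hroot2 hroot3 using hroot
  -- connectedness
  have hstep : ∀ a b, ¬ LT G a → ¬ LT G b → Near G a b → (HG G rep).Reachable (rep a) (rep b) := by
    intro a b ha hb hab
    by_cases h : rep a = rep b
    · rw [h]
    · have : (HG G rep).Adj (rep a) (rep b) := ⟨h, ⟨hrr a, by rwa [hLr]⟩, ⟨hrr b, by rwa [hLr]⟩,
        hab.tw (hr1 a).symm (hr1 b).symm⟩
      exact this.reachable
  have hwalk : ∀ u v, G.Reachable u v → ¬ LT G v →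
      (¬ LT G u → (HG G rep).Reachable (rep u) (rep v)) ∧
      (LT G u → ∀ y, G.Adj u y → (HG G rep).Reachable (rep y) (rep v)) := by
    rintro u v ⟨w⟩
    induction w with
    | nil => exact fun hv => ⟨fun _ => Reachable.refl _, fun h => absurd h hv⟩
    | @cons a b c hab w ih =>
      intro hc
      obtain ⟨ih1, ih2⟩ := ih hc
      constructor
      · intro ha
        by_cases hb : LT G b
        · exact ih2 hb a hab.symm
        · exact (hstep a b ha hb (Or.inl hab)).trans (ih1 hb)
      · intro ha y hy
        have hb := not_LT_of_adj hab ha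
        have hyS := not_LT_of_adj hy ha
        exact (hstep y b hyS hb (Or.inr ⟨a, hy.symm, hab⟩)).trans (ih1 hb)
  have hreach : ∀ u, ¬ LT G u → (HG G rep).Reachable (rep u) (root (cp u)) := by
    intro u hu
    have h1 : G.Reachable u (root (cp u)) := ConnectedComponent.exact (hroot1 (cp u)).symm
    have h2 := (hwalk u (root (cp u)) h1 (hroot3 _)).1 hu
    rwa [hroot2] at h2
  -- the order
  let f : V → ℕ := fun u => (HG G rep).dist (rep u) (root (cp u)) * Fintype.card V + ν (rep u)
  have hf_inj : ∀ u v, f u = f v → rep u = rep v := by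
    intro u v h
    apply hν
    have h1 : f u % Fintype.card V = f v % Fintype.card V := by rw [h]
    have h2 : ∀ w, f w % Fintype.card V = ν (rep w) := by
      intro w
      show ((HG G rep).dist (rep w) (root (cp w)) * Fintype.card V + ν (rep w)) % _ = _
      rw [Nat.add_mod, Nat.mul_mod_left, zero_add, Nat.mod_mod, Nat.mod_eq_of_lt (hN _)]
    rw [h2, h2] at h1
    exact h1
  have hf_dec : ∀ a, rep a = a → ¬ LT G a → a ≠ root (cp a) →
      ∃ p, (HG G rep).Adj p a ∧ f p < f a := by
    intro a ha haL har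
    have h1 := hreach a haL
    rw [ha] at h1
    obtain ⟨p, hap, hd⟩ := exists_closer h1 har
    refine ⟨p, hap.symm, ?_⟩
    have hp1 : rep p = p := hap.2.2.1.1
    have hcpp : cp p = cp a := hcp _ _ hap.2.2.2.reachable.symm
    show (HG G rep).dist (rep p) (root (cp p)) * Fintype.card V + ν (rep p)
      < (HG G rep).dist (rep a) (root (cp a)) * Fintype.card V + ν (rep a)
    rw [hp1, ha, hcpp]
    have h3 := hN p
    have h4 := Nat.mul_le_mul_right (Fintype.card V) hd
    rw [Nat.add_mul, Nat.one_mul] at h4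
    omega
  -- parents
  have hpar : ∀ a, ∃ p, (∃ p', (HG G rep).Adj p' a) →
      (HG G rep).Adj p a ∧ ∀ p', (HG G rep).Adj p' a → f p ≤ f p' := by
    intro a
    by_cases h : ∃ p', (HG G rep).Adj p' a
    · obtain ⟨p', hp'⟩ := h
      obtain ⟨p, hp, hmin⟩ := Finset.exists_min_image
        (Finset.univ.filter (fun p => (HG G rep).Adj p a)) f ⟨p', by simp [hp']⟩
      refine ⟨p, fun _ => ⟨by simpa using hp, ?_⟩⟩
      intro q hq
      exact hmin q (by simp [hq])
    · exact ⟨a, fun h' => absurd h' h⟩
  choose par hpar using hpar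
  choose enc henc1 henc2 using fun X : Set V => exists_enum X (Set.toFinite X)
  let Ch : V → Set V := fun p => {a | (HG G rep).Adj p a ∧ par a = p}
  have hCh : ∀ p, (Ch p).ncard ≤ D ^ 2 := fun p =>
    (Set.ncard_le_ncard (fun a ha => ha.1) (Set.toFinite _)).trans (HG_card rep hD p)
  -- the codes
  let ω : V → ℕ := fun u => if LT G u then 0 else if rep u = root (cp u) then ρ (cp u)
    else s + enc (Ch (par (rep u))) (rep u)
  have hω0 : ∀ u, LT G u → ω u = 0 := fun u hu => if_pos hu
  have hωr : ∀ u, ¬ LT G u → rep u = root (cp u) → ω u = ρ (cp u) := by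
    intro u hu hr
    show (if LT G u then 0 else if rep u = root (cp u) then ρ (cp u)
      else s + enc (Ch (par (rep u))) (rep u)) = _
    rw [if_neg hu, if_pos hr]
  have hωn : ∀ u, ¬ LT G u → rep u ≠ root (cp u) → ω u = s + enc (Ch (par (rep u))) (rep u) := by
    intro u hu hr
    show (if LT G u then 0 else if rep u = root (cp u) then ρ (cp u)
      else s + enc (Ch (par (rep u))) (rep u)) = _
    rw [if_neg hu, if_neg hr]
  have hparu : ∀ u, ¬ LT G u → rep u ≠ root (cp u) → (HG G rep).Adj (par (rep u)) (rep u) ∧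
      ∀ p', (HG G rep).Adj p' (rep u) → f (par (rep u)) ≤ f p' := by
    intro u hu hr
    apply hpar
    obtain ⟨p, hp, _⟩ := hf_dec (rep u) (hrr u) (by rwa [hLr]) (by rwa [hcr])
    exact ⟨p, hp⟩
  have hmem : ∀ u, ¬ LT G u → rep u ≠ root (cp u) → rep u ∈ Ch (par (rep u)) :=
    fun u hu hr => ⟨(hparu u hu hr).1, rfl⟩
  refine ⟨ω, ?_, ?_, ?_⟩
  · intro u v h
    show (if LT G u then 0 else if rep u = root (cp u) then ρ (cp u)
      else s + enc (Ch (par (rep u))) (rep u)) = (if LT G v then 0 else
      if rep v = root (cp v) then ρ (cp v) else s + enc (Ch (par (rep v))) (rep v))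
    rw [hr2 u v h, hcp u v (htwr u v h)]
    by_cases hu : LT G u
    · rw [if_pos hu, if_pos ((LT_tw h).1 hu)]
    · rw [if_neg hu, if_neg (fun hh => hu ((LT_tw h).2 hh))]
  · intro u
    have hpos : 0 < 2 ^ L := by positivity
    by_cases hu : LT G u
    · rw [hω0 u hu]
      exact hpos
    · by_cases hr : rep u = root (cp u)
      · rw [hωr u hu hr]
        have := hρs (cp u)
        omega
      · rw [hωn u hu hr]
        have h1 := henc2 (Ch (par (rep u))) (rep u) (hmem u hu hr)
        have h2 := hCh (par (rep u))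
        omega
  · intro σ h1 h2
    have hσL : ∀ u, ¬ LT G u → ¬ LT G (σ u) := fun u hu hh => hu ((LT_iso _ _).1 hh)
    -- roots are fixed
    have hR : ∀ c, Tw G (σ (root c)) (root c) := by
      intro c
      by_cases hb : Bad G (root c)
      · rw [h2 _ (hroot3 c) hb]
        exact fun _ => Iff.rfl
      · have h3 := h1 _ (hroot3 c) hb
        have h4 : rep (root c) = root (cp (root c)) := by rw [hroot2, hroot1]
        rw [hωr _ (hroot3 c) h4] at h3
        by_cases h5 : rep (σ (root c)) = root (cp (σ (root c)))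
        · rw [hωr _ (hσL _ (hroot3 c)) h5] at h3
          have h6 : cp (root c) = cp (σ (root c)) := hρ _ _ (isoC_map G σ (root c)) h3.symm
          rw [← h6, hroot1] at h5
          apply hrtw
          rw [h5, hroot2]
        · rw [hωn _ (hσL _ (hroot3 c)) h5] at h3
          have := hρs (cp (root c))
          omega
    have hmain : ∀ n, ∀ u, ¬ LT G u → rep u ≠ root (cp u) → f (par (rep u)) = n →
        Tw G (σ u) u := by
      intro n
      induction n using Nat.strong_induction_on with
      | _ n ih =>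
        intro u hu hr hn
        obtain ⟨hpa, hpm⟩ := hparu u hu hr
        obtain ⟨p, hpdef⟩ : ∃ p, p = par (rep u) := ⟨_, rfl⟩
        rw [← hpdef] at hpa hpm hn
        have hp1 : rep p = p := hpa.2.1.1
        have hpL : ¬ LT G p := hpa.2.1.2
        have hpfix : Tw G (σ p) p := by
          by_cases hpr : rep p = root (cp p)
          · rw [← hp1, hpr]
            exact hR _
          · obtain ⟨hq1, hq2⟩ := hparu p hpL hpr
            obtain ⟨q, hq, hq3⟩ := hf_dec p hp1 hpL (by rwa [hp1] at hpr)
            rw [hp1] at hq1 hq2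
            have h5 := hq2 q hq
            refine ih (f (par p)) (by omega) p hpL hpr ?_
            rw [hp1]
        by_cases hb : Bad G u
        · rw [h2 u hu hb]
          exact fun _ => Iff.rfl
        · have h3 := h1 u hu hb
          have hwL := hσL u hu
          have hnear : Near G p (rep (σ u)) := by
            have h4 : Near G p u := hpa.2.2.2.tw (fun _ => Iff.rfl) (hr1 u)
            exact (h4.map σ).tw hpfix (hr1 (σ u)).symm
          have hne : p ≠ rep (σ u) := by
            intro hh
            have h4 : Tw G (σ u) (σ p) := by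
              have h5 : Tw G p (σ u) := by
                rw [hh]
                exact hr1 (σ u)
              exact h5.symm.trans hpfix.symm
            have h6 := hr2 _ _ ((tw_iso σ).1 h4)
            rw [hp1] at h6
            exact hpa.1 h6.symm
          have hadj : (HG G rep).Adj p (rep (σ u)) :=
            ⟨hne, hpa.2.1, ⟨hrr _, by rwa [hLr]⟩, hnear⟩
          rw [hωn u hu hr] at h3
          by_cases hr' : rep (σ u) = root (cp (σ u))
          · rw [hωr _ hwL hr'] at h3
            have := hρs (cp (σ u))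
            omega
          · rw [hωn _ hwL hr'] at h3
            obtain ⟨hqa, hqm⟩ := hparu (σ u) hwL hr'
            have h7 := hqm p hadj
            rcases Nat.lt_or_ge (f (par (rep (σ u)))) n with h8 | h8
            · have h9 := ih _ h8 (σ u) hwL hr' rfl
              exact (tw_iso σ).1 h9
            · have h9 : f (par (rep (σ u))) = f p := by omega
              have h10 := hf_inj _ _ h9
              rw [hp1, hqa.2.1.1] at h10
              have h11 : rep (σ u) ∈ Ch p := ⟨hadj, h10⟩
              have h12 : rep u ∈ Ch p := ⟨hpa, hpdef.symm⟩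
              rw [h10, ← hpdef] at h3
              have h13 := henc1 (Ch p) h11 h12 (by omega)
              exact hrtw _ _ h13
    intro u hu
    by_cases hr : rep u = root (cp u)
    · have h3 := hR (cp u)
      rw [← hr] at h3
      have h4 : Tw G (σ (rep u)) (σ u) := (tw_iso σ).2 (hr1 u)
      exact (h4.symm.trans h3).trans (hr1 u)
    · exact hmain _ u hu hr rfl

end

end Pool.Agent.MY12
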