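import Mathlib

/-! Digits. -/

namespace Pool.Agent.MY12

/-- the index of an element in a finite set -/
noncomputable def idxF {V : Type*} (F : Finset V) (y : V) : ℕ := by
  classical
  exact if h : y ∈ F then (F.equivFin ⟨y, h⟩ : ℕ) else 0

theorem idxF_lt {V : Type*} {F : Finset V} {y : V} (h : y ∈ F) : idxF F y < F.card := by
  classical
  unfold idxF
  rw [dif_pos h]
  exact Fin.is_lt _

theorem idxF_surj {V : Type*} {F : Finset V} {i : ℕ} (h : i < F.card) : ∃ y ∈ F, idxF F y = i := by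
  classical
  refine ⟨(F.equivFin.symm ⟨i, h⟩ : F), (F.equivFin.symm ⟨i, h⟩).2, ?_⟩
  unfold idxF
  rw [dif_pos (F.equivFin.symm ⟨i, h⟩).2]
  simp

theorem digits3 (d : ℕ) : ∀ r r' : ℕ, r < 3 ^ d → r' < 3 ^ d →
    (∀ i < d, (r / 3 ^ i) % 3 = (r' / 3 ^ i) % 3) → r = r' := by
  induction d with
  | zero =>
    intro r r' h h' _
    simp only [pow_zero] at h h'
    omega
  | succ d ih =>
    intro r r' h h' hd
    have h0 := hd 0 (by omega)
    simp only [pow_zero, Nat.div_one] at h0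
    have h1 : r / 3 = r' / 3 := by
      apply ih
      · rw [pow_succ] at h
        omega
      · rw [pow_succ] at h'
        omega
      · intro i hi
        have := hd (i + 1) (by omega)
        rwa [pow_succ, mul_comm, ← Nat.div_div_eq_div_mul, ← Nat.div_div_eq_div_mul] at this
    omega

theorem digit_down (r i j' : ℕ) (h : j' ≤ (r / 3 ^ i) % 3) : ∃ r' ≤ r, (r' / 3 ^ i) % 3 = j' := by
  have key : ∀ q : ℕ, j' ≤ q % 3 → ∃ x, x ≤ q ∧ (q - x) % 3 = j' := by
    intro q hq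
    exact ⟨q % 3 - j', by omega, by omega⟩
  obtain ⟨x, h5, h6⟩ := key _ h
  have h2 : (r - x * 3 ^ i) / 3 ^ i = r / 3 ^ i - x := by
    rw [mul_comm, Nat.sub_mul_div]
  refine ⟨r - x * 3 ^ i, Nat.sub_le _ _, ?_⟩
  rw [h2]
  exact h6

theorem bits_eq (d r r' : ℕ) (h : r < 2 ^ (d + 1)) (h' : r' < 2 ^ (d + 1))
    (hb : ∀ i ≤ d, r.testBit i = r'.testBit i) : r = r' := by
  apply Nat.eq_of_testBit_eq
  intro i
  rcases Nat.lt_or_ge i (d + 1) with hi | hi
  · exact hb i (by omega)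
  · rw [Nat.testBit_lt_two_pow (lt_of_lt_of_le h (Nat.pow_le_pow_right (by norm_num) hi)),
      Nat.testBit_lt_two_pow (lt_of_lt_of_le h' (Nat.pow_le_pow_right (by norm_num) hi))]

theorem cyc3 (P P' : ℕ → Prop) (C C' : ℕ) (hC : C < 4) (hC' : C' < 4) (h0 : P 0) (h0' : P' 0)
    (hd : P 2 → P 1) (hl : ∀ j, P j → j < 3) (hl' : ∀ j, P' j → j < 3)
    (h1 : ∀ j, P j → ∃ j', P' j' ∧ (j + C) % 4 = (j' + C') % 4)
    (h2 : ∀ j', P' j' → ∃ j, P j ∧ (j + C) % 4 = (j' + C') % 4) : C = C' := by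
  obtain ⟨a, ha, ea⟩ := h1 0 h0
  obtain ⟨b, hb, eb⟩ := h2 0 h0'
  have la := hl' a ha
  have lb := hl b hb
  by_contra hne
  have ha0 : a ≠ 0 := by
    rintro rfl
    omega
  have hb0 : b ≠ 0 := by
    rintro rfl
    omega
  -- a + C' = C, b + C = C' mod 4, hence a + b = 4, a = b = 2
  have hab : a = 2 ∧ b = 2 := by omega
  obtain ⟨rfl, rfl⟩ := hab
  have p1 := hd hb
  obtain ⟨c, hc, ec⟩ := h1 1 p1
  have lc := hl' c hc
  omega

theorem two_le_three (d : ℕ) (hd : 2 ≤ d) : 2 ^ (d + 1) ≤ 3 ^ d := by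
  induction d, hd using Nat.le_induction with
  | base => norm_num
  | succ d _ ih =>
    rw [pow_succ 2 (d + 1), pow_succ 3 d]
    omega

end Pool.Agent.MY12
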