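import Pool.Agent.MY12.Crit

/-! Graphs with too many twins: the generalized Mycielskians have no 2-distinguishing edge colouring. -/

namespace Pool.Agent.MY12

open SimpleGraph

/-- the swap of two vertices with the same neighbours -/
def swapIso {W : Type*} [DecidableEq W] (H : SimpleGraph W) {x y : W}
    (hxy : ∀ z, H.Adj x z ↔ H.Adj y z) : H ≃g H where
  toEquiv := Equiv.swap x y
  map_rel_iff' := by
    have key : ∀ a b, H.Adj (Equiv.swap x y a) b ↔ H.Adj a b := by
      intro a b
      by_cases hax : a = x
      · subst hax
        rw [Equiv.swap_apply_left]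
        exact (hxy b).symm
      · by_cases hay : a = y
        · subst hay
          rw [Equiv.swap_apply_right]
          exact hxy b
        · rw [Equiv.swap_apply_of_ne_of_ne hax hay]
    intro a b
    rw [key, H.adj_comm, key, H.adj_comm]

theorem swapIso_apply {W : Type*} [DecidableEq W] (H : SimpleGraph W) {x y : W}
    (hxy : ∀ z, H.Adj x z ↔ H.Adj y z) (a : W) : swapIso H hxy a = Equiv.swap x y a := rfl

/-- Two vertices with the same neighbours and the same colours towards them are equal. -/
theorem eq_of_same {W : Type*} (H : SimpleGraph W) (f : W → W → Bool) (hf : ∀ x y, f x y = f y x)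
    (hφ : ∀ φ : H ≃g H, (∀ x y, H.Adj x y → f (φ x) (φ y) = f x y) → φ = RelIso.refl _) {x y : W}
    (hxy : ∀ z, H.Adj x z ↔ H.Adj y z) (hc : ∀ z, H.Adj x z → f x z = f y z) : x = y := by
  classical
  have key : ∀ a b, H.Adj a b → f (swapIso H hxy a) b = f a b := by
    intro a b hab
    rw [swapIso_apply]
    by_cases hax : a = x
    · subst hax
      rw [Equiv.swap_apply_left]
      exact (hc b hab).symm
    · by_cases hay : a = y
      · subst hay
        rw [Equiv.swap_apply_right]
        exact hc b ((hxy b).2 hab)
      · rw [Equiv.swap_apply_of_ne_of_ne hax hay]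
  have h1 : swapIso H hxy = RelIso.refl _ := by
    apply hφ
    intro a b hab
    have h2 : H.Adj (swapIso H hxy a) (swapIso H hxy b) := (swapIso H hxy).map_adj_iff.2 hab
    have h3 : H.Adj a (swapIso H hxy b) := by
      have h4 : H.Adj (swapIso H hxy a) (swapIso H hxy b) ↔ H.Adj a (swapIso H hxy b) := by
        rw [swapIso_apply H hxy a]
        by_cases hax : a = x
        · subst hax
          rw [Equiv.swap_apply_left]
          exact (hxy _).symm
        · by_cases hay : a = y
          · subst hay
            rw [Equiv.swap_apply_right]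
            exact hxy _
          · rw [Equiv.swap_apply_of_ne_of_ne hax hay]
      exact h4.1 h2
    rw [key a _ h3, hf a, key b a hab.symm, hf b a]
  have h2 := congrArg (fun φ : H ≃g H => φ x) h1
  simp only [swapIso_apply, Equiv.swap_apply_left, RelIso.refl_apply] at h2
  exact h2.symm

/-- If u has more than 2 ^ (deg u + 1) twins (u included) then for every t ≥ 1 the generalized
Mycielskian has no 2-distinguishing edge colouring. -/
theorem no_dist {V : Type*} [Fintype V] (G : SimpleGraph V) (u : V)
    (h : 2 ^ ((G.neighborSet u).ncard + 1) < {v | ∀ x, G.Adj u x ↔ G.Adj v x}.ncard)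
    {t : ℕ} (ht : 1 ≤ t) : ¬ EdgeDist (mu G t) 2 := by
  classical
  rw [edgeDist_two_iff]
  rintro ⟨f, hf, hφ⟩
  have hp : t - 1 < t + 1 := by omega
  let g : V → (G.neighborSet u → Bool) × Bool := fun v =>
    (fun x => f (some (v, Fin.last t)) (some (x.1, ⟨t - 1, hp⟩)), f (some (v, Fin.last t)) none)
  have hcard : (Set.univ : Set ((G.neighborSet u → Bool) × Bool)).ncard
      = 2 ^ ((G.neighborSet u).ncard + 1) := by
    rw [Set.ncard_univ, Nat.card_prod, Nat.card_fun, Nat.card_eq_fintype_card (α := Bool),
      Fintype.card_bool, Nat.card_coe_set_eq, pow_succ]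
  rw [← hcard] at h
  obtain ⟨v, hv, v', hv', hne, hg⟩ := Set.exists_ne_map_eq_of_ncard_lt_of_maps_to h
    (f := g) (fun _ _ => Set.mem_univ _) (Set.toFinite _)
  have hv1 : ∀ x, G.Adj u x ↔ G.Adj v x := hv
  have hv2 : ∀ x, G.Adj u x ↔ G.Adj v' x := hv'
  have hg1 := congrArg Prod.fst hg
  have hg2 := congrArg Prod.snd hg
  have key : (some (v, Fin.last t) : Option (V × Fin (t + 1))) = some (v', Fin.last t) := by
    apply eq_of_same (mu G t) f hf hφ
    · rintro (_ | ⟨x, j⟩)
      · exact Iff.rfl
      · exact and_congr_left' ((hv1 x).symm.trans (hv2 x))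
    · rintro (_ | ⟨x, j⟩) hx
      · exact hg2
      · have hvx : G.Adj v x := hx.1
        have hl := hx.2
        simp only [Fin.val_last] at hl
        have hj := j.2
        have hj' : j = ⟨t - 1, hp⟩ := by
          ext
          simp only
          omega
        rw [hj']
        exact congrFun hg1 ⟨x, (hv1 x).2 hvx⟩
  simp only [Option.some.injEq, Prod.mk.injEq, and_true] at key
  exact hne key

end Pool.Agent.MY12
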