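import Pool.Agent.MY12.Defs

/-! Every automorphism of the generalized Mycielskian of a twin-free graph without isolated vertices and
with at least three vertices fixes the root. -/

namespace Pool.Agent.MY12

open SimpleGraph Finset

open Classical in
/-- neighbours of u -/
noncomputable def N {V : Type*} [Fintype V] (G : SimpleGraph V) (u : V) : Finset V :=
  univ.filter (fun v => G.Adj u v)

open Classical in
/-- number of neighbours -/
noncomputable def dg {W : Type*} [Fintype W] (H : SimpleGraph W) (x : W) : ℕ := (N H x).card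

open Classical in
/-- number of common neighbours -/
noncomputable def cd {W : Type*} [Fintype W] (H : SimpleGraph W) (x y : W) : ℕ := (N H x ∩ N H y).card

theorem mem_N {V : Type*} [Fintype V] (G : SimpleGraph V) (u v : V) : v ∈ N G u ↔ G.Adj u v := by
  classical
  simp [N]

theorem N_iso {W : Type*} [Fintype W] (H : SimpleGraph W) (φ : H ≃g H) (x : W) :
    N H (φ x) = (N H x).map φ.toEquiv.toEmbedding := by
  classical
  ext y
  rw [mem_N, Finset.mem_map]
  constructor
  · intro h
    refine ⟨φ.symm y, ?_, by simp⟩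
    rw [mem_N]
    have := φ.symm.map_adj_iff.2 h
    simpa using this
  · rintro ⟨z, hz, rfl⟩
    rw [mem_N] at hz
    exact φ.map_adj_iff.2 hz

theorem dg_iso {W : Type*} [Fintype W] (H : SimpleGraph W) (φ : H ≃g H) (x : W) :
    dg H (φ x) = dg H x := by
  classical
  rw [dg, dg, N_iso, Finset.card_map]

theorem cd_iso {W : Type*} [Fintype W] (H : SimpleGraph W) (φ : H ≃g H) (x y : W) :
    cd H (φ x) (φ y) = cd H x y := by
  classical
  rw [cd, cd, N_iso, N_iso, ← Finset.map_inter, Finset.card_map]

/-- forget the bound on the level -/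
def io {V : Type*} (t : ℕ) (x : Option (V × Fin (t + 1))) : Option (V × ℕ) :=
  x.map (fun p => (p.1, (p.2 : ℕ)))

theorem io_inj {V : Type*} (t : ℕ) : Function.Injective (io (V := V) t) := by
  apply Option.map_injective
  rintro ⟨u, i⟩ ⟨v, j⟩ h
  simp only [Prod.mk.injEq] at h
  ext
  · exact h.1
  · exact h.2

section

set_option linter.unusedSectionVars false
set_option linter.unusedVariables false

variable {V : Type*} [Fintype V] (G : SimpleGraph V) {t : ℕ}

open Classical in
/-- the neighbours, as vertex-level pairs -/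
noncomputable def nb (x : Option (V × Fin (t + 1))) : Finset (Option (V × ℕ)) :=
  (N (mu G t) x).image (io t)

theorem dg_eq (x : Option (V × Fin (t + 1))) : dg (mu G t) x = (nb G x).card := by
  classical
  rw [nb, Finset.card_image_of_injective _ (io_inj t), dg]

theorem cd_eq (x y : Option (V × Fin (t + 1))) [DecidableEq (Option (V × ℕ))] :
    cd (mu G t) x y = (nb G x ∩ nb G y).card := by
  classical
  have h1 : nb G x ∩ nb G y = (N (mu G t) x ∩ N (mu G t) y).image (io t) := by
    ext z
    simp only [Finset.mem_inter, nb, Finset.mem_image]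
    constructor
    · rintro ⟨⟨a, ha, rfl⟩, ⟨b, hb, hab⟩⟩
      obtain rfl := io_inj t hab
      exact ⟨_, ⟨ha, hb⟩, rfl⟩
    · rintro ⟨a, ⟨ha, hb⟩, rfl⟩
      exact ⟨⟨a, ha, rfl⟩, ⟨a, hb, rfl⟩⟩
  rw [h1, Finset.card_image_of_injective _ (io_inj t)]
  unfold cd
  apply congrArg Finset.card
  ext z
  simp only [Finset.mem_inter]

theorem nb_lt [DecidableEq (Option (V × ℕ))] (u : V) (i : Fin (t + 1)) (hi : (i : ℕ) < t) :
    nb G (some (u, i)) = ((N G u) ×ˢ ({(i : ℕ) - 1, (i : ℕ) + 1} : Finset ℕ)).image some := by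
  classical
  ext z
  simp only [nb, Finset.mem_image, mem_N, Finset.mem_product, Finset.mem_insert,
    Finset.mem_singleton]
  constructor
  · rintro ⟨y, hy, rfl⟩
    rcases y with _ | ⟨v, j⟩
    · exact absurd hy (by intro h; have : (i : ℕ) = t := h; omega)
    · refine ⟨(v, (j : ℕ)), ⟨hy.1, ?_⟩, rfl⟩
      have := hy.2
      simp only
      omega
  · rintro ⟨⟨v, l⟩, ⟨h1, h2⟩, rfl⟩
    simp only at h1 h2
    refine ⟨some (v, ⟨l, by omega⟩), ⟨h1, ?_⟩, rfl⟩
    simp only
    omega

theorem nb_top [DecidableEq (Option (V × ℕ))] (ht : 1 ≤ t) (u : V) (i : Fin (t + 1)) (hi : (i : ℕ) = t) :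
    nb G (some (u, i)) = insert none (((N G u) ×ˢ ({t - 1} : Finset ℕ)).image some) := by
  classical
  ext z
  simp only [nb, Finset.mem_image, mem_N, Finset.mem_product, Finset.mem_insert,
    Finset.mem_singleton]
  constructor
  · rintro ⟨y, hy, rfl⟩
    rcases y with _ | ⟨v, j⟩
    · left; rfl
    · right
      refine ⟨(v, (j : ℕ)), ⟨hy.1, ?_⟩, rfl⟩
      have := hy.2
      have := j.2
      simp only
      omega
  · rintro (rfl | ⟨⟨v, l⟩, ⟨h1, h2⟩, rfl⟩)
    · exact ⟨none, hi, rfl⟩
    · simp only at h1 h2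
      refine ⟨some (v, ⟨l, by omega⟩), ⟨h1, ?_⟩, rfl⟩
      simp only
      omega

theorem nb_none [DecidableEq (Option (V × ℕ))] :
    nb G (none : Option (V × Fin (t + 1))) = ((univ : Finset V) ×ˢ ({t} : Finset ℕ)).image some := by
  classical
  ext z
  simp only [nb, Finset.mem_image, mem_N, Finset.mem_product, Finset.mem_singleton, Finset.mem_univ,
    true_and]
  constructor
  · rintro ⟨y, hy, rfl⟩
    rcases y with _ | ⟨v, j⟩
    · exact absurd hy (fun h => h)
    · exact ⟨(v, (j : ℕ)), hy, rfl⟩
  · rintro ⟨⟨v, l⟩, h2, rfl⟩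
    simp only at h2
    exact ⟨some (v, ⟨l, by omega⟩), h2, rfl⟩

theorem dg_lt (u : V) (i : Fin (t + 1)) (hi : (i : ℕ) < t) :
    dg (mu G t) (some (u, i)) = 2 * dg G u := by
  classical
  rw [dg_eq, nb_lt G u i hi, Finset.card_image_of_injective _ (Option.some_injective _),
    Finset.card_product, Finset.card_pair (by omega), dg]
  ring

theorem dg_top (ht : 1 ≤ t) (u : V) (i : Fin (t + 1)) (hi : (i : ℕ) = t) :
    dg (mu G t) (some (u, i)) = dg G u + 1 := by
  classical
  rw [dg_eq, nb_top G ht u i hi, Finset.card_insert_of_notMem (by simp),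
    Finset.card_image_of_injective _ (Option.some_injective _),
    Finset.card_product, Finset.card_singleton, dg]
  ring

theorem dg_none : dg (mu G t) none = Fintype.card V := by
  classical
  rw [dg_eq, nb_none, Finset.card_image_of_injective _ (Option.some_injective _),
    Finset.card_product, Finset.card_singleton, Finset.card_univ]
  ring

theorem img_inter [DecidableEq (Option (V × ℕ))] [DecidableEq V] (A B : Finset V) (L M : Finset ℕ) :
    ((A ×ˢ L).image some ∩ (B ×ˢ M).image some : Finset (Option (V × ℕ))).card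
      = (A ∩ B).card * (L ∩ M).card := by
  rw [← Finset.image_inter _ _ (Option.some_injective _),
    Finset.card_image_of_injective _ (Option.some_injective _), Finset.product_inter_product,
    Finset.card_product]

theorem cd_lt_lt (u v : V) (i j : Fin (t + 1)) (hi : (i : ℕ) < t) (hj : (j : ℕ) < t) :
    cd (mu G t) (some (u, i)) (some (v, j)) =
      cd G u v * (({(i : ℕ) - 1, (i : ℕ) + 1} : Finset ℕ) ∩ {(j : ℕ) - 1, (j : ℕ) + 1}).card := by
  classical
  rw [cd_eq, nb_lt G u i hi, nb_lt G v j hj, img_inter, cd]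

theorem cd_lt_top (ht : 1 ≤ t) (u v : V) (i j : Fin (t + 1)) (hi : (i : ℕ) < t) (hj : (j : ℕ) = t) :
    cd (mu G t) (some (u, i)) (some (v, j)) =
      cd G u v * (({(i : ℕ) - 1, (i : ℕ) + 1} : Finset ℕ) ∩ {t - 1}).card := by
  classical
  rw [cd_eq, nb_lt G u i hi, nb_top G ht v j hj, Finset.inter_insert_of_notMem (by simp), img_inter, cd]

theorem cd_none (ht : 1 ≤ t) (v : V) (j : Fin (t + 1)) (hj : (j : ℕ) + 1 = t) :
    cd (mu G t) (some (v, j)) none = dg G v := by
  classical
  rw [cd_eq, nb_lt G v j (by omega), nb_none, img_inter, Finset.inter_univ, dg]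
  have : (({(j : ℕ) - 1, (j : ℕ) + 1} : Finset ℕ) ∩ {t}) = {t} := by
    ext x
    simp only [Finset.mem_inter, Finset.mem_insert, Finset.mem_singleton]
    omega
  rw [this, Finset.card_singleton, mul_one]

/-- the vertices at distance two from the root have half of their neighbours next to the root -/
theorem half_none (ht : 1 ≤ t) (y : Option (V × Fin (t + 1))) (hy : y ≠ none)
    (hc : ∃ c, (mu G t).Adj y c ∧ (mu G t).Adj c none) :
    2 * cd (mu G t) y none = dg (mu G t) y := by
  obtain ⟨c, h1, h2⟩ := hc
  rcases y with _ | ⟨v, j⟩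
  · exact absurd rfl hy
  · rcases c with _ | ⟨x, i⟩
    · exact absurd h2 (fun h => h)
    · have hi : (i : ℕ) = t := h2
      have hj := h1.2
      have := j.2
      have hj' : (j : ℕ) + 1 = t := by omega
      rw [cd_none G ht v j hj', dg_lt G v j (by omega)]

theorem half_iso (ht : 1 ≤ t) (φ : mu G t ≃g mu G t) (y : Option (V × Fin (t + 1)))
    (hy : y ≠ φ none) (hc : ∃ c, (mu G t).Adj y c ∧ (mu G t).Adj c (φ none)) :
    2 * cd (mu G t) y (φ none) = dg (mu G t) y := by
  obtain ⟨c, h1, h2⟩ := hc
  have h := half_none G ht (φ.symm y) (by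
    intro h
    apply hy
    rw [← h]
    simp) ⟨φ.symm c, φ.symm.map_adj_iff.2 h1, by
      have := φ.symm.map_adj_iff.2 h2
      simpa using this⟩
  have e1 := cd_iso (mu G t) φ (φ.symm y) none
  have e2 := dg_iso (mu G t) φ (φ.symm y)
  simp only [RelIso.apply_symm_apply] at e1 e2
  rw [e1, e2]
  exact h

theorem cd_comm {W : Type*} [Fintype W] (H : SimpleGraph W) (x y : W) : cd H x y = cd H y x := by
  classical
  unfold cd
  exact congrArg Finset.card (Finset.inter_comm _ _)

theorem cd_le (u v : V) : cd G u v ≤ dg G u := by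
  classical
  exact Finset.card_le_card Finset.inter_subset_left

theorem cd_self (u : V) : cd G u u = dg G u := by
  classical
  rw [cd, Finset.inter_self, dg]

theorem sub_of_cd {u v : V} (h : cd G v u = dg G v) : ∀ x, G.Adj v x → G.Adj u x := by
  classical
  intro x hx
  have : N G v ∩ N G u = N G v := Finset.eq_of_subset_of_card_le Finset.inter_subset_left (le_of_eq h.symm)
  have h2 : x ∈ N G v ∩ N G u := by rw [this, mem_N]; exact hx
  exact (mem_N _ _ _).1 (Finset.mem_inter.1 h2).2

theorem dg_pos (h : NoIso G) (u : V) : 0 < dg G u := by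
  classical
  obtain ⟨v, hv⟩ := h u
  exact Finset.card_pos.2 ⟨v, (mem_N _ _ _).2 hv⟩

/-- a vertex of degree at least two in a twin-free graph without isolated vertices has another vertex
at distance at most two via a common neighbour -/
theorem second (hT : TwinFree G) (hI : NoIso G) (u : V) (h2 : 2 ≤ dg G u) :
    ∃ x v, G.Adj u x ∧ G.Adj x v ∧ v ≠ u := by
  classical
  by_contra hcon
  push Not at hcon
  obtain ⟨x, hx, y, hy, hxy⟩ := Finset.one_lt_card.1 (show 1 < (N G u).card from h2)
  rw [mem_N] at hx hy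
  apply hxy
  apply hT
  intro z
  constructor
  · intro h
    rw [hcon x z hx h]
    exact hy.symm
  · intro h
    rw [hcon y z hy h]
    exact hx.symm

theorem fix_w' (hI : NoIso G) (hn : 3 ≤ Fintype.card V) (ht : 1 ≤ t)
    (φ : mu G t ≃g mu G t)
    (hS : ∀ u i, φ none = some (u, i) → ∃ x v, G.Adj u x ∧ G.Adj x v ∧ v ≠ u) : φ none = none := by
  classical
  by_contra hne
  have hdeg : dg (mu G t) (φ none) = Fintype.card V := by rw [dg_iso, dg_none]
  have hhalf := half_iso G ht φ
  generalize φ none = z at hne hdeg hhalf hS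
  rcases z with _ | ⟨u, i⟩
  · exact hne rfl
  have hit : (i : ℕ) ≤ t := by have := i.2; omega
  rcases Nat.lt_or_ge (i : ℕ) t with hi | hi
  · -- below the top level
    rw [dg_lt G u i hi] at hdeg
    have hd2 : 2 ≤ dg G u := by omega
    obtain ⟨x, v, hux, hxv, hvu⟩ := hS u i rfl
    have hv0 := dg_pos G hI v
    -- y1 = v^i
    have h1 := hhalf (some (v, i)) (by
        intro h
        simp only [Option.some.injEq, Prod.mk.injEq] at h
        exact hvu h.1)
      ⟨some (x, ⟨(i : ℕ) + 1, by omega⟩), ⟨hxv.symm, by simp⟩, ⟨hux.symm, by simp⟩⟩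
    rw [dg_lt G v i hi, cd_lt_lt G v u i i hi hi, Finset.inter_self, Finset.card_pair (by omega)] at h1
    have key : cd G v u ≠ dg G v := by omega
    rcases Nat.eq_zero_or_pos (i : ℕ) with h0 | h0
    · rcases Nat.lt_or_ge 1 t with h1t | h1t
      · -- y = v^1
        have h2 := hhalf (some (v, ⟨1, by omega⟩)) (by
            intro h
            simp only [Option.some.injEq, Prod.mk.injEq] at h
            exact hvu h.1)
          ⟨some (x, ⟨0, by omega⟩), ⟨hxv.symm, by simp⟩, ⟨hux.symm, by simp [h0]⟩⟩
        rw [dg_lt G v _ (by simpa using h1t), cd_lt_lt G v u _ i (by simpa using h1t) hi] at h2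
        have e : (({((⟨1, by omega⟩ : Fin (t + 1)) : ℕ) - 1, ((⟨1, by omega⟩ : Fin (t + 1)) : ℕ) + 1} :
            Finset ℕ) ∩ {(i : ℕ) - 1, (i : ℕ) + 1}) = {0} := by
          ext a
          simp only [Finset.mem_inter, Finset.mem_insert, Finset.mem_singleton]
          omega
        rw [e, Finset.card_singleton] at h2
        exact key (by omega)
      · -- t = 1, y = u^1
        have ht1 : t = 1 := by omega
        have h2 := hhalf (some (u, ⟨1, by omega⟩)) (by
            intro h
            simp only [Option.some.injEq, Prod.mk.injEq, Fin.ext_iff] at h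
            omega)
          ⟨some (x, ⟨0, by omega⟩), ⟨hux, by simp⟩, ⟨hux.symm, by simp [h0]⟩⟩
        have ec : cd (mu G t) (some (u, ⟨1, by omega⟩)) (some (u, i))
            = cd (mu G t) (some (u, i)) (some (u, ⟨1, by omega⟩)) := cd_comm _ _ _
        rw [ec, dg_top G ht u _ (by simp [ht1]), cd_lt_top G ht u u i _ hi (by simp [ht1])] at h2
        have e : (({(i : ℕ) - 1, (i : ℕ) + 1} : Finset ℕ) ∩ {t - 1}) = {0} := by
          ext a
          simp only [Finset.mem_inter, Finset.mem_insert, Finset.mem_singleton]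
          omega
        rw [e, Finset.card_singleton, cd_self] at h2
        omega
    · -- y = v^((i-1)-1)
      have h2 := hhalf (some (v, ⟨(i : ℕ) - 1 - 1, by omega⟩)) (by
          intro h
          simp only [Option.some.injEq, Prod.mk.injEq] at h
          exact hvu h.1)
        ⟨some (x, ⟨(i : ℕ) - 1, by omega⟩), ⟨hxv.symm, by simp only; omega⟩,
          ⟨hux.symm, by simp only; omega⟩⟩
      rw [dg_lt G v _ (by simp only; omega), cd_lt_lt G v u _ i (by simp only; omega) hi] at h2
      have e : (({((⟨(i : ℕ) - 1 - 1, by omega⟩ : Fin (t + 1)) : ℕ) - 1,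
          ((⟨(i : ℕ) - 1 - 1, by omega⟩ : Fin (t + 1)) : ℕ) + 1} :
          Finset ℕ) ∩ {(i : ℕ) - 1, (i : ℕ) + 1}) = {(i : ℕ) - 1} := by
        ext a
        simp only [Finset.mem_inter, Finset.mem_insert, Finset.mem_singleton]
        omega
      rw [e, Finset.card_singleton] at h2
      exact key (by omega)
  · -- top level
    have hi' : (i : ℕ) = t := by omega
    rw [dg_top G ht u i hi'] at hdeg
    have hd2 : 2 ≤ dg G u := by omega
    obtain ⟨x, v, hux, hxv, hvu⟩ := hS u i rfl
    -- u is adjacent to v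
    have huv : G.Adj u v := by
      by_contra hnadj
      have hsub : N G u ⊆ (univ.erase u).erase v := by
        intro y hy
        rw [mem_N] at hy
        simp only [Finset.mem_erase, Finset.mem_univ, and_true]
        refine ⟨?_, ?_⟩
        · rintro rfl; exact hnadj hy
        · rintro rfl; exact G.loopless.irrefl _ hy
      have hc := Finset.card_le_card hsub
      rw [Finset.card_erase_of_mem (by simp [hvu]), Finset.card_erase_of_mem (by simp),
        Finset.card_univ] at hc
      have : dg G u = (N G u).card := rfl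
      omega
    have h2 := hhalf (some (v, ⟨t - 1 - 1, by omega⟩)) (by
        intro h
        simp only [Option.some.injEq, Prod.mk.injEq] at h
        exact hvu h.1)
      ⟨some (x, ⟨t - 1, by omega⟩), ⟨hxv.symm, by simp only; omega⟩,
        ⟨hux.symm, by simp only; omega⟩⟩
    rw [dg_lt G v _ (by simp only; omega), cd_lt_top G ht v u _ i (by simp only; omega) hi'] at h2
    have e : (({((⟨t - 1 - 1, by omega⟩ : Fin (t + 1)) : ℕ) - 1,
        ((⟨t - 1 - 1, by omega⟩ : Fin (t + 1)) : ℕ) + 1} :
        Finset ℕ) ∩ {t - 1}) = {t - 1} := by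
      ext a
      simp only [Finset.mem_inter, Finset.mem_insert, Finset.mem_singleton]
      omega
    rw [e, Finset.card_singleton] at h2
    have := sub_of_cd G (u := u) (v := v) (by omega) u huv.symm
    exact G.loopless.irrefl _ this

theorem fix_w (hT : TwinFree G) (hI : NoIso G) (hn : 3 ≤ Fintype.card V) (ht : 1 ≤ t)
    (φ : mu G t ≃g mu G t) : φ none = none := by
  apply fix_w' G hI hn ht φ
  intro u i hφ
  apply second G hT hI u
  have hdeg : dg (mu G t) (φ none) = Fintype.card V := by rw [dg_iso, dg_none]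
  rw [hφ] at hdeg
  have hit : (i : ℕ) ≤ t := by have := i.2; omega
  rcases Nat.lt_or_ge (i : ℕ) t with hi | hi
  · rw [dg_lt G u i hi] at hdeg
    omega
  · rw [dg_top G ht u i (by omega)] at hdeg
    omega

end

end Pool.Agent.MY12
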