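import Pool.Agent.MY12.Struct

/-! Automorphisms of the generalized Mycielskians of all graphs without isolated vertices other than
the stars. -/

namespace Pool.Agent.MY12

open SimpleGraph Finset

/-- twins -/
def Tw {V : Type*} (G : SimpleGraph V) (u v : V) : Prop := ∀ x, G.Adj u x ↔ G.Adj v x

theorem Tw.symm {V : Type*} {G : SimpleGraph V} {u v : V} (h : Tw G u v) : Tw G v u :=
  fun x => (h x).symm

theorem Tw.trans {V : Type*} {G : SimpleGraph V} {u v w : V} (h : Tw G u v) (h' : Tw G v w) :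
    Tw G u w := fun x => (h x).trans (h' x)

/-- the level, the root being at level t + 1 -/
def lev {V : Type*} {t : ℕ} (x : Option (V × Fin (t + 1))) : ℕ :=
  match x with
  | none => t + 1
  | some (_, i) => i

section

variable {V : Type*} (G : SimpleGraph V) {t : ℕ}

theorem near (u : V) (i : Fin (t + 1)) (hi : (i : ℕ) < t)
    (hall : ∀ x v, G.Adj u x → G.Adj x v → v = u) (y : Option (V × Fin (t + 1)))
    (hy : y ≠ some (u, i)) (hc : ∃ c, (mu G t).Adj y c ∧ (mu G t).Adj c (some (u, i))) :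
    lev y ≠ i ∧ (∃ j : ℕ, ((j = 0 ∧ (i : ℕ) = 0) ∨ j + 1 = i ∨ (i : ℕ) + 1 = j) ∧
      ((lev y = 0 ∧ j = 0) ∨ lev y + 1 = j ∨ j + 1 = lev y)) ∧
      (y = none ∧ lev y = t + 1 ∨ ∃ l : Fin (t + 1), y = some (u, l) ∧ lev y = l) := by
  obtain ⟨c, h1, h2⟩ := hc
  rcases c with _ | ⟨x, j⟩
  · have : (i : ℕ) = t := h2
    omega
  · obtain ⟨h3, h4⟩ := h2
    rcases y with _ | ⟨v, l⟩
    · have hj : (j : ℕ) = t := h1
      refine ⟨?_, ⟨(j : ℕ), h4, ?_⟩, Or.inl ⟨rfl, rfl⟩⟩
      · show t + 1 ≠ (i : ℕ)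
        omega
      · right; right
        show (j : ℕ) + 1 = t + 1
        omega
    · obtain ⟨h5, h6⟩ := h1
      have hv : v = u := hall x v h3.symm h5.symm
      subst hv
      refine ⟨?_, ⟨(j : ℕ), h4, h6⟩, Or.inr ⟨l, rfl, rfl⟩⟩
      intro hh
      apply hy
      have : l = i := Fin.ext hh
      rw [this]

theorem lev_inj {u : V} {y y' : Option (V × Fin (t + 1))}
    (h : y = none ∧ lev y = t + 1 ∨ ∃ l : Fin (t + 1), y = some (u, l) ∧ lev y = l)
    (h' : y' = none ∧ lev y' = t + 1 ∨ ∃ l : Fin (t + 1), y' = some (u, l) ∧ lev y' = l)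
    (he : lev y = lev y') : y = y' := by
  rcases h with ⟨h1, h2⟩ | ⟨l, h1, h2⟩ <;> rcases h' with ⟨h1', h2'⟩ | ⟨l', h1', h2'⟩
  · rw [h1, h1']
  · exfalso
    have := l'.2
    omega
  · exfalso
    have := l.2
    omega
  · have : l = l' := Fin.ext (by omega)
    rw [h1, h1', this]

end

section

variable {V : Type*} [Fintype V] (G : SimpleGraph V) {t : ℕ}

theorem three_contra (hI : NoIso G) (hn : 3 ≤ Fintype.card V) (ht : 1 ≤ t)
    (φ : mu G t ≃g mu G t) (u : V) (i : Fin (t + 1)) (hi : (i : ℕ) < t) (hφ : φ none = some (u, i))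
    (hall : ∀ x v, G.Adj u x → G.Adj x v → v = u) : False := by
  obtain ⟨v1, v2, v3, h12, h13, h23⟩ := Fintype.two_lt_card_iff.1 (show 2 < Fintype.card V by omega)
  let y : V → Option (V × Fin (t + 1)) := fun v => some (v, ⟨t - 1, by omega⟩)
  have hyinj : ∀ v v', v ≠ v' → φ (y v) ≠ φ (y v') := by
    intro v v' hne hh
    have := φ.injective hh
    simp only [y, Option.some.injEq, Prod.mk.injEq, and_true] at this
    exact hne this
  have hkey : ∀ v, φ (y v) ≠ some (u, i) ∧
      ∃ c, (mu G t).Adj (φ (y v)) c ∧ (mu G t).Adj c (some (u, i)) := by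
    intro v
    obtain ⟨x, hx⟩ := hI v
    constructor
    · intro hh
      rw [← hφ] at hh
      have := φ.injective hh
      simp [y] at this
    · refine ⟨φ (some (x, ⟨t, by omega⟩)), ?_, ?_⟩
      · apply φ.map_adj_iff.2
        refine ⟨hx, ?_⟩
        right; left
        show t - 1 + 1 = t
        omega
      · rw [← hφ]
        apply φ.map_adj_iff.2
        rfl
  have hnear := fun v => near G u i hi hall (φ (y v)) (hkey v).1 (hkey v).2
  obtain ⟨a1, ⟨j1, b1, c1⟩, d1⟩ := hnear v1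
  obtain ⟨a2, ⟨j2, b2, c2⟩, d2⟩ := hnear v2
  obtain ⟨a3, ⟨j3, b3, c3⟩, d3⟩ := hnear v3
  have e12 : lev (φ (y v1)) ≠ lev (φ (y v2)) := fun hh => hyinj _ _ h12 (lev_inj d1 d2 hh)
  have e13 : lev (φ (y v1)) ≠ lev (φ (y v3)) := fun hh => hyinj _ _ h13 (lev_inj d1 d3 hh)
  have e23 : lev (φ (y v2)) ≠ lev (φ (y v3)) := fun hh => hyinj _ _ h23 (lev_inj d2 d3 hh)
  clear d1 d2 d3 hnear hkey hyinj
  generalize lev (φ (y v1)) = l1 at *
  generalize lev (φ (y v2)) = l2 at *
  generalize lev (φ (y v3)) = l3 at *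
  omega

theorem card_of_noCentre (hC : NoCentre G) [Nonempty V] : 3 ≤ Fintype.card V := by
  classical
  obtain ⟨c⟩ := ‹Nonempty V›
  obtain ⟨u, v, huv, hu, hv⟩ := hC c
  have h : Fintype.card V > 2 := Fintype.two_lt_card_iff.2 ⟨c, u, v, hu.symm, hv.symm, huv.ne⟩
  omega

/-- The root is fixed. -/
theorem fix_w_gen (hI : NoIso G) (hC : NoCentre G) (hn : 3 ≤ Fintype.card V) (ht : 1 ≤ t)
    (φ : mu G t ≃g mu G t) : φ none = none := by
  classical
  apply fix_w' G hI hn ht φ
  intro u i hφ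
  by_contra hcon
  push Not at hcon
  have hall : ∀ x v, G.Adj u x → G.Adj x v → v = u := hcon
  have hit : (i : ℕ) ≤ t := by have := i.2; omega
  rcases Nat.lt_or_ge (i : ℕ) t with hi | hi
  · exact three_contra G hI hn ht φ u i hi hφ hall
  · have hdeg : dg (mu G t) (φ none) = Fintype.card V := by rw [dg_iso, dg_none]
    rw [hφ, dg_top G ht u i (by omega)] at hdeg
    obtain ⟨a, b, hab, ha, hb⟩ := hC u
    have hua : G.Adj u a := by
      by_contra hnadj
      have hsub : N G u ⊆ (univ.erase u).erase a := by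
        intro y hy
        rw [mem_N] at hy
        simp only [Finset.mem_erase, Finset.mem_univ, and_true]
        refine ⟨?_, ?_⟩
        · rintro rfl; exact hnadj hy
        · rintro rfl; exact G.loopless.irrefl _ hy
      have hc := Finset.card_le_card hsub
      rw [Finset.card_erase_of_mem (by simp [ha]), Finset.card_erase_of_mem (by simp),
        Finset.card_univ] at hc
      have : dg G u = (N G u).card := rfl
      omega
    exact hb (hall a b hua hab)

/-- Structure of the automorphisms: levels are preserved, on each level an automorphism of G acts,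
and the automorphisms of different levels agree up to twins. -/
theorem struct_gen (hI : NoIso G) (hC : NoCentre G) (hn : 3 ≤ Fintype.card V) (ht : 1 ≤ t)
    (φ : mu G t ≃g mu G t) : φ none = none ∧ ∃ s : Fin (t + 1) → (G ≃g G),
      (∀ u i, φ (some (u, i)) = some (s i u, i)) ∧ ∀ i j u, Tw G (s i u) (s j u) := by
  classical
  have hw := fix_w_gen G hI hC hn ht φ
  have hws := fix_w_gen G hI hC hn ht φ.symm
  refine ⟨hw, ?_⟩
  have hl : ∀ u : V, ∀ i : Fin (t + 1), ∃ v, φ (some (u, i)) = some (v, i) := fun u i =>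
    level G hI (t - i) (by omega) φ hw u i (by have := i.2; omega)
  have hls : ∀ u : V, ∀ i : Fin (t + 1), ∃ v, φ.symm (some (u, i)) = some (v, i) := fun u i =>
    level G hI (t - i) (by omega) φ.symm hws u i (by have := i.2; omega)
  choose s hs using hl
  choose r hr using hls
  have hsr : ∀ u i, s (r u i) i = u := by
    intro u i
    have := hs (r u i) i
    rw [← hr u i] at this
    simp only [RelIso.apply_symm_apply, Option.some.injEq, Prod.mk.injEq, and_true] at this
    exact this.symm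
  have hrs : ∀ u i, r (s u i) i = u := by
    intro u i
    have := hr (s u i) i
    rw [← hs u i] at this
    simp only [RelIso.symm_apply_apply, Option.some.injEq, Prod.mk.injEq, and_true] at this
    exact this.symm
  have hadj0 : ∀ u v, G.Adj (s u 0) (s v 0) ↔ G.Adj u v := by
    intro u v
    have h1 : (mu G t).Adj (some (u, 0)) (some (v, 0)) ↔ G.Adj u v :=
      ⟨fun h => h.1, fun h => ⟨h, Or.inl ⟨rfl, rfl⟩⟩⟩
    have h2 : (mu G t).Adj (some (s u 0, 0)) (some (s v 0, 0)) ↔ G.Adj (s u 0) (s v 0) :=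
      ⟨fun h => h.1, fun h => ⟨h, Or.inl ⟨rfl, rfl⟩⟩⟩
    rw [← h1, ← h2, ← hs u 0, ← hs v 0, φ.map_adj_iff]
  have hadj : ∀ u v (i j : Fin (t + 1)), (i : ℕ) + 1 = j → (G.Adj (s u i) (s v j) ↔ G.Adj u v) := by
    intro u v i j hij
    have h1 : (mu G t).Adj (some (u, i)) (some (v, j)) ↔ G.Adj u v :=
      ⟨fun h => h.1, fun h => ⟨h, Or.inr (Or.inl hij)⟩⟩
    have h2 : (mu G t).Adj (some (s u i, i)) (some (s v j, j)) ↔ G.Adj (s u i) (s v j) :=
      ⟨fun h => h.1, fun h => ⟨h, Or.inr (Or.inl hij)⟩⟩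
    rw [← h1, ← h2, ← hs u i, ← hs v j, φ.map_adj_iff]
  have hstep : ∀ n : ℕ, ∀ i : Fin (t + 1), (i : ℕ) = n → ∀ v, Tw G (s v i) (s v 0) := by
    intro n
    induction n using Nat.strong_induction_on with
    | _ n ih =>
      intro i hi v
      rcases n with _ | n
      · have : i = 0 := by ext; simpa using hi
        rw [this]
        exact fun x => Iff.rfl
      · have hp : n < t + 1 := by have := i.2; omega
        have hpi : ((⟨n, hp⟩ : Fin (t + 1)) : ℕ) + 1 = i := by simp only; omega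
        rcases n with _ | m
        · have h0 : (⟨0, hp⟩ : Fin (t + 1)) = 0 := rfl
          rw [h0] at hpi
          intro x
          have key : G.Adj (s v i) (s (r x 0) 0) ↔ G.Adj (s v 0) (s (r x 0) 0) := by
            rw [G.adj_comm, hadj _ v 0 i hpi, hadj0, G.adj_comm]
          rwa [hsr] at key
        · have hq : m < t + 1 := by omega
          have hqp : ((⟨m, hq⟩ : Fin (t + 1)) : ℕ) + 1 = (⟨m + 1, hp⟩ : Fin (t + 1)) := rfl
          refine Tw.trans ?_ (ih m (by omega) ⟨m, hq⟩ rfl v)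
          intro x
          have key : G.Adj (s v i) (s (r x ⟨m + 1, hp⟩) ⟨m + 1, hp⟩) ↔
              G.Adj (s v ⟨m, hq⟩) (s (r x ⟨m + 1, hp⟩) ⟨m + 1, hp⟩) := by
            rw [G.adj_comm, hadj _ v ⟨m + 1, hp⟩ i hpi, hadj v _ ⟨m, hq⟩ ⟨m + 1, hp⟩ hqp, G.adj_comm]
          rwa [hsr] at key
  have hauto : ∀ i u v, G.Adj (s u i) (s v i) ↔ G.Adj u v := by
    intro i u v
    rw [hstep i i rfl u (s v i), G.adj_comm, hstep i i rfl v (s u 0), G.adj_comm, hadj0]
  refine ⟨fun i => ⟨⟨fun u => s u i, fun u => r u i, fun u => hrs u i, fun u => hsr u i⟩,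
    fun {a b} => hauto i a b⟩, fun u i => hs u i, ?_⟩
  intro i j u
  exact (hstep i i rfl u).trans (hstep j j rfl u).symm

end

end Pool.Agent.MY12
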