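import Pool.Agent.MY12.Bound

/-! Rigid decorations of connected graphs of small maximum degree (twins allowed). -/

namespace Pool.Agent.MY12

open SimpleGraph

/-- A connected graph without isolated vertices whose degrees are at most 4^(t+1) - 3 has a rigid
decoration. -/
theorem deco_simple {V : Type*} [Fintype V] (G : SimpleGraph V) (hI : NoIso G) (hcon : G.Connected)
    {t : ℕ} (hΔ : ∀ v, (G.neighborSet v).ncard ≤ 4 ^ (t + 1) - 3) : RigidDeco G t := by
  classical
  obtain ⟨v₁⟩ := hcon.nonempty
  obtain ⟨par, dep, h⟩ := exists_fo G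
  -- a child of each root
  have hex : ∀ r, dep r = 0 → ∃ c, dep c ≠ 0 ∧ par c = r := by
    intro r hr
    obtain ⟨v, hv⟩ := hI r
    have hv0 : dep v ≠ 0 := by
      intro hv0
      have := h.one r v hv.reachable hr hv0
      rw [this] at hv
      exact G.loopless.irrefl v hv
    refine ⟨par^[dep v - 1] v, ?_, ?_⟩
    · have := h.it_dep (dep v - 1) v (by omega)
      omega
    · have h1 := h.it_dep (dep v) v le_rfl
      have h2 : par (par^[dep v - 1] v) = par^[dep v] v := by
        rw [← Function.iterate_succ_apply' par (dep v - 1) v]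
        congr 2
        omega
      rw [h2]
      apply h.one _ _ _ (by omega) hr
      exact (h.reach (dep v) v).symm.trans hv.symm.reachable
  choose! c hc using hex
  obtain ⟨n, hn'⟩ : ∃ n, n = 4 ^ (t + 1) - 2 - 1 := ⟨_, rfl⟩
  have h4 : 1 ≤ 4 ^ t := Nat.one_le_pow _ _ (by norm_num)
  obtain ⟨ι, F, hι, hFinj, hFz, hF1, hF2⟩ := exists_code t 1 n (by omega) hn'.le
  let Z : V → Prop := fun x => dep x = 0 ∨ (dep (par x) = 0 ∧ c (par x) = x)
  let A : V → Finset V := fun p => Finset.univ.filter (fun x => ¬ Z x ∧ par x = p)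
  have hA : ∀ p x, x ∈ A p ↔ ¬ Z x ∧ par x = p := by
    intro p x
    simp [A]
  have hAcard : ∀ p, (A p).card < n := by
    intro p
    have h1 : (G.neighborSet p).ncard ≤ n := by
      have := hΔ p
      omega
    have h2 : ∃ z, G.Adj p z ∧ z ∉ A p := by
      by_cases hp : dep p = 0
      · obtain ⟨k1, k2⟩ := hc p hp
        refine ⟨c p, ?_, ?_⟩
        · have := h.adj (c p) k1
          rw [k2] at this
          exact this
        · rw [hA]
          rintro ⟨hh, _⟩
          apply hh
          right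
          rw [k2]
          exact ⟨hp, rfl⟩
      · refine ⟨par p, (h.adj p hp).symm, ?_⟩
        rw [hA]
        rintro ⟨h3, h4⟩
        have h5 : dep (par p) ≠ 0 := fun hh => h3 (Or.inl hh)
        have e1 := h.dp p hp
        have e2 := h.dp (par p) h5
        rw [h4] at e2
        omega
    obtain ⟨z, hz, hzA⟩ := h2
    have h3 : ((A p : Finset V) : Set V) ⊂ G.neighborSet p := by
      refine ⟨?_, ?_⟩
      · intro x hx
        rw [Finset.mem_coe, hA] at hx
        obtain ⟨h4, h5⟩ := hx
        have := h.adj x (fun hh => h4 (Or.inl hh))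
        rw [h5] at this
        exact this
      · intro hh
        exact hzA (Finset.mem_coe.1 (hh hz))
    have h4 := Set.ncard_lt_ncard h3 (Set.toFinite _)
    rw [Set.ncard_coe_finset] at h4
    omega
  have hn0 : 0 < n := lt_of_le_of_lt (Nat.zero_le _) (hAcard v₁)
  obtain ⟨rk, hrk⟩ := exists_rk par A (fun p x hx => ((hA p x).1 hx).2)
  let γ : V → ℕ := fun x => if Z x then 0 else rk x
  have hγ : ∀ x, ¬ Z x → γ x = rk x := fun x hx => if_neg hx
  have hγn : ∀ x, γ x < n := by
    intro x
    by_cases hx : Z x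
    · have : γ x = 0 := if_pos hx
      omega
    · rw [hγ x hx]
      have h1 := (hrk (par x)).1 x ((hA _ _).2 ⟨hx, rfl⟩)
      have h2 := hAcard (par x)
      omega
  -- the labels and vertex bits
  obtain ⟨D, hD0, hDF⟩ := h.fuel ((zl, true) : Lab t × Bool) (fun x y =>
    if dep (par x) = 0 ∧ c (par x) = x then (ι 0, false) else F y.2 ⟨γ x, hγn x⟩)
  have hDc : ∀ r, dep r = 0 → D (c r) = (ι 0, false) := by
    intro r hr
    obtain ⟨k1, k2⟩ := hc r hr
    rw [hDF (c r) k1, if_pos ⟨by rw [k2]; exact hr, by rw [k2]⟩]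
  have hDn : ∀ x, ¬ Z x → D x = F (D (par x)).2 ⟨γ x, hγn x⟩ := by
    intro x hx
    rw [hDF x (fun hh => hx (Or.inl hh)), if_neg (fun hh => hx (Or.inr hh))]
  obtain ⟨a, e, hdec⟩ := dec_lemma (G := G) h c hc (fun x => (D x).1) (fun x => (D x).2)
    (fun l => ∃ i, l = ι i) (by
      intro v hv
      by_cases hZ : Z v
      · rcases hZ with hZ | ⟨hZ1, hZ2⟩
        · exact absurd hZ hv
        · have := hDc (par v) hZ1
          rw [hZ2] at this
          simp only [this]
          exact hι _
      · simp only [hDn v hZ]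
        exact hFz _ _) (by
      intro r hr
      simp only [hD0 r hr]) (by
      intro r hr
      simp only [hDc r hr]) (by
      intro r hr
      exact ⟨0, by simp only [hDc r hr]⟩) (by
      intro v hv hsp
      have hZ : ¬ Z v := by
        rintro (hh | hh)
        · exact hv hh
        · exact hsp hh
      have hDv := hDn v hZ
      constructor
      · rintro ⟨⟨j, hj⟩, h2, h3⟩
        rw [h2] at hDv
        rw [hDv] at hj h3
        exact hF1 _ j ⟨hj, h3⟩
      · rintro ⟨⟨j, hj⟩, h2, h3⟩
        rw [h3] at hDv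
        rw [hDv] at hj h2
        exact hF2 _ j ⟨hj, h2⟩) (by
      intro σ r hr hσr _
      exact h.one _ _ (hcon.preconnected (σ r) r) hσr hr)
  refine ⟨a, e, fun x => (D x).2, ?_⟩
  intro σ h1 h2 h3
  obtain ⟨k1, k2, k3, k4⟩ := hdec σ h1 h2 h3
  have hσZ : ∀ x, Z x → σ x = x := by
    rintro x (hx | ⟨hx1, hx2⟩)
    · exact (k1 x hx).1
    · have := (k1 _ hx1).2
      rwa [hx2] at this
  have hZσ : ∀ v, Z (σ v) → Z v := by
    intro v hh
    have e1 := hσZ _ hh
    have e2 := σ.injective e1
    rw [← e2]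
    exact hh
  have hdown : ∀ m x, dep x ≤ m → σ x = x := by
    intro m
    induction m with
    | zero =>
      intro x hx
      exact (k1 x (by omega)).1
    | succ m ih =>
      intro x hx
      by_cases hxZ : Z x
      · exact hσZ x hxZ
      have hx0 : dep x ≠ 0 := fun hh => hxZ (Or.inl hh)
      have hdx := h.dp x hx0
      have hp : σ (par x) = par x := ih (par x) (by omega)
      have hpx : par (σ x) = par x := by rw [k3 x hx0, hp]
      have hx' : ¬ Z (σ x) := fun hh => hxZ (hZσ x hh)
      have e1 : D (σ x) = D x := Prod.ext (k4 x hx0) (h3 x)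
      rw [hDn x hxZ, hDn (σ x) hx', hpx] at e1
      have e2 := congrArg Fin.val (hFinj _ e1)
      simp only [hγ x hxZ, hγ (σ x) hx'] at e2
      exact (hrk (par x)).2.1 (σ x) ((hA _ _).2 ⟨hx', hpx⟩) x ((hA _ _).2 ⟨hxZ, rfl⟩) e2
  ext x
  exact hdown (dep x) x le_rfl

end Pool.Agent.MY12
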