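import Pool.Agent.MY12.Red2
import Pool.Agent.MY12.Pend
import Pool.Agent.MY12.Simple

/-! Graphs in which each class of twins is small compared with its number of neighbours without
twins: degree bounds. -/

namespace Pool.Agent.MY12

open SimpleGraph

/-- the number of vertices with the same neighbours as u -/
noncomputable def tw {V : Type*} (G : SimpleGraph V) (u : V) : ℕ :=
  {v | ∀ x, G.Adj u x ↔ G.Adj v x}.ncard

/-- the degree -/
noncomputable def dgr {V : Type*} (G : SimpleGraph V) (u : V) : ℕ := (G.neighborSet u).ncard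

/-- the number of neighbours without twins -/
noncomputable def dfree {V : Type*} (G : SimpleGraph V) (u : V) : ℕ := {v | G.Adj u v ∧ tw G v = 1}.ncard

section

variable {V : Type*} [Fintype V] (G : SimpleGraph V)

theorem tw_pos (u : V) : 1 ≤ tw G u := by
  have : ({u} : Set V) ⊆ {v | ∀ x, G.Adj u x ↔ G.Adj v x} := by
    intro v hv
    rw [Set.mem_singleton_iff] at hv
    rw [hv]
    exact fun x => Iff.rfl
  have h2 := Set.ncard_le_ncard this (Set.toFinite _)
  rwa [Set.ncard_singleton] at h2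

theorem tw_eq_one_iff (u : V) : tw G u = 1 ↔ ¬ ∃ v, v ≠ u ∧ Tw G u v := by
  constructor
  · rintro h ⟨v, hv, huv⟩
    obtain ⟨a, ha⟩ := Set.ncard_eq_one.1 h
    have h1 : u ∈ {v | ∀ x, G.Adj u x ↔ G.Adj v x} := fun x => Iff.rfl
    have h2 : v ∈ {v | ∀ x, G.Adj u x ↔ G.Adj v x} := huv
    rw [ha, Set.mem_singleton_iff] at h1 h2
    exact hv (h2.trans h1.symm)
  · intro h
    have : {v | ∀ x, G.Adj u x ↔ G.Adj v x} = {u} := by
      ext v
      constructor
      · intro hv
        by_contra hne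
        exact h ⟨v, hne, hv⟩
      · intro hv
        rw [Set.mem_singleton_iff] at hv
        rw [hv]
        exact fun x => Iff.rfl
    unfold tw
    rw [this, Set.ncard_singleton]

theorem dgr_eq (u : V) : dgr G u = (Nf G u).card := by
  unfold dgr
  rw [← Set.ncard_coe_finset]
  congr 1
  ext x
  rw [Finset.mem_coe, mem_Nf]
  rfl

theorem dfree_eq (u : V) : dfree G u = (N1 G u).card := by
  unfold dfree
  rw [← Set.ncard_coe_finset]
  congr 1
  ext x
  rw [Finset.mem_coe, mem_N1, Set.mem_setOf_eq, tw_eq_one_iff]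

theorem tw_eq (rep : V → V) (hrep : ∀ u v, rep u = rep v ↔ Tw G u v) (A : V → Finset V)
    (hA : ∀ w v, v ∈ A w ↔ rep v = w) (u : V) : tw G u = (A (rep u)).card := by
  unfold tw
  rw [← Set.ncard_coe_finset]
  congr 1
  ext v
  rw [Finset.mem_coe, hA, Set.mem_setOf_eq]
  exact ⟨fun h => ((hrep u v).2 h).symm, fun h => (hrep u v).1 h.symm⟩

end

/-- Degree bound for all graphs (not necessarily connected). -/
theorem ind3 {V : Type*} [Fintype V] (G : SimpleGraph V) (hI : NoIso G) (hC : NoCentre G)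
    (hn : 3 ≤ Fintype.card V)
    (hk : ∀ u, 2 ≤ tw G u → tw G u ≤ 2 ^ (dfree G u + 1) ∧ tw G u ≤ 3 ^ dfree G u) {r s : ℕ}
    (hr : 1 ≤ r) (hs : s ≤ 2 * 4 ^ r - 1)
    (hκ : ∀ c : G.ConnectedComponent, {c' | IsoC G c c'}.ncard ≤ s)
    (hΔ : ∀ v, dgr G v ≤ (4 ^ (r + 1) - 2 - s) ^ 2) : EdgeDist (mu G (r + 1)) 2 := by
  classical
  obtain ⟨rep, hr1, hr2⟩ := exists_rep G
  have hrep : ∀ u v, rep u = rep v ↔ Tw G u v := fun u v =>
    ⟨fun h => ((hr1 u).symm).trans (by rw [h]; exact hr1 v), hr2 u v⟩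
  let A : V → Finset V := fun w => Finset.univ.filter (fun v => rep v = w)
  have hA : ∀ w v, v ∈ A w ↔ rep v = w := by
    intro w v
    simp [A]
  have htw := tw_eq G rep hrep A hA
  have hrr : ∀ u, rep (rep u) = rep u := fun u => hr2 _ _ (hr1 u)
  have hM2 : ∀ u, (∃ u', u' ≠ u ∧ Tw G u u') → 2 ≤ tw G u := by
    intro u hu
    have h1 := tw_pos G u
    have h2 : tw G u ≠ 1 := fun hh => (tw_eq_one_iff G u).1 hh hu
    omega
  let S : Set V := {v | rep v = v ∧ ¬ ((Nf G v).card = 1 ∧ (A v).card = 4)}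
  have hrS : ∀ u, rep u ∈ S := by
    intro u
    refine ⟨hrr u, ?_⟩
    rintro ⟨h1, h2⟩
    have h3 : tw G (rep u) = 4 := by rw [htw, hrr, h2]
    have h4 := (hk (rep u) (by omega)).2
    have h5 : dfree G (rep u) ≤ 1 := by
      rw [dfree_eq, ← h1]
      apply Finset.card_le_card
      intro x hx
      exact (mem_Nf _ _ _).2 ((mem_N1 _ _ _).1 hx).1
    have h6 : 3 ^ dfree G (rep u) ≤ 3 ^ 1 := Nat.pow_le_pow_right (by norm_num) h5
    omega
  obtain ⟨ρ, hρs, hρ⟩ := exists_rank G s hκ
  apply dist_of_red2 G hI hC hn hr rep hr1 hr2 A hA ?_ S (fun v => Iff.rfl)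
  · -- reachability passes to the reduction
    let R : G →g G.induce S := ⟨fun x => ⟨rep x, hrS x⟩, fun {a b} h => (rep_adj hr1).2 h⟩
    have hR : ∀ v : S, R v.1 = v := fun v => Subtype.ext v.2.1
    have hreach : ∀ u v : S, G.Reachable u.1 v.1 → (G.induce S).Reachable u v := by
      intro u v h
      have := h.map R
      rwa [hR, hR] at this
    let I : G.induce S →g G := ⟨Subtype.val, fun {a b} h => h⟩
    apply deco_of_degQ (G.induce S) ?_ ?_ hs _ (fun c => ρ (c.map I)) (fun c => hρs _) ?_ ?_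
    · intro u v h
      have h1 : Tw G u.1 v.1 := by
        intro x
        rw [← rep_adj_right hr1, ← rep_adj_right hr1 (x := v.1)]
        exact h ⟨rep x, hrS x⟩
      have h2 := hr2 _ _ h1
      rw [u.2.1, v.2.1] at h2
      exact Subtype.ext h2
    · intro u
      obtain ⟨x, hx⟩ := hI u.1
      exact ⟨⟨rep x, hrS x⟩, (rep_adj_right hr1).2 hx⟩
    · rintro σ ⟨τ, hτ⟩ v hh
      apply hreach
      have e1 : G.Reachable (σ v).1 (τ v.1) := by
        rw [hτ v]
        obtain ⟨x, hx⟩ := hI (τ v.1)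
        exact ((hr1 _ _).2 hx).reachable.trans hx.symm.reachable
      have e2 : G.connectedComponentMk (σ v).1 = G.connectedComponentMk (τ v.1) :=
        ConnectedComponent.sound e1
      have e3 : ρ (G.connectedComponentMk (σ v).1) = ρ (G.connectedComponentMk v.1) := hh
      rw [e2] at e3
      have e4 := hρ _ _ (isoC_map G τ v.1) e3.symm
      exact e1.trans (ConnectedComponent.exact e4.symm)
    · intro v
      exact nbr_induce S v (hΔ v.1)
  · intro u hu
    right
    have h1 := hk u (hM2 u hu)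
    rw [htw, dfree_eq] at h1
    exact h1

/-- Degree bound for connected graphs, with up to four pendant vertices at a vertex. -/
theorem ind4 {V : Type*} [Fintype V] (G : SimpleGraph V) (hI : NoIso G) (hconn : G.Connected)
    (hC : NoCentre G)
    (hk : ∀ u, 2 ≤ tw G u → (dgr G u = 1 ∧ tw G u = 4) ∨
      (tw G u ≤ 2 ^ (dfree G u + 1) ∧ tw G u ≤ 3 ^ dfree G u)) {r : ℕ}
    (hr : 1 ≤ r) (hΔ : ∀ v, dgr G v ≤ 4 ^ (r + 1) - 3) : EdgeDist (mu G (r + 1)) 2 := by
  classical
  have hne := hconn.nonempty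
  have hn := card_of_noCentre G hC
  obtain ⟨rep, hr1, hr2⟩ := exists_rep G
  have hrep : ∀ u v, rep u = rep v ↔ Tw G u v := fun u v =>
    ⟨fun h => ((hr1 u).symm).trans (by rw [h]; exact hr1 v), hr2 u v⟩
  let A : V → Finset V := fun w => Finset.univ.filter (fun v => rep v = w)
  have hA : ∀ w v, v ∈ A w ↔ rep v = w := by
    intro w v
    simp [A]
  have htw := tw_eq G rep hrep A hA
  have hrr : ∀ u, rep (rep u) = rep u := fun u => hr2 _ _ (hr1 u)
  have hM2 : ∀ u, (∃ u', u' ≠ u ∧ Tw G u u') → 2 ≤ tw G u := by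
    intro u hu
    have h1 := tw_pos G u
    have h2 : tw G u ≠ 1 := fun hh => (tw_eq_one_iff G u).1 hh hu
    omega
  let S : Set V := {v | rep v = v ∧ ¬ ((Nf G v).card = 1 ∧ (A v).card = 4)}
  choose p hp using hI
  have hbig : ∀ u, rep u ∉ S → p u ∈ S ∧ ∀ x, G.Adj u x → x = p u := by
    intro u hu
    have hc : (Nf G (rep u)).card = 1 ∧ (A (rep u)).card = 4 := by
      by_contra hne
      exact hu ⟨hrr u, hne⟩
    rw [Nf_tw (hr1 u)] at hc
    obtain ⟨hc1, hc2⟩ := hc
    obtain ⟨y, hy⟩ := Finset.card_eq_one.1 hc1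
    have hall : ∀ x, G.Adj u x → x = p u := by
      intro x hx
      have e1 : x ∈ Nf G u := (mem_Nf _ _ _).2 hx
      have e2 : p u ∈ Nf G u := (mem_Nf _ _ _).2 (hp u)
      rw [hy, Finset.mem_singleton] at e1 e2
      exact e1.trans e2.symm
    have hno : ∀ z, Tw G (p u) z → z = p u := by
      intro z hz
      exact hall z ((hz u).1 (hp u).symm).symm
    refine ⟨⟨hno _ (hr1 _).symm, ?_⟩, hall⟩
    have h1 : A (p u) ⊆ {p u} := by
      intro z hz
      rw [hA] at hz
      rw [Finset.mem_singleton]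
      apply hno
      have := hr1 z
      rw [hz] at this
      exact this
    have := Finset.card_le_card h1
    rw [Finset.card_singleton] at this
    rintro ⟨_, h2⟩
    omega
  let ret : V → S := fun u => if h : rep u ∈ S then ⟨rep u, h⟩
    else if h' : p u ∈ S then ⟨p u, h'⟩ else ⟨p u, (hbig u h).1⟩
  have hret1 : ∀ u (h : rep u ∈ S), ret u = ⟨rep u, h⟩ := fun u h => dif_pos h
  have hret2 : ∀ u (h : rep u ∉ S), ret u = ⟨p u, (hbig u h).1⟩ := by
    intro u h
    show (if h : rep u ∈ S then (⟨rep u, h⟩ : S)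
      else if h' : p u ∈ S then ⟨p u, h'⟩ else ⟨p u, (hbig u h).1⟩) = _
    rw [dif_neg h, dif_pos (hbig u h).1]
  have hretS : ∀ v : S, ret v.1 = v := by
    intro v
    have h1 : rep v.1 ∈ S := by
      rw [v.2.1]
      exact v.2
    rw [hret1 _ h1]
    exact Subtype.ext v.2.1
  have hpS : ∀ u, rep u ∉ S → ret (p u) = ret u := by
    intro u hu
    rw [hret2 u hu]
    exact hretS ⟨p u, (hbig u hu).1⟩
  have hstep : ∀ u v, G.Adj u v → (G.induce S).Reachable (ret u) (ret v) := by
    intro u v huv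
    by_cases h1 : rep u ∈ S
    · by_cases h2 : rep v ∈ S
      · rw [hret1 u h1, hret1 v h2]
        have : (G.induce S).Adj ⟨rep u, h1⟩ ⟨rep v, h2⟩ := (rep_adj hr1).2 huv
        exact this.reachable
      · have := (hbig v h2).2 u huv.symm
        rw [this, hpS v h2]
    · have := (hbig u h1).2 v huv
      rw [this, hpS u h1]
  have hreach : ∀ u v, G.Reachable u v → (G.induce S).Reachable (ret u) (ret v) := by
    rintro u v ⟨w⟩
    induction w with
    | nil => exact Reachable.refl _
    | cons h _ ih => exact (hstep _ _ h).trans ih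
  have hconnS : (G.induce S).Connected := by
    obtain ⟨u₀⟩ := hne
    have : Nonempty S := ⟨ret u₀⟩
    refine ⟨?_⟩
    intro u v
    have := hreach u.1 v.1 (hconn u.1 v.1)
    rwa [hretS, hretS] at this
  have hcl : ∀ v z, G.Reachable z v → (∀ x, G.Adj v x → rep x ∉ S) → z = v ∨ G.Adj v z := by
    rintro v z ⟨w⟩
    induction w with
    | nil => intro _; exact Or.inl rfl
    | @cons a b c hab _ ih =>
      intro hall
      rcases ih hall with h1 | h1
      · right
        rw [← h1]
        exact hab.symm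
      · left
        have h2 := (hbig b (hall b h1)).2
        rw [h2 a hab.symm, h2 _ h1.symm]
  have hIS : NoIso (G.induce S) := by
    intro v
    by_contra hcon
    push Not at hcon
    have hall : ∀ x, G.Adj v.1 x → rep x ∉ S := by
      intro x hx hrx
      exact hcon ⟨rep x, hrx⟩ ((rep_adj_right hr1).2 hx)
    obtain ⟨a, b, hab, ha, hb⟩ := hC v.1
    rcases hcl v.1 a (hconn a v.1) hall with h1 | h1
    · exact ha h1
    · have h2 := (hbig a (hall a h1)).2
      exact hb (by rw [h2 b hab, h2 _ h1.symm])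
  obtain ⟨a, e, b, hdec⟩ := deco_simple (G.induce S) hIS hconnS (t := r)
    (fun v => nbr_induce S v (hΔ v.1))
  apply dist_of_red2 G (fun u => ⟨p u, hp u⟩) hC hn hr rep hr1 hr2 A hA ?_ S (fun v => Iff.rfl)
    ⟨a, e, b, fun σ _ => hdec σ⟩
  intro u hu
  rcases hk u (hM2 u hu) with h1 | h1
  · left
    rw [htw, dgr_eq] at h1
    exact h1
  · right
    rw [htw, dfree_eq] at h1
    exact h1

end Pool.Agent.MY12
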