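import Pool.Agent.MY12.Empty
import Pool.Agent.MY12.CritGen

/-! Graphs with distinguishing index at most two. -/

namespace Pool.Agent.MY12

open SimpleGraph

theorem rigidT_of_two {V : Type*} (G : SimpleGraph V) (h : EdgeDist G 2) (t : ℕ) :
    RigidT G t := by
  rw [edgeDist_two_iff] at h
  obtain ⟨f, hf, hφ⟩ := h
  refine ⟨fun _ u v => f u v, Sym2.lift ⟨fun u v => f u v, fun u v => hf u v⟩, fun _ => false, ?_⟩
  intro s hs h1 h2 _
  have key : ∀ j (hj : j < t + 1), s ⟨j, hj⟩ = RelIso.refl _ := by
    intro j
    induction j with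
    | zero =>
      intro hj
      exact hφ (s 0) (fun u v huv => h2 u v huv)
    | succ j ih =>
      intro hj
      have hj0 : j < t := by omega
      have hprev := ih (by omega)
      apply RelIso.ext
      intro v
      refine (eq_of_same G f hf hφ (x := v) (y := s ⟨j + 1, hj⟩ v) ?_ ?_).symm
      · intro z
        have := hs ⟨j + 1, hj⟩ ⟨j, by omega⟩ v z
        rw [hprev] at this
        exact this.symm
      · intro z hz
        have := h1 ⟨j, hj0⟩ z v hz.symm
        have e1 : (⟨j, hj0⟩ : Fin t).castSucc = ⟨j, by omega⟩ := rfl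
        have e2 : (⟨j, hj0⟩ : Fin t).succ = ⟨j + 1, hj⟩ := rfl
        rw [e1, e2, hprev] at this
        rw [hf v z, hf _ z]
        exact this.symm
  intro i
  exact key i i.2

end Pool.Agent.MY12
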