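import Pool.Agent.MY12.Gen
import Pool.Agent.MY12.Crit
import Pool.Agent.MY12.Label

/-! Graphs whose twins are pendant: colourings of the generalized Mycielskian from decorations of the
twin reduction. -/

namespace Pool.Agent.MY12

open SimpleGraph

theorem lift_of_deco {V : Type*} (G : SimpleGraph V) {t : ℕ} {Q : (G ≃g G) → Prop}
    (h : RigidDecoQ G t Q) :
    ∃ f : Option (V × Fin (t + 1)) → Option (V × Fin (t + 1)) → Bool, (∀ x y, f x y = f y x) ∧
      ∀ σ : G ≃g G, Q σ → (∀ x y, (mu G t).Adj x y → f (lift G t σ x) (lift G t σ y) = f x y) →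
        σ = RelIso.refl _ := by
  obtain ⟨a, e, b, h⟩ := h
  refine ⟨col a e b, col_symm a e b, ?_⟩
  intro σ hQ hφ
  apply h σ hQ
  · intro i u v huv
    have := hφ (some (u, i.castSucc)) (some (v, i.succ)) ⟨huv, by right; left; simp⟩
    simpa [col, lift_some] using this
  · intro u v huv
    have := hφ (some (u, 0)) (some (v, 0)) ⟨huv, Or.inl ⟨rfl, rfl⟩⟩
    simpa [col, lift_some] using this
  · intro u
    have := hφ (some (u, Fin.last t)) none (by show ((Fin.last t : Fin (t + 1)) : ℕ) = t; simp)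
    simpa [col, lift_some, lift_none] using this

theorem tw_iso {V : Type*} {G : SimpleGraph V} (σ : G ≃g G) {u v : V} :
    Tw G (σ u) (σ v) ↔ Tw G u v := by
  constructor
  · intro h x
    have := h (σ x)
    rwa [σ.map_adj_iff, σ.map_adj_iff] at this
  · intro h x
    obtain ⟨y, rfl⟩ := σ.surjective x
    rw [σ.map_adj_iff, σ.map_adj_iff]
    exact h y

theorem toNat_inj' {a b : Bool} (h : a.toNat = b.toNat) : a = b := by
  cases a <;> cases b <;> simp at h ⊢

/-- the upper neighbour of a pendant vertex of level i attached to v -/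
def upn {V : Type*} {t : ℕ} (v : V) (i : Fin (t + 1)) : Option (V × Fin (t + 1)) :=
  if h : (i : ℕ) < t then some (v, ⟨(i : ℕ) + 1, by omega⟩) else none

/-- the lower neighbour of a pendant vertex of level i attached to v -/
def dnn {V : Type*} {t : ℕ} (v : V) (i : Fin (t + 1)) : Option (V × Fin (t + 1)) :=
  some (v, ⟨(i : ℕ) - 1, by have := i.2; omega⟩)

theorem dnn_ne_upn {V : Type*} {t : ℕ} (v v' : V) (i : Fin (t + 1)) : dnn v i ≠ upn v' i := by
  unfold dnn upn
  split_ifs with h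
  · intro hh
    simp only [Option.some.injEq, Prod.mk.injEq, Fin.mk.injEq] at hh
    omega
  · simp

section

variable {V : Type*} (G : SimpleGraph V) {t : ℕ}

theorem adj_upn {u v : V} (h : G.Adj u v) (i : Fin (t + 1)) : (mu G t).Adj (some (u, i)) (upn v i) := by
  unfold upn
  split_ifs with hi
  · exact ⟨h, Or.inr (Or.inl rfl)⟩
  · show (i : ℕ) = t
    have := i.2
    omega

theorem adj_dnn {u v : V} (h : G.Adj u v) (i : Fin (t + 1)) : (mu G t).Adj (some (u, i)) (dnn v i) := by
  refine ⟨h, ?_⟩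
  simp only
  omega

theorem adj_pend {u : V} {v : V} (h : ∀ x, G.Adj u x → x = v) (i : Fin (t + 1))
    (y : Option (V × Fin (t + 1))) (hy : (mu G t).Adj (some (u, i)) y) : y = upn v i ∨ y = dnn v i := by
  have hi := i.2
  rcases y with _ | ⟨x, j⟩
  · have hi' : (i : ℕ) = t := hy
    left
    unfold upn
    rw [dif_neg (by omega)]
  · obtain ⟨h1, h2⟩ := hy
    have hx := h x h1
    have hj := j.2
    subst hx
    by_cases h3 : (i : ℕ) + 1 = j
    · left
      unfold upn
      rw [dif_pos (by omega)]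
      congr 2
      exact Fin.ext h3.symm
    · right
      unfold dnn
      congr 2
      apply Fin.ext
      simp only
      omega

end

theorem dist_of_red {V : Type*} [Fintype V] (G : SimpleGraph V) {t : ℕ} (hI : NoIso G)
    (hC : NoCentre G) (hn : 3 ≤ Fintype.card V) (ht : 1 ≤ t) (rep : V → V)
    (hr1 : ∀ u, Tw G (rep u) u) (hr2 : ∀ u v, Tw G u v → rep u = rep v)
    (hP : ∀ u v, u ≠ v → Tw G u v → ∀ x y, G.Adj u x → G.Adj u y → x = y)
    (A : V → Finset V) (hA : ∀ w v, v ∈ A w ↔ rep v = w) (hk : ∀ u, (A (rep u)).card ≤ 4)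
    (S : Set V) (hS : ∀ v, v ∈ S ↔ rep v = v ∧ (A v).card ≠ 4)
    (hdec : RigidDecoQ (G.induce S) t (fun σ => ∃ τ : G ≃g G, ∀ v, (σ v).1 = rep (τ v.1))) :
    EdgeDist (mu G t) 2 := by
  classical
  let M : V → Prop := fun u => ∃ v, v ≠ u ∧ Tw G u v
  have hrep : ∀ u v, rep u = rep v ↔ Tw G u v := fun u v =>
    ⟨fun h => ((hr1 u).symm).trans (by rw [h]; exact hr1 v), hr2 u v⟩
  have hrr : ∀ u, rep (rep u) = rep u := fun u => hr2 _ _ (hr1 u)
  choose p hp using hI
  have hMp : ∀ u, M u → ∀ x, G.Adj u x → x = p u := by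
    rintro u ⟨v, hv, huv⟩ x hx
    exact hP u v hv.symm huv x (p u) hx (hp u)
  have hMnp : ∀ u, M u → ¬ M (p u) := by
    rintro u ⟨v, hv, huv⟩ hM
    have h1 := hMp (p u) hM u (hp u).symm
    have h2 := hMp (p u) hM v ((huv (p u)).1 (hp u)).symm
    exact hv (h2.trans h1.symm)
  have hnMrep : ∀ u, ¬ M u → rep u = u := by
    intro u hu
    by_contra hne
    exact hu ⟨rep u, hne, (hr1 u).symm⟩
  have hSnM : ∀ u, ¬ M u → u ∈ S := by
    intro u hu
    rw [hS]
    refine ⟨hnMrep u hu, ?_⟩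
    have h1 : A u ⊆ {u} := by
      intro v hv
      rw [hA] at hv
      rw [Finset.mem_singleton]
      by_contra hne
      apply hu
      refine ⟨v, hne, ?_⟩
      have := hr1 v
      rw [hv] at this
      exact this
    have := Finset.card_le_card h1
    rw [Finset.card_singleton] at this
    omega
  have hne : Nonempty V := by
    apply Fintype.card_pos_iff.1
    omega
  obtain ⟨u₀⟩ := hne
  obtain ⟨v₀, hv₀⟩ : ∃ v, v ∈ S := by
    by_cases h : M u₀
    · exact ⟨p u₀, hSnM _ (hMnp u₀ h)⟩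
    · exact ⟨u₀, hSnM _ h⟩
  obtain ⟨rk, hrk⟩ := exists_rk rep A (fun w v hv => (hA w v).1 hv)
  obtain ⟨f, hfs, hf⟩ := lift_of_deco (G.induce S) hdec
  let q : V → S := fun u => if h : rep u ∈ S then ⟨rep u, h⟩ else ⟨v₀, hv₀⟩
  have hqc : ∀ u v, rep u = rep v → q u = q v := by
    intro u v h
    show (if h : rep u ∈ S then (⟨rep u, h⟩ : S) else ⟨v₀, hv₀⟩)
      = (if h : rep v ∈ S then (⟨rep v, h⟩ : S) else ⟨v₀, hv₀⟩)
    simp only [h]
  let emb : Option (V × Fin (t + 1)) → Option (S × Fin (t + 1)) := Option.map (fun a => (q a.1, a.2))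
  let g : Option (V × Fin (t + 1)) → Option (V × Fin (t + 1)) → Bool := fun x y => f (emb x) (emb y)
  have hgs : ∀ x y, g x y = g y x := fun x y => hfs _ _
  let Code : V → Fin (t + 1) → ℕ := fun u i =>
    (g (some (u, i)) (dnn (p u) i)).toNat + 2 * (g (some (u, i)) (upn (p u) i)).toNat
  have hCode4 : ∀ u i, Code u i < 4 := by
    intro u i
    show (g (some (u, i)) (dnn (p u) i)).toNat + 2 * (g (some (u, i)) (upn (p u) i)).toNat < 4
    have h1 := Bool.toNat_le (g (some (u, i)) (dnn (p u) i))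
    have h2 := Bool.toNat_le (g (some (u, i)) (upn (p u) i))
    omega
  let cc : V → Fin (t + 1) → ℕ := fun u i => (rk u + Code u i) % 4
  let isM : Option (V × Fin (t + 1)) → Prop := fun x => ∃ u i, x = some (u, i) ∧ M u
  have hisM : ∀ u i, isM (some (u, i)) ↔ M u := by
    intro u i
    constructor
    · rintro ⟨u', i', h1, h2⟩
      simp only [Option.some.injEq, Prod.mk.injEq] at h1
      rw [h1.1]
      exact h2
    · intro h
      exact ⟨u, i, rfl, h⟩
  have hisMn : ¬ isM none := by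
    rintro ⟨u', i', h1, h2⟩
    simp at h1
  have hisMup : ∀ v i, ¬ M v → ¬ isM (upn v i) := by
    intro v i hv
    unfold upn
    split_ifs with h
    · rw [hisM]
      exact hv
    · exact hisMn
  have hisMdn : ∀ v i, ¬ M v → ¬ isM (dnn v i) := by
    intro v i hv
    unfold dnn
    rw [hisM]
    exact hv
  let twc : Option (V × Fin (t + 1)) → Option (V × Fin (t + 1)) → Bool := fun x y =>
    match x with
    | none => false
    | some (u, i) => if y = upn (p u) i then decide (cc u i / 2 = 1) else decide (cc u i % 2 = 1)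
  let F : Option (V × Fin (t + 1)) → Option (V × Fin (t + 1)) → Bool := fun x y =>
    if isM x ∧ ¬ isM y then twc x y else if isM y ∧ ¬ isM x then twc y x else g x y
  have hF1 : ∀ x y, isM x → ¬ isM y → F x y = twc x y := fun x y h1 h2 => if_pos ⟨h1, h2⟩
  have hF2 : ∀ x y, ¬ isM x → ¬ isM y → F x y = g x y := by
    intro x y h1 h2
    show (if isM x ∧ ¬ isM y then twc x y else if isM y ∧ ¬ isM x then twc y x else g x y) = _
    rw [if_neg (fun hh => h1 hh.1), if_neg (fun hh => h2 hh.1)]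
  have hFs : ∀ x y, F x y = F y x := by
    intro x y
    show (if isM x ∧ ¬ isM y then twc x y else if isM y ∧ ¬ isM x then twc y x else g x y)
      = (if isM y ∧ ¬ isM x then twc y x else if isM x ∧ ¬ isM y then twc x y else g y x)
    by_cases h1 : isM x <;> by_cases h2 : isM y
    · simp [h1, h2, hgs x y]
    · simp [h1, h2]
    · simp [h1, h2]
    · simp [h1, h2, hgs x y]
  rw [edgeDist_two_iff]
  refine ⟨F, hFs, ?_⟩
  intro φ hφ
  obtain ⟨hw, s, hs, hst⟩ := struct_gen G (fun u => ⟨p u, hp u⟩) hC hn ht φ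
  have hsM : ∀ (τ : G ≃g G) u, M (τ u) ↔ M u := by
    intro τ u
    constructor
    · rintro ⟨v, hv, huv⟩
      obtain ⟨v', rfl⟩ := τ.surjective v
      exact ⟨v', fun hh => hv (by rw [hh]), (tw_iso τ).1 huv⟩
    · rintro ⟨v, hv, huv⟩
      exact ⟨τ v, fun hh => hv (τ.injective hh), (tw_iso τ).2 huv⟩
  have hsne : ∀ u, ¬ M u → ∀ i j, s i u = s j u := by
    intro u hu i j
    by_contra hne
    exact hu ((hsM (s i) u).1 ⟨s j u, fun hh => hne hh.symm, hst i j u⟩)
  have hps : ∀ u, M u → ∀ i j, p (s i u) = s j (p u) := by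
    intro u hu i j
    have h1 : G.Adj (s i u) (s i (p u)) := (s i).map_adj_iff.2 (hp u)
    have h2 := hMp (s i u) ((hsM (s i) u).2 hu) _ h1
    rw [← h2]
    exact hsne (p u) (hMnp u hu) i j
  have hφup : ∀ v, ¬ M v → ∀ i j, φ (upn v i) = upn (s j v) i := by
    intro v hv i j
    unfold upn
    split_ifs with h
    · rw [hs, hsne v hv _ j]
    · exact hw
  have hφdn : ∀ v, ¬ M v → ∀ i j, φ (dnn v i) = dnn (s j v) i := by
    intro v hv i j
    unfold dnn
    rw [hs, hsne v hv _ j]
  have hcc : ∀ u i, M u → cc (s i u) i = cc u i := by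
    intro u i hu
    have hu' := (hsM (s i) u).2 hu
    have hnp := hMnp u hu
    have hnp' := hMnp (s i u) hu'
    have h1 := hφ _ _ (adj_upn G (hp u) i)
    have h2 := hφ _ _ (adj_dnn G (hp u) i)
    rw [hs, hφup _ hnp i i, ← hps u hu i i, hF1 _ _ ((hisM _ _).2 hu') (hisMup _ _ hnp'),
      hF1 _ _ ((hisM _ _).2 hu) (hisMup _ _ hnp)] at h1
    rw [hs, hφdn _ hnp i i, ← hps u hu i i, hF1 _ _ ((hisM _ _).2 hu') (hisMdn _ _ hnp'),
      hF1 _ _ ((hisM _ _).2 hu) (hisMdn _ _ hnp)] at h2
    simp only [twc, if_true, if_neg (dnn_ne_upn _ _ _)] at h1 h2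
    have c1 : cc (s i u) i < 4 := Nat.mod_lt _ (by norm_num)
    have c2 : cc u i < 4 := Nat.mod_lt _ (by norm_num)
    rw [decide_eq_decide] at h1 h2
    omega
  have hpc : ∀ u v, M u → rep u = rep v → p u = p v := by
    intro u v hu huv
    have h1 := (hrep u v).1 huv
    exact (hMp u hu (p v) ((h1 _).2 (hp v))).symm
  have hCc : ∀ u v i, M u → rep u = rep v → Code u i = Code v i := by
    intro u v i hu huv
    have e1 : emb (some (u, i)) = emb (some (v, i)) := by
      show some (q u, i) = some (q v, i)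
      rw [hqc u v huv]
    show (f (emb (some (u, i))) (emb (dnn (p u) i))).toNat
        + 2 * (f (emb (some (u, i))) (emb (upn (p u) i))).toNat
      = (f (emb (some (v, i))) (emb (dnn (p v) i))).toNat
        + 2 * (f (emb (some (v, i))) (emb (upn (p v) i))).toNat
    rw [e1, hpc u v hu huv]
  have hMc : ∀ u v, M u → rep u = rep v → M v := by
    intro u v hu huv
    by_cases h : u = v
    · rw [← h]; exact hu
    · exact ⟨u, h, ((hrep u v).1 huv).symm⟩
  have hstr : ∀ i (u v : V), rep u = rep v → rep (s i u) = rep (s i v) := by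
    intro i u v huv
    exact (hrep _ _).2 ((tw_iso (s i)).2 ((hrep _ _).1 huv))
  have hstr' : ∀ i (u v : V), rep (s i u) = rep (s i v) → rep u = rep v := by
    intro i u v huv
    exact (hrep _ _).2 ((tw_iso (s i)).1 ((hrep _ _).1 huv))
  have hCode : ∀ u i, M u → (A (rep u)).card ≠ 4 → Code (s i u) i = Code u i := by
    intro u i hu hcard
    have hk4 := hk u
    have hu' := (hsM (s i) u).2 hu
    have hmem : u ∈ A (rep u) := (hA _ _).2 rfl
    have hpos : 1 ≤ (A (rep u)).card := Finset.card_pos.2 ⟨u, hmem⟩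
    refine (cyc (K := 4) (k' := (A (rep (s i u))).card) hpos (by omega) (hCode4 u i)
      (hCode4 (s i u) i) ?_ ?_).symm
    · intro j hj
      obtain ⟨y, hy, rfl⟩ := (hrk _).2.2 j hj
      have hy' : rep y = rep u := (hA _ _).1 hy
      have hMy := hMc u y hu hy'.symm
      have hsy : s i y ∈ A (rep (s i u)) := (hA _ _).2 (hstr i y u hy')
      refine ⟨rk (s i y), (hrk _).1 _ hsy, ?_⟩
      have h1 : (rk (s i y) + Code (s i y) i) % 4 = (rk y + Code y i) % 4 := hcc y i hMy
      rw [hCc (s i y) (s i u) i ((hsM (s i) y).2 hMy) (hstr i y u hy'), hCc y u i hMy hy'] at h1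
      exact h1.symm
    · intro j hj
      obtain ⟨z, hz, rfl⟩ := (hrk _).2.2 j hj
      obtain ⟨y, rfl⟩ := (s i).surjective z
      have hz' := (hA _ _).1 hz
      have hy' : rep y = rep u := hstr' i y u hz'
      have hMy := hMc u y hu hy'.symm
      refine ⟨rk y, (hrk _).1 _ ((hA _ _).2 hy'), ?_⟩
      have h1 : (rk (s i y) + Code (s i y) i) % 4 = (rk y + Code y i) % 4 := hcc y i hMy
      rw [hCc (s i y) (s i u) i ((hsM (s i) y).2 hMy) hz', hCc y u i hMy hy'] at h1
      exact h1
  -- the induced automorphism of the reduction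
  have hAc : ∀ (τ : G ≃g G) u, (A (rep (τ u))).card = (A (rep u)).card := by
    intro τ u
    have : A (rep (τ u)) = (A (rep u)).map τ.toEquiv.toEmbedding := by
      ext z
      rw [hA, Finset.mem_map]
      constructor
      · intro hz
        obtain ⟨y, rfl⟩ := τ.surjective z
        exact ⟨y, (hA _ _).2 ((hrep _ _).2 ((tw_iso τ).1 ((hrep _ _).1 hz))), rfl⟩
      · rintro ⟨y, hy, rfl⟩
        exact (hrep _ _).2 ((tw_iso τ).2 ((hrep _ _).1 ((hA _ _).1 hy)))
    rw [this, Finset.card_map]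
  have hSτ : ∀ (τ : G ≃g G) v, v ∈ S → rep (τ v) ∈ S := by
    intro τ v hv
    rw [hS] at hv ⊢
    refine ⟨hrr _, ?_⟩
    rw [hAc τ v, hv.1]
    exact hv.2
  have hinv : ∀ (τ τ' : G ≃g G), (∀ x, τ' (τ x) = x) → ∀ v, v ∈ S → rep (τ' (rep (τ v))) = v := by
    intro τ τ' hττ v hv
    rw [hS] at hv
    have h1 : Tw G (τ' (rep (τ v))) (τ' (τ v)) := (tw_iso τ').2 (hr1 _)
    rw [hττ] at h1
    rw [hr2 _ _ h1, hv.1]
  have hadjrep : ∀ x y, G.Adj (rep x) (rep y) ↔ G.Adj x y := by
    intro x y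
    rw [hr1 x, G.adj_comm, hr1 y, G.adj_comm]
  let σ : G.induce S ≃g G.induce S :=
    { toFun := fun v => ⟨rep (s 0 v.1), hSτ _ _ v.2⟩
      invFun := fun v => ⟨rep ((s 0).symm v.1), hSτ _ _ v.2⟩
      left_inv := fun v => Subtype.ext (hinv (s 0) (s 0).symm (fun x => by simp) v.1 v.2)
      right_inv := fun v => Subtype.ext (hinv (s 0).symm (s 0) (fun x => by simp) v.1 v.2)
      map_rel_iff' := by
        rintro ⟨a, ha⟩ ⟨b, hb⟩
        show G.Adj (rep (s 0 a)) (rep (s 0 b)) ↔ G.Adj a b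
        rw [hadjrep, (s 0).map_adj_iff] }
  have hqS : ∀ v (hv : v ∈ S), q v = ⟨v, hv⟩ := by
    intro v hv
    have h1 := ((hS v).1 hv).1
    show (if h : rep v ∈ S then (⟨rep v, h⟩ : S) else ⟨v₀, hv₀⟩) = ⟨v, hv⟩
    rw [dif_pos (by rw [h1]; exact hv)]
    exact Subtype.ext h1
  have hqσ : ∀ v (hv : v ∈ S) i, q (s i v) = σ ⟨v, hv⟩ := by
    intro v hv i
    have h1 : rep (s i v) = rep (s 0 v) := (hrep _ _).2 (hst i 0 v)
    rw [hqc _ _ h1]
    show (if h : rep (s 0 v) ∈ S then (⟨rep (s 0 v), h⟩ : S) else ⟨v₀, hv₀⟩) = _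
    rw [dif_pos (hSτ _ _ hv)]
    rfl
  have hσ : σ = RelIso.refl _ := by
    apply hf σ ⟨s 0, fun v => rfl⟩
    -- transfer to mu G t
    let inc : Option (S × Fin (t + 1)) → Option (V × Fin (t + 1)) := Option.map (fun a => (a.1.1, a.2))
    have hemb : ∀ X, emb (inc X) = X := by
      rintro (_ | ⟨⟨v, hv⟩, i⟩)
      · rfl
      · show some (q v, i) = some (⟨v, hv⟩, i)
        rw [hqS v hv]
    have hembφ : ∀ X, emb (φ (inc X)) = lift (G.induce S) t σ X := by
      rintro (_ | ⟨⟨v, hv⟩, i⟩)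
      · show emb (φ none) = _
        rw [hw]
        rfl
      · show emb (φ (some (v, i))) = some (σ ⟨v, hv⟩, i)
        rw [hs]
        show some (q (s i v), i) = _
        rw [hqσ v hv i]
    have hincadj : ∀ X Y, (mu (G.induce S) t).Adj X Y → (mu G t).Adj (inc X) (inc Y) := by
      rintro (_ | ⟨⟨v, hv⟩, i⟩) (_ | ⟨⟨v', hv'⟩, i'⟩) h
      · exact h
      · exact h
      · exact h
      · exact h
    have hMφ : ∀ x, isM (φ x) ↔ isM x := by
      rintro (_ | ⟨v, i⟩)
      · rw [hw]
      · rw [hs, hisM, hisM, hsM]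
    have hone : ∀ (u : V) (i : Fin (t + 1)) y, M u → u ∈ S → (mu G t).Adj (some (u, i)) y →
        g (φ (some (u, i))) (φ y) = g (some (u, i)) y := by
      intro u i y hu huS hy
      have hcard : (A (rep u)).card ≠ 4 := by
        have := (hS u).1 huS
        rw [this.1]
        exact this.2
      have h1 : (g (some (s i u, i)) (dnn (p (s i u)) i)).toNat
          + 2 * (g (some (s i u, i)) (upn (p (s i u)) i)).toNat
          = (g (some (u, i)) (dnn (p u) i)).toNat + 2 * (g (some (u, i)) (upn (p u) i)).toNat :=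
        hCode u i hu hcard
      have b1 := Bool.toNat_le (g (some (s i u, i)) (dnn (p (s i u)) i))
      have b2 := Bool.toNat_le (g (some (s i u, i)) (upn (p (s i u)) i))
      have b3 := Bool.toNat_le (g (some (u, i)) (dnn (p u) i))
      have b4 := Bool.toNat_le (g (some (u, i)) (upn (p u) i))
      have hnp := hMnp u hu
      rw [hs]
      rcases adj_pend G (hMp u hu) i y hy with rfl | rfl
      · rw [hφup _ hnp i i, ← hps u hu i i]
        apply toNat_inj'
        omega
      · rw [hφdn _ hnp i i, ← hps u hu i i]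
        apply toNat_inj'
        omega
    have hmain : ∀ X Y, (mu (G.induce S) t).Adj X Y →
        g (φ (inc X)) (φ (inc Y)) = g (inc X) (inc Y) := by
      intro X Y hXY
      have hadj := hincadj X Y hXY
      by_cases h1 : isM (inc X)
      · rcases X with _ | ⟨⟨v, hv⟩, i⟩
        · exact absurd h1 hisMn
        · exact hone v i _ ((hisM _ _).1 h1) hv hadj
      · by_cases h2 : isM (inc Y)
        · rcases Y with _ | ⟨⟨v, hv⟩, i⟩
          · exact absurd h2 hisMn
          · rw [hgs, hgs (inc X)]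
            exact hone v i _ ((hisM _ _).1 h2) hv hadj.symm
        · have h3 := hφ _ _ hadj
          rw [hF2 _ _ h1 h2, hF2 _ _ (fun hh => h1 ((hMφ _).1 hh)) (fun hh => h2 ((hMφ _).1 hh))] at h3
          exact h3
    intro X Y hXY
    have h1 := hmain X Y hXY
    have h2 : f (emb (φ (inc X))) (emb (φ (inc Y))) = f (emb (inc X)) (emb (inc Y)) := h1
    rw [hembφ, hembφ, hemb, hemb] at h2
    exact h2
  have hfixn : ∀ u, ¬ M u → ∀ i, s i u = u := by
    intro u hu i
    have h1 : σ ⟨u, hSnM u hu⟩ = ⟨u, hSnM u hu⟩ := by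
      rw [hσ]
      rfl
    have h2 : rep (s 0 u) = u := congrArg Subtype.val h1
    rw [hnMrep (s 0 u) (fun hh => hu ((hsM _ _).1 hh))] at h2
    rw [hsne u hu i 0]
    exact h2
  have hfixM : ∀ u, M u → ∀ i, s i u = u := by
    intro u hu i
    have hu' := (hsM (s i) u).2 hu
    have h1 : p (s i u) = p u := by
      rw [hps u hu i i]
      exact hfixn _ (hMnp u hu) i
    have h2 : Tw G (s i u) u := by
      intro x
      constructor
      · intro hx
        rw [hMp _ hu' x hx, h1]
        exact hp u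
      · intro hx
        rw [hMp _ hu x hx, ← h1]
        exact hp _
    have h3 : rep (s i u) = rep u := (hrep _ _).2 h2
    have h4 : (rk (s i u) + Code (s i u) i) % 4 = (rk u + Code u i) % 4 := hcc u i hu
    rw [hCc (s i u) u i hu' h3] at h4
    have h5 : rk (s i u) ≡ rk u [MOD 4] := Nat.ModEq.add_right_cancel' _ h4
    have m1 : s i u ∈ A (rep u) := (hA _ _).2 h3
    have m2 : u ∈ A (rep u) := (hA _ _).2 rfl
    have l1 := (hrk _).1 _ m1
    have l2 := (hrk _).1 _ m2
    have l3 := hk u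
    exact (hrk _).2.1 _ m1 _ m2 (Nat.ModEq.eq_of_lt_of_lt h5 (by omega) (by omega))
  apply RelIso.ext
  rintro (_ | ⟨u, i⟩)
  · exact hw
  · rw [hs]
    by_cases hu : M u
    · rw [hfixM u hu i]
      rfl
    · rw [hfixn u hu i]
      rfl

end Pool.Agent.MY12
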