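import Pool.Agent.MY12.Empty
import Pool.Agent.MY12.Red
import Pool.Agent.MY12.CritGen

/-! Three components K_{1,4}: no 2-distinguishing edge colouring. -/

namespace Pool.Agent.MY12

open SimpleGraph

/-- exchange of two stars with four edges -/
def exch (π : Equiv.Perm (Fin 4)) : Equiv.Perm (Bool × Option (Fin 4)) where
  toFun x :=
    match x with
    | (b, none) => (!b, none)
    | (false, some a) => (true, some (π a))
    | (true, some a) => (false, some (π.symm a))
  invFun x :=
    match x with
    | (b, none) => (!b, none)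
    | (false, some a) => (true, some (π a))
    | (true, some a) => (false, some (π.symm a))
  left_inv := by
    rintro ⟨_ | _, _ | a⟩ <;> simp
  right_inv := by
    rintro ⟨_ | _, _ | a⟩ <;> simp

theorem exch_c (π : Equiv.Perm (Fin 4)) (b : Bool) : exch π (b, none) = (!b, none) := rfl

/-- the leaf to which a leaf is sent -/
def exl (π : Equiv.Perm (Fin 4)) (b : Bool) (a : Fin 4) : Fin 4 := if b then π.symm a else π a

theorem exch_l (π : Equiv.Perm (Fin 4)) (b : Bool) (a : Fin 4) :
    exch π (b, some a) = (!b, some (exl π b a)) := by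
  cases b <;> rfl

section

variable {V : Type*} (G : SimpleGraph V) (cc : Bool → V) (L : Bool → Fin 4 → V)

/-- the centre and the leaves -/
def io4 (x : Bool × Option (Fin 4)) : V :=
  match x with
  | (b, none) => cc b
  | (b, some a) => L b a

theorem io4_c (b : Bool) : io4 cc L (b, none) = cc b := rfl

theorem io4_l (b : Bool) (a : Fin 4) : io4 cc L (b, some a) = L b a := rfl

/-- two components K_{1,4} -/
structure TwoStars : Prop where
  inj : Function.Injective cc
  injL : ∀ b, Function.Injective (L b)
  cl : ∀ b a, G.Adj (cc b) (L b a)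
  lc : ∀ b a w, G.Adj (L b a) w → w = cc b
  nb : ∀ b v, G.Adj (cc b) v → ∃ a, v = L b a

variable {G cc L}

theorem TwoStars.ne (h : TwoStars G cc L) (b b' : Bool) (a : Fin 4) : cc b ≠ L b' a := by
  intro hh
  have e1 : L b 0 = cc b' := h.lc b' a _ (hh ▸ h.cl b 0)
  have e2 : L b 1 = cc b' := h.lc b' a _ (hh ▸ h.cl b 1)
  have := h.injL b (e1.trans e2.symm)
  exact absurd this (by decide)

theorem TwoStars.io_inj (h : TwoStars G cc L) : Function.Injective (io4 cc L) := by
  rintro ⟨b, _ | a⟩ ⟨b', _ | a'⟩ hh
  · have h' : cc b = cc b' := hh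
    rw [h.inj h']
  · exact absurd hh (h.ne b b' a')
  · exact absurd (Eq.symm hh) (h.ne b' b a)
  · have h' : L b a = L b' a' := hh
    have e1 : cc b = cc b' := h.lc b' a' _ (h' ▸ (h.cl b a).symm)
    have e2 := h.inj e1
    subst e2
    rw [h.injL b h']

/-- arcs at a vertex of the two stars -/
theorem TwoStars.arc (h : TwoStars G cc L) (x : Bool × Option (Fin 4)) (v : V)
    (hv : G.Adj (io4 cc L x) v) : (∃ b a, x = (b, none) ∧ v = L b a) ∨
      (∃ b a, x = (b, some a) ∧ v = cc b) := by
  rcases x with ⟨b, _ | a⟩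
  · obtain ⟨a, ha⟩ := h.nb b v hv
    exact Or.inl ⟨b, a, rfl, ha⟩
  · exact Or.inr ⟨b, a, rfl, h.lc b a v hv⟩

/-- exchange of the two stars -/
noncomputable def TwoStars.sw (h : TwoStars G cc L) (π : Equiv.Perm (Fin 4)) : Equiv.Perm V :=
  (exch π).viaEmbedding ⟨io4 cc L, h.io_inj⟩

theorem TwoStars.sw_io (h : TwoStars G cc L) (π : Equiv.Perm (Fin 4)) (x) :
    h.sw π (io4 cc L x) = io4 cc L (exch π x) :=
  Equiv.Perm.viaEmbedding_apply (exch π) ⟨io4 cc L, h.io_inj⟩ x

theorem TwoStars.sw_c (h : TwoStars G cc L) (π : Equiv.Perm (Fin 4)) (b : Bool) :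
    h.sw π (cc b) = cc (!b) := h.sw_io π (b, none)

theorem TwoStars.sw_l (h : TwoStars G cc L) (π : Equiv.Perm (Fin 4)) (b : Bool) (a : Fin 4) :
    h.sw π (L b a) = L (!b) (exl π b a) := by
  have := h.sw_io π (b, some a)
  rw [exch_l, io4_l, io4_l] at this
  exact this

theorem TwoStars.sw_of (h : TwoStars G cc L) (π : Equiv.Perm (Fin 4)) (v : V)
    (hv : v ∉ Set.range (io4 cc L)) : h.sw π v = v :=
  Equiv.Perm.viaEmbedding_apply_of_notMem (exch π) ⟨io4 cc L, h.io_inj⟩ v hv

theorem TwoStars.sw_adj (h : TwoStars G cc L) (π : Equiv.Perm (Fin 4)) (u v : V) :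
    G.Adj (h.sw π u) (h.sw π v) ↔ G.Adj u v := by
  have hfw : ∀ u v, u ∈ Set.range (io4 cc L) → G.Adj u v → G.Adj (h.sw π u) (h.sw π v) := by
    rintro u v ⟨x, rfl⟩ huv
    rcases h.arc x v huv with ⟨b, a, rfl, rfl⟩ | ⟨b, a, rfl, rfl⟩
    · rw [io4_c, h.sw_c, h.sw_l]
      exact h.cl _ _
    · rw [io4_l, h.sw_c, h.sw_l]
      exact (h.cl _ _).symm
  have hfw2 : ∀ u v, G.Adj u v → G.Adj (h.sw π u) (h.sw π v) := by
    intro u v huv
    by_cases hu : u ∈ Set.range (io4 cc L)
    · exact hfw u v hu huv
    · by_cases hv : v ∈ Set.range (io4 cc L)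
      · exact (hfw v u hv huv.symm).symm
      · rw [h.sw_of π u hu, h.sw_of π v hv]
        exact huv
  have hinv : ∀ w, h.sw π (h.sw π w) = w := by
    intro w
    by_cases hw : w ∈ Set.range (io4 cc L)
    · obtain ⟨x, rfl⟩ := hw
      rw [h.sw_io, h.sw_io]
      congr 1
      exact (exch π).left_inv x
    · rw [h.sw_of π w hw, h.sw_of π w hw]
  constructor
  · intro huv
    have := hfw2 _ _ huv
    rwa [hinv, hinv] at this
  · exact hfw2 u v

/-- the automorphism exchanging the two stars -/
noncomputable def TwoStars.iso (h : TwoStars G cc L) (π : Equiv.Perm (Fin 4)) : G ≃g G where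
  toEquiv := h.sw π
  map_rel_iff' := by
    intro u v
    exact h.sw_adj π u v

theorem TwoStars.iso_apply (h : TwoStars G cc L) (π : Equiv.Perm (Fin 4)) (v : V) :
    h.iso π v = h.sw π v := rfl

theorem TwoStars.iso_tw (h : TwoStars G cc L) (π π' : Equiv.Perm (Fin 4)) (u x : V) :
    G.Adj (h.iso π u) x ↔ G.Adj (h.iso π' u) x := by
  rw [h.iso_apply, h.iso_apply]
  by_cases hu : u ∈ Set.range (io4 cc L)
  · obtain ⟨⟨b, _ | a⟩, rfl⟩ := hu
    · rw [io4_c, h.sw_c, h.sw_c]
    · rw [io4_l, h.sw_l, h.sw_l]
      constructor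
      · intro hh
        rw [h.lc _ _ _ hh]
        exact (h.cl _ _).symm
      · intro hh
        rw [h.lc _ _ _ hh]
        exact (h.cl _ _).symm
  · rw [h.sw_of π u hu, h.sw_of π' u hu]

/-- Two components K_{1,4} whose centres have the same colour towards the root cannot be
distinguished. -/
theorem TwoStars.contra {t : ℕ} (h : TwoStars G cc L)
    (f : Option (V × Fin (t + 1)) → Option (V × Fin (t + 1)) → Bool) (hf : ∀ x y, f x y = f y x)
    (hφ : ∀ φ : mu G t ≃g mu G t, (∀ x y, (mu G t).Adj x y → f (φ x) (φ y) = f x y) →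
      φ = RelIso.refl _)
    (hw : f (some (cc false, Fin.last t)) none = f (some (cc true, Fin.last t)) none) : False := by
  classical
  let pair : Fin (t + 1) → Bool → Fin 4 → Bool × Bool := fun j b a =>
    (f (some (L b a, j)) (dnn (cc b) j), f (some (L b a, j)) (upn (cc b) j))
  have hadjl : ∀ b a (j : Fin (t + 1)) z, (mu G t).Adj (some (L b a, j)) z ↔
      z = upn (cc b) j ∨ z = dnn (cc b) j := by
    intro b a j z
    constructor
    · exact adj_pend G (h.lc b a) j z
    · rintro (rfl | rfl)
      · exact adj_upn G (h.cl b a).symm j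
      · exact adj_dnn G (h.cl b a).symm j
  have hinjp : ∀ j b, Function.Injective (pair j b) := by
    intro j b a a' haa
    have e1 : f (some (L b a, j)) (dnn (cc b) j) = f (some (L b a', j)) (dnn (cc b) j) :=
      congrArg Prod.fst haa
    have e2 : f (some (L b a, j)) (upn (cc b) j) = f (some (L b a', j)) (upn (cc b) j) :=
      congrArg Prod.snd haa
    have key : (some (L b a, j) : Option (V × Fin (t + 1))) = some (L b a', j) := by
      apply eq_of_same (mu G t) f hf hφ
      · intro z
        rw [hadjl, hadjl]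
      · intro z hz
        rw [hadjl] at hz
        rcases hz with rfl | rfl
        · exact e2
        · exact e1
    simp only [Option.some.injEq, Prod.mk.injEq, and_true] at key
    exact h.injL b key
  have hbij : ∀ j b, Function.Bijective (pair j b) := by
    intro j b
    rw [Fintype.bijective_iff_injective_and_card]
    exact ⟨hinjp j b, by simp⟩
  let E : Fin (t + 1) → Bool → (Fin 4 ≃ Bool × Bool) := fun j b => Equiv.ofBijective _ (hbij j b)
  have hE : ∀ j b a, E j b a = pair j b a := fun j b a => rfl
  let π : Fin (t + 1) → Equiv.Perm (Fin 4) := fun j => (E j false).trans (E j true).symm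
  have hπ : ∀ j b a, pair j (!b) (exl (π j) b a) = pair j b a := by
    intro j b a
    rw [← hE, ← hE]
    cases b
    · show E j true ((E j true).symm (E j false a)) = E j false a
      rw [Equiv.apply_symm_apply]
    · show E j false ((E j false).symm (E j true a)) = E j true a
      rw [Equiv.apply_symm_apply]
  let s : Fin (t + 1) → (G ≃g G) := fun j => h.iso (π j)
  have hs : ∀ i j u x, G.Adj (s i u) x ↔ G.Adj (s j u) x := fun i j u x => h.iso_tw _ _ u x
  let φ := liftT G s hs
  have hφc : ∀ b j, φ (some (cc b, j)) = some (cc (!b), j) := by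
    intro b j
    show some (s j (cc b), j) = _
    rw [show s j (cc b) = cc (!b) from h.sw_c _ b]
  have hφl : ∀ b a j, φ (some (L b a, j)) = some (L (!b) (exl (π j) b a), j) := by
    intro b a j
    show some (s j (L b a), j) = _
    rw [show s j (L b a) = L (!b) (exl (π j) b a) from h.sw_l _ b a]
  have hφo : ∀ v j, v ∉ Set.range (io4 cc L) → φ (some (v, j)) = some (v, j) := by
    intro v j hv
    show some (s j v, j) = _
    rw [show s j v = v from h.sw_of _ v hv]
  have hφn : φ none = none := rfl
  have hφup : ∀ b j, φ (upn (cc b) j) = upn (cc (!b)) j := by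
    intro b j
    unfold upn
    split_ifs with hh
    · exact hφc b _
    · exact hφn
  have hφdn : ∀ b j, φ (dnn (cc b) j) = dnn (cc (!b)) j := by
    intro b j
    unfold dnn
    exact hφc b _
  -- edges at a leaf
  have hleaf : ∀ b a j z, (mu G t).Adj (some (L b a, j)) z →
      f (φ (some (L b a, j))) (φ z) = f (some (L b a, j)) z := by
    intro b a j z hz
    rw [hadjl] at hz
    rcases hz with rfl | rfl
    · rw [hφl, hφup]
      exact congrArg Prod.snd (hπ j b a)
    · rw [hφl, hφdn]
      exact congrArg Prod.fst (hπ j b a)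
  have hroot : ∀ v, f (φ (some (v, Fin.last t))) none = f (some (v, Fin.last t)) none := by
    intro v
    by_cases hv : v ∈ Set.range (io4 cc L)
    · obtain ⟨⟨b, _ | a⟩, rfl⟩ := hv
      · rw [io4_c, hφc]
        cases b
        · exact hw.symm
        · exact hw
      · rw [io4_l]
        have := hleaf b a (Fin.last t) none (by
          show ((Fin.last t : Fin (t + 1)) : ℕ) = t
          simp)
        rwa [hφn] at this
    · rw [hφo v _ hv]
  have hall : ∀ x y, (mu G t).Adj x y → f (φ x) (φ y) = f x y := by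
    rintro (_ | ⟨u, i⟩) (_ | ⟨v, j⟩) hxy
    · exact absurd hxy (fun h => h)
    · have hj : (j : ℕ) = t := hxy
      have : j = Fin.last t := by ext; simpa using hj
      rw [this, hφn, hf, hf none]
      exact hroot v
    · have hj : (i : ℕ) = t := hxy
      have : i = Fin.last t := by ext; simpa using hj
      rw [this, hφn]
      exact hroot u
    · by_cases hu : u ∈ Set.range (io4 cc L)
      · obtain ⟨x, rfl⟩ := hu
        rcases h.arc x v hxy.1 with ⟨b, a, rfl, rfl⟩ | ⟨b, a, rfl, rfl⟩
        · rw [io4_c] at hxy ⊢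
          rw [hf, hf (some (cc b, i))]
          exact hleaf b a j _ ((mu G t).symm.symm _ _ hxy)
        · rw [io4_l] at hxy ⊢
          exact hleaf b a i _ hxy
      · by_cases hv : v ∈ Set.range (io4 cc L)
        · obtain ⟨x, rfl⟩ := hv
          exfalso
          rcases h.arc x u hxy.1.symm with ⟨b, a, rfl, rfl⟩ | ⟨b, a, rfl, rfl⟩
          · exact hu ⟨(b, some a), rfl⟩
          · exact hu ⟨(b, none), rfl⟩
        · rw [hφo u i hu, hφo v j hv]
  have hid := hφ φ hall
  have := congrArg (fun ψ : mu G t ≃g mu G t => ψ (some (cc false, 0))) hid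
  simp only [hφc, RelIso.refl_apply, Option.some.injEq, Prod.mk.injEq, and_true] at this
  exact absurd (h.inj this) (by decide)

end

/-- A graph with three components K_{1,4}: for t ≥ 1 the generalized Mycielskian has no
2-distinguishing edge colouring. -/
theorem no_dist_k14 {V : Type*} [Fintype V] (G : SimpleGraph V) (c : Fin 3 → V)
    (hc : Function.Injective c) (h4 : ∀ i, (G.neighborSet (c i)).ncard = 4)
    (hp : ∀ i v, G.Adj (c i) v → ∀ w, G.Adj v w → w = c i) {t : ℕ} (_ht : 1 ≤ t) :
    ¬ EdgeDist (mu G t) 2 := by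
  classical
  rw [edgeDist_two_iff]
  rintro ⟨f, hf, hφ⟩
  obtain ⟨i, i', hne, hcol⟩ := Fintype.exists_ne_map_eq_of_card_lt
    (fun i : Fin 3 => f (some (c i, Fin.last t)) none) (by simp)
  have hLex : ∀ b : Bool, ∃ l : Fin 4 → V, Function.Injective l ∧
      ∀ v, G.Adj (if b then c i' else c i) v ↔ ∃ a, v = l a := by
    intro b
    have hcard : Nat.card (G.neighborSet (if b then c i' else c i)) = 4 := by
      rw [Nat.card_coe_set_eq]
      cases b
      · exact h4 i
      · exact h4 i'
    let e := Finite.equivFinOfCardEq hcard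
    refine ⟨fun a => (e.symm a : V), fun a a' haa => e.symm.injective (Subtype.ext haa), ?_⟩
    intro v
    constructor
    · intro hv
      exact ⟨e ⟨v, hv⟩, by simp⟩
    · rintro ⟨a, rfl⟩
      exact (e.symm a).2
  choose L hLi hL using hLex
  have hts : TwoStars G (fun b : Bool => if b then c i' else c i) L := by
    refine ⟨?_, hLi, ?_, ?_, ?_⟩
    · intro b b' hbb
      cases b <;> cases b'
      · rfl
      · exact absurd (hc hbb) hne
      · exact absurd (hc hbb).symm hne
      · rfl
    · intro b a
      exact (hL b _).2 ⟨a, rfl⟩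
    · intro b a w hw
      have h1 := (hL b (L b a)).2 ⟨a, rfl⟩
      cases b
      · exact hp i _ h1 w hw
      · exact hp i' _ h1 w hw
    · intro b v hv
      exact (hL b v).1 hv
  exact hts.contra f hf hφ hcol

end Pool.Agent.MY12
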