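import Pool.Agent.MY12.Pend
import Pool.Agent.MY12.Simple

/-! Graphs all of whose twins are pendant, with up to four pendant vertices at a vertex. -/

namespace Pool.Agent.MY12

open SimpleGraph

theorem pend4 {V : Type*} [Fintype V] (G : SimpleGraph V) (hI : NoIso G) (hconn : G.Connected)
    (hC : NoCentre G) (hP : PendTwins G)
    (h4 : ∀ u, {v | ∀ x, G.Adj u x ↔ G.Adj v x}.ncard ≤ 4) {t : ℕ} (ht : 1 ≤ t)
    (hΔ : ∀ v, (G.neighborSet v).ncard ≤ 4 ^ (t + 1) - 3) : EdgeDist (mu G t) 2 := by
  classical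
  have hne := hconn.nonempty
  have hn := card_of_noCentre G hC
  obtain ⟨rep, hr1, hr2⟩ := exists_rep G
  have hrep : ∀ u v, rep u = rep v ↔ Tw G u v := fun u v =>
    ⟨fun h => ((hr1 u).symm).trans (by rw [h]; exact hr1 v), hr2 u v⟩
  let A : V → Finset V := fun w => Finset.univ.filter (fun v => rep v = w)
  have hA : ∀ w v, v ∈ A w ↔ rep v = w := by
    intro w v
    simp [A]
  have hrr : ∀ u, rep (rep u) = rep u := fun u => hr2 _ _ (hr1 u)
  have hA4 : ∀ u, (A (rep u)).card ≤ 4 := by
    intro u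
    refine le_trans ?_ (h4 u)
    rw [← Set.ncard_coe_finset]
    apply Set.ncard_le_ncard _ (Set.toFinite _)
    intro v hv
    rw [Finset.mem_coe, hA] at hv
    exact (hrep u v).1 hv.symm
  let S : Set V := {v | rep v = v ∧ (A v).card ≠ 4}
  have hSdef : ∀ v, v ∈ S ↔ rep v = v ∧ (A v).card ≠ 4 := fun v => Iff.rfl
  choose p hp using hI
  have hbig : ∀ u, rep u ∉ S → p u ∈ S ∧ ∀ x, G.Adj u x → x = p u := by
    intro u hu
    have hc : (A (rep u)).card = 4 := by
      by_contra hne
      exact hu ⟨hrr u, hne⟩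
    obtain ⟨v, hv, hvu⟩ := Finset.exists_mem_ne (show 1 < (A (rep u)).card by omega) u
    have htw : Tw G u v := (hrep u v).1 ((hA _ _).1 hv).symm
    have hpv : G.Adj v (p u) := (htw _).1 (hp u)
    have hno : ∀ z, Tw G (p u) z → z = p u := by
      intro z hz
      by_contra hne
      exact hvu (hP (p u) z (fun hh => hne hh.symm) hz v u hpv.symm (hp u).symm)
    refine ⟨⟨hno _ (hr1 _).symm, ?_⟩, fun x hx => hP u v hvu.symm htw x (p u) hx (hp u)⟩
    have h1 : A (p u) ⊆ {p u} := by
      intro z hz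
      rw [hA] at hz
      rw [Finset.mem_singleton]
      apply hno
      have := hr1 z
      rw [hz] at this
      exact this
    have := Finset.card_le_card h1
    rw [Finset.card_singleton] at this
    omega
  let ret : V → S := fun u => if h : rep u ∈ S then ⟨rep u, h⟩
    else if h' : p u ∈ S then ⟨p u, h'⟩ else ⟨p u, (hbig u h).1⟩
  have hret1 : ∀ u (h : rep u ∈ S), ret u = ⟨rep u, h⟩ := fun u h => dif_pos h
  have hret2 : ∀ u (h : rep u ∉ S), ret u = ⟨p u, (hbig u h).1⟩ := by
    intro u h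
    show (if h : rep u ∈ S then (⟨rep u, h⟩ : S)
      else if h' : p u ∈ S then ⟨p u, h'⟩ else ⟨p u, (hbig u h).1⟩) = _
    rw [dif_neg h, dif_pos (hbig u h).1]
  have hretS : ∀ v : S, ret v.1 = v := by
    intro v
    have h1 : rep v.1 ∈ S := by
      rw [v.2.1]
      exact v.2
    rw [hret1 _ h1]
    exact Subtype.ext v.2.1
  have hpS : ∀ u, rep u ∉ S → ret (p u) = ret u := by
    intro u hu
    rw [hret2 u hu]
    exact hretS ⟨p u, (hbig u hu).1⟩
  have hstep : ∀ u v, G.Adj u v → (G.induce S).Reachable (ret u) (ret v) := by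
    intro u v huv
    by_cases h1 : rep u ∈ S
    · by_cases h2 : rep v ∈ S
      · rw [hret1 u h1, hret1 v h2]
        have : (G.induce S).Adj ⟨rep u, h1⟩ ⟨rep v, h2⟩ := (rep_adj hr1).2 huv
        exact this.reachable
      · have := (hbig v h2).2 u huv.symm
        rw [this, hpS v h2]
    · have := (hbig u h1).2 v huv
      rw [this, hpS u h1]
  have hreach : ∀ u v, G.Reachable u v → (G.induce S).Reachable (ret u) (ret v) := by
    rintro u v ⟨w⟩
    induction w with
    | nil => exact Reachable.refl _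
    | cons h _ ih => exact (hstep _ _ h).trans ih
  have hconnS : (G.induce S).Connected := by
    obtain ⟨u₀⟩ := hne
    have : Nonempty S := ⟨ret u₀⟩
    refine ⟨?_⟩
    intro u v
    have := hreach u.1 v.1 (hconn u.1 v.1)
    rwa [hretS, hretS] at this
  have hcl : ∀ v z, G.Reachable z v → (∀ x, G.Adj v x → rep x ∉ S) → z = v ∨ G.Adj v z := by
    rintro v z ⟨w⟩
    induction w with
    | nil => intro _; exact Or.inl rfl
    | @cons a b c hab _ ih =>
      intro hall
      rcases ih hall with h1 | h1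
      · right
        rw [← h1]
        exact hab.symm
      · left
        have h2 := (hbig b (hall b h1)).2
        rw [h2 a hab.symm, h2 _ h1.symm]
  have hIS : NoIso (G.induce S) := by
    intro v
    by_contra hcon
    push Not at hcon
    have hall : ∀ x, G.Adj v.1 x → rep x ∉ S := by
      intro x hx hrx
      exact hcon ⟨rep x, hrx⟩ ((rep_adj_right hr1).2 hx)
    obtain ⟨a, b, hab, ha, hb⟩ := hC v.1
    rcases hcl v.1 a (hconn a v.1) hall with h1 | h1
    · exact ha h1
    · have h2 := (hbig a (hall a h1)).2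
      exact hb (by rw [h2 b hab, h2 _ h1.symm])
  obtain ⟨a, e, b, hdec⟩ := deco_simple (G.induce S) hIS hconnS (t := t)
    (fun v => nbr_induce S v (hΔ v.1))
  exact dist_of_red G (fun u => ⟨p u, hp u⟩) hC hn ht rep hr1 hr2 hP A hA hA4 S hSdef
    ⟨a, e, b, fun σ _ => hdec σ⟩

end Pool.Agent.MY12
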