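import Pool.Agent.MY12.Red
import Pool.Agent.MY12.Digits

/-! Graphs in which each class of twins is small compared with its number of neighbours without
twins: colourings of the generalized Mycielskian from decorations of the twin reduction. -/

namespace Pool.Agent.MY12

open SimpleGraph

/-- the neighbours of u -/
noncomputable def Nf {V : Type*} [Fintype V] (G : SimpleGraph V) (u : V) : Finset V := by
  classical
  exact Finset.univ.filter (fun v => G.Adj u v)

theorem mem_Nf {V : Type*} [Fintype V] (G : SimpleGraph V) (u v : V) : v ∈ Nf G u ↔ G.Adj u v := by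
  classical
  simp [Nf]

theorem Nf_tw {V : Type*} [Fintype V] {G : SimpleGraph V} {u v : V} (h : Tw G u v) : Nf G u = Nf G v := by
  ext x
  rw [mem_Nf, mem_Nf]
  exact h x

theorem Nf_iso {V : Type*} [Fintype V] {G : SimpleGraph V} (τ : G ≃g G) (u : V) :
    (Nf G (τ u)).card = (Nf G u).card := by
  classical
  have : Nf G (τ u) = (Nf G u).map τ.toEquiv.toEmbedding := by
    ext z
    rw [mem_Nf, Finset.mem_map]
    constructor
    · intro hz
      obtain ⟨y, rfl⟩ := τ.surjective z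
      exact ⟨y, (mem_Nf _ _ _).2 (τ.map_adj_iff.1 hz), rfl⟩
    · rintro ⟨y, hy, rfl⟩
      exact τ.map_adj_iff.2 ((mem_Nf _ _ _).1 hy)
  rw [this, Finset.card_map]

/-- the neighbours of u which have no twin -/
noncomputable def N1 {V : Type*} [Fintype V] (G : SimpleGraph V) (u : V) : Finset V := by
  classical
  exact Finset.univ.filter (fun v => G.Adj u v ∧ ¬ ∃ v', v' ≠ v ∧ Tw G v v')

theorem mem_N1 {V : Type*} [Fintype V] (G : SimpleGraph V) (u v : V) :
    v ∈ N1 G u ↔ G.Adj u v ∧ ¬ ∃ v', v' ≠ v ∧ Tw G v v' := by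
  classical
  simp [N1]

theorem N1_tw {V : Type*} [Fintype V] {G : SimpleGraph V} {u v : V} (h : Tw G u v) : N1 G u = N1 G v := by
  ext x
  rw [mem_N1, mem_N1, h x]

theorem dist_of_red2 {V : Type*} [Fintype V] (G : SimpleGraph V) {r : ℕ} (hI : NoIso G)
    (hC : NoCentre G) (hn : 3 ≤ Fintype.card V) (hr : 1 ≤ r) (rep : V → V)
    (hr1 : ∀ u, Tw G (rep u) u) (hr2 : ∀ u v, Tw G u v → rep u = rep v)
    (A : V → Finset V) (hA : ∀ w v, v ∈ A w ↔ rep v = w)
    (hk : ∀ u, (∃ u', u' ≠ u ∧ Tw G u u') → ((Nf G u).card = 1 ∧ (A (rep u)).card = 4) ∨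
      ((A (rep u)).card ≤ 2 ^ ((N1 G u).card + 1) ∧ (A (rep u)).card ≤ 3 ^ (N1 G u).card))
    (S : Set V) (hS : ∀ v, v ∈ S ↔ rep v = v ∧ ¬ ((Nf G v).card = 1 ∧ (A v).card = 4))
    (hdec : RigidDecoQ (G.induce S) r (fun σ => ∃ τ : G ≃g G, ∀ v, (σ v).1 = rep (τ v.1))) :
    EdgeDist (mu G (r + 1)) 2 := by
  classical
  let M : V → Prop := fun u => ∃ v, v ≠ u ∧ Tw G u v
  let big : V → Prop := fun u => (Nf G u).card = 1 ∧ (A (rep u)).card = 4
  have hrep : ∀ u v, rep u = rep v ↔ Tw G u v := fun u v =>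
    ⟨fun h => ((hr1 u).symm).trans (by rw [h]; exact hr1 v), hr2 u v⟩
  have hrr : ∀ u, rep (rep u) = rep u := fun u => hr2 _ _ (hr1 u)
  have hA2 : ∀ u, M u → 2 ≤ (A (rep u)).card := by
    rintro u ⟨v, hv, huv⟩
    exact Finset.one_lt_card.2 ⟨u, (hA _ _).2 rfl, v, (hA _ _).2 ((hrep _ _).2 huv.symm), hv.symm⟩
  -- pendant twins
  have hpend : ∀ u, M u → (Nf G u).card = 1 → ∀ v, G.Adj u v → ¬ M v := by
    rintro u ⟨u', hu', huu'⟩ h1 v hv ⟨z, hz, hvz⟩
    obtain ⟨y, hy⟩ := Finset.card_eq_one.1 h1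
    have e1 : v ∈ Nf G u := (mem_Nf _ _ _).2 hv
    have e2 : z ∈ Nf G u := (mem_Nf _ _ _).2 ((hvz u).1 hv.symm).symm
    rw [hy, Finset.mem_singleton] at e1 e2
    exact hz (e2.trans e1.symm)
  have hN1 : ∀ u, M u → ∃ v, v ∈ N1 G u := by
    intro u hu
    rcases hk u hu with ⟨h1, _⟩ | ⟨_, h2⟩
    · obtain ⟨v, hv⟩ := hI u
      exact ⟨v, (mem_N1 _ _ _).2 ⟨hv, hpend u hu h1 v hv⟩⟩
    · have h3 := hA2 u hu
      by_contra hcon
      push Not at hcon
      have h4 : (N1 G u).card = 0 := Finset.card_eq_zero.2 (Finset.eq_empty_of_forall_notMem hcon)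
      rw [h4] at h2
      norm_num at h2
      omega
  have hk2 : ∀ u, M u → (A (rep u)).card ≤ 2 ^ ((N1 G u).card + 1) := by
    intro u hu
    rcases hk u hu with ⟨h1, h2⟩ | ⟨h2, _⟩
    · obtain ⟨v, hv⟩ := hN1 u hu
      have h3 : 1 ≤ (N1 G u).card := Finset.card_pos.2 ⟨v, hv⟩
      rw [h2]
      calc 4 = 2 ^ (1 + 1) := by norm_num
        _ ≤ 2 ^ ((N1 G u).card + 1) := Nat.pow_le_pow_right (by norm_num) (by omega)
    · exact h2
  have hnMrep : ∀ u, ¬ M u → rep u = u := by
    intro u hu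
    by_contra hne
    exact hu ⟨rep u, hne, (hr1 u).symm⟩
  have hAnM : ∀ u, ¬ M u → (A (rep u)).card ≤ 1 := by
    intro u hu
    have h1 : A (rep u) ⊆ {u} := by
      intro v hv
      rw [hA] at hv
      rw [Finset.mem_singleton]
      by_contra hne
      exact hu ⟨v, hne, ((hrep v u).1 hv).symm⟩
    have := Finset.card_le_card h1
    rwa [Finset.card_singleton] at this
  have hSnM : ∀ u, ¬ M u → u ∈ S := by
    intro u hu
    rw [hS]
    refine ⟨hnMrep u hu, ?_⟩
    rintro ⟨_, h2⟩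
    have := hAnM u hu
    rw [hnMrep u hu] at this
    omega
  have hbigS : ∀ u ∈ S, ¬ big u := by
    intro u hu hb
    rw [hS] at hu
    apply hu.2
    have := hb.2
    rw [hu.1] at this
    exact ⟨hb.1, this⟩
  have hA3 : ∀ u, M u → ¬ big u → (A (rep u)).card ≤ 3 ^ (N1 G u).card := by
    intro u hM hu
    rcases hk u hM with h1 | ⟨_, h2⟩
    · exact absurd h1 hu
    · exact h2
  have hne : Nonempty V := Fintype.card_pos_iff.1 (by omega)
  obtain ⟨u₀⟩ := hne
  obtain ⟨v₀, hv₀⟩ : ∃ v, v ∈ S := by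
    by_cases h : M u₀
    · obtain ⟨v, hv⟩ := hN1 u₀ h
      exact ⟨v, hSnM _ ((mem_N1 _ _ _).1 hv).2⟩
    · exact ⟨u₀, hSnM _ h⟩
  obtain ⟨rk, hrk⟩ := exists_rk rep A (fun w v hv => (hA w v).1 hv)
  have hmem : ∀ u, u ∈ A (rep u) := fun u => (hA _ _).2 rfl
  have hrkinj : ∀ u v, rep u = rep v → rk u = rk v → u = v := by
    intro u v h1 h2
    exact (hrk (rep v)).2.1 u ((hA _ _).2 h1) v (hmem v) h2
  obtain ⟨f, hfs, hf⟩ := lift_of_deco (G.induce S) hdec
  let q : V → S := fun u => if h : rep u ∈ S then ⟨rep u, h⟩ else ⟨v₀, hv₀⟩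
  have hqc : ∀ u v, rep u = rep v → q u = q v := by
    intro u v h
    show (if h : rep u ∈ S then (⟨rep u, h⟩ : S) else ⟨v₀, hv₀⟩)
      = (if h : rep v ∈ S then (⟨rep v, h⟩ : S) else ⟨v₀, hv₀⟩)
    simp only [h]
  -- digits
  let dl : V → V → ℕ := fun u v => if big u then rk u else (rk u / 3 ^ idxF (N1 G u) v) % 3
  let B : V → Fin (r + 1) → V → ℕ := fun u i v =>
    (f (some (q u, i)) (dnn (q v) i)).toNat + 2 * (f (some (q u, i)) (upn (q v) i)).toNat
  have hB4 : ∀ u i v, B u i v < 4 := by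
    intro u i v
    show (f (some (q u, i)) (dnn (q v) i)).toNat + 2 * (f (some (q u, i)) (upn (q v) i)).toNat < 4
    have h1 := Bool.toNat_le (f (some (q u, i)) (dnn (q v) i))
    have h2 := Bool.toNat_le (f (some (q u, i)) (upn (q v) i))
    omega
  let cc : V → Fin (r + 1) → V → ℕ := fun u i v => (dl u v + B u i v) % 4
  -- colours of the edges at a twin
  let twc : Option (V × Fin (r + 1 + 1)) → Option (V × Fin (r + 1 + 1)) → Bool := fun x y =>
    match x, y with
    | none, _ => false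
    | some (u, _), none => (rk u).testBit (N1 G u).card
    | some (u, i), some (v, j) =>
        if h : (i : ℕ) < r + 1 then
          (if (j : ℕ) = i + 1 then decide (cc u ⟨i, h⟩ v / 2 = 1) else decide (cc u ⟨i, h⟩ v % 2 = 1))
        else (rk u).testBit (idxF (N1 G u) v)
  let em : Option (V × Fin (r + 1 + 1)) → Option (S × Fin (r + 1)) := fun x =>
    match x with
    | none => none
    | some (u, i) => if h : (i : ℕ) < r + 1 then some (q u, ⟨i, h⟩) else none
  let gg : Option (V × Fin (r + 1 + 1)) → Option (V × Fin (r + 1 + 1)) → Bool := fun x y =>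
    match x, y with
    | none, none => false
    | none, some (v, _) => f (some (q v, Fin.last r)) none
    | some (v, _), none => f (some (q v, Fin.last r)) none
    | some (u, i), some (v, j) => f (em (some (u, i))) (em (some (v, j)))
  have hgs : ∀ x y, gg x y = gg y x := by
    rintro (_ | ⟨u, i⟩) (_ | ⟨v, j⟩)
    · rfl
    · rfl
    · rfl
    · exact hfs _ _
  let isM : Option (V × Fin (r + 1 + 1)) → Prop := fun x => ∃ u i, x = some (u, i) ∧ M u
  have hisM : ∀ u i, isM (some (u, i)) ↔ M u := by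
    intro u i
    constructor
    · rintro ⟨u', i', h1, h2⟩
      simp only [Option.some.injEq, Prod.mk.injEq] at h1
      rw [h1.1]
      exact h2
    · intro h
      exact ⟨u, i, rfl, h⟩
  have hisMn : ¬ isM none := by
    rintro ⟨u', i', h1, h2⟩
    simp at h1
  let F : Option (V × Fin (r + 1 + 1)) → Option (V × Fin (r + 1 + 1)) → Bool := fun x y =>
    if isM x ∧ ¬ isM y then twc x y else if isM y ∧ ¬ isM x then twc y x else gg x y
  have hF1 : ∀ x y, isM x → ¬ isM y → F x y = twc x y := fun x y h1 h2 => if_pos ⟨h1, h2⟩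
  have hF2 : ∀ x y, ¬ isM x → ¬ isM y → F x y = gg x y := by
    intro x y h1 h2
    show (if isM x ∧ ¬ isM y then twc x y else if isM y ∧ ¬ isM x then twc y x else gg x y) = _
    rw [if_neg (fun hh => h1 hh.1), if_neg (fun hh => h2 hh.1)]
  have hF3 : ∀ x y, isM x → isM y → F x y = gg x y := by
    intro x y h1 h2
    show (if isM x ∧ ¬ isM y then twc x y else if isM y ∧ ¬ isM x then twc y x else gg x y) = _
    rw [if_neg (fun hh => hh.2 h2), if_neg (fun hh => hh.2 h1)]
  have hFs : ∀ x y, F x y = F y x := by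
    intro x y
    show (if isM x ∧ ¬ isM y then twc x y else if isM y ∧ ¬ isM x then twc y x else gg x y)
      = (if isM y ∧ ¬ isM x then twc y x else if isM x ∧ ¬ isM y then twc x y else gg y x)
    by_cases h1 : isM x <;> by_cases h2 : isM y
    · simp [h1, h2, hgs x y]
    · simp [h1, h2]
    · simp [h1, h2]
    · simp [h1, h2, hgs x y]
  rw [edgeDist_two_iff]
  refine ⟨F, hFs, ?_⟩
  intro φ hφ
  obtain ⟨hw, s, hs, hst⟩ := struct_gen G hI hC hn (by omega) φ
  have hsM : ∀ (τ : G ≃g G) u, M (τ u) ↔ M u := by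
    intro τ u
    constructor
    · rintro ⟨v, hv, huv⟩
      obtain ⟨v', rfl⟩ := τ.surjective v
      exact ⟨v', fun hh => hv (by rw [hh]), (tw_iso τ).1 huv⟩
    · rintro ⟨v, hv, huv⟩
      exact ⟨τ v, fun hh => hv (τ.injective hh), (tw_iso τ).2 huv⟩
  have hsne : ∀ u, ¬ M u → ∀ i j, s i u = s j u := by
    intro u hu i j
    by_contra hne
    exact hu ((hsM (s i) u).1 ⟨s j u, fun hh => hne hh.symm, hst i j u⟩)
  have hAc : ∀ (τ : G ≃g G) u, (A (rep (τ u))).card = (A (rep u)).card := by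
    intro τ u
    have : A (rep (τ u)) = (A (rep u)).map τ.toEquiv.toEmbedding := by
      ext z
      rw [hA, Finset.mem_map]
      constructor
      · intro hz
        obtain ⟨y, rfl⟩ := τ.surjective z
        exact ⟨y, (hA _ _).2 ((hrep _ _).2 ((tw_iso τ).1 ((hrep _ _).1 hz))), rfl⟩
      · rintro ⟨y, hy, rfl⟩
        exact (hrep _ _).2 ((tw_iso τ).2 ((hrep _ _).1 ((hA _ _).1 hy)))
    rw [this, Finset.card_map]
  have hbigτ : ∀ (τ : G ≃g G) u, big (τ u) ↔ big u := by
    intro τ u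
    show (Nf G (τ u)).card = 1 ∧ (A (rep (τ u))).card = 4 ↔ (Nf G u).card = 1 ∧ (A (rep u)).card = 4
    rw [Nf_iso, hAc]
  -- the digits are preserved
  have hcc : ∀ u v (i : Fin (r + 1)), M u → ¬ M v → G.Adj u v →
      cc (s i.castSucc u) i (s i.castSucc v) = cc u i v := by
    intro u v i hu hv huv
    have hu' := (hsM (s i.castSucc) u).2 hu
    have hv' : ∀ j, ¬ M (s j v) := fun j hh => hv ((hsM _ _).1 hh)
    have hil : (i : ℕ) < r + 1 := i.2
    have a1 : (mu G (r + 1)).Adj (some (u, i.castSucc)) (some (v, i.succ)) :=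
      ⟨huv, Or.inr (Or.inl (by simp))⟩
    have a2 : (mu G (r + 1)).Adj (some (u, i.castSucc)) (some (v, ⟨(i : ℕ) - 1, by omega⟩)) := by
      refine ⟨huv, ?_⟩
      simp only [Fin.val_castSucc]
      omega
    have h1 := hφ _ _ a1
    have h2 := hφ _ _ a2
    rw [hs, hs, hF1 _ _ ((hisM _ _).2 hu') (fun hh => hv' _ ((hisM _ _).1 hh)),
      hF1 _ _ ((hisM _ _).2 hu) (fun hh => hv ((hisM _ _).1 hh)), hsne v hv i.succ i.castSucc] at h1
    rw [hs, hs, hF1 _ _ ((hisM _ _).2 hu') (fun hh => hv' _ ((hisM _ _).1 hh)),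
      hF1 _ _ ((hisM _ _).2 hu) (fun hh => hv ((hisM _ _).1 hh)),
      hsne v hv ⟨(i : ℕ) - 1, by omega⟩ i.castSucc] at h2
    have e1 : ∀ u v, twc (some (u, i.castSucc)) (some (v, i.succ)) = decide (cc u i v / 2 = 1) := by
      intro u v
      simp only [twc, Fin.val_castSucc, Fin.val_succ, if_true, dif_pos hil]
    have e2 : ∀ u v, twc (some (u, i.castSucc)) (some (v, ⟨(i : ℕ) - 1, by omega⟩))
        = decide (cc u i v % 2 = 1) := by
      intro u v
      have hne : ¬ ((i : ℕ) - 1 = i + 1) := by omega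
      simp only [twc, Fin.val_castSucc, dif_pos hil, if_neg hne]
    rw [e1, e1] at h1
    rw [e2, e2] at h2
    have c1 : cc (s i.castSucc u) i (s i.castSucc v) < 4 := Nat.mod_lt _ (by norm_num)
    have c2 : cc u i v < 4 := Nat.mod_lt _ (by norm_num)
    rw [decide_eq_decide] at h1 h2
    omega
  have hstr : ∀ (τ : G ≃g G) (u v : V), rep u = rep v → rep (τ u) = rep (τ v) := by
    intro τ u v huv
    exact (hrep _ _).2 ((tw_iso τ).2 ((hrep _ _).1 huv))
  have hstr' : ∀ (τ : G ≃g G) (u v : V), rep (τ u) = rep (τ v) → rep u = rep v := by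
    intro τ u v huv
    exact (hrep _ _).2 ((tw_iso τ).1 ((hrep _ _).1 huv))
  have hMc : ∀ u v, M u → rep u = rep v → M v := by
    intro u v hu huv
    by_cases h : u = v
    · rw [← h]; exact hu
    · exact ⟨u, h, ((hrep u v).1 huv).symm⟩
  have hBc : ∀ u u' i v, rep u = rep u' → B u i v = B u' i v := by
    intro u u' i v h
    show (f (some (q u, i)) (dnn (q v) i)).toNat + 2 * (f (some (q u, i)) (upn (q v) i)).toNat
      = (f (some (q u', i)) (dnn (q v) i)).toNat + 2 * (f (some (q u', i)) (upn (q v) i)).toNat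
    rw [hqc u u' h]
  have hbigc : ∀ u u', rep u = rep u' → (big u ↔ big u') := by
    intro u u' h
    show (Nf G u).card = 1 ∧ (A (rep u)).card = 4 ↔ (Nf G u').card = 1 ∧ (A (rep u')).card = 4
    rw [h, Nf_tw ((hrep u u').1 h)]
  have hdl : ∀ u v, ¬ big u → dl u v = (rk u / 3 ^ idxF (N1 G u) v) % 3 := fun u v h => if_neg h
  have hdlbig : ∀ u v, big u → dl u v = rk u := fun u v h => if_pos h
  -- the set of digits of a class
  have hdig0 : ∀ u v, ¬ big u → ∃ x, rep x = rep u ∧ dl x v = 0 := by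
    intro u v hu
    obtain ⟨x, hx, hx0⟩ := (hrk (rep u)).2.2 0 (Finset.card_pos.2 ⟨u, hmem u⟩)
    have hx' := (hA _ _).1 hx
    refine ⟨x, hx', ?_⟩
    rw [hdl x v (fun hh => hu ((hbigc _ _ hx').1 hh)), hx0]
    simp
  have hdigd : ∀ u v, ¬ big u → (∃ x, rep x = rep u ∧ dl x v = 2) → ∃ x, rep x = rep u ∧ dl x v = 1 := by
    rintro u v hu ⟨x, hx, hx2⟩
    rw [hdl x v (fun hh => hu ((hbigc _ _ hx).1 hh))] at hx2
    obtain ⟨r', hr', hr'1⟩ := digit_down (rk x) (idxF (N1 G x) v) 1 (by omega)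
    have h1 := (hrk (rep u)).1 x ((hA _ _).2 hx)
    obtain ⟨y, hy, hy1⟩ := (hrk (rep u)).2.2 r' (by omega)
    have hy' := (hA _ _).1 hy
    refine ⟨y, hy', ?_⟩
    rw [hdl y v (fun hh => hu ((hbigc _ _ hy').1 hh)), hy1,
      N1_tw ((hrep y x).1 (hy'.trans hx.symm))]
    exact hr'1
  have hdig3 : ∀ u v, ¬ big u → ∀ j, (∃ x, rep x = rep u ∧ dl x v = j) → j < 3 := by
    rintro u v hu j ⟨x, hx, rfl⟩
    rw [hdl x v (fun hh => hu ((hbigc _ _ hx).1 hh))]
    exact Nat.mod_lt _ (by norm_num)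
  have hBpres : ∀ u v (i : Fin (r + 1)), M u → ¬ M v → ¬ big u → G.Adj u v →
      B (s i.castSucc u) i (s i.castSucc v) = B u i v := by
    intro u v i hu hv hbu huv
    have hbu' : ¬ big (s i.castSucc u) := fun hh => hbu ((hbigτ _ _).1 hh)
    refine (cyc3 (fun j => ∃ x, rep x = rep u ∧ dl x v = j)
      (fun j => ∃ x, rep x = rep (s i.castSucc u) ∧ dl x (s i.castSucc v) = j) (B u i v)
      (B (s i.castSucc u) i (s i.castSucc v)) (hB4 _ _ _) (hB4 _ _ _) (hdig0 u v hbu)
      (hdig0 _ _ hbu') (hdigd u v hbu) (hdig3 u v hbu) (hdig3 _ _ hbu') ?_ ?_).symm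
    · rintro j ⟨x, hx, rfl⟩
      have hMx := hMc u x hu hx.symm
      have hxv : G.Adj x v := ((hrep x u).1 hx v).2 huv
      refine ⟨dl (s i.castSucc x) (s i.castSucc v), ⟨s i.castSucc x, hstr _ _ _ hx, rfl⟩, ?_⟩
      have h1 : (dl (s i.castSucc x) (s i.castSucc v) + B (s i.castSucc x) i (s i.castSucc v)) % 4
          = (dl x v + B x i v) % 4 := hcc x v i hMx hv hxv
      rw [hBc _ _ i _ (hstr (s i.castSucc) _ _ hx), hBc x u i v hx] at h1
      exact h1.symm
    · rintro j ⟨z, hz, rfl⟩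
      obtain ⟨x, rfl⟩ := (s i.castSucc).surjective z
      have hx : rep x = rep u := hstr' _ _ _ hz
      have hMx := hMc u x hu hx.symm
      have hxv : G.Adj x v := ((hrep x u).1 hx v).2 huv
      refine ⟨dl x v, ⟨x, hx, rfl⟩, ?_⟩
      have h1 : (dl (s i.castSucc x) (s i.castSucc v) + B (s i.castSucc x) i (s i.castSucc v)) % 4
          = (dl x v + B x i v) % 4 := hcc x v i hMx hv hxv
      rw [hBc _ _ i _ hz, hBc x u i v hx] at h1
      exact h1.symm
  -- the induced automorphism of the reduction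
  have hSτ : ∀ (τ : G ≃g G) v, v ∈ S → rep (τ v) ∈ S := by
    intro τ v hv
    rw [hS] at hv ⊢
    refine ⟨hrr _, ?_⟩
    rw [hAc τ v, hv.1, Nf_tw (hr1 (τ v)), Nf_iso]
    exact hv.2
  have hinv : ∀ (τ τ' : G ≃g G), (∀ x, τ' (τ x) = x) → ∀ v, v ∈ S → rep (τ' (rep (τ v))) = v := by
    intro τ τ' hττ v hv
    rw [hS] at hv
    have h1 : Tw G (τ' (rep (τ v))) (τ' (τ v)) := (tw_iso τ').2 (hr1 _)
    rw [hττ] at h1
    rw [hr2 _ _ h1, hv.1]
  have hadjrep : ∀ x y, G.Adj (rep x) (rep y) ↔ G.Adj x y := by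
    intro x y
    rw [hr1 x, G.adj_comm, hr1 y, G.adj_comm]
  let σ : G.induce S ≃g G.induce S :=
    { toFun := fun v => ⟨rep (s 0 v.1), hSτ _ _ v.2⟩
      invFun := fun v => ⟨rep ((s 0).symm v.1), hSτ _ _ v.2⟩
      left_inv := fun v => Subtype.ext (hinv (s 0) (s 0).symm (fun x => by simp) v.1 v.2)
      right_inv := fun v => Subtype.ext (hinv (s 0).symm (s 0) (fun x => by simp) v.1 v.2)
      map_rel_iff' := by
        rintro ⟨a, ha⟩ ⟨b, hb⟩
        show G.Adj (rep (s 0 a)) (rep (s 0 b)) ↔ G.Adj a b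
        rw [hadjrep, (s 0).map_adj_iff] }
  have hqS : ∀ v (hv : v ∈ S), q v = ⟨v, hv⟩ := by
    intro v hv
    have h1 := ((hS v).1 hv).1
    show (if h : rep v ∈ S then (⟨rep v, h⟩ : S) else ⟨v₀, hv₀⟩) = ⟨v, hv⟩
    rw [dif_pos (by rw [h1]; exact hv)]
    exact Subtype.ext h1
  have hqσ : ∀ v (hv : v ∈ S) i, q (s i v) = σ ⟨v, hv⟩ := by
    intro v hv i
    have h1 : rep (s i v) = rep (s 0 v) := (hrep _ _).2 (hst i 0 v)
    rw [hqc _ _ h1]
    show (if h : rep (s 0 v) ∈ S then (⟨rep (s 0 v), h⟩ : S) else ⟨v₀, hv₀⟩) = _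
    rw [dif_pos (hSτ _ _ hv)]
    rfl
  have hlu : ∀ v (hv : v ∈ S) (i : Fin (r + 1)),
      lift (G.induce S) r σ (upn ⟨v, hv⟩ i) = upn (σ ⟨v, hv⟩) i := by
    intro v hv i
    unfold upn
    split_ifs <;> rfl
  have hld : ∀ v (hv : v ∈ S) (i : Fin (r + 1)),
      lift (G.induce S) r σ (dnn ⟨v, hv⟩ i) = dnn (σ ⟨v, hv⟩) i := by
    intro v hv i
    rfl
  have hσ : σ = RelIso.refl _ := by
    apply hf σ ⟨s 0, fun v => rfl⟩
    -- edges at a twin
    have hone : ∀ (u : V) (hu : u ∈ S) (i : Fin (r + 1)) (v : V) (hv : v ∈ S), M u → ¬ M v →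
        G.Adj u v →
        f (some (σ ⟨u, hu⟩, i)) (upn (σ ⟨v, hv⟩) i) = f (some (⟨u, hu⟩, i)) (upn ⟨v, hv⟩ i) ∧
        f (some (σ ⟨u, hu⟩, i)) (dnn (σ ⟨v, hv⟩) i) = f (some (⟨u, hu⟩, i)) (dnn ⟨v, hv⟩ i) := by
      intro u hu i v hv hMu hMv huv
      have h1 := hBpres u v i hMu hMv (hbigS u hu) huv
      have h2 : (f (some (q (s i.castSucc u), i)) (dnn (q (s i.castSucc v)) i)).toNat
          + 2 * (f (some (q (s i.castSucc u), i)) (upn (q (s i.castSucc v)) i)).toNat
          = (f (some (q u, i)) (dnn (q v) i)).toNat + 2 * (f (some (q u, i)) (upn (q v) i)).toNat := h1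
      rw [hqσ u hu, hqσ v hv, hqS u hu, hqS v hv] at h2
      have b1 := Bool.toNat_le (f (some (σ ⟨u, hu⟩, i)) (dnn (σ ⟨v, hv⟩) i))
      have b2 := Bool.toNat_le (f (some (σ ⟨u, hu⟩, i)) (upn (σ ⟨v, hv⟩) i))
      have b3 := Bool.toNat_le (f (some (⟨u, hu⟩, i)) (dnn ⟨v, hv⟩ i))
      have b4 := Bool.toNat_le (f (some (⟨u, hu⟩, i)) (upn ⟨v, hv⟩ i))
      constructor
      · apply toNat_inj'
        omega
      · apply toNat_inj'
        omega
    have hone' : ∀ (u : V) (hu : u ∈ S) (i : Fin (r + 1)) (Y : Option (S × Fin (r + 1))), M u →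
        (∀ v j, Y = some (v, j) → ¬ M v.1) → (mu (G.induce S) r).Adj (some (⟨u, hu⟩, i)) Y →
        f (some (σ ⟨u, hu⟩, i)) (lift (G.induce S) r σ Y) = f (some (⟨u, hu⟩, i)) Y := by
      intro u hu i Y hMu hYM hY
      have hil : (i : ℕ) < r + 1 := i.2
      rcases Y with _ | ⟨⟨v, hv⟩, j⟩
      · have hi : (i : ℕ) = r := hY
        obtain ⟨v, hv⟩ := hN1 u hMu
        rw [mem_N1] at hv
        have h1 := (hone u hu i v (hSnM _ hv.2) hMu hv.2 hv.1).1
        have e1 : ∀ x : S, upn x i = none := by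
          intro x
          unfold upn
          rw [dif_neg (by omega)]
        rw [e1, e1] at h1
        exact h1
      · obtain ⟨h1, h2⟩ := hY
        have huv : G.Adj u v := h1
        obtain ⟨h3, h4⟩ := hone u hu i v hv hMu (hYM ⟨v, hv⟩ j rfl) huv
        have hj := j.2
        by_cases h5 : (i : ℕ) + 1 = j
        · have e1 : ∀ x : S, upn x i = some (x, j) := by
            intro x
            unfold upn
            rw [dif_pos (by omega)]
            congr 2
            exact Fin.ext h5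
          rw [e1, e1] at h3
          exact h3
        · have e1 : ∀ x : S, dnn x i = some (x, j) := by
            intro x
            unfold dnn
            congr 2
            apply Fin.ext
            simp only
            omega
          rw [e1, e1] at h4
          exact h4
    rintro (_ | ⟨⟨u, hu⟩, i⟩) (_ | ⟨⟨v, hv⟩, j⟩) hXY
    · exact absurd hXY (fun h => h)
    · by_cases hMv : M v
      · rw [hfs, hfs none]
        exact hone' v hv j none hMv (fun _ _ hh => by simp at hh) hXY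
      · have hj : (j : ℕ) = r := hXY
        have hj' : j = Fin.last r := Fin.ext hj
        have hadj : (mu G (r + 1)).Adj (some (v, Fin.last (r + 1))) none := rfl
        have h1 := hφ _ _ hadj
        rw [hs, hw, hF2 _ _ (fun hh => hMv ((hsM _ _).1 ((hisM _ _).1 hh))) hisMn,
          hF2 _ _ (fun hh => hMv ((hisM _ _).1 hh)) hisMn] at h1
        have h2 : f (some (q (s (Fin.last (r + 1)) v), Fin.last r)) none
          = f (some (q v, Fin.last r)) none := h1
        rw [hqσ v hv, hqS v hv] at h2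
        rw [hj', hfs, hfs none]
        exact h2
    · by_cases hMu : M u
      · exact hone' u hu i none hMu (fun _ _ hh => by simp at hh) hXY
      · have hj : (i : ℕ) = r := hXY
        have hj' : i = Fin.last r := Fin.ext hj
        have hadj : (mu G (r + 1)).Adj (some (u, Fin.last (r + 1))) none := rfl
        have h1 := hφ _ _ hadj
        rw [hs, hw, hF2 _ _ (fun hh => hMu ((hsM _ _).1 ((hisM _ _).1 hh))) hisMn,
          hF2 _ _ (fun hh => hMu ((hisM _ _).1 hh)) hisMn] at h1
        have h2 : f (some (q (s (Fin.last (r + 1)) u), Fin.last r)) none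
          = f (some (q u, Fin.last r)) none := h1
        rw [hqσ u hu, hqS u hu] at h2
        rw [hj']
        exact h2
    · obtain ⟨h1, h2⟩ := hXY
      have huv : G.Adj u v := h1
      have hi := i.2
      have hj := j.2
      have hadj : (mu G (r + 1)).Adj (some (u, i.castSucc)) (some (v, j.castSucc)) := ⟨huv, h2⟩
      have h3 := hφ _ _ hadj
      have e1 : ∀ (x : V) (l : Fin (r + 1)), em (some (x, l.castSucc)) = some (q x, l) := by
        intro x l
        exact dif_pos l.2
      have hfin : gg (φ (some (u, i.castSucc))) (φ (some (v, j.castSucc)))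
          = gg (some (u, i.castSucc)) (some (v, j.castSucc)) →
          f (some (σ ⟨u, hu⟩, i)) (some (σ ⟨v, hv⟩, j)) = f (some (⟨u, hu⟩, i)) (some (⟨v, hv⟩, j)) := by
        intro h4
        rw [hs, hs] at h4
        have h5 : f (em (some (s i.castSucc u, i.castSucc))) (em (some (s j.castSucc v, j.castSucc)))
          = f (em (some (u, i.castSucc))) (em (some (v, j.castSucc))) := h4
        rw [e1, e1, e1, e1, hqσ u hu, hqσ v hv, hqS u hu, hqS v hv] at h5
        exact h5
      have hisφ : ∀ (x : V) l, isM (φ (some (x, l))) ↔ M x := by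
        intro x l
        rw [hs, hisM, hsM]
      by_cases hMu : M u
      · by_cases hMv : M v
        · apply hfin
          rwa [hF3 _ _ ((hisφ _ _).2 hMu) ((hisφ _ _).2 hMv), hF3 _ _ ((hisM _ _).2 hMu)
            ((hisM _ _).2 hMv)] at h3
        · exact hone' u hu i _ hMu (by
            intro w l hw'
            simp only [Option.some.injEq, Prod.mk.injEq] at hw'
            rw [← hw'.1]
            exact hMv) ⟨h1, h2⟩
      · by_cases hMv : M v
        · rw [hfs, hfs (some (⟨u, hu⟩, i))]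
          refine hone' v hv j _ hMv (by
            intro w l hw'
            simp only [Option.some.injEq, Prod.mk.injEq] at hw'
            rw [← hw'.1]
            exact hMu) ⟨h1.symm, ?_⟩
          omega
        · apply hfin
          rwa [hF2 _ _ (fun hh => hMu ((hisφ _ _).1 hh)) (fun hh => hMv ((hisφ _ _).1 hh)),
            hF2 _ _ (fun hh => hMu ((hisM _ _).1 hh)) (fun hh => hMv ((hisM _ _).1 hh))] at h3
  have hfixn : ∀ u, ¬ M u → ∀ i, s i u = u := by
    intro u hu i
    have h1 : σ ⟨u, hSnM u hu⟩ = ⟨u, hSnM u hu⟩ := by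
      rw [hσ]
      rfl
    have h2 : rep (s 0 u) = u := congrArg Subtype.val h1
    rw [hnMrep (s 0 u) (fun hh => hu ((hsM _ _).1 hh))] at h2
    rw [hsne u hu i 0]
    exact h2
  have hfixtw : ∀ u, M u → ∀ i, Tw G (s i u) u := by
    intro u hu i
    by_cases hb : big u
    · intro x
      have hno : ∀ y, G.Adj u y → ¬ M y := hpend u hu hb.1
      constructor
      · intro hx
        obtain ⟨y, rfl⟩ := (s i).surjective x
        have hy : G.Adj u y := (s i).map_adj_iff.1 hx
        rw [hfixn y (hno y hy) i]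
        exact hy
      · intro hx
        have h1 : G.Adj (s i u) (s i x) := (s i).map_adj_iff.2 hx
        rwa [hfixn x (hno x hx) i] at h1
    · have hrS : rep u ∈ S := by
        rw [hS]
        refine ⟨hrr u, ?_⟩
        rw [Nf_tw (hr1 u)]
        exact hb
      have h1 : σ ⟨rep u, hrS⟩ = ⟨rep u, hrS⟩ := by
        rw [hσ]
        rfl
      have h2 : rep (s 0 (rep u)) = rep u := congrArg Subtype.val h1
      have h3 : Tw G (s 0 (rep u)) u := (hrep _ _).1 h2
      have h4 : Tw G (s 0 u) (s 0 (rep u)) := (tw_iso (s 0)).2 (hr1 u).symm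
      exact (hst i 0 u).trans (h4.trans h3)
  have hfixM : ∀ u, M u → ∀ i, s i u = u := by
    intro u hu i
    have h3 : rep (s i u) = rep u := (hrep _ _).2 (hfixtw u hu i)
    have hNf : N1 G (s i u) = N1 G u := N1_tw (hfixtw u hu i)
    have hu' := (hsM (s i) u).2 hu
    have l1 := (hrk _).1 _ (hmem u)
    have l2 := (hrk _).1 _ ((hA (rep u) _).2 h3)
    apply hrkinj _ _ h3
    rcases Nat.lt_or_ge (i : ℕ) (r + 1) with hi | hi
    · have hi' : (⟨i, hi⟩ : Fin (r + 1)).castSucc = i := by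
        apply Fin.ext
        simp
      have key : ∀ v, v ∈ N1 G u → dl (s i u) v = dl u v := by
        intro v hv
        obtain ⟨huv, hnv⟩ := (mem_N1 _ _ _).1 hv
        have h4 := hcc u v ⟨i, hi⟩ hu hnv huv
        rw [hi', hfixn v hnv] at h4
        have h5 : (dl (s i u) v + B (s i u) ⟨i, hi⟩ v) % 4 = (dl u v + B u ⟨i, hi⟩ v) % 4 := h4
        rw [hBc _ _ _ v h3] at h5
        have h6 : dl (s i u) v ≡ dl u v [MOD 4] := Nat.ModEq.add_right_cancel' _ h5
        have hlt : ∀ x, dl x v < 4 := by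
          intro x
          by_cases hb : big x
          · rw [hdlbig x v hb]
            have h7 := (hrk _).1 _ (hmem x)
            have h8 := hb.2
            omega
          · rw [hdl x v hb]
            have := Nat.mod_lt (rk x / 3 ^ idxF (N1 G x) v) (show 0 < 3 by norm_num)
            omega
        exact Nat.ModEq.eq_of_lt_of_lt h6 (hlt _) (hlt _)
      by_cases hb : big u
      · obtain ⟨v, hv⟩ := hN1 u hu
        have h4 := key v hv
        rwa [hdlbig _ _ ((hbigτ _ _).2 hb), hdlbig _ _ hb] at h4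
      · have hA3u := hA3 u hu hb
        apply digits3 (N1 G u).card _ _ (by omega) (by omega)
        intro j hj
        obtain ⟨v, hv, rfl⟩ := idxF_surj hj
        have h4 := key v hv
        rwa [hdl _ _ (fun hh => hb ((hbigτ _ _).1 hh)), hdl _ _ hb, hNf] at h4
    · have hit : (i : ℕ) = r + 1 := by have := i.2; omega
      have hi' : i = Fin.last (r + 1) := Fin.ext hit
      have hku := hk2 u hu
      apply bits_eq (N1 G u).card _ _ (by omega) (by omega)
      intro j hj
      rcases Nat.lt_or_ge j (N1 G u).card with hj1 | hj1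
      · obtain ⟨v, hv, rfl⟩ := idxF_surj hj1
        obtain ⟨huv, hnv⟩ := (mem_N1 _ _ _).1 hv
        have hadj : (mu G (r + 1)).Adj (some (u, i)) (some (v, ⟨r, by omega⟩)) := by
          refine ⟨huv, ?_⟩
          simp only
          omega
        have h4 := hφ _ _ hadj
        rw [hs, hs, hfixn v hnv, hF1 _ _ ((hisM _ _).2 hu') (fun hh => hnv ((hisM _ _).1 hh)),
          hF1 _ _ ((hisM _ _).2 hu) (fun hh => hnv ((hisM _ _).1 hh))] at h4
        have e1 : ∀ x, twc (some (x, i)) (some (v, ⟨r, by omega⟩)) = (rk x).testBit (idxF (N1 G x) v) := by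
          intro x
          exact dif_neg (by omega)
        rw [e1, e1, hNf] at h4
        exact h4
      · have hj2 : j = (N1 G u).card := by omega
        have hadj : (mu G (r + 1)).Adj (some (u, i)) none := hit
        have h4 := hφ _ _ hadj
        rw [hs, hw, hF1 _ _ ((hisM _ _).2 hu') hisMn, hF1 _ _ ((hisM _ _).2 hu) hisMn] at h4
        have h5 : (rk (s i u)).testBit (N1 G (s i u)).card = (rk u).testBit (N1 G u).card := h4
        rw [hNf] at h5
        rw [hj2]
        exact h5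
  apply RelIso.ext
  rintro (_ | ⟨u, i⟩)
  · exact hw
  · rw [hs]
    by_cases hu : M u
    · rw [hfixM u hu i]
      rfl
    · rw [hfixn u hu i]
      rfl

end Pool.Agent.MY12
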