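import Pool.Agent.MY12.Crit
import Pool.Agent.MY12.Label

/-! The subdivided stars. -/

namespace Pool.Agent.MY12

open SimpleGraph

theorem spider_noIso {m : ℕ} (hm : 1 ≤ m) : NoIso (spider m) := by
  rintro (_ | ⟨i, c⟩)
  · exact ⟨some (⟨0, hm⟩, false), rfl⟩
  · refine ⟨some (i, !c), rfl, ?_⟩
    cases c <;> simp

theorem spider_twinFree {m : ℕ} (hm : 2 ≤ m) : TwinFree (spider m) := by
  have key : ∀ (i : Fin m) (c : Bool), ¬ ∀ x, (spider m).Adj none x ↔ (spider m).Adj (some (i, c)) x := by
    intro i c h
    obtain ⟨j, hj⟩ : ∃ j : Fin m, j ≠ i := by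
      have : Nontrivial (Fin m) := Fin.nontrivial_iff_two_le.2 hm
      exact exists_ne i
    have h1 := (h (some (j, false))).1 rfl
    exact hj h1.1.symm
  rintro (_ | ⟨i, c⟩) (_ | ⟨j, c'⟩) h
  · rfl
  · exact absurd h (key j c')
  · exact absurd (fun x => (h x).symm) (key i c)
  · have h1 : (spider m).Adj (some (i, c)) (some (i, !c)) := ⟨rfl, by cases c <;> simp⟩
    have h2 := (h _).1 h1
    obtain ⟨h3, h4⟩ := h2
    have h3' : j = i := h3
    have h4' : c' ≠ !c := h4
    subst h3'
    cases c <;> cases c' <;> simp at h4' ⊢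

/-- permuting the legs -/
def legPerm {m : ℕ} (π : Equiv.Perm (Fin m)) : spider m ≃g spider m where
  toFun x := x.map (fun p => (π p.1, p.2))
  invFun x := x.map (fun p => (π.symm p.1, p.2))
  left_inv x := by
    rcases x with _ | ⟨u, i⟩ <;> simp
  right_inv x := by
    rcases x with _ | ⟨u, i⟩ <;> simp
  map_rel_iff' := by
    rintro (_ | ⟨i, c⟩) (_ | ⟨j, c'⟩)
    · exact Iff.rfl
    · exact Iff.rfl
    · exact Iff.rfl
    · exact and_congr_left' π.injective.eq_iff

theorem legPerm_some {m : ℕ} (π : Equiv.Perm (Fin m)) (i : Fin m) (c : Bool) :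
    legPerm π (some (i, c)) = some (π i, c) := rfl

theorem legPerm_none {m : ℕ} (π : Equiv.Perm (Fin m)) : legPerm π none = none := rfl

theorem legPerm_ne {m : ℕ} (π : Equiv.Perm (Fin m)) (i : Fin m) (h : π i ≠ i) :
    legPerm π ≠ RelIso.refl _ := by
  intro hh
  have := congrArg (fun f => f (some (i, false))) hh
  simp only [legPerm_some] at this
  apply h
  simpa using this

/-- the code of a leg -/
abbrev Leg (t : ℕ) := (Lab t × Bool) × (Lab t × Bool)

theorem card_Leg (t : ℕ) : Fintype.card (Leg t) = 16 ^ (t + 1) := by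
  rw [Fintype.card_prod, Fintype.card_prod, card_Lab, Fintype.card_bool]
  have : (16 : ℕ) ^ (t + 1) = (4 ^ (t + 1)) * 4 ^ (t + 1) := by
    rw [← mul_pow]
    norm_num
  rw [this]
  ring

theorem spider_le {m t : ℕ} (h : RigidDeco (spider m) t) : m ≤ 16 ^ (t + 1) := by
  obtain ⟨a, e, b, h⟩ := h
  let lab : Option (Fin m × Bool) → Option (Fin m × Bool) → Lab t :=
    fun u v => (e s(u, v), fun i => a i u v, fun i => a i v u)
  let code : Fin m → Leg t := fun i =>
    ((lab none (some (i, false)), b (some (i, false))),
      (lab (some (i, false)) (some (i, true)), b (some (i, true))))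
  have hinj : Function.Injective code := by
    intro i j hij
    by_contra hne
    refine legPerm_ne (Equiv.swap i j) i (by rw [Equiv.swap_apply_left]; exact fun h => hne h.symm) ?_
    have hcode : ∀ k, code (Equiv.swap i j k) = code k := by
      intro k
      by_cases h1 : k = i
      · rw [h1, Equiv.swap_apply_left, hij]
      · by_cases h2 : k = j
        · rw [h2, Equiv.swap_apply_right, hij]
        · rw [Equiv.swap_apply_of_ne_of_ne h1 h2]
    have f1 : ∀ k, e s(none, some (Equiv.swap i j k, false)) = e s(none, some (k, false)) :=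
      fun k => congrArg (fun x : Leg t => x.1.1.1) (hcode k)
    have f2 : ∀ k l, a l none (some (Equiv.swap i j k, false)) = a l none (some (k, false)) :=
      fun k l => congrFun (congrArg (fun x : Leg t => x.1.1.2.1) (hcode k)) l
    have f3 : ∀ k l, a l (some (Equiv.swap i j k, false)) none = a l (some (k, false)) none :=
      fun k l => congrFun (congrArg (fun x : Leg t => x.1.1.2.2) (hcode k)) l
    have f4 : ∀ k, b (some (Equiv.swap i j k, false)) = b (some (k, false)) :=
      fun k => congrArg (fun x : Leg t => x.1.2) (hcode k)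
    have g1 : ∀ k, e s(some (Equiv.swap i j k, false), some (Equiv.swap i j k, true))
        = e s(some (k, false), some (k, true)) :=
      fun k => congrArg (fun x : Leg t => x.2.1.1) (hcode k)
    have g2 : ∀ k l, a l (some (Equiv.swap i j k, false)) (some (Equiv.swap i j k, true))
        = a l (some (k, false)) (some (k, true)) :=
      fun k l => congrFun (congrArg (fun x : Leg t => x.2.1.2.1) (hcode k)) l
    have g3 : ∀ k l, a l (some (Equiv.swap i j k, true)) (some (Equiv.swap i j k, false))
        = a l (some (k, true)) (some (k, false)) :=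
      fun k l => congrFun (congrArg (fun x : Leg t => x.2.1.2.2) (hcode k)) l
    have g4 : ∀ k, b (some (Equiv.swap i j k, true)) = b (some (k, true)) :=
      fun k => congrArg (fun x : Leg t => x.2.2) (hcode k)
    apply h
    · rintro l (_ | ⟨k, c⟩) (_ | ⟨k', c'⟩) hk
      · exact absurd hk (fun h => h)
      · have hc : c' = false := hk
        subst hc
        exact f2 k' l
      · have hc : c = false := hk
        subst hc
        exact f3 k l
      · obtain ⟨h1, h2⟩ := hk
        subst h1
        cases c <;> cases c'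
        · exact absurd rfl h2
        · exact g2 k l
        · exact g3 k l
        · exact absurd rfl h2
    · rintro (_ | ⟨k, c⟩) (_ | ⟨k', c'⟩) hk
      · exact absurd hk (fun h => h)
      · have hc : c' = false := hk
        subst hc
        exact f1 k'
      · have hc : c = false := hk
        subst hc
        rw [Sym2.eq_swap, Sym2.eq_swap (a := some (k, false))]
        exact f1 k
      · obtain ⟨h1, h2⟩ := hk
        subst h1
        cases c <;> cases c'
        · exact absurd rfl h2
        · exact g1 k
        · rw [Sym2.eq_swap, Sym2.eq_swap (a := some (k, true))]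
          exact g1 k
        · exact absurd rfl h2
    · rintro (_ | ⟨k, c⟩)
      · rfl
      · cases c
        · exact f4 k
        · exact g4 k
  have := Fintype.card_le_of_injective code hinj
  rwa [card_Leg, Fintype.card_fin] at this

/-- automorphisms permute the legs -/
theorem spider_aut {m : ℕ} (hm : 2 ≤ m) (σ : spider m ≃g spider m) :
    σ none = none ∧ ∀ i, ∃ j, σ (some (i, false)) = some (j, false) ∧ σ (some (i, true)) = some (j, true) := by
  have h2 : Nontrivial (Fin m) := Fin.nontrivial_iff_two_le.2 hm
  let P : Option (Fin m × Bool) → Prop := fun x =>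
    (∃ y y', y ≠ y' ∧ (spider m).Adj x y ∧ (spider m).Adj x y') ∧
      ∀ y, (spider m).Adj x y → ∃ z, z ≠ x ∧ (spider m).Adj y z
  have hP0 : P none := by
    obtain ⟨i, j, hij⟩ := exists_pair_ne (Fin m)
    refine ⟨⟨some (i, false), some (j, false), by simpa using hij, rfl, rfl⟩, ?_⟩
    rintro (_ | ⟨k, c⟩) hk
    · exact absurd hk (fun h => h)
    · have hc : c = false := hk
      subst hc
      exact ⟨some (k, true), by simp, rfl, Bool.false_ne_true⟩
  have hP1 : ∀ i c, ¬ P (some (i, c)) := by
    rintro i (_ | _) ⟨⟨y, y', hne, h1, h2⟩, h3⟩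
    · obtain ⟨z, hz, hz2⟩ := h3 (some (i, true)) ⟨rfl, Bool.false_ne_true⟩
      rcases z with _ | ⟨k, c⟩
      · have hz3 : true = false := hz2
        exact absurd hz3.symm Bool.false_ne_true
      · obtain ⟨h4, h5⟩ := hz2
        apply hz
        have h4' : i = k := h4
        subst h4'
        cases c
        · rfl
        · exact absurd rfl h5
    · have key : ∀ y, (spider m).Adj (some (i, true)) y → y = some (i, false) := by
        rintro (_ | ⟨k, c⟩) hk
        · have hk3 : true = false := hk
          exact absurd hk3.symm Bool.false_ne_true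
        · obtain ⟨h4, h5⟩ := hk
          have h4' : i = k := h4
          subst h4'
          cases c
          · rfl
          · exact absurd rfl h5
      exact hne ((key y h1).trans (key y' h2).symm)
  have hPσ : P (σ none) := by
    obtain ⟨⟨y, y', hne, h1, h2⟩, h3⟩ := hP0
    refine ⟨⟨σ y, σ y', fun h => hne (σ.injective h), σ.map_adj_iff.2 h1, σ.map_adj_iff.2 h2⟩, ?_⟩
    intro z hz
    obtain ⟨y₁, rfl⟩ := σ.surjective z
    obtain ⟨z', hz', hz2⟩ := h3 y₁ (σ.map_adj_iff.1 hz)
    exact ⟨σ z', fun h => hz' (σ.injective h), σ.map_adj_iff.2 hz2⟩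
  have h0 : σ none = none := by
    rcases hσ : σ none with _ | ⟨i, c⟩
    · rfl
    · rw [hσ] at hPσ
      exact absurd hPσ (hP1 i c)
  refine ⟨h0, ?_⟩
  intro i
  have h1 : (spider m).Adj (σ none) (σ (some (i, false))) := σ.map_adj_iff.2 rfl
  rw [h0] at h1
  rcases hσ : σ (some (i, false)) with _ | ⟨j, c⟩
  · rw [hσ] at h1
    exact absurd h1 (fun h => h)
  · rw [hσ] at h1
    have hc : c = false := h1
    subst hc
    refine ⟨j, rfl, ?_⟩
    have h3 : (spider m).Adj (σ (some (i, false))) (σ (some (i, true))) :=
      σ.map_adj_iff.2 ⟨rfl, by simp⟩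
    rw [hσ] at h3
    rcases hσ' : σ (some (i, true)) with _ | ⟨k, c⟩
    · rw [← h0] at hσ'
      exact absurd (σ.injective hσ') (by simp)
    · rw [hσ'] at h3
      obtain ⟨h4, h5⟩ := h3
      have h4' : j = k := h4
      subst h4'
      cases c
      · exact absurd rfl h5
      · rfl

theorem spider_deco {m t : ℕ} (hm : 2 ≤ m) (h : m ≤ 16 ^ (t + 1)) : RigidDeco (spider m) t := by
  classical
  have hE : Nonempty (Fin m ↪ Leg t) := by
    apply Function.Embedding.nonempty_of_card_le
    rw [card_Leg, Fintype.card_fin]
    exact h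
  obtain ⟨E⟩ := hE
  let a : Fin t → Option (Fin m × Bool) → Option (Fin m × Bool) → Bool := fun l x y =>
    match x, y with
    | none, some (k, _) => (E k).1.1.2.1 l
    | some (k, _), none => (E k).1.1.2.2 l
    | some (k, false), some (_, _) => (E k).2.1.2.1 l
    | some (k, true), some (_, _) => (E k).2.1.2.2 l
    | none, none => false
  let e' : Option (Fin m × Bool) → Option (Fin m × Bool) → Bool := fun x y =>
    match x, y with
    | none, some (k, _) => (E k).1.1.1
    | some (k, _), none => (E k).1.1.1
    | some (k, _), some (k', _) => (E k).2.1.1 && (E k').2.1.1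
    | none, none => false
  have he' : ∀ x y, e' x y = e' y x := by
    rintro (_ | ⟨k, c⟩) (_ | ⟨k', c'⟩)
    · rfl
    · rfl
    · rfl
    · exact Bool.and_comm _ _
  let b : Option (Fin m × Bool) → Bool := fun x =>
    match x with
    | none => false
    | some (k, false) => (E k).1.2
    | some (k, true) => (E k).2.2
  refine ⟨a, Sym2.lift ⟨e', he'⟩, b, ?_⟩
  intro σ h1 h2 h3
  obtain ⟨h0, hσ⟩ := spider_aut hm σ
  have key : ∀ i, σ (some (i, false)) = some (i, false) ∧ σ (some (i, true)) = some (i, true) := by
    intro i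
    obtain ⟨j, hj1, hj2⟩ := hσ i
    have hij : j = i := by
      apply E.injective
      have p1 := h2 none (some (i, false)) rfl
      have p2 := fun l => h1 l none (some (i, false)) rfl
      have p3 := fun l => h1 l (some (i, false)) none rfl
      have p4 := h3 (some (i, false))
      have q1 := h2 (some (i, false)) (some (i, true)) ⟨rfl, by simp⟩
      have q2 := fun l => h1 l (some (i, false)) (some (i, true)) ⟨rfl, by simp⟩
      have q3 := fun l => h1 l (some (i, true)) (some (i, false)) ⟨rfl, by simp⟩
      have q4 := h3 (some (i, true))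
      rw [h0, hj1] at p1
      rw [hj1] at p4
      rw [hj1, hj2] at q1
      rw [hj2] at q4
      simp only [h0, hj1] at p2 p3
      simp only [hj1, hj2] at q2 q3
      have r1 : (E j).2.1.1 = (E i).2.1.1 := by
        have : ((E j).2.1.1 && (E j).2.1.1) = ((E i).2.1.1 && (E i).2.1.1) := q1
        simpa using this
      exact Prod.ext (Prod.ext (Prod.ext p1 (Prod.ext (funext p2) (funext p3))) p4)
        (Prod.ext (Prod.ext r1 (Prod.ext (funext q2) (funext q3))) q4)
    rw [hij] at hj1 hj2
    exact ⟨hj1, hj2⟩
  apply RelIso.ext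
  rintro (_ | ⟨i, c⟩)
  · exact h0
  · cases c
    · exact (key i).1
    · exact (key i).2

theorem spider_T {m : ℕ} (hm : 2 ≤ m) : T (spider m) = {t | 1 ≤ t ∧ m ≤ 16 ^ (t + 1)} := by
  ext t
  have hcard : 3 ≤ Fintype.card (Option (Fin m × Bool)) := by
    rw [Fintype.card_option, Fintype.card_prod, Fintype.card_fin, Fintype.card_bool]
    omega
  rw [mem_T_iff (spider m) (spider_twinFree hm) (spider_noIso (by omega)) hcard]
  constructor
  · rintro ⟨h1, _, h3⟩
    exact ⟨h1, spider_le h3⟩
  · rintro ⟨h1, h2⟩
    have : Nontrivial (Fin m) := Fin.nontrivial_iff_two_le.2 hm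
    obtain ⟨i, j, hij⟩ := exists_pair_ne (Fin m)
    exact ⟨h1, ⟨legPerm (Equiv.swap i j), legPerm_ne _ i (by
      rw [Equiv.swap_apply_left]; exact hij.symm)⟩, spider_deco hm h2⟩

end Pool.Agent.MY12
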