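import Pool.Agent.MY12.CritGen

/-! The star with m edges subdivided once, with four pendant vertices at the end of each leg. -/

namespace Pool.Agent.MY12

open SimpleGraph

section

variable {m : ℕ}

theorem adj_cm (i : Fin m) : (spider4 m).Adj none (some (i, none)) := trivial

theorem adj_mc (i : Fin m) : (spider4 m).Adj (some (i, none)) none := trivial

theorem adj_ml (i : Fin m) (l : Fin 4) : (spider4 m).Adj (some (i, none)) (some (i, some l)) := rfl

theorem adj_lm (i : Fin m) (l : Fin 4) : (spider4 m).Adj (some (i, some l)) (some (i, none)) := rfl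

/-- the four kinds of arcs -/
theorem arc_ind {P : Option (Fin m × Option (Fin 4)) → Option (Fin m × Option (Fin 4)) → Prop}
    (h1 : ∀ i, P none (some (i, none))) (h2 : ∀ i, P (some (i, none)) none)
    (h3 : ∀ i l, P (some (i, none)) (some (i, some l)))
    (h4 : ∀ i l, P (some (i, some l)) (some (i, none))) :
    ∀ x y, (spider4 m).Adj x y → P x y := by
  rintro (_ | ⟨i, _ | c⟩) (_ | ⟨j, _ | c'⟩) h
  · exact absurd h (fun h => h)
  · exact h1 j
  · exact absurd h (fun h => h)
  · exact h2 i
  · exact absurd h (fun h => h)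
  · have h' : i = j := h
    subst h'
    exact h3 i c'
  · exact absurd h (fun h => h)
  · have h' : i = j := h
    subst h'
    exact h4 i c
  · exact absurd h (fun h => h)

theorem leaf_nb (i : Fin m) (l : Fin 4) (x : Option (Fin m × Option (Fin 4))) :
    (spider4 m).Adj (some (i, some l)) x ↔ x = some (i, none) := by
  constructor
  · intro h
    rcases x with _ | ⟨j, _ | c⟩
    · exact absurd h (fun h => h)
    · have h' : i = j := h
      rw [h']
    · exact absurd h (fun h => h)
  · rintro rfl
    exact adj_lm i l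

/-- automorphisms which permute the legs and the pendant vertices -/
def mk4 (π : Equiv.Perm (Fin m)) (ρ : Fin m → Equiv.Perm (Fin 4)) : spider4 m ≃g spider4 m where
  toFun x :=
    match x with
    | none => none
    | some (i, none) => some (π i, none)
    | some (i, some l) => some (π i, some (ρ i l))
  invFun x :=
    match x with
    | none => none
    | some (i, none) => some (π.symm i, none)
    | some (i, some l) => some (π.symm i, some ((ρ (π.symm i)).symm l))
  left_inv := by
    rintro (_ | ⟨i, _ | c⟩)
    · rfl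
    · simp
    · simp
  right_inv := by
    rintro (_ | ⟨i, _ | c⟩)
    · rfl
    · simp
    · simp
  map_rel_iff' := by
    rintro (_ | ⟨i, _ | c⟩) (_ | ⟨j, _ | c'⟩)
    · exact Iff.rfl
    · exact Iff.rfl
    · exact Iff.rfl
    · exact Iff.rfl
    · exact Iff.rfl
    · exact π.injective.eq_iff
    · exact Iff.rfl
    · exact π.injective.eq_iff
    · exact Iff.rfl

theorem mk4_c (π : Equiv.Perm (Fin m)) (ρ : Fin m → Equiv.Perm (Fin 4)) : mk4 π ρ none = none := rfl

theorem mk4_m (π : Equiv.Perm (Fin m)) (ρ : Fin m → Equiv.Perm (Fin 4)) (i : Fin m) :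
    mk4 π ρ (some (i, none)) = some (π i, none) := rfl

theorem mk4_l (π : Equiv.Perm (Fin m)) (ρ : Fin m → Equiv.Perm (Fin 4)) (i : Fin m) (l : Fin 4) :
    mk4 π ρ (some (i, some l)) = some (π i, some (ρ i l)) := rfl

theorem mk4_tw (π : Equiv.Perm (Fin m)) (ρ ρ' : Fin m → Equiv.Perm (Fin 4)) (u x) :
    (spider4 m).Adj (mk4 π ρ u) x ↔ (spider4 m).Adj (mk4 π ρ' u) x := by
  rcases u with _ | ⟨i, _ | c⟩
  · exact Iff.rfl
  · exact Iff.rfl
  · rw [mk4_l, mk4_l, leaf_nb, leaf_nb]

theorem spider4_noIso (hm : 1 ≤ m) : NoIso (spider4 m) := by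
  rintro (_ | ⟨i, _ | c⟩)
  · exact ⟨_, adj_cm ⟨0, hm⟩⟩
  · exact ⟨_, adj_mc i⟩
  · exact ⟨_, adj_lm i c⟩

theorem spider4_noCentre (hm : 2 ≤ m) : NoCentre (spider4 m) := by
  have : Nontrivial (Fin m) := Fin.nontrivial_iff_two_le.2 hm
  rintro (_ | ⟨i, c⟩)
  · exact ⟨_, _, adj_ml ⟨0, by omega⟩ 0, by simp, by simp⟩
  · obtain ⟨j, hj⟩ := exists_ne i
    refine ⟨_, _, adj_ml j 0, ?_, ?_⟩
    · intro h
      simp only [Option.some.injEq, Prod.mk.injEq] at h
      exact hj h.1
    · intro h
      simp only [Option.some.injEq, Prod.mk.injEq] at h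
      exact hj h.1

theorem spider4_card (hm : 2 ≤ m) : 3 ≤ Fintype.card (Option (Fin m × Option (Fin 4))) := by
  rw [Fintype.card_option, Fintype.card_prod, Fintype.card_fin, Fintype.card_option, Fintype.card_fin]
  omega

/-- automorphisms permute the legs -/
theorem spider4_aut (hm : 2 ≤ m) (σ : spider4 m ≃g spider4 m) :
    σ none = none ∧ ∀ i, ∃ j, σ (some (i, none)) = some (j, none) ∧
      ∀ l, ∃ l', σ (some (i, some l)) = some (j, some l') := by
  have h2 : Nontrivial (Fin m) := Fin.nontrivial_iff_two_le.2 hm
  let P : Option (Fin m × Option (Fin 4)) → Prop := fun x =>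
    (∃ y y', y ≠ y' ∧ (spider4 m).Adj x y ∧ (spider4 m).Adj x y') ∧
      ∀ y, (spider4 m).Adj x y → ∃ z, z ≠ x ∧ (spider4 m).Adj y z
  have hP0 : P none := by
    obtain ⟨i, j, hij⟩ := exists_pair_ne (Fin m)
    refine ⟨⟨some (i, none), some (j, none), by simpa using hij, adj_cm i, adj_cm j⟩, ?_⟩
    rintro (_ | ⟨k, _ | c⟩) hk
    · exact absurd hk (fun h => h)
    · exact ⟨_, by simp, adj_ml k 0⟩
    · exact absurd hk (fun h => h)
  have hP1 : ∀ i c, ¬ P (some (i, c)) := by
    rintro i (_ | c) ⟨⟨y, y', hne, h1, h2⟩, h3⟩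
    · obtain ⟨z, hz, hz2⟩ := h3 _ (adj_ml i 0)
      rw [leaf_nb] at hz2
      exact hz hz2
    · rw [leaf_nb] at h1 h2
      exact hne (h1.trans h2.symm)
  have hPσ : P (σ none) := by
    obtain ⟨⟨y, y', hne, h1, h2⟩, h3⟩ := hP0
    refine ⟨⟨σ y, σ y', fun h => hne (σ.injective h), σ.map_adj_iff.2 h1, σ.map_adj_iff.2 h2⟩, ?_⟩
    intro z hz
    obtain ⟨y₁, rfl⟩ := σ.surjective z
    obtain ⟨z', hz', hz2⟩ := h3 y₁ (σ.map_adj_iff.1 hz)
    exact ⟨σ z', fun h => hz' (σ.injective h), σ.map_adj_iff.2 hz2⟩
  have h0 : σ none = none := by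
    rcases hσ : σ none with _ | ⟨i, c⟩
    · rfl
    · rw [hσ] at hPσ
      exact absurd hPσ (hP1 i c)
  refine ⟨h0, ?_⟩
  intro i
  have h1 : (spider4 m).Adj (σ none) (σ (some (i, none))) := σ.map_adj_iff.2 (adj_cm i)
  rw [h0] at h1
  rcases hσ : σ (some (i, none)) with _ | ⟨j, _ | c⟩
  · rw [hσ] at h1
    exact absurd h1 (fun h => h)
  · refine ⟨j, rfl, ?_⟩
    intro l
    have h3 : (spider4 m).Adj (σ (some (i, none))) (σ (some (i, some l))) :=
      σ.map_adj_iff.2 (adj_ml i l)
    rw [hσ] at h3
    rcases hσ' : σ (some (i, some l)) with _ | ⟨k, _ | c⟩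
    · rw [← h0] at hσ'
      exact absurd (σ.injective hσ') (by simp)
    · rw [hσ'] at h3
      exact absurd h3 (fun h => h)
    · rw [hσ'] at h3
      have h4 : j = k := h3
      subst h4
      exact ⟨c, rfl⟩
  · rw [hσ] at h1
    exact absurd h1 (fun h => h)

theorem mid_tw {i j : Fin m} (h : Tw (spider4 m) (some (i, none)) (some (j, none))) : i = j := by
  have h1 := (h (some (i, some 0))).1 (adj_ml i 0)
  exact (show j = i from h1).symm

/-- the code of a leg -/
abbrev Leg4 (t : ℕ) := Lab t × Bool

theorem card_Leg4 (t : ℕ) : Fintype.card (Leg4 t) = 4 ^ (t + 1) := by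
  rw [Fintype.card_prod, card_Lab, Fintype.card_bool]
  ring

theorem spider4_deco {t : ℕ} (hm : 2 ≤ m) (h : m ≤ 4 ^ (t + 1)) : RigidT (spider4 m) t := by
  classical
  have hE : Nonempty (Fin m ↪ Leg4 t) := by
    apply Function.Embedding.nonempty_of_card_le
    rw [card_Leg4, Fintype.card_fin]
    exact h
  obtain ⟨E⟩ := hE
  have hB : Nonempty (Fin 4 ↪ Bool × Bool) := by
    apply Function.Embedding.nonempty_of_card_le
    simp
  obtain ⟨B⟩ := hB
  let a : Fin t → Option (Fin m × Option (Fin 4)) → Option (Fin m × Option (Fin 4)) → Bool :=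
    fun k x y =>
    match x, y with
    | none, some (i, _) => (E i).1.2.1 k
    | some (i, none), none => (E i).1.2.2 k
    | some (_, none), some (_, some l) => (B l).1
    | some (_, some l), some (_, none) => (B l).2
    | _, _ => false
  let e' : Option (Fin m × Option (Fin 4)) → Option (Fin m × Option (Fin 4)) → Bool := fun x y =>
    match x, y with
    | none, some (i, none) => (E i).1.1
    | some (i, none), none => (E i).1.1
    | some (_, none), some (_, some l) => (B l).1
    | some (_, some l), some (_, none) => (B l).1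
    | _, _ => false
  have he' : ∀ x y, e' x y = e' y x := by
    rintro (_ | ⟨i, _ | c⟩) (_ | ⟨j, _ | c'⟩) <;> rfl
  let b : Option (Fin m × Option (Fin 4)) → Bool := fun x =>
    match x with
    | none => false
    | some (i, none) => (E i).2
    | some (_, some l) => (B l).2
  refine ⟨a, Sym2.lift ⟨e', he'⟩, b, ?_⟩
  intro s hs h1 h2 h3
  choose hc π hπ ρ hρ using fun k => spider4_aut hm (s k)
  have hππ : ∀ k k' i, π k i = π k' i := by
    intro k k' i
    apply mid_tw
    intro x
    rw [← hπ, ← hπ]
    exact hs k k' _ x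
  have hpi : ∀ k i, π k i = i := by
    intro k i
    rw [hππ k (Fin.last t) i]
    apply E.injective
    refine Prod.ext (Prod.ext ?_ (Prod.ext (funext fun l => ?_) (funext fun l => ?_))) ?_
    · have := h2 none (some (i, none)) (adj_cm i)
      rw [hc, hπ, hππ 0 (Fin.last t)] at this
      exact this
    · have := h1 l none (some (i, none)) (adj_cm i)
      rw [hc, hπ, hππ _ (Fin.last t)] at this
      exact this
    · have := h1 l (some (i, none)) none (adj_mc i)
      rw [hc, hπ, hππ _ (Fin.last t)] at this
      exact this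
    · have := h3 (some (i, none))
      rw [hπ] at this
      exact this
  have hrho : ∀ k i l, ρ k i l = l := by
    intro k i l
    apply B.injective
    refine Prod.ext ?_ ?_
    · rcases Nat.eq_zero_or_pos (k : ℕ) with hk | hk
      · have hk0 : k = 0 := by ext; simpa using hk
        subst hk0
        have := h2 (some (i, none)) (some (i, some l)) (adj_ml i l)
        rw [hπ, hρ] at this
        exact this
      · have hk' := k.2
        have := h1 ⟨(k : ℕ) - 1, by omega⟩ (some (i, none)) (some (i, some l)) (adj_ml i l)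
        have hks : (⟨(k : ℕ) - 1, by omega⟩ : Fin t).succ = k := by
          ext
          simp only [Fin.val_succ]
          omega
        rw [hks, hπ, hρ] at this
        exact this
    · rcases Nat.lt_or_ge (k : ℕ) t with hk | hk
      · have := h1 ⟨(k : ℕ), hk⟩ (some (i, some l)) (some (i, none)) (adj_lm i l)
        have hks : (⟨(k : ℕ), hk⟩ : Fin t).castSucc = k := by
          ext
          rfl
        rw [hks, hπ, hρ] at this
        exact this
      · have hk' := k.2
        have hkl : k = Fin.last t := by
          ext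
          simp only [Fin.val_last]
          omega
        subst hkl
        have := h3 (some (i, some l))
        rw [hρ] at this
        exact this
  intro k
  apply RelIso.ext
  rintro (_ | ⟨i, _ | l⟩)
  · exact hc k
  · rw [hπ, hpi]
    rfl
  · rw [hρ, hpi, hrho]
    rfl

theorem spider4_le {t : ℕ} (h : RigidT (spider4 m) t) : m ≤ 4 ^ (t + 1) := by
  classical
  obtain ⟨a, e, b, h⟩ := h
  let code : Fin m → Leg4 t := fun i =>
    ((e s(none, some (i, none)), fun k => a k none (some (i, none)), fun k => a k (some (i, none)) none),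
      b (some (i, none)))
  let low : Fin (t + 1) → Fin m → Fin 4 → Bool := fun k i l =>
    if hk : (k : ℕ) = 0 then e s(some (i, none), some (i, some l))
    else a ⟨(k : ℕ) - 1, by have := k.2; omega⟩ (some (i, none)) (some (i, some l))
  let upp : Fin (t + 1) → Fin m → Fin 4 → Bool := fun k i l =>
    if hk : (k : ℕ) < t then a ⟨(k : ℕ), hk⟩ (some (i, some l)) (some (i, none))
    else b (some (i, some l))
  let pair : Fin (t + 1) → Fin m → Fin 4 → Bool × Bool := fun k i l => (low k i l, upp k i l)
  have hlow0 : ∀ i l, low 0 i l = e s(some (i, none), some (i, some l)) := fun i l => dif_pos rfl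
  have hlows : ∀ (k : Fin t) i l, low k.succ i l = a k (some (i, none)) (some (i, some l)) := by
    intro k i l
    have hne : ¬ ((k.succ : Fin (t + 1)) : ℕ) = 0 := by simp
    exact (dif_neg hne).trans rfl
  have hupps : ∀ (k : Fin t) i l, upp k.castSucc i l = a k (some (i, some l)) (some (i, none)) := by
    intro k i l
    have hlt : ((k.castSucc : Fin (t + 1)) : ℕ) < t := by
      rw [Fin.val_castSucc]
      exact k.2
    exact (dif_pos hlt).trans rfl
  have huppt : ∀ i l, upp (Fin.last t) i l = b (some (i, some l)) := by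
    intro i l
    have hge : ¬ ((Fin.last t : Fin (t + 1)) : ℕ) < t := by simp
    exact dif_neg hge
  have key : ∀ (π : Equiv.Perm (Fin m)) (ρ : Fin (t + 1) → Fin m → Equiv.Perm (Fin 4)),
      (∀ i, code (π i) = code i) → (∀ k i l, pair k (π i) (ρ k i l) = pair k i l) →
      ∀ k, mk4 π (ρ k) = RelIso.refl _ := by
    intro π ρ hcode hpair
    have f1 : ∀ i, e s(none, some (π i, none)) = e s(none, some (i, none)) := fun i =>
      congrArg (fun x : Leg4 t => x.1.1) (hcode i)
    have f2 : ∀ i k, a k none (some (π i, none)) = a k none (some (i, none)) := fun i k =>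
      congrFun (congrArg (fun x : Leg4 t => x.1.2.1) (hcode i)) k
    have f3 : ∀ i k, a k (some (π i, none)) none = a k (some (i, none)) none := fun i k =>
      congrFun (congrArg (fun x : Leg4 t => x.1.2.2) (hcode i)) k
    have f4 : ∀ i, b (some (π i, none)) = b (some (i, none)) := fun i =>
      congrArg (fun x : Leg4 t => x.2) (hcode i)
    have g1 : ∀ k i l, low k (π i) (ρ k i l) = low k i l := fun k i l =>
      congrArg Prod.fst (hpair k i l)
    have g2 : ∀ k i l, upp k (π i) (ρ k i l) = upp k i l := fun k i l =>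
      congrArg Prod.snd (hpair k i l)
    apply h (fun k => mk4 π (ρ k))
    · intro k k' u x
      exact mk4_tw π _ _ u x
    · intro k
      apply arc_ind
      · intro i
        exact f2 i k
      · intro i
        exact f3 i k
      · intro i l
        have := g1 k.succ i l
        rw [hlows, hlows] at this
        exact this
      · intro i l
        have := g2 k.castSucc i l
        rw [hupps, hupps] at this
        exact this
    · apply arc_ind
      · intro i
        exact f1 i
      · intro i
        have := f1 i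
        rw [Sym2.eq_swap, Sym2.eq_swap (a := none)] at this
        exact this
      · intro i l
        have := g1 0 i l
        rw [hlow0, hlow0] at this
        exact this
      · intro i l
        have := g1 0 i l
        rw [hlow0, hlow0, Sym2.eq_swap, Sym2.eq_swap (a := some (i, none))] at this
        exact this
    · rintro (_ | ⟨i, _ | l⟩)
      · rfl
      · exact f4 i
      · have := g2 (Fin.last t) i l
        rw [huppt, huppt] at this
        exact this
  have hinjp : ∀ k i, Function.Injective (pair k i) := by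
    intro k i l l' hll
    by_contra hne
    have h1 := key 1 (fun k' i' => if k' = k ∧ i' = i then Equiv.swap l l' else 1) (fun _ => rfl) (by
      intro k' i' l₁
      show pair k' i' ((if k' = k ∧ i' = i then Equiv.swap l l' else 1 : Equiv.Perm (Fin 4)) l₁)
        = pair k' i' l₁
      by_cases hc : k' = k ∧ i' = i
      · rw [if_pos hc, hc.1, hc.2]
        by_cases h1 : l₁ = l
        · rw [h1, Equiv.swap_apply_left, hll]
        · by_cases h2 : l₁ = l'
          · rw [h2, Equiv.swap_apply_right, hll]
          · rw [Equiv.swap_apply_of_ne_of_ne h1 h2]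
      · rw [if_neg hc]
        rfl) k
    have h2 := congrArg (fun f : spider4 m ≃g spider4 m => f (some (i, some l))) h1
    simp only [mk4_l, and_self, if_true, Equiv.swap_apply_left, RelIso.refl_apply,
      Option.some.injEq, Prod.mk.injEq] at h2
    exact hne h2.2.symm
  have hbij : ∀ k i, Function.Bijective (pair k i) := by
    intro k i
    rw [Fintype.bijective_iff_injective_and_card]
    exact ⟨hinjp k i, by simp⟩
  let E : Fin (t + 1) → Fin m → (Fin 4 ≃ Bool × Bool) := fun k i => Equiv.ofBijective _ (hbij k i)
  have hE : ∀ k i l, E k i l = pair k i l := fun k i l => rfl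
  have hinj : Function.Injective code := by
    intro i j hij
    by_contra hne
    have hcode : ∀ x, code (Equiv.swap i j x) = code x := by
      intro x
      by_cases h1 : x = i
      · rw [h1, Equiv.swap_apply_left, hij]
      · by_cases h2 : x = j
        · rw [h2, Equiv.swap_apply_right, hij]
        · rw [Equiv.swap_apply_of_ne_of_ne h1 h2]
    have h1 := key (Equiv.swap i j) (fun k x => (E k x).trans (E k (Equiv.swap i j x)).symm) hcode (by
      intro k x l
      rw [← hE, ← hE]
      simp) 0
    have h2 := congrArg (fun f : spider4 m ≃g spider4 m => f (some (i, none))) h1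
    simp only [mk4_m, Equiv.swap_apply_left, RelIso.refl_apply, Option.some.injEq,
      Prod.mk.injEq, and_true] at h2
    exact hne h2.symm
  have := Fintype.card_le_of_injective code hinj
  rwa [card_Leg4, Fintype.card_fin] at this

theorem spider4_T (hm : 2 ≤ m) : T (spider4 m) = {t | 1 ≤ t ∧ m ≤ 4 ^ (t + 1)} := by
  ext t
  constructor
  · rintro ⟨h1, h2⟩
    exact ⟨h1, spider4_le (rigidT_of_dist _ ((least_iff _).1 h2).1)⟩
  · rintro ⟨h1, h2⟩
    refine mem_T_of_dist (spider4 m) h1 ?_ (dist_of_rigidT _
      (struct_gen (spider4 m) (spider4_noIso (by omega)) (spider4_noCentre hm) (spider4_card hm) h1)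
      (spider4_deco hm h2))
    refine ⟨mk4 1 (fun _ => Equiv.swap 0 1), ?_⟩
    intro hh
    have h3 := congrArg (fun f : spider4 m ≃g spider4 m => f (some (⟨0, by omega⟩, some 0))) hh
    simp [mk4_l] at h3

end

end Pool.Agent.MY12
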