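import Pool.Agent.MY12.Empty
import Pool.Agent.MY12.Red
import Pool.Agent.MY12.CritGen

/-! Stars. -/

namespace Pool.Agent.MY12

open SimpleGraph

section

variable {V : Type*} [Fintype V] (G : SimpleGraph V) {t : ℕ}

omit [Fintype V] in
theorem star_adj (hI : NoIso G) (c : V) (hc : ∀ u v, G.Adj u v → u = c ∨ v = c) (v : V) :
    G.Adj c v ↔ v ≠ c := by
  constructor
  · intro h
    exact h.ne'
  · intro hv
    obtain ⟨x, hx⟩ := hI v
    rcases hc v x hx with h | h
    · exact absurd h hv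
    · rw [h] at hx
      exact hx.symm

omit [Fintype V] in
theorem star_leaf (c : V) (hc : ∀ u v, G.Adj u v → u = c ∨ v = c) (v : V) (hv : v ≠ c) (x : V)
    (hx : G.Adj v x) : x = c := by
  rcases hc v x hx with h | h
  · exact absurd h hv
  · exact h

theorem star_card (c : V) {l0 l1 : V}
    (h0 : G.Adj c l0) (h1 : G.Adj c l1) (h01 : l0 ≠ l1) : 3 ≤ Fintype.card V := by
  have h : Fintype.card V > 2 := Fintype.two_lt_card_iff.2 ⟨c, l0, l1, h0.ne, h1.ne, h01⟩
  omega

/-- The root of the generalized Mycielskian of a star is mapped to itself or to the last centre. -/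
theorem star_root (hI : NoIso G) (c : V) (hc : ∀ u v, G.Adj u v → u = c ∨ v = c) {l0 l1 : V}
    (h0 : G.Adj c l0) (h1 : G.Adj c l1) (h01 : l0 ≠ l1) (ht : 1 ≤ t) (φ : mu G t ≃g mu G t) :
    φ none = none ∨ φ none = some (c, Fin.last t) := by
  by_contra hcon
  push Not at hcon
  obtain ⟨hn, hl⟩ := hcon
  apply hn
  have h3 := star_card G c h0 h1 h01
  apply fix_w' G hI h3 ht φ
  intro u i hφ
  by_cases hu : u = c
  · exfalso
    subst hu
    have hi : (i : ℕ) < t := by
      rcases Nat.lt_or_ge (i : ℕ) t with hi | hi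
      · exact hi
      · exfalso
        apply hl
        rw [hφ]
        have : i = Fin.last t := by
          ext
          have := i.2
          simp only [Fin.val_last]
          omega
        rw [this]
    exact three_contra G hI h3 ht φ u i hi hφ (fun x v hx hv => star_leaf G u hc x hx.ne' v hv)
  · have hcu := (star_adj G hI c hc u).2 hu
    by_cases h : l0 = u
    · exact ⟨c, l1, hcu.symm, h1, fun h' => h01 (h.trans h'.symm)⟩
    · exact ⟨c, l0, hcu.symm, h0, h⟩

omit [Fintype V] in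
/-- Rigidity of a colouring of the generalized Mycielskian of a star which distinguishes the leaves of
each level, for automorphisms fixing the root. -/
theorem star_rigid (hI : NoIso G) (c : V) (hc : ∀ u v, G.Adj u v → u = c ∨ v = c) {l0 l1 : V}
    (h0 : G.Adj c l0) (h1 : G.Adj c l1) (h01 : l0 ≠ l1) (ht : 1 ≤ t)
    (f : Option (V × Fin (t + 1)) → Option (V × Fin (t + 1)) → Bool)
    (hpair : ∀ (j : Fin (t + 1)) l l', G.Adj c l → G.Adj c l' →
      f (some (l, j)) (dnn c j) = f (some (l', j)) (dnn c j) →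
      f (some (l, j)) (upn c j) = f (some (l', j)) (upn c j) → l = l')
    (φ : mu G t ≃g mu G t) (hφ : ∀ x y, (mu G t).Adj x y → f (φ x) (φ y) = f x y)
    (hw : φ none = none) : φ = RelIso.refl _ := by
  classical
  have hl : ∀ u : V, ∀ i : Fin (t + 1), ∃ v, φ (some (u, i)) = some (v, i) := fun u i =>
    level G hI (t - i) (by omega) φ hw u i (by have := i.2; omega)
  choose s hs using hl
  have hinj : ∀ i u v, s u i = s v i → u = v := by
    intro i u v h
    have h2 : φ (some (u, i)) = φ (some (v, i)) := by rw [hs, hs, h]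
    have h3 := φ.injective h2
    simp only [Option.some.injEq, Prod.mk.injEq, and_true] at h3
    exact h3
  -- the centres are fixed
  have hsc : ∀ j, s c j = c := by
    intro j
    by_contra hne
    obtain ⟨j', hj'⟩ : ∃ j' : Fin (t + 1), (j : ℕ) + 1 = j' ∨ (j' : ℕ) + 1 = j := by
      rcases Nat.lt_or_ge (j : ℕ) t with hj | hj
      · exact ⟨⟨(j : ℕ) + 1, by omega⟩, Or.inl rfl⟩
      · have := j.2
        exact ⟨⟨(j : ℕ) - 1, by omega⟩, Or.inr (by simp only; omega)⟩
    have key : ∀ l, G.Adj c l → s l j' = c := by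
      intro l hl'
      have h2 : (mu G t).Adj (some (c, j)) (some (l, j')) := ⟨hl', Or.inr hj'⟩
      have h3 := φ.map_adj_iff.2 h2
      rw [hs, hs] at h3
      exact star_leaf G c hc _ hne _ h3.1
    exact h01 (hinj j' l0 l1 ((key l0 h0).trans (key l1 h1).symm))
  have hφc : ∀ j, φ (some (c, j)) = some (c, j) := by
    intro j
    rw [hs, hsc]
  have hφup : ∀ j, φ (upn c j) = upn c j := by
    intro j
    unfold upn
    split_ifs with hh
    · exact hφc _
    · exact hw
  have hφdn : ∀ j, φ (dnn c j) = dnn c j := by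
    intro j
    unfold dnn
    exact hφc _
  apply RelIso.ext
  rintro (_ | ⟨u, j⟩)
  · exact hw
  · by_cases hu : u = c
    · rw [hu]
      exact hφc j
    · have hcu := (star_adj G hI c hc u).2 hu
      have hsu : s u j ≠ c := by
        intro hh
        exact hu (hinj j u c (by rw [hh, hsc]))
      have hcs := (star_adj G hI c hc _).2 hsu
      have e1 := hφ _ _ (adj_dnn G hcu.symm j)
      have e2 := hφ _ _ (adj_upn G hcu.symm j)
      rw [hs, hφdn] at e1
      rw [hs, hφup] at e2
      rw [hs, hpair j _ _ hcs hcu e1 e2]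
      rfl

/-- the colouring for two or three leaves: arcs -/
def sa (c l0 l1 l2 : V) (m3 : Prop) (t : ℕ) (k : Fin t) (u v : V) : Prop :=
  (u = c ∧ v = l1) ∨ (u ≠ c ∧ (k : ℕ) + 1 = t ∧ m3 ∧ u ≠ l0) ∨ (u ≠ c ∧ (k : ℕ) + 1 ≠ t ∧ u = l2)

open Classical in
/-- the colouring for two or three leaves -/
noncomputable def sf (c l0 l1 l2 : V) (m3 : Prop) (t : ℕ) :
    Option (V × Fin (t + 1)) → Option (V × Fin (t + 1)) → Bool :=
  col (fun k u v => decide (sa c l0 l1 l2 m3 t k u v))
    (Sym2.lift ⟨fun u v => decide (u = l1 ∨ v = l1), fun u v => by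
      rw [decide_eq_decide]
      exact or_comm⟩) (fun u => decide (u = l0))

omit [Fintype V] in
theorem sf_dn (c l0 l1 l2 : V) (m3 : Prop) (h1 : l1 ≠ c) (l : V) (j : Fin (t + 1)) :
    sf c l0 l1 l2 m3 t (some (l, j)) (dnn c j) = true ↔ l = l1 := by
  classical
  have hj := j.2
  unfold dnn sf col
  simp only
  rcases Nat.eq_zero_or_pos (j : ℕ) with hj0 | hj0
  · rw [dif_neg (by omega), dif_neg (by omega), Sym2.lift_mk, decide_eq_true_iff]
    constructor
    · rintro (h | h)
      · exact h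
      · exact absurd h.symm h1
    · intro h
      exact Or.inl h
  · rw [dif_neg (by omega), dif_pos (by omega), decide_eq_true_iff]
    unfold sa
    constructor
    · rintro (⟨_, h⟩ | ⟨h, _⟩ | ⟨h, _⟩)
      · exact h
      · exact absurd rfl h
      · exact absurd rfl h
    · intro h
      exact Or.inl ⟨rfl, h⟩

omit [Fintype V] in
theorem sf_up (c l0 l1 l2 : V) (m3 : Prop) (l : V) (hl : l ≠ c) (j : Fin (t + 1)) :
    sf c l0 l1 l2 m3 t (some (l, j)) (upn c j) = true ↔
      ((j : ℕ) = t ∧ l = l0) ∨ ((j : ℕ) + 1 = t ∧ m3 ∧ l ≠ l0) ∨ ((j : ℕ) + 1 < t ∧ l = l2) := by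
  classical
  have hj := j.2
  unfold upn
  split_ifs with h
  · unfold sf col
    simp only
    rw [dif_pos trivial, decide_eq_true_iff]
    unfold sa
    simp only
    constructor
    · rintro (⟨h1, _⟩ | ⟨_, h1, h2, h3⟩ | ⟨_, h1, h2⟩)
      · exact absurd h1 hl
      · exact Or.inr (Or.inl ⟨h1, h2, h3⟩)
      · exact Or.inr (Or.inr ⟨by omega, h2⟩)
    · rintro (⟨h1, _⟩ | ⟨h1, h2, h3⟩ | ⟨h1, h2⟩)
      · omega
      · exact Or.inr (Or.inl ⟨hl, h1, h2, h3⟩)
      · exact Or.inr (Or.inr ⟨hl, by omega, h2⟩)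
  · unfold sf col
    simp only
    rw [decide_eq_true_iff]
    constructor
    · intro h1
      exact Or.inl ⟨by omega, h1⟩
    · rintro (⟨_, h1⟩ | ⟨h1, _⟩ | ⟨h1, _⟩)
      · exact h1
      · omega
      · omega

omit [Fintype V] in
theorem sf_root (c l0 l1 l2 : V) (m3 : Prop) (x : Option (V × Fin (t + 1)))
    (hx : (mu G t).Adj none x) (h : sf c l0 l1 l2 m3 t none x = true) :
    x = some (l0, Fin.last t) := by
  classical
  rcases x with _ | ⟨u, j⟩
  · exact absurd hx (fun h => h)
  · have hj : (j : ℕ) = t := hx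
    have hj' : j = Fin.last t := by ext; simpa using hj
    have hu : u = l0 := by
      have h' := h
      unfold sf col at h'
      simp only [decide_eq_true_iff] at h'
      exact h'
    rw [hj', hu]

omit [Fintype V] in
theorem sf_top (c l0 l1 l2 : V) (m3 : Prop) (h0 : l0 ≠ c) (ht : 1 ≤ t)
    (x : Option (V × Fin (t + 1)))
    (hx : (mu G t).Adj (some (c, Fin.last t)) x)
    (h : sf c l0 l1 l2 m3 t (some (c, Fin.last t)) x = true) : m3 := by
  classical
  rcases x with _ | ⟨u, j⟩
  · exfalso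
    have h' := h
    unfold sf col at h'
    simp only [decide_eq_true_iff] at h'
    exact h0 h'.symm
  · have hj := j.2
    have hl := hx.2
    simp only [Fin.val_last] at hl
    have hjt : (j : ℕ) + 1 = t := by omega
    have hj' : j = ⟨t - 1, by omega⟩ := by
      ext
      simp only
      omega
    have h' : sf c l0 l1 l2 m3 t (some (u, j)) (upn c j) = true := by
      have : upn c j = some (c, Fin.last t) := by
        unfold upn
        rw [dif_pos (by omega)]
        congr 2
        exact Fin.ext (by simp only [Fin.val_last]; omega)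
      rw [this]
      have hs : sf c l0 l1 l2 m3 t (some (u, j)) (some (c, Fin.last t))
          = sf c l0 l1 l2 m3 t (some (c, Fin.last t)) (some (u, j)) := col_symm _ _ _ _ _
      rw [hs]
      exact h
    have hu : u ≠ c := hx.1.ne'
    rcases (sf_up c l0 l1 l2 m3 u hu j).1 h' with ⟨h1, _⟩ | ⟨_, h1, _⟩ | ⟨h1, _⟩
    · omega
    · exact h1
    · omega

theorem star_dist (hI : NoIso G) (c : V) (hc : ∀ u v, G.Adj u v → u = c ∨ v = c) (l0 l1 l2 : V)
    (m3 : Prop) (h0 : G.Adj c l0) (h1 : G.Adj c l1) (h01 : l0 ≠ l1)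
    (h2 : m3 → G.Adj c l2 ∧ l2 ≠ l0 ∧ l2 ≠ l1) (h2' : l2 ≠ c → m3)
    (hall : ∀ l, G.Adj c l → l = l0 ∨ l = l1 ∨ l = l2) (ht : 1 ≤ t) : EdgeDist (mu G t) 2 := by
  classical
  rw [edgeDist_two_iff]
  have hsymm : ∀ x y, sf c l0 l1 l2 m3 t x y = sf c l0 l1 l2 m3 t y x := col_symm _ _ _
  refine ⟨sf c l0 l1 l2 m3 t, hsymm, ?_⟩
  intro φ hφ
  refine star_rigid G hI c hc h0 h1 h01 ht (sf c l0 l1 l2 m3 t) ?_ φ hφ ?_
  · -- pairs
    have key : ∀ (j : Fin (t + 1)) l l', G.Adj c l → G.Adj c l' → l = l0 → l' = l2 →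
        sf c l0 l1 l2 m3 t (some (l, j)) (upn c j) = sf c l0 l1 l2 m3 t (some (l', j)) (upn c j) →
        l = l' := by
      intro j l l' hl hl' e e' hup
      exfalso
      have hm := h2' (e' ▸ hl'.ne')
      obtain ⟨_, h20, h21⟩ := h2 hm
      have hj := j.2
      have e3 := sf_up (t := t) c l0 l1 l2 m3 l hl.ne' j
      have e4 := sf_up (t := t) c l0 l1 l2 m3 l' hl'.ne' j
      rw [hup, e4, e, e'] at e3
      rcases Nat.lt_or_ge (j : ℕ) t with hj1 | hj1
      · have : ((j : ℕ) = t ∧ l2 = l0) ∨ ((j : ℕ) + 1 = t ∧ m3 ∧ l2 ≠ l0) ∨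
            ((j : ℕ) + 1 < t ∧ l2 = l2) := by
          rcases Nat.lt_or_ge ((j : ℕ) + 1) t with hj2 | hj2
          · exact Or.inr (Or.inr ⟨hj2, rfl⟩)
          · exact Or.inr (Or.inl ⟨by omega, hm, h20⟩)
        rcases e3.1 this with ⟨hh, _⟩ | ⟨_, _, hh⟩ | ⟨_, hh⟩
        · omega
        · exact hh rfl
        · exact h20 hh.symm
      · have : ((j : ℕ) = t ∧ l0 = l0) ∨ ((j : ℕ) + 1 = t ∧ m3 ∧ l0 ≠ l0) ∨
            ((j : ℕ) + 1 < t ∧ l0 = l2) := Or.inl ⟨by omega, rfl⟩
        rcases e3.2 this with ⟨_, hh⟩ | ⟨hh, _⟩ | ⟨hh, _⟩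
        · exact h20 hh
        · omega
        · omega
    intro j l l' hl hl' hdn hup
    have e1 := sf_dn (t := t) c l0 l1 l2 m3 h1.ne' l j
    have e2 := sf_dn (t := t) c l0 l1 l2 m3 h1.ne' l' j
    rw [hdn, e2] at e1
    rcases hall l hl with h | h | h <;> rcases hall l' hl' with h' | h' | h'
    · rw [h, h']
    · exact (e1.1 h').trans h'.symm
    · exact key j l l' hl hl' h h' hup
    · exact h.trans (e1.2 h).symm
    · rw [h, h']
    · exact h.trans (e1.2 h).symm
    · exact (key j l' l hl' hl h' h hup.symm).symm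
    · exact (e1.1 h').trans h'.symm
    · rw [h, h']
  · -- the root
    rcases star_root G hI c hc h0 h1 h01 ht φ with h | h
    · exact h
    exfalso
    have hroot : (mu G t).Adj none (some (l0, Fin.last t)) := by
      show ((Fin.last t : Fin (t + 1)) : ℕ) = t
      simp
    have hm : m3 := by
      have e1 := hφ _ _ hroot
      have e2 := φ.map_adj_iff.2 hroot
      rw [h] at e1 e2
      have e3 : sf c l0 l1 l2 m3 t none (some (l0, Fin.last t)) = true := by
        unfold sf col
        simp only [decide_true]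
      rw [e3] at e1
      exact sf_top G c l0 l1 l2 m3 h0.ne' ht _ e2 e1
    obtain ⟨h2c, h20, h21⟩ := h2 hm
    have hp : t - 1 < t + 1 := by omega
    have hup : upn c (⟨t - 1, hp⟩ : Fin (t + 1)) = some (c, Fin.last t) := by
      unfold upn
      rw [dif_pos (by simp only; omega)]
      congr 2
      exact Fin.ext (by simp only [Fin.val_last]; omega)
    have key : ∀ l, G.Adj c l → l ≠ l0 → some (l, ⟨t - 1, hp⟩) = φ (some (l0, Fin.last t)) := by
      intro l hl hne
      have e1 := adj_upn G hl.symm (⟨t - 1, hp⟩ : Fin (t + 1))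
      have e2 : sf c l0 l1 l2 m3 t (some (l, ⟨t - 1, hp⟩)) (upn c ⟨t - 1, hp⟩) = true :=
        (sf_up c l0 l1 l2 m3 l hl.ne' _).2 (Or.inr (Or.inl ⟨by simp only; omega, hm, hne⟩))
      rw [hup] at e1 e2
      obtain ⟨x, hx⟩ := φ.surjective (some (l, ⟨t - 1, hp⟩))
      rw [← hx, ← h] at e1 e2
      have e3 := φ.map_adj_iff.1 e1
      rw [hφ _ _ e3, hsymm] at e2
      rw [← hx]
      rw [sf_root G c l0 l1 l2 m3 x e3.symm e2]
    have := (key l1 h1 h01.symm).trans (key l2 h2c h20).symm
    simp only [Option.some.injEq, Prod.mk.injEq, and_true] at this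
    exact h21 this.symm

theorem star23 (hI : NoIso G) (c : V) (hc : ∀ u v, G.Adj u v → u = c ∨ v = c)
    (hm : (G.neighborSet c).ncard = 2 ∨ (G.neighborSet c).ncard = 3) : T G = {t | 1 ≤ t} := by
  classical
  obtain ⟨l0, l1, l2, m3, h0, h1, h01, h2, h2', hall⟩ : ∃ (l0 l1 l2 : V) (m3 : Prop),
      G.Adj c l0 ∧ G.Adj c l1 ∧ l0 ≠ l1 ∧ (m3 → G.Adj c l2 ∧ l2 ≠ l0 ∧ l2 ≠ l1) ∧
      (l2 ≠ c → m3) ∧ ∀ l, G.Adj c l → l = l0 ∨ l = l1 ∨ l = l2 := by
    rcases hm with hm | hm
    · obtain ⟨x, y, hxy, hS⟩ := Set.ncard_eq_two.1 hm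
      have hmem : ∀ l, G.Adj c l ↔ l = x ∨ l = y := by
        intro l
        rw [← SimpleGraph.mem_neighborSet, hS]
        simp
      refine ⟨x, y, c, False, (hmem x).2 (Or.inl rfl), (hmem y).2 (Or.inr rfl), hxy, False.elim,
        fun h => absurd rfl h, ?_⟩
      intro l hl
      rcases (hmem l).1 hl with h | h
      · exact Or.inl h
      · exact Or.inr (Or.inl h)
    · obtain ⟨x, y, z, hxy, hxz, hyz, hS⟩ := Set.ncard_eq_three.1 hm
      have hmem : ∀ l, G.Adj c l ↔ l = x ∨ l = y ∨ l = z := by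
        intro l
        rw [← SimpleGraph.mem_neighborSet, hS]
        simp
      exact ⟨x, y, z, True, (hmem x).2 (Or.inl rfl), (hmem y).2 (Or.inr (Or.inl rfl)), hxy,
        fun _ => ⟨(hmem z).2 (Or.inr (Or.inr rfl)), hxz.symm, hyz.symm⟩, fun _ => trivial,
        fun l hl => (hmem l).1 hl⟩
  apply Set.eq_of_subset_of_subset
  · intro t ht
    exact ht.1
  · intro t ht
    refine mem_T_of_dist G ht ?_ (star_dist G hI c hc l0 l1 l2 m3 h0 h1 h01 h2 h2' hall ht)
    have htw : ∀ z, G.Adj l0 z ↔ G.Adj l1 z := by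
      intro z
      constructor
      · intro hz
        rw [star_leaf G c hc l0 h0.ne' z hz]
        exact h1.symm
      · intro hz
        rw [star_leaf G c hc l1 h1.ne' z hz]
        exact h0.symm
    refine ⟨swapIso G htw, ?_⟩
    intro hh
    have := congrArg (fun ψ : G ≃g G => ψ l0) hh
    simp only [swapIso_apply, Equiv.swap_apply_left, RelIso.refl_apply] at this
    exact h01 this.symm

theorem star5 (_hI : NoIso G) (c : V) (hc : ∀ u v, G.Adj u v → u = c ∨ v = c)
    (hm : 5 ≤ (G.neighborSet c).ncard) : T G = ∅ := by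
  classical
  have hne : (G.neighborSet c).Nonempty := by
    apply Set.nonempty_of_ncard_ne_zero
    omega
  obtain ⟨l, hl⟩ := hne
  have hl' : G.Adj c l := hl
  rw [Set.eq_empty_iff_forall_notMem]
  rintro t ⟨ht, hT⟩
  refine no_dist G l ?_ ht hT.1
  have e1 : G.neighborSet l = {c} := by
    ext x
    rw [SimpleGraph.mem_neighborSet, Set.mem_singleton_iff]
    constructor
    · exact star_leaf G c hc l hl'.ne' x
    · rintro rfl
      exact hl'.symm
  have e2 : G.neighborSet c ⊆ {v | ∀ x, G.Adj l x ↔ G.Adj v x} := by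
    intro v hv x
    have hv' : G.Adj c v := hv
    constructor
    · intro hx
      rw [star_leaf G c hc l hl'.ne' x hx]
      exact hv'.symm
    · intro hx
      rw [star_leaf G c hc v hv'.ne' x hx]
      exact hl'.symm
  have e3 := Set.ncard_le_ncard e2 (Set.toFinite _)
  rw [e1, Set.ncard_singleton]
  omega

end

end Pool.Agent.MY12
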