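import Pool.Agent.MY12.Star

/-! The star with one edge. -/

namespace Pool.Agent.MY12

open SimpleGraph

open Classical in
/-- a colouring of the generalized Mycielskian of K_2 -/
noncomputable def kf {V : Type*} (c : V) (t : ℕ) :
    Option (V × Fin (t + 1)) → Option (V × Fin (t + 1)) → Bool
  | none, none => true
  | none, some _ => true
  | some _, none => true
  | some (u, i), some (v, j) => decide (((i : ℕ) + 1 = j ∧ (i : ℕ) + 2 = t ∧ u = c) ∨
      ((j : ℕ) + 1 = i ∧ (j : ℕ) + 2 = t ∧ v = c))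

theorem kf_symm {V : Type*} (c : V) (t : ℕ) (x y) : kf c t x y = kf c t y x := by
  rcases x with _ | ⟨u, i⟩ <;> rcases y with _ | ⟨v, j⟩
  · rfl
  · rfl
  · rfl
  · simp only [kf, decide_eq_decide]
    exact or_comm

theorem kf_some {V : Type*} (c : V) (t : ℕ) (u v : V) (i j : Fin (t + 1)) :
    kf c t (some (u, i)) (some (v, j)) = true ↔ ((i : ℕ) + 1 = j ∧ (i : ℕ) + 2 = t ∧ u = c) ∨
      ((j : ℕ) + 1 = i ∧ (j : ℕ) + 2 = t ∧ v = c) := by
  simp only [kf, decide_eq_true_iff]

section

variable {V : Type*} (G : SimpleGraph V) (c l : V)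

theorem k2_one {t : ℕ} (hcl : c ≠ l) (hV : ∀ v, v = c ∨ v = l) (hA : ∀ a b, G.Adj a b ↔ a ≠ b)
    (u : V) (i : Fin (t + 1)) (x y : Option (V × Fin (t + 1)))
    (hx : (mu G t).Adj (some (u, i)) x) (hy : (mu G t).Adj (some (u, i)) y)
    (hx' : kf c t (some (u, i)) x = true) (hy' : kf c t (some (u, i)) y = true) : x = y := by
  rcases x with _ | ⟨v, j⟩ <;> rcases y with _ | ⟨v', j'⟩
  · rfl
  · exfalso
    have hi : (i : ℕ) = t := hx
    have := j'.2
    rcases (kf_some c t u v' i j').1 hy' with ⟨h1, h2, _⟩ | ⟨h1, h2, _⟩ <;> omega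
  · exfalso
    have hi : (i : ℕ) = t := hy
    have := j.2
    rcases (kf_some c t u v i j).1 hx' with ⟨h1, h2, _⟩ | ⟨h1, h2, _⟩ <;> omega
  · have h1 : u ≠ v := (hA _ _).1 hx.1
    have h2 : u ≠ v' := (hA _ _).1 hy.1
    have hv : v = v' := by
      rcases hV u with h | h <;> rcases hV v with h' | h' <;> rcases hV v' with h'' | h'' <;>
        subst h h' <;> first | rfl | exact h''.symm | exact absurd rfl h1 | exact absurd h''.symm h2
    have hj : j = j' := by
      ext
      rcases (kf_some c t u v i j).1 hx' with ⟨h1, h2, _⟩ | ⟨h1, h2, _⟩ <;>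
        rcases (kf_some c t u v' i j').1 hy' with ⟨h3, h4, _⟩ | ⟨h3, h4, _⟩ <;> omega
    rw [hv, hj]

theorem k2_dist {t : ℕ} (hcl : c ≠ l) (hV : ∀ v, v = c ∨ v = l) (hA : ∀ a b, G.Adj a b ↔ a ≠ b)
    (ht : 2 ≤ t) : EdgeDist (mu G t) 2 := by
  classical
  have hI : NoIso G := by
    intro u
    rcases hV u with h | h
    · exact ⟨l, (hA _ _).2 (by rw [h]; exact hcl)⟩
    · exact ⟨c, (hA _ _).2 (by rw [h]; exact hcl.symm)⟩
  have two : ∀ x y z : V, x ≠ z → y ≠ z → x = y := by
    intro x y z h1 h2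
    rcases hV z with hz | hz
    · have e1 : x = l := (hV x).resolve_left (fun h => h1 (h.trans hz.symm))
      have e2 : y = l := (hV y).resolve_left (fun h => h2 (h.trans hz.symm))
      rw [e1, e2]
    · have e1 : x = c := (hV x).resolve_right (fun h => h1 (h.trans hz.symm))
      have e2 : y = c := (hV y).resolve_right (fun h => h2 (h.trans hz.symm))
      rw [e1, e2]
  rw [edgeDist_two_iff]
  refine ⟨kf c t, kf_symm c t, ?_⟩
  intro φ hφ
  have hroot : ∀ v, (mu G t).Adj none (some (v, Fin.last t)) := by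
    intro v
    show ((Fin.last t : Fin (t + 1)) : ℕ) = t
    simp
  have hw : φ none = none := by
    rcases hn : φ none with _ | ⟨u, i⟩
    · rfl
    · exfalso
      have key : ∀ v, (mu G t).Adj (some (u, i)) (φ (some (v, Fin.last t))) ∧
          kf c t (some (u, i)) (φ (some (v, Fin.last t))) = true := by
        intro v
        rw [← hn]
        refine ⟨φ.map_adj_iff.2 (hroot v), ?_⟩
        rw [hφ _ _ (hroot v)]
        rfl
      have h1 := k2_one G c l hcl hV hA u i _ _ (key c).1 (key l).1 (key c).2 (key l).2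
      have h2 := φ.injective h1
      simp only [Option.some.injEq, Prod.mk.injEq, and_true] at h2
      exact hcl h2
  have hl : ∀ u : V, ∀ i : Fin (t + 1), ∃ v, φ (some (u, i)) = some (v, i) := fun u i =>
    level G hI (t - i) (by omega) φ hw u i (by have := i.2; omega)
  choose s hs using hl
  have hinj : ∀ i, s l i ≠ s c i := by
    intro i h
    have h2 : φ (some (l, i)) = φ (some (c, i)) := by rw [hs, hs, h]
    have h3 := φ.injective h2
    simp only [Option.some.injEq, Prod.mk.injEq, and_true] at h3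
    exact hcl h3.symm
  have hstep : ∀ i j : Fin (t + 1), (i : ℕ) + 1 = j → s l j = s l i ∧ s c j = s c i := by
    intro i j hij
    constructor
    · apply two _ _ (s c i) _ (hinj i)
      have h2 : (mu G t).Adj (some (c, i)) (some (l, j)) := ⟨(hA _ _).2 hcl, Or.inr (Or.inl hij)⟩
      have h3 := φ.map_adj_iff.2 h2
      rw [hs, hs] at h3
      exact ((hA _ _).1 h3.1).symm
    · apply two _ _ (s l i) _ (hinj i).symm
      have h2 : (mu G t).Adj (some (l, i)) (some (c, j)) :=
        ⟨(hA _ _).2 hcl.symm, Or.inr (Or.inl hij)⟩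
      have h3 := φ.map_adj_iff.2 h2
      rw [hs, hs] at h3
      exact ((hA _ _).1 h3.1).symm
  have hall : ∀ n : ℕ, ∀ hn : n < t + 1, s l ⟨n, hn⟩ = s l 0 ∧ s c ⟨n, hn⟩ = s c 0 := by
    intro n
    induction n with
    | zero =>
      intro hn
      exact ⟨rfl, rfl⟩
    | succ n ih =>
      intro hn
      obtain ⟨h1, h2⟩ := ih (by omega)
      obtain ⟨h3, h4⟩ := hstep ⟨n, by omega⟩ ⟨n + 1, hn⟩ rfl
      exact ⟨h3.trans h1, h4.trans h2⟩
  have hc0 : s c 0 = c := by
    rcases hV (s c 0) with h | h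
    · exact h
    exfalso
    have hp : t - 2 < t + 1 := by omega
    have hq : t - 1 < t + 1 := by omega
    have h1 : (mu G t).Adj (some (c, ⟨t - 2, hp⟩)) (some (l, ⟨t - 1, hq⟩)) :=
      ⟨(hA _ _).2 hcl, Or.inr (Or.inl (by simp only; omega))⟩
    have h2 := hφ _ _ h1
    rw [hs, hs, (hall _ hp).2, h] at h2
    have h3 : kf c t (some (c, ⟨t - 2, hp⟩)) (some (l, ⟨t - 1, hq⟩)) = true :=
      (kf_some _ _ _ _ _ _).2 (Or.inl ⟨by simp only; omega, by simp only; omega, rfl⟩)
    rw [h3, kf_some] at h2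
    rcases h2 with ⟨_, _, h4⟩ | ⟨h4, _, _⟩
    · exact hcl h4.symm
    · simp only at h4
      omega
  have hl0 : s l 0 = l := by
    apply two _ _ c
    · rw [← hc0]
      exact hinj 0
    · exact hcl.symm
  apply RelIso.ext
  rintro (_ | ⟨u, i⟩)
  · exact hw
  · rw [hs]
    have h1 := hall i i.2
    rcases hV u with h | h
    · rw [h]
      have := h1.2
      rw [Fin.eta] at this
      rw [this, hc0]
      rfl
    · rw [h]
      have := h1.1
      rw [Fin.eta] at this
      rw [this, hl0]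
      rfl

/-- the cycle -/
def c5 (i : Fin 5) : Option (V × Fin 2) :=
  match i with
  | 0 => none
  | 1 => some (c, 1)
  | 2 => some (l, 0)
  | 3 => some (c, 0)
  | 4 => some (l, 1)

theorem c5_bij (hcl : c ≠ l) (hV : ∀ v, v = c ∨ v = l) : Function.Bijective (c5 c l) := by
  constructor
  · intro i j h
    have h' := hcl.symm
    fin_cases i <;> fin_cases j <;> simp_all [c5]
  · rintro (_ | ⟨v, i⟩)
    · exact ⟨0, rfl⟩
    · rcases hV v with rfl | rfl <;> fin_cases i
      · exact ⟨3, rfl⟩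
      · exact ⟨1, rfl⟩
      · exact ⟨2, rfl⟩
      · exact ⟨4, rfl⟩

theorem c5_adj (hcl : c ≠ l) (hA : ∀ a b, G.Adj a b ↔ a ≠ b) (i j : Fin 5) :
    (mu G 1).Adj (c5 c l i) (c5 c l j) ↔ (j = i + 1 ∨ i = j + 1) := by
  have h' := hcl.symm
  fin_cases i <;> fin_cases j <;> simp [c5, mu, hA, hcl, h']

theorem c5_ref (e : Fin 5 → Bool) : ∃ k : Fin 5, ∀ i, e (k - 1 - i) = e i := by
  revert e
  decide

theorem c5_sub (k i j : Fin 5) :
    (k - j = k - i + 1 ∨ k - i = k - j + 1) ↔ (j = i + 1 ∨ i = j + 1) := by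
  revert k i j
  decide

theorem c5_mv (k : Fin 5) : ∃ i : Fin 5, k - i ≠ i := by
  revert k
  decide

theorem c5_not (hcl : c ≠ l) (hV : ∀ v, v = c ∨ v = l) (hA : ∀ a b, G.Adj a b ↔ a ≠ b) :
    ¬ EdgeDist (mu G 1) 2 := by
  classical
  rw [edgeDist_two_iff]
  rintro ⟨f, hf, hφ⟩
  let P : Fin 5 ≃ Option (V × Fin 2) := Equiv.ofBijective _ (c5_bij c l hcl hV)
  have hPa : ∀ i j, (mu G 1).Adj (P i) (P j) ↔ (j = i + 1 ∨ i = j + 1) := c5_adj G c l hcl hA
  obtain ⟨k, hk⟩ := c5_ref (fun i => f (P i) (P (i + 1)))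
  let φ : mu G 1 ≃g mu G 1 :=
    { toEquiv := (P.symm.trans (Equiv.subLeft k)).trans P
      map_rel_iff' := by
        intro a b
        obtain ⟨i, rfl⟩ := P.surjective a
        obtain ⟨j, rfl⟩ := P.surjective b
        simp only [Equiv.trans_apply, Equiv.symm_apply_apply, Equiv.subLeft_apply]
        rw [hPa, hPa]
        exact c5_sub k i j }
  have hφP : ∀ i, φ (P i) = P (k - i) := by
    intro i
    show P (Equiv.subLeft k (P.symm (P i))) = _
    rw [Equiv.symm_apply_apply, Equiv.subLeft_apply]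
  have hid : φ = RelIso.refl _ := by
    apply hφ
    intro x y hxy
    obtain ⟨i, rfl⟩ := P.surjective x
    obtain ⟨j, rfl⟩ := P.surjective y
    rw [hφP, hφP]
    rw [hPa] at hxy
    have e1 : ∀ i : Fin 5, f (P (k - i)) (P (k - (i + 1))) = f (P i) (P (i + 1)) := by
      intro i
      have := hk i
      have h1 : k - 1 - i + 1 = k - i := by abel
      have h2 : k - 1 - i = k - (i + 1) := by abel
      rw [h1, h2] at this
      rw [hf]
      exact this
    rcases hxy with rfl | rfl
    · exact e1 i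
    · rw [hf, hf (P (j + 1))]
      exact e1 j
  obtain ⟨i, hi⟩ := c5_mv k
  have h2 := hφP i
  rw [hid, RelIso.refl_apply] at h2
  exact hi (P.injective h2).symm

/-- the exchange of the two vertices -/
def k2Swap [DecidableEq V] (hA : ∀ a b, G.Adj a b ↔ a ≠ b) : G ≃g G where
  toEquiv := Equiv.swap c l
  map_rel_iff' := by
    intro a b
    rw [hA, hA]
    exact (Equiv.swap c l).injective.ne_iff

end

theorem star1 {V : Type*} [Fintype V] (G : SimpleGraph V) (hI : NoIso G) (c : V)
    (hc : ∀ u v, G.Adj u v → u = c ∨ v = c) (hm : (G.neighborSet c).ncard = 1) :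
    T G = {t | 2 ≤ t} := by
  classical
  obtain ⟨l, hl⟩ := Set.ncard_eq_one.1 hm
  have hmem : ∀ v, G.Adj c v ↔ v = l := by
    intro v
    rw [← SimpleGraph.mem_neighborSet, hl]
    simp
  have hcl : c ≠ l := ((hmem l).2 rfl).ne
  have hV : ∀ v, v = c ∨ v = l := by
    intro v
    by_cases h : v = c
    · exact Or.inl h
    · exact Or.inr ((hmem v).1 ((star_adj G hI c hc v).2 h))
  have hcl' : G.Adj c l := (hmem l).2 rfl
  have hA : ∀ a b, G.Adj a b ↔ a ≠ b := by
    intro a b
    constructor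
    · exact fun h => h.ne
    · intro h
      rcases hV a with rfl | rfl <;> rcases hV b with rfl | rfl
      · exact absurd rfl h
      · exact hcl'
      · exact hcl'.symm
      · exact absurd rfl h
  apply Set.eq_of_subset_of_subset
  · rintro t ⟨ht, hT⟩
    show 2 ≤ t
    by_contra hcon
    have : t = 1 := by omega
    subst this
    exact c5_not G c l hcl hV hA hT.1
  · intro t ht
    have ht2 : 2 ≤ t := ht
    refine mem_T_of_dist G (by omega) ⟨k2Swap G c l hA, ?_⟩ (k2_dist G c l hcl hV hA ht2)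
    intro hh
    have := congrArg (fun ψ : G ≃g G => ψ c) hh
    have h2 : k2Swap G c l hA c = l := Equiv.swap_apply_left c l
    simp only [h2, RelIso.refl_apply] at this
    exact hcl this.symm

end Pool.Agent.MY12
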