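import Pool.Agent.MY12.Star

/-! The star with four edges. -/

namespace Pool.Agent.MY12

open SimpleGraph

theorem edgeDist_congr {W W' : Type*} {H : SimpleGraph W} {H' : SimpleGraph W'} (P : H ≃g H')
    (h : EdgeDist H' 2) : EdgeDist H 2 := by
  rw [edgeDist_two_iff] at h ⊢
  obtain ⟨f, hf, hφ⟩ := h
  refine ⟨fun x y => f (P x) (P y), fun x y => hf _ _, fun φ h => ?_⟩
  have h1 : (P.symm.trans φ).trans P = RelIso.refl _ := by
    apply hφ
    intro x y hxy
    have h2 := h (P.symm x) (P.symm y) (P.symm.map_adj_iff.2 hxy)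
    simpa using h2
  apply RelIso.ext
  intro x
  have h3 := congrArg (fun ψ : H' ≃g H' => P.symm (ψ (P x))) h1
  simpa using h3

/-- a model of the generalized Mycielskian of the star with four edges: the t + 2 hubs (the centres
and the root) and the leaves -/
def S4 (t : ℕ) : SimpleGraph (Fin (t + 2) ⊕ (Fin (t + 1) × Fin 4)) where
  Adj x y :=
    match x, y with
    | Sum.inl h, Sum.inl h' => ((h : ℕ) = t + 1 ∧ (h' : ℕ) = t) ∨ ((h : ℕ) = t ∧ (h' : ℕ) = t + 1)
    | Sum.inl h, Sum.inr (j, _) => (h : ℕ) = j - 1 ∨ (h : ℕ) = j + 1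
    | Sum.inr (j, _), Sum.inl h => (h : ℕ) = j - 1 ∨ (h : ℕ) = j + 1
    | Sum.inr _, Sum.inr _ => False
  symm := ⟨by
    rintro (h | ⟨j, a⟩) (h' | ⟨j', a'⟩) hh
    · exact hh.symm.imp (fun h => ⟨h.2, h.1⟩) (fun h => ⟨h.2, h.1⟩)
    · exact hh
    · exact hh
    · exact hh⟩
  loopless := ⟨by
    rintro (h | ⟨j, a⟩) hh
    · rcases hh with ⟨h1, h2⟩ | ⟨h1, h2⟩ <;> omega
    · exact hh⟩

section

variable {t : ℕ}

theorem S4_ll (h h' : Fin (t + 2)) : (S4 t).Adj (Sum.inl h) (Sum.inl h') ↔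
    ((h : ℕ) = t + 1 ∧ (h' : ℕ) = t) ∨ ((h : ℕ) = t ∧ (h' : ℕ) = t + 1) := Iff.rfl

theorem S4_lr (h : Fin (t + 2)) (j : Fin (t + 1)) (a : Fin 4) :
    (S4 t).Adj (Sum.inl h) (Sum.inr (j, a)) ↔ (h : ℕ) = j - 1 ∨ (h : ℕ) = j + 1 := Iff.rfl

theorem S4_rl (h : Fin (t + 2)) (j : Fin (t + 1)) (a : Fin 4) :
    (S4 t).Adj (Sum.inr (j, a)) (Sum.inl h) ↔ (h : ℕ) = j - 1 ∨ (h : ℕ) = j + 1 := Iff.rfl

theorem S4_rr (p p' : Fin (t + 1) × Fin 4) : ¬ (S4 t).Adj (Sum.inr p) (Sum.inr p') := fun h => h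

/-- reflection of the hubs -/
def rh (t : ℕ) (h : Fin (t + 2)) : Fin (t + 2) :=
  ⟨if ((h : ℕ) + t) % 2 = 1 then (h : ℕ) - 1 else (h : ℕ) + 1, by
    have := h.2
    split_ifs <;> omega⟩

/-- reflection of the levels -/
def rl (t : ℕ) (j : Fin (t + 1)) : Fin (t + 1) :=
  ⟨if ((j : ℕ) + t) % 2 = 0 then (j : ℕ) - 1 else (j : ℕ) + 1, by
    have := j.2
    split_ifs <;> omega⟩

theorem rh_val (h : Fin (t + 2)) :
    (rh t h : ℕ) = if ((h : ℕ) + t) % 2 = 1 then (h : ℕ) - 1 else (h : ℕ) + 1 := rfl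

theorem rl_val (j : Fin (t + 1)) :
    (rl t j : ℕ) = if ((j : ℕ) + t) % 2 = 0 then (j : ℕ) - 1 else (j : ℕ) + 1 := rfl

theorem rh_rh (h : Fin (t + 2)) : rh t (rh t h) = h := by
  ext
  have := h.2
  rw [rh_val, rh_val]
  split_ifs <;> omega

theorem rl_rl (j : Fin (t + 1)) : rl t (rl t j) = j := by
  ext
  have := j.2
  rw [rl_val, rl_val]
  split_ifs <;> omega

/-- the lower hub -/
def hd (t : ℕ) (j : Fin (t + 1)) : Fin (t + 2) := ⟨(j : ℕ) - 1, by have := j.2; omega⟩

/-- the upper hub -/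
def hu (t : ℕ) (j : Fin (t + 1)) : Fin (t + 2) := ⟨(j : ℕ) + 1, by have := j.2; omega⟩

/-- the levels turned over by the reflection -/
def Rev (t : ℕ) (j : Fin (t + 1)) : Prop := (j : ℕ) = 0 ∧ t % 2 = 0

instance (j : Fin (t + 1)) : Decidable (Rev t j) := inferInstanceAs (Decidable (_ ∧ _))

theorem Rev_rl (j : Fin (t + 1)) : Rev t (rl t j) ↔ Rev t j := by
  have := j.2
  unfold Rev
  rw [rl_val]
  constructor
  · rintro ⟨h1, h2⟩
    refine ⟨?_, h2⟩
    split_ifs at h1 <;> omega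
  · rintro ⟨h1, h2⟩
    refine ⟨?_, h2⟩
    split_ifs <;> omega

theorem rh_hd (j : Fin (t + 1)) (h : ¬ Rev t j) : rh t (hd t j) = hd t (rl t j) := by
  ext
  have := j.2
  unfold Rev at h
  unfold hd
  rw [rh_val]
  simp only
  rw [rl_val]
  split_ifs <;> omega

theorem rh_hu (j : Fin (t + 1)) (h : ¬ Rev t j) : rh t (hu t j) = hu t (rl t j) := by
  ext
  have := j.2
  unfold Rev at h
  unfold hu
  rw [rh_val]
  simp only
  rw [rl_val]
  split_ifs <;> omega

theorem rh_hd' (j : Fin (t + 1)) (h : Rev t j) : rh t (hd t j) = hu t (rl t j) := by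
  ext
  have := j.2
  unfold Rev at h
  unfold hu hd
  rw [rh_val]
  simp only
  rw [rl_val]
  split_ifs <;> omega

theorem rh_hu' (j : Fin (t + 1)) (h : Rev t j) : rh t (hu t j) = hd t (rl t j) := by
  ext
  have := j.2
  unfold Rev at h
  unfold hu hd
  rw [rh_val]
  simp only
  rw [rl_val]
  split_ifs <;> omega

theorem S4_nb (h : Fin (t + 2)) (j : Fin (t + 1)) (a : Fin 4) :
    (S4 t).Adj (Sum.inr (j, a)) (Sum.inl h) ↔ h = hd t j ∨ h = hu t j := by
  rw [S4_rl, Fin.ext_iff, Fin.ext_iff]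
  rfl

theorem S4_not (t : ℕ) : ¬ EdgeDist (S4 t) 2 := by
  classical
  rw [edgeDist_two_iff]
  rintro ⟨f, hf, hφ⟩
  let pair : Fin (t + 1) → Fin 4 → Bool × Bool := fun j a =>
    (f (Sum.inr (j, a)) (Sum.inl (hd t j)), f (Sum.inr (j, a)) (Sum.inl (hu t j)))
  have hinjp : ∀ j, Function.Injective (pair j) := by
    intro j a a' haa
    have e1 : f (Sum.inr (j, a)) (Sum.inl (hd t j)) = f (Sum.inr (j, a')) (Sum.inl (hd t j)) :=
      congrArg Prod.fst haa
    have e2 : f (Sum.inr (j, a)) (Sum.inl (hu t j)) = f (Sum.inr (j, a')) (Sum.inl (hu t j)) :=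
      congrArg Prod.snd haa
    have key : (Sum.inr (j, a) : Fin (t + 2) ⊕ (Fin (t + 1) × Fin 4)) = Sum.inr (j, a') := by
      apply eq_of_same (S4 t) f hf hφ
      · rintro (h | p)
        · rw [S4_nb, S4_nb]
        · exact Iff.rfl
      · rintro (h | p) hz
        · rcases (S4_nb h j a).1 hz with rfl | rfl
          · exact e1
          · exact e2
        · exact absurd hz (S4_rr _ _)
    simp only [Sum.inr.injEq, Prod.mk.injEq, true_and] at key
    exact key
  have hbij : ∀ j, Function.Bijective (pair j) := by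
    intro j
    rw [Fintype.bijective_iff_injective_and_card]
    exact ⟨hinjp j, by simp⟩
  let E : Fin (t + 1) → (Fin 4 ≃ Bool × Bool) := fun j => Equiv.ofBijective _ (hbij j)
  have hE : ∀ j a, E j a = pair j a := fun j a => rfl
  let S : Fin (t + 1) → Bool × Bool → Bool × Bool := fun j p => if Rev t j then (p.2, p.1) else p
  have hSS : ∀ j p, S (rl t j) (S j p) = p := by
    intro j p
    simp only [S]
    by_cases h : Rev t j
    · rw [if_pos ((Rev_rl j).2 h), if_pos h]
    · rw [if_neg (fun hh => h ((Rev_rl j).1 hh)), if_neg h]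
  let τ : Fin (t + 1) → Fin 4 → Fin 4 := fun j a => (E (rl t j)).symm (S j (E j a))
  have hτ : ∀ j a, pair (rl t j) (τ j a) = S j (pair j a) := by
    intro j a
    rw [← hE, ← hE]
    exact Equiv.apply_symm_apply _ _
  have hττ : ∀ j a, τ (rl t j) (τ j a) = a := by
    intro j a
    show (E (rl t (rl t j))).symm (S (rl t j) (E (rl t j) (τ j a))) = a
    rw [hE, hτ, hSS, rl_rl, ← hE, Equiv.symm_apply_apply]
  let R : Fin (t + 2) ⊕ (Fin (t + 1) × Fin 4) → Fin (t + 2) ⊕ (Fin (t + 1) × Fin 4) := fun x =>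
    match x with
    | Sum.inl h => Sum.inl (rh t h)
    | Sum.inr (j, a) => Sum.inr (rl t j, τ j a)
  have hRl : ∀ h, R (Sum.inl h) = Sum.inl (rh t h) := fun h => rfl
  have hRr : ∀ j a, R (Sum.inr (j, a)) = Sum.inr (rl t j, τ j a) := fun j a => rfl
  have hRR : Function.Involutive R := by
    rintro (h | ⟨j, a⟩)
    · show Sum.inl (rh t (rh t h)) = _
      rw [rh_rh]
    · show Sum.inr (rl t (rl t j), τ (rl t j) (τ j a)) = _
      rw [hττ, rl_rl]
  -- edges at leaves
  have hnb : ∀ j a h, (S4 t).Adj (Sum.inr (j, a)) (Sum.inl h) →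
      (S4 t).Adj (R (Sum.inr (j, a))) (R (Sum.inl h)) ∧
        f (R (Sum.inr (j, a))) (R (Sum.inl h)) = f (Sum.inr (j, a)) (Sum.inl h) := by
    intro j a h hh
    rw [hRr, hRl]
    have hp := hτ j a
    by_cases hr : Rev t j
    · have hS : S j (pair j a) = ((pair j a).2, (pair j a).1) := if_pos hr
      rw [hS] at hp
      rcases (S4_nb h j a).1 hh with rfl | rfl
      · rw [rh_hd' j hr]
        exact ⟨(S4_nb _ _ _).2 (Or.inr rfl), congrArg Prod.snd hp⟩
      · rw [rh_hu' j hr]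
        exact ⟨(S4_nb _ _ _).2 (Or.inl rfl), congrArg Prod.fst hp⟩
    · have hS : S j (pair j a) = pair j a := if_neg hr
      rw [hS] at hp
      rcases (S4_nb h j a).1 hh with rfl | rfl
      · rw [rh_hd j hr]
        exact ⟨(S4_nb _ _ _).2 (Or.inl rfl), congrArg Prod.fst hp⟩
      · rw [rh_hu j hr]
        exact ⟨(S4_nb _ _ _).2 (Or.inr rfl), congrArg Prod.snd hp⟩
  have hall : ∀ x y, (S4 t).Adj x y → (S4 t).Adj (R x) (R y) ∧ f (R x) (R y) = f x y := by
    rintro (h | ⟨j, a⟩) (h' | ⟨j', a'⟩) hxy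
    · have hv : rh t h = h' ∧ rh t h' = h := by
        rw [Fin.ext_iff, Fin.ext_iff, rh_val, rh_val]
        rw [S4_ll] at hxy
        split_ifs <;> omega
      rw [hRl, hRl, hv.1, hv.2]
      exact ⟨(S4 t).symm.symm _ _ hxy, hf _ _⟩
    · obtain ⟨h1, h2⟩ := hnb j' a' h ((S4 t).symm.symm _ _ hxy)
      refine ⟨(S4 t).symm.symm _ _ h1, ?_⟩
      rw [hf, h2, hf]
    · exact hnb j a h' hxy
    · exact absurd hxy (S4_rr _ _)
  let φ : S4 t ≃g S4 t :=
    { toEquiv := hRR.toPerm
      map_rel_iff' := by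
        intro a b
        constructor
        · intro h
          have h1 : (S4 t).Adj (R (R a)) (R (R b)) := (hall _ _ h).1
          rw [hRR a, hRR b] at h1
          exact h1
        · exact fun h => (hall _ _ h).1 }
  have hid : φ = RelIso.refl _ := hφ φ (fun x y hxy => (hall x y hxy).2)
  have h1 := congrArg (fun ψ : S4 t ≃g S4 t => ψ (Sum.inl (Fin.last (t + 1)))) hid
  have h2 : φ (Sum.inl (Fin.last (t + 1))) = Sum.inl (rh t (Fin.last (t + 1))) := rfl
  simp only [h2, RelIso.refl_apply, Sum.inl.injEq] at h1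
  rw [Fin.ext_iff, rh_val, Fin.val_last] at h1
  split_ifs at h1 <;> omega

end

section

variable {V : Type*} (G : SimpleGraph V) (c : V) (L : Fin 4 → V) (t : ℕ)

open Classical in
/-- the hubs and the leaves in the generalized Mycielskian -/
def hubs (x : Fin (t + 2) ⊕ (Fin (t + 1) × Fin 4)) : Option (V × Fin (t + 1)) :=
  match x with
  | Sum.inl h => if hh : (h : ℕ) < t + 1 then some (c, ⟨h, hh⟩) else none
  | Sum.inr (j, a) => some (L a, j)

theorem hubs_adj (hL : ∀ a, G.Adj c (L a)) (hLL : ∀ a b, ¬ G.Adj (L a) (L b))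
    (x y : Fin (t + 2) ⊕ (Fin (t + 1) × Fin 4)) :
    (mu G t).Adj (hubs c L t x) (hubs c L t y) ↔ (S4 t).Adj x y := by
  have key : ∀ h j a, (mu G t).Adj (hubs c L t (Sum.inr (j, a))) (hubs c L t (Sum.inl h)) ↔
      (S4 t).Adj (Sum.inr (j, a)) (Sum.inl h) := by
    intro h j a
    rw [S4_rl]
    have h1 := h.2
    have h2 := j.2
    unfold hubs
    simp only
    split_ifs with hh
    · have e : (mu G t).Adj (some (L a, j)) (some (c, ⟨(h : ℕ), hh⟩)) ↔
          G.Adj (L a) c ∧ (((j : ℕ) = 0 ∧ (h : ℕ) = 0) ∨ (j : ℕ) + 1 = h ∨ (h : ℕ) + 1 = j) :=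
        Iff.rfl
      rw [e]
      constructor
      · rintro ⟨_, h3⟩
        omega
      · intro h3
        exact ⟨(hL a).symm, by omega⟩
    · have e : (mu G t).Adj (some (L a, j)) none ↔ (j : ℕ) = t := Iff.rfl
      rw [e]
      omega
  rcases x with h | ⟨j, a⟩ <;> rcases y with h' | ⟨j', a'⟩
  · rw [S4_ll]
    have h1 := h.2
    have h2 := h'.2
    unfold hubs
    simp only
    split_ifs with hh hh' hh'
    · have e : (mu G t).Adj (some (c, ⟨(h : ℕ), hh⟩)) (some (c, ⟨(h' : ℕ), hh'⟩)) ↔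
          G.Adj c c ∧ (((h : ℕ) = 0 ∧ (h' : ℕ) = 0) ∨ (h : ℕ) + 1 = h' ∨ (h' : ℕ) + 1 = h) :=
        Iff.rfl
      rw [e]
      constructor
      · intro h3
        exact absurd h3.1 (G.loopless.irrefl c)
      · intro h3
        omega
    · have e : (mu G t).Adj (some (c, ⟨(h : ℕ), hh⟩)) none ↔ (h : ℕ) = t := Iff.rfl
      rw [e]
      omega
    · have e : (mu G t).Adj none (some (c, ⟨(h' : ℕ), hh'⟩)) ↔ (h' : ℕ) = t := Iff.rfl
      rw [e]
      omega
    · constructor
      · intro h3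
        exact absurd h3 (fun h => h)
      · intro h3
        omega
  · rw [SimpleGraph.adj_comm, key, SimpleGraph.adj_comm]
  · exact key h' j a
  · constructor
    · intro h
      exact absurd h.1 (hLL a a')
    · intro h
      exact absurd h (S4_rr _ _)

theorem hubs_bij (hL : ∀ a, G.Adj c (L a)) (hi : Function.Injective L)
    (hV : ∀ v, v = c ∨ ∃ a, v = L a) : Function.Bijective (hubs c L t) := by
  constructor
  · rintro (h | ⟨j, a⟩) (h' | ⟨j', a'⟩) hh
    · have h1 := h.2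
      have h2 := h'.2
      unfold hubs at hh
      simp only at hh
      congr 1
      ext
      split_ifs at hh with e1 e2 e2
      · simpa using hh
      · omega
    · exfalso
      unfold hubs at hh
      simp only at hh
      split_ifs at hh with e1
      simp only [Option.some.injEq, Prod.mk.injEq] at hh
      exact (hL a').ne hh.1
    · exfalso
      unfold hubs at hh
      simp only at hh
      split_ifs at hh with e1
      simp only [Option.some.injEq, Prod.mk.injEq] at hh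
      exact (hL a).ne hh.1.symm
    · have h1 : L a = L a' ∧ j = j' := by
        unfold hubs at hh
        simpa using hh
      rw [hi h1.1, h1.2]
  · rintro (_ | ⟨v, j⟩)
    · refine ⟨Sum.inl (Fin.last (t + 1)), ?_⟩
      unfold hubs
      simp
    · rcases hV v with rfl | ⟨a, rfl⟩
      · refine ⟨Sum.inl ⟨j, by have := j.2; omega⟩, ?_⟩
        unfold hubs
        simp only
        rw [dif_pos j.2]
      · exact ⟨Sum.inr (j, a), rfl⟩

end

theorem star4 {V : Type*} [Fintype V] (G : SimpleGraph V) (hI : NoIso G) (c : V)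
    (hc : ∀ u v, G.Adj u v → u = c ∨ v = c) (hm : (G.neighborSet c).ncard = 4) :
    T G = ∅ := by
  classical
  rw [Set.eq_empty_iff_forall_notMem]
  rintro t ⟨ht, hT⟩
  have hcard : Nat.card (G.neighborSet c) = 4 := by
    rw [Nat.card_coe_set_eq]
    exact hm
  let e := Finite.equivFinOfCardEq hcard
  let L : Fin 4 → V := fun a => (e.symm a : V)
  have hL : ∀ a, G.Adj c (L a) := fun a => (e.symm a).2
  have hi : Function.Injective L := fun a a' haa => e.symm.injective (Subtype.ext haa)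
  have hV : ∀ v, v = c ∨ ∃ a, v = L a := by
    intro v
    by_cases h : v = c
    · exact Or.inl h
    · have hv := (star_adj G hI c hc v).2 h
      exact Or.inr ⟨e ⟨v, hv⟩, by simp [L]⟩
  have hLL : ∀ a b, ¬ G.Adj (L a) (L b) := by
    intro a b h
    exact (hL b).ne (star_leaf G c hc (L a) (hL a).ne' _ h).symm
  let P : S4 t ≃g mu G t :=
    { toEquiv := Equiv.ofBijective _ (hubs_bij G c L t hL hi hV)
      map_rel_iff' := by
        intro a b
        exact hubs_adj G c L t hL hLL a b }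
  exact S4_not t (edgeDist_congr P hT.1)

end Pool.Agent.MY12
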