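import Pool.Agent.MY12.Empty
import Pool.Agent.MY12.CritGen

/-! Nontrivial automorphisms of stars; graphs with trivial automorphism group. -/

namespace Pool.Agent.MY12

open SimpleGraph

theorem exists_aut_star {V : Type*} (G : SimpleGraph V) (hI : NoIso G) (c : V)
    (hc : ∀ u v, G.Adj u v → u = c ∨ v = c) : ∃ σ : G ≃g G, σ ≠ RelIso.refl _ := by
  classical
  obtain ⟨l, hl⟩ := hI c
  have hlc : l ≠ c := hl.ne'
  have hleaf : ∀ v, v ≠ c → G.Adj c v ∧ ∀ w, G.Adj v w → w = c := by
    intro v hv
    have h1 : ∀ w, G.Adj v w → w = c := fun w hw => (hc v w hw).resolve_left hv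
    obtain ⟨w, hw⟩ := hI v
    refine ⟨?_, h1⟩
    rw [h1 w hw] at hw
    exact hw.symm
  by_cases h : ∃ l', l' ≠ c ∧ l' ≠ l
  · obtain ⟨l', hl'c, hl'l⟩ := h
    have htw : ∀ z, G.Adj l z ↔ G.Adj l' z := by
      intro z
      constructor
      · intro hz
        rw [(hleaf l hlc).2 z hz]
        exact (hleaf l' hl'c).1.symm
      · intro hz
        rw [(hleaf l' hl'c).2 z hz]
        exact hl.symm
    refine ⟨swapIso G htw, ?_⟩
    intro hh
    have := congrArg (fun φ : G ≃g G => φ l) hh
    simp only [swapIso_apply, Equiv.swap_apply_left, RelIso.refl_apply] at this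
    exact hl'l this
  · push Not at h
    have hall : ∀ v, v = c ∨ v = l := by
      intro v
      by_cases hv : v = c
      · exact Or.inl hv
      · exact Or.inr (h v hv)
    refine ⟨⟨Equiv.swap c l, ?_⟩, ?_⟩
    · intro a b
      rcases hall a with rfl | rfl <;> rcases hall b with rfl | rfl
      · simp
      · simp only [Equiv.swap_apply_left, Equiv.swap_apply_right]
        exact G.adj_comm _ _
      · simp only [Equiv.swap_apply_left, Equiv.swap_apply_right]
        exact G.adj_comm _ _
      · simp
    · intro hh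
      have : Equiv.swap c l c = c := congrArg (fun φ : G ≃g G => φ c) hh
      rw [Equiv.swap_apply_left] at this
      exact hlc this

theorem T_trivial {V : Type*} [Fintype V] (G : SimpleGraph V) (hI : NoIso G)
    (h : ∀ σ : G ≃g G, σ = RelIso.refl _) : T G = ∅ := by
  ext t
  simp only [Set.mem_empty_iff_false, iff_false]
  intro ht
  rcases isEmpty_or_nonempty V with hV | hV
  · obtain ⟨_, φ, hφ⟩ := (least_iff _).1 ht.2
    apply hφ
    apply RelIso.ext
    intro x
    have hsub : ∀ y : Option (V × Fin (t + 1)), y = none := by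
      rintro (_ | ⟨v, _⟩)
      · rfl
      · exact hV.elim v
    rw [hsub (φ x), hsub x]
    rfl
  · by_cases hC : NoCentre G
    · have hn := card_of_noCentre G hC
      obtain ⟨_, ⟨σ, hσ⟩, _⟩ := (mem_T_gen G hI hC hn t).1 ht
      exact hσ (h σ)
    · unfold NoCentre at hC
      push Not at hC
      obtain ⟨c, hc⟩ := hC
      obtain ⟨σ, hσ⟩ := exists_aut_star G hI c (by
        intro u v huv
        by_cases hu : u = c
        · exact Or.inl hu
        · exact Or.inr (hc u v huv hu))
      exact hσ (h σ)

end Pool.Agent.MY12
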