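import Pool.Agent.MY12.FixW

/-! Automorphisms of the generalized Mycielskian of a twin-free graph come from the graph. -/

namespace Pool.Agent.MY12

open SimpleGraph

section

variable {V : Type*} (G : SimpleGraph V) {t : ℕ}

/-- the automorphism of the generalized Mycielskian induced by an automorphism of G -/
def lift (t : ℕ) (σ : G ≃g G) : mu G t ≃g mu G t where
  toFun x := x.map (fun p => (σ p.1, p.2))
  invFun x := x.map (fun p => (σ.symm p.1, p.2))
  left_inv x := by
    rcases x with _ | ⟨u, i⟩ <;> simp
  right_inv x := by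
    rcases x with _ | ⟨u, i⟩ <;> simp
  map_rel_iff' := by
    rintro (_ | ⟨u, i⟩) (_ | ⟨v, j⟩)
    · exact Iff.rfl
    · exact Iff.rfl
    · exact Iff.rfl
    · exact and_congr_left' σ.map_adj_iff

theorem lift_some (σ : G ≃g G) (u : V) (i : Fin (t + 1)) : lift G t σ (some (u, i)) = some (σ u, i) := rfl

theorem lift_none (σ : G ≃g G) : lift G t σ none = none := rfl

theorem lift_refl_iff (σ : G ≃g G) : lift G t σ = RelIso.refl _ ↔ σ = RelIso.refl _ := by
  constructor
  · intro h
    ext u
    have := congrArg (fun f => f (some (u, (0 : Fin (t + 1))))) h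
    simpa [lift_some] using this
  · rintro rfl
    ext x
    rcases x with _ | ⟨u, i⟩ <;> rfl

/-- levels are preserved by the automorphisms which fix the root -/
theorem level (hI : NoIso G) (j : ℕ) (hj : j ≤ t) :
    ∀ φ : mu G t ≃g mu G t, φ none = none → ∀ u : V, ∀ i : Fin (t + 1), (i : ℕ) + j = t →
      ∃ v, φ (some (u, i)) = some (v, i) := by
  induction j using Nat.strong_induction_on with
  | _ j ih =>
    intro φ hφ u i hij
    rcases Nat.eq_zero_or_pos j with rfl | hj0
    · have h1 : (mu G t).Adj (some (u, i)) none := by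
        have : (i : ℕ) = t := by omega
        exact this
      have h2 := φ.map_adj_iff.2 h1
      rw [hφ] at h2
      rcases h : φ (some (u, i)) with _ | ⟨v, l⟩
      · rw [h] at h2
        exact absurd h2 (fun h => h)
      · rw [h] at h2
        refine ⟨v, ?_⟩
        have h3 : (l : ℕ) = t := h2
        have : l = i := by ext; omega
        rw [this]
    · obtain ⟨y, hy⟩ := hI u
      have hi1 : (i : ℕ) + 1 < t + 1 := by omega
      have h1 : (mu G t).Adj (some (u, i)) (some (y, ⟨(i : ℕ) + 1, hi1⟩)) := ⟨hy, by simp⟩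
      obtain ⟨v, hv⟩ := ih (j - 1) (by omega) (by omega) φ hφ y ⟨(i : ℕ) + 1, hi1⟩ (by simp only; omega)
      have h2 := φ.map_adj_iff.2 h1
      rw [hv] at h2
      have hs : φ.symm none = none := by
        have := congrArg φ.symm hφ
        simpa using this.symm
      rcases h : φ (some (u, i)) with _ | ⟨z, l⟩
      · exfalso
        have := congrArg φ.symm h
        rw [hs] at this
        simp at this
      · rw [h] at h2
        have h3 := h2.2
        simp only at h3
        refine ⟨z, ?_⟩
        have hl := l.2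
        rcases Nat.lt_or_ge (i : ℕ) l with hlt | hge
        · exfalso
          have hl2 : (l : ℕ) = i + 2 := by omega
          obtain ⟨z', hz'⟩ := ih (j - 2) (by omega) (by omega) φ.symm hs z l (by omega)
          have := congrArg φ.symm h
          rw [hz'] at this
          simp only [RelIso.symm_apply_apply, Option.some.injEq, Prod.mk.injEq] at this
          have h4 : i = l := this.2
          rw [h4] at hlt
          omega
        · have : l = i := by ext; omega
          rw [this]

end

section

variable {V : Type*} [Fintype V] (G : SimpleGraph V) {t : ℕ}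

/-- structure of the automorphisms -/
theorem struct (hT : TwinFree G) (hI : NoIso G) (hn : 3 ≤ Fintype.card V) (ht : 1 ≤ t)
    (φ : mu G t ≃g mu G t) : ∃ σ : G ≃g G, φ = lift G t σ := by
  classical
  have hw := fix_w G hT hI hn ht φ
  have hws := fix_w G hT hI hn ht φ.symm
  have hl : ∀ u : V, ∀ i : Fin (t + 1), ∃ v, φ (some (u, i)) = some (v, i) := fun u i =>
    level G hI (t - i) (by omega) φ hw u i (by have := i.2; omega)
  have hls : ∀ u : V, ∀ i : Fin (t + 1), ∃ v, φ.symm (some (u, i)) = some (v, i) := fun u i =>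
    level G hI (t - i) (by omega) φ.symm hws u i (by have := i.2; omega)
  choose s hs using hl
  choose r hr using hls
  have hsr : ∀ u i, s (r u i) i = u := by
    intro u i
    have := hs (r u i) i
    rw [← hr u i] at this
    simp only [RelIso.apply_symm_apply, Option.some.injEq, Prod.mk.injEq, and_true] at this
    exact this.symm
  have hrs : ∀ u i, r (s u i) i = u := by
    intro u i
    have := hr (s u i) i
    rw [← hs u i] at this
    simp only [RelIso.symm_apply_apply, Option.some.injEq, Prod.mk.injEq, and_true] at this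
    exact this.symm
  have hadj0 : ∀ u v, G.Adj (s u 0) (s v 0) ↔ G.Adj u v := by
    intro u v
    have h1 : (mu G t).Adj (some (u, 0)) (some (v, 0)) ↔ G.Adj u v :=
      ⟨fun h => h.1, fun h => ⟨h, Or.inl ⟨rfl, rfl⟩⟩⟩
    have h2 : (mu G t).Adj (some (s u 0, 0)) (some (s v 0, 0)) ↔ G.Adj (s u 0) (s v 0) :=
      ⟨fun h => h.1, fun h => ⟨h, Or.inl ⟨rfl, rfl⟩⟩⟩
    rw [← h1, ← h2, ← hs u 0, ← hs v 0, φ.map_adj_iff]
  have hadj : ∀ u v (i j : Fin (t + 1)), (i : ℕ) + 1 = j → (G.Adj (s u i) (s v j) ↔ G.Adj u v) := by
    intro u v i j hij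
    have h1 : (mu G t).Adj (some (u, i)) (some (v, j)) ↔ G.Adj u v :=
      ⟨fun h => h.1, fun h => ⟨h, Or.inr (Or.inl hij)⟩⟩
    have h2 : (mu G t).Adj (some (s u i, i)) (some (s v j, j)) ↔ G.Adj (s u i) (s v j) :=
      ⟨fun h => h.1, fun h => ⟨h, Or.inr (Or.inl hij)⟩⟩
    rw [← h1, ← h2, ← hs u i, ← hs v j, φ.map_adj_iff]
  have hstep : ∀ n : ℕ, ∀ i : Fin (t + 1), (i : ℕ) = n → ∀ v, s v i = s v 0 := by
    intro n
    induction n using Nat.strong_induction_on with
    | _ n ih =>
      intro i hi v
      rcases n with _ | n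
      · have : i = 0 := by ext; simpa using hi
        rw [this]
      · -- previous level
        have hp : n < t + 1 := by have := i.2; omega
        have hpi : ((⟨n, hp⟩ : Fin (t + 1)) : ℕ) + 1 = i := by simp only; omega
        have e1 : ∀ x, s x ⟨n, hp⟩ = s x 0 := fun x => ih n (by omega) ⟨n, hp⟩ rfl x
        rw [← e1 v]
        apply hT
        intro x
        -- x = s y at the right level
        rcases n with _ | m
        · have h0 : (⟨0, hp⟩ : Fin (t + 1)) = 0 := rfl
          have key : ∀ y, G.Adj (s v i) (s y 0) ↔ G.Adj (s v 0) (s y 0) := by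
            intro y
            rw [G.adj_comm, hadj y v 0 i (by simpa using hpi), hadj0, G.adj_comm]
          have := key (r x 0)
          rw [hsr] at this
          rw [h0]
          exact this
        · have hq : m < t + 1 := by omega
          have hqp : ((⟨m, hq⟩ : Fin (t + 1)) : ℕ) + 1 = (⟨m + 1, hp⟩ : Fin (t + 1)) := rfl
          have e2 : ∀ x, s x ⟨m, hq⟩ = s x 0 := fun x => ih m (by omega) ⟨m, hq⟩ rfl x
          have key : ∀ y, G.Adj (s v i) (s y 0) ↔ G.Adj (s v ⟨m + 1, hp⟩) (s y 0) := by
            intro y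
            have a1 := hadj y v ⟨m + 1, hp⟩ i hpi
            have a2 := hadj y v ⟨m, hq⟩ ⟨m + 1, hp⟩ hqp
            rw [e1] at a1
            rw [e2] at a2
            rw [G.adj_comm, a1, G.adj_comm (s v _), a2]
          have := key (r x 0)
          rw [hsr] at this
          exact this
  refine ⟨⟨⟨fun u => s u 0, fun u => r u 0, fun u => hrs u 0, fun u => hsr u 0⟩, fun {a b} => hadj0 a b⟩, ?_⟩
  ext x
  rcases x with _ | ⟨u, i⟩
  · rw [hw, lift_none]
  · rw [hs, lift_some, hstep i i rfl]
    rfl

end

end Pool.Agent.MY12
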